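import Pool.Agent.U346.KKL

set_option autoImplicit false

namespace Pool.Agent.U346

open MvPolynomial

variable {n : ℕ}

/-- Partial sums of the thresholds. -/
def SS (n : ℕ) (mm : ℕ → ℕ) : ℕ → ℕ
  | 0 => 0
  | k + 1 => SS n mm k + (SS n mm k + n * n + mm k + 1)

/-- The large exponents. -/
def LL (n : ℕ) (mm : ℕ → ℕ) (k : ℕ) : ℕ := SS n mm k + n * n

/-- The thresholds. -/
def BB (n : ℕ) (mm : ℕ → ℕ) (k : ℕ) : ℕ := SS n mm k + n * n + mm k + 1

theorem SS_succ (mm : ℕ → ℕ) (k : ℕ) : SS n mm (k + 1) = SS n mm k + BB n mm k := rfl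

theorem LL_mono (mm : ℕ → ℕ) : Monotone (LL n mm) := by
  apply monotone_nat_of_le_succ
  intro k
  unfold LL
  rw [SS_succ]
  omega

theorem BB_mono (mm : ℕ → ℕ) : StrictMono (BB n mm) := by
  apply strictMono_nat_of_lt_succ
  intro k
  have h := SS_succ (n := n) mm k
  have h1 : BB n mm (k + 1) = SS n mm (k + 1) + n * n + mm (k + 1) + 1 := rfl
  omega

theorem lt_BB (mm : ℕ → ℕ) (k : ℕ) : k < BB n mm k := by
  induction k with
  | zero => unfold BB; omega
  | succ k ih =>
    have : BB n mm k < BB n mm (k + 1) := BB_mono (n := n) mm (Nat.lt_succ_self k)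
    omega

theorem sl_succ (κ : Fin n → ℕ) (k : ℕ) (hk : k < n) : sl (k + 1) κ = sl k κ + κ ⟨k, hk⟩ := by
  classical
  unfold sl
  have h3 : Finset.univ.filter (fun r : Fin n => r.val < k + 1) =
      insert (⟨k, hk⟩ : Fin n) (Finset.univ.filter (fun r : Fin n => r.val < k)) := by
    ext r
    simp only [Finset.mem_filter, Finset.mem_univ, true_and, Finset.mem_insert]
    constructor
    · intro h
      by_cases hr : r.val = k
      · left; exact Fin.ext hr
      · right; omega
    · rintro (h | h)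
      · rw [h]; show k < k + 1; omega
      · omega
  rw [h3, Finset.sum_insert (by simp), add_comm]

theorem sl_BB (mm : ℕ → ℕ) (k : ℕ) (hk : k ≤ n) :
    sl k (fun r : Fin n => BB n mm r.val) = SS n mm k := by
  induction k with
  | zero =>
    unfold sl
    have : Finset.univ.filter (fun r : Fin n => r.val < 0) = ∅ := by
      rw [Finset.filter_eq_empty_iff]
      intro r _
      exact Nat.not_lt_zero _
    rw [this, Finset.sum_empty]
    rfl
  | succ k ih => rw [sl_succ _ k (by omega), ih (by omega), SS_succ]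

theorem coeff_mul_PB {B : ℕ → ℕ} (hB : ∀ k, k < B k) {p : MvPolynomial (Fin n) ℤ}
    (hp : p ∈ Sp (PB B)) (q : MvPolynomial (Fin n) ℤ) :
    coeff (ex fun i : Fin n => B i.val - 1) (q * p) = 0 := by
  classical
  rw [coeff_mul]
  apply Finset.sum_eq_zero
  rintro ⟨a, b⟩ hab
  rw [Finset.HasAntidiagonal.mem_antidiagonal] at hab
  by_cases h : coeff b p = 0
  · rw [h, mul_zero]
  · exfalso
    obtain ⟨i, hi⟩ := hp b h
    have h1 := congrArg (fun m : Fin n →₀ ℕ => m i) hab
    have h2 : a i + b i = B i.val - 1 := h1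
    have h3 := hB i.val
    omega

theorem exists_lt_of_ne_one {σ : Equiv.Perm (Fin n)} (hσ : σ ≠ 1) : ∃ r, σ r < r := by
  by_contra hcon
  push Not at hcon
  apply hσ
  have h1 : ∑ r, (σ r).val = ∑ r : Fin n, r.val := Equiv.sum_comp σ (fun r => r.val)
  have h2 : ∀ r ∈ (Finset.univ : Finset (Fin n)), r.val ≤ (σ r).val := fun r _ => hcon r
  have h3 := (Finset.sum_eq_sum_iff_of_le h2).1 h1.symm
  ext r
  rw [← h3 r (Finset.mem_univ r)]
  rfl

theorem claim1 (mm : ℕ → ℕ) (m : Fin n →₀ ℕ) (hm : ∀ i : Fin n, mm i.val = m i)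
    {D : Equiv.Perm (Fin n) → MvPolynomial (Fin n) ℤ → MvPolynomial (Fin n) ℤ} (h : DH D)
    (F : MvPolynomial (Fin n) ℤ) :
    coeff (ex fun i : Fin n => BB n mm i.val - 1) (vand n * (F *
      D Fin.revPerm (monomial (ex fun i : Fin n => LL n mm (n - 1 - i.val)) 1))) = coeff m F := by
  classical
  have e1 : vand n * (F *
      D Fin.revPerm (monomial (ex fun i : Fin n => LL n mm (n - 1 - i.val)) 1)) =
      F * Alt (monomial (ex fun i : Fin n => LL n mm i.val) 1) := by
    rw [mul_left_comm, h.bialt, rename_rev_ex]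
    congr 4
    ext i
    rw [ex_apply, ex_apply, Fin.val_rev]
    congr 1
    have := i.isLt
    omega
  rw [e1, Alt_apply, Finset.mul_sum, coeff_sum]
  have e2 : ∀ σ ∈ (Finset.univ : Finset (Equiv.Perm (Fin n))),
      coeff (ex fun i : Fin n => BB n mm i.val - 1) (F * (((Equiv.Perm.sign σ : ℤˣ) : ℤ) •
        rename σ (monomial (ex fun i : Fin n => LL n mm i.val) 1))) =
      if σ = 1 then coeff m F else 0 := by
    intro σ _
    rw [rename_monomial, mul_smul_comm, coeff_smul, coeff_mul_monomial', mul_one]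
    by_cases hσ : σ = 1
    · rw [if_pos hσ, hσ, Equiv.Perm.sign_one]
      have e3 : (ex fun i : Fin n => LL n mm i.val).mapDomain (1 : Equiv.Perm (Fin n)) =
          ex fun i : Fin n => LL n mm i.val := Finsupp.mapDomain_id
      rw [e3, if_pos]
      · have e4 : (ex fun i : Fin n => BB n mm i.val - 1) - (ex fun i : Fin n => LL n mm i.val) =
            m := by
          ext i
          rw [Finsupp.tsub_apply, ex_apply, ex_apply, ← hm i]
          unfold BB LL
          omega
        rw [e4]
        simp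
      · intro i
        rw [ex_apply, ex_apply]
        unfold BB LL
        omega
    · rw [if_neg hσ, if_neg, smul_zero]
      intro hle
      obtain ⟨r, hr⟩ := exists_lt_of_ne_one hσ
      have h1 := hle (σ r)
      rw [Finsupp.mapDomain_apply σ.injective, ex_apply, ex_apply] at h1
      have h2 : SS n mm ((σ r).val + 1) ≤ SS n mm r.val := by
        have hmon : Monotone (SS n mm) := by
          apply monotone_nat_of_le_succ
          intro k
          rw [SS_succ]
          omega
        apply hmon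
        rw [Fin.lt_def] at hr
        omega
      rw [SS_succ] at h2
      unfold LL at h1
      have h3 := lt_BB (n := n) mm (σ r).val
      omega
  rw [Finset.sum_congr rfl e2, Finset.sum_ite_eq' Finset.univ (1 : Equiv.Perm (Fin n)),
    if_pos (Finset.mem_univ _)]

theorem main {D : Equiv.Perm (Fin n) → MvPolynomial (Fin n) ℤ → MvPolynomial (Fin n) ℤ}
    (h : DH D)
    (E : Equiv.Perm (Fin n) → Equiv.Perm (Fin n) → MvPolynomial (Fin n) ℤ →
      MvPolynomial (Fin n) ℤ)
    (hE : ∀ (w : Equiv.Perm (Fin n)) (f g : MvPolynomial (Fin n) ℤ),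
        D w (f * g) = ∑ v : Equiv.Perm (Fin n), E w v f * D v g)
    (u v w : Equiv.Perm (Fin n)) (m : Fin n →₀ ℕ) :
    0 ≤ coeff m (E w v (D (u⁻¹ * Fin.revPerm) (∏ i : Fin n, X i ^ (n - 1 - (i : ℕ))))) := by
  classical
  obtain ⟨mm, hmm⟩ : ∃ mm : ℕ → ℕ, ∀ i : Fin n, mm i.val = m i :=
    ⟨fun k => if hk : k < n then m ⟨k, hk⟩ else 0, fun i => by
      show (if hk : i.val < n then m ⟨i.val, hk⟩ else 0) = m i
      rw [dif_pos i.isLt]⟩
  set S := D (u⁻¹ * Fin.revPerm) (∏ i : Fin n, X i ^ (n - 1 - (i : ℕ))) with hS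
  set g := D (v⁻¹ * Fin.revPerm)
    (monomial (ex fun i : Fin n => LL n mm (n - 1 - i.val)) 1) with hg
  set N := BB n mm n with hN
  have hn : n ≤ N := (lt_BB (n := n) mm n).le
  have hmono := BB_mono (n := n) mm
  have hlt := lt_BB (n := n) mm
  have hKS : KK N (rename (Fin.castLE hn) S) := by
    apply h.KK hn
    exact KK_rename_dom hn (fun i => n - 1 - i) (fun i j hij _ => by
      show n - 1 - j ≤ n - 1 - i
      omega)
  have hKg : KK N (rename (Fin.castLE hn) g) := by
    apply h.KK hn
    rw [monomial_ex]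
    exact KK_rename_dom hn (fun i => LL n mm (n - 1 - i)) (fun i j hij _ => by
      apply LL_mono
      show n - 1 - j ≤ n - 1 - i
      omega)
  have hKG : KK N (rename (Fin.castLE hn) (D w (S * g))) := by
    apply h.KK hn
    rw [map_mul]
    exact KK.mul _ _ hKS hKg
  have hpos := Phi_nonneg hn hmono hlt (fun r hr => (hmono hr).le) hKG
  rw [hE, Finset.mul_sum, coeff_sum, Finset.sum_eq_single v] at hpos
  · rw [hg, h.comp_rev v, claim1 mm m hmm h] at hpos
    exact hpos
  · intro v' _ hv'
    rcases h.comp_ne hv' with h1 | ⟨x, hx, h1⟩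
    · rw [hg, h1, mul_zero, mul_zero, coeff_zero]
    · rw [hg, h1, ← mul_assoc]
      apply coeff_mul_PB hlt
      exact h.claim2_top (LL_mono mm) (fun k hk => by
        rw [sl_BB mm k hk.le]
        exact le_rfl) hx
  · intro h1
    exact absurd (Finset.mem_univ _) h1

end Pool.Agent.U346
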