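import Mathlib

set_option autoImplicit false

/-! Two fraction decomposition identities, used for the product formula of shifted tableaux. -/

namespace Pool.Agent.U346.Cde

open Finset

variable {ι : Type*} [DecidableEq ι]

/-- Fraction decomposition of `∏ (x - a l) / (x - b l)`. -/
lemma idJ (S : Finset ι) (a b : ι → ℚ) :
    ∀ (_ : ∀ m ∈ S, ∀ l ∈ S, b m = b l → m = l) (x : ℚ), (∀ m ∈ S, x ≠ b m) →
    ∏ l ∈ S, (x - a l) / (x - b l) =
      1 + ∑ m ∈ S, (b m - a m) / (x - b m) * ∏ l ∈ S.erase m, (b m - a l) / (b m - b l) := by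
  classical
  induction S using Finset.induction_on with
  | empty => intro _ x _; simp
  | insert s S hs ih =>
    intro hb x hx
    have hb' : ∀ m ∈ S, ∀ l ∈ S, b m = b l → m = l := fun m hm l hl =>
      hb m (mem_insert_of_mem hm) l (mem_insert_of_mem hl)
    have hxS : ∀ m ∈ S, x ≠ b m := fun m hm => hx m (mem_insert_of_mem hm)
    have hxs : x ≠ b s := hx s (mem_insert_self _ _)
    have hsS : ∀ m ∈ S, b s ≠ b m := fun m hm h =>
      hs (by rw [hb s (mem_insert_self _ _) m (mem_insert_of_mem hm) h]; exact hm)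
    have h1 := ih hb' x hxS
    have h2 := ih hb' (b s) hsS
    rw [prod_insert hs, sum_insert hs, erase_insert hs]
    have h3 : ∑ m ∈ S, (b m - a m) / (x - b m) *
        ∏ l ∈ (insert s S).erase m, (b m - a l) / (b m - b l)
        = ∑ m ∈ S, (b m - a m) / (x - b m) * ((b m - a s) / (b m - b s)) *
          ∏ l ∈ S.erase m, (b m - a l) / (b m - b l) := by
      refine sum_congr rfl (fun m hm => ?_)
      have hms : m ≠ s := fun h => hs (h ▸ hm)
      rw [erase_insert_of_ne hms.symm, prod_insert (by simp [hs])]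
      ring
    rw [h3]
    have h4 : ∑ m ∈ S, (b m - a m) / (x - b m) * ((b m - a s) / (b m - b s)) *
          ∏ l ∈ S.erase m, (b m - a l) / (b m - b l)
        = ∑ m ∈ S, (b m - a m) / (x - b m) * ∏ l ∈ S.erase m, (b m - a l) / (b m - b l)
          + (b s - a s) / (x - b s) *
            (∑ m ∈ S, (b m - a m) / (x - b m) * ∏ l ∈ S.erase m, (b m - a l) / (b m - b l)
             - ∑ m ∈ S, (b m - a m) / (b s - b m) *
                ∏ l ∈ S.erase m, (b m - a l) / (b m - b l)) := by
      rw [← sum_sub_distrib, mul_sum, ← sum_add_distrib]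
      refine sum_congr rfl (fun m hm => ?_)
      have e1 : x - b m ≠ 0 := sub_ne_zero.mpr (hxS m hm)
      have e2 : x - b s ≠ 0 := sub_ne_zero.mpr hxs
      have e3 : b s - b m ≠ 0 := sub_ne_zero.mpr (hsS m hm)
      have e4 : b m - b s ≠ 0 := sub_ne_zero.mpr (hsS m hm).symm
      generalize ∏ l ∈ S.erase m, (b m - a l) / (b m - b l) = P
      have e5 : (b m - a m) / (x - b m) * ((b m - a s) / (b m - b s))
          = (b m - a m) / (x - b m) + (b s - a s) / (x - b s) *
            ((b m - a m) / (x - b m) - (b m - a m) / (b s - b m)) := by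
        field_simp
        ring
      rw [e5]; ring
    rw [h4]
    have e2 : x - b s ≠ 0 := sub_ne_zero.mpr hxs
    have h5 : (x - a s) / (x - b s) = 1 + (b s - a s) / (x - b s) := by
      field_simp; ring
    rw [h1, h2, h5]; ring

/-- The sum of the residues. -/
lemma idK (S : Finset ι) (a b : ι → ℚ) :
    ∀ (_ : ∀ m ∈ S, ∀ l ∈ S, b m = b l → m = l),
    ∑ m ∈ S, (b m - a m) * ∏ l ∈ S.erase m, (b m - a l) / (b m - b l)
      = ∑ l ∈ S, (b l - a l) := by
  classical
  induction S using Finset.induction_on with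
  | empty => intro _; simp
  | insert s S hs ih =>
    intro hb
    have hb' : ∀ m ∈ S, ∀ l ∈ S, b m = b l → m = l := fun m hm l hl =>
      hb m (mem_insert_of_mem hm) l (mem_insert_of_mem hl)
    have hsS : ∀ m ∈ S, b s ≠ b m := fun m hm h =>
      hs (by rw [hb s (mem_insert_self _ _) m (mem_insert_of_mem hm) h]; exact hm)
    have h1 := ih hb'
    have h2 := idJ S a b hb' (b s) hsS
    rw [sum_insert hs, sum_insert hs, erase_insert hs, ← h1, h2]
    have h3 : ∑ m ∈ S, (b m - a m) *
        ∏ l ∈ (insert s S).erase m, (b m - a l) / (b m - b l)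
        = ∑ m ∈ S, ((b m - a m) * ∏ l ∈ S.erase m, (b m - a l) / (b m - b l)
          - (b s - a s) * ((b m - a m) / (b s - b m) *
            ∏ l ∈ S.erase m, (b m - a l) / (b m - b l))) := by
      refine sum_congr rfl (fun m hm => ?_)
      have hms : m ≠ s := fun h => hs (h ▸ hm)
      rw [erase_insert_of_ne hms.symm, prod_insert (by simp [hs])]
      have e3 : b s - b m ≠ 0 := sub_ne_zero.mpr (hsS m hm)
      have e4 : b m - b s ≠ 0 := sub_ne_zero.mpr (hsS m hm).symm
      generalize ∏ l ∈ S.erase m, (b m - a l) / (b m - b l) = P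
      have : (b m - a s) / (b m - b s) = 1 - (b s - a s) / (b s - b m) := by
        field_simp; ring
      rw [this]
      field_simp
    rw [h3, sum_sub_distrib, ← mul_sum]
    ring

end Pool.Agent.U346.Cde
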