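import Mathlib
import Pool.Agent.U346.CdeA

set_option autoImplicit false

/-! Strict vectors and the product formula for the number of standard shifted tableaux. -/

namespace Pool.Agent.U346.Cde

open Finset

variable {L : ℕ}

/-- Strictly decreasing until zero. -/
def Val (μ : Fin L → ℕ) : Prop := ∀ i j : Fin L, i < j → μ j = 0 ∨ μ j < μ i

def up (μ : Fin L → ℕ) (i : Fin L) : Fin L → ℕ := Function.update μ i (μ i + 1)
def dn (μ : Fin L → ℕ) (i : Fin L) : Fin L → ℕ := Function.update μ i (μ i - 1)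
def sz (μ : Fin L → ℕ) : ℕ := ∑ i, μ i

noncomputable def rho (a b : ℕ) : ℚ := if b = 0 then 1 else ((a : ℚ) - b) / (a + b)

noncomputable def FF (μ : Fin L → ℕ) (i l : Fin L) : ℚ := if i < l then rho (μ i) (μ l) else 1

noncomputable def PP (μ : Fin L → ℕ) : ℚ := ∏ i, ∏ l, FF μ i l

noncomputable def G (μ : Fin L → ℕ) : ℚ :=
  ((sz μ).factorial : ℚ) * (∏ i, (1 / ((μ i).factorial : ℚ))) * PP μ

noncomputable def fac (μ : Fin L → ℕ) (j : Fin L) (x : ℕ) (l : Fin L) : ℚ :=
  (if j < l then rho x (μ l) else 1) * (if l < j then rho (μ l) x else 1)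

lemma FF_self (μ : Fin L → ℕ) (j : Fin L) : FF μ j j = 1 := by simp [FF]

lemma PP_split (μ : Fin L → ℕ) (j : Fin L) :
    PP μ = (∏ i ∈ univ.erase j, ∏ l ∈ univ.erase j, FF μ i l) *
      ∏ l ∈ univ.erase j, (FF μ j l * FF μ l j) := by
  unfold PP
  rw [← mul_prod_erase univ _ (mem_univ j)]
  have h1 : ∀ i, ∏ l, FF μ i l = FF μ i j * ∏ l ∈ univ.erase j, FF μ i l := fun i =>
    (mul_prod_erase univ _ (mem_univ j)).symm
  rw [h1 j, FF_self, one_mul]
  simp_rw [h1]
  rw [prod_mul_distrib, prod_mul_distrib]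
  ring

lemma PP_update (μ : Fin L → ℕ) (j : Fin L) (x : ℕ) :
    PP (Function.update μ j x) = (∏ i ∈ univ.erase j, ∏ l ∈ univ.erase j, FF μ i l) *
      ∏ l ∈ univ.erase j, fac μ j x l := by
  rw [PP_split _ j]
  congr 1
  · refine prod_congr rfl (fun i hi => prod_congr rfl (fun l hl => ?_))
    have hi' := ne_of_mem_erase hi
    have hl' := ne_of_mem_erase hl
    simp [FF, Function.update_of_ne hi', Function.update_of_ne hl']
  · refine prod_congr rfl (fun l hl => ?_)
    have hl' := ne_of_mem_erase hl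
    simp [FF, fac, Function.update_of_ne hl']

lemma rho_of_pos {a b : ℕ} (ha : 0 < a) : rho a b = ((a : ℚ) - b) / (a + b) := by
  unfold rho
  split_ifs with h
  · subst h
    have : (a : ℚ) ≠ 0 := by positivity
    simp [this]
  · rfl

lemma fac_ratio {μ : Fin L → ℕ} (hμ : Val μ) {j : Fin L} (hj : 0 < μ j) (x : ℕ) {l : Fin L}
    (hl : l ≠ j) :
    fac μ j x l = fac μ j (μ j) l * (if 0 < μ l then
      (((x : ℚ) - μ l) * (μ j + μ l)) / ((x + μ l) * (μ j - μ l)) else 1) ∧
    fac μ j (μ j) l ≠ 0 := by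
  rcases lt_or_gt_of_ne hl with h | h
  · -- l < j
    have h1 := hμ l j h
    have h2 : μ j < μ l := by omega
    have h3 : 0 < μ l := by omega
    have h2' : (μ j : ℚ) < μ l := by exact_mod_cast h2
    have h3' : (0 : ℚ) < μ l := by exact_mod_cast h3
    have hj' : (0 : ℚ) < μ j := by exact_mod_cast hj
    have hnlt : ¬ (j < l) := not_lt.mpr h.le
    unfold fac
    rw [if_neg hnlt, if_pos h, if_neg hnlt, if_pos h, if_pos h3, rho_of_pos h3, rho_of_pos h3]
    have hx : (0 : ℚ) ≤ x := by positivity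
    have e1 : (μ l : ℚ) + x ≠ 0 := by positivity
    have e1' : (x : ℚ) + μ l ≠ 0 := by positivity
    have e2 : (μ l : ℚ) + μ j ≠ 0 := by positivity
    have e3 : (μ j : ℚ) - μ l ≠ 0 := by
      intro h; linarith
    have e4 : (μ l : ℚ) - μ j ≠ 0 := by
      intro h; linarith
    constructor
    · field_simp
      ring
    · rw [one_mul]
      exact div_ne_zero e4 e2
  · -- j < l
    have h1 := hμ j l h
    have hj' : (0 : ℚ) < μ j := by exact_mod_cast hj
    have hnlt : ¬ (l < j) := not_lt.mpr h.le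
    unfold fac
    rw [if_neg hnlt, if_pos h, if_neg hnlt, if_pos h]
    by_cases h3 : 0 < μ l
    · have h2 : μ l < μ j := by omega
      have h2' : (μ l : ℚ) < μ j := by exact_mod_cast h2
      have h3' : (0 : ℚ) < μ l := by exact_mod_cast h3
      rw [if_pos h3]
      unfold rho
      rw [if_neg (by omega), if_neg (by omega)]
      have hx : (0 : ℚ) ≤ x := by positivity
      have e1' : (x : ℚ) + μ l ≠ 0 := by positivity
      have e2 : (μ j : ℚ) + μ l ≠ 0 := by positivity
      have e3 : (μ j : ℚ) - μ l ≠ 0 := by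
        intro h; linarith
      constructor
      · field_simp
      · rw [mul_one]
        exact div_ne_zero e3 e2
    · have h4 : μ l = 0 := by omega
      simp [h4, rho]

/-- The effect of changing one part on the product. -/
lemma PP_ratio {μ : Fin L → ℕ} (hμ : Val μ) {j : Fin L} (hj : 0 < μ j) (x : ℕ) :
    PP (Function.update μ j x) = PP μ * ∏ l ∈ (univ.filter (fun l => 0 < μ l)).erase j,
      (((x : ℚ) - μ l) * (μ j + μ l)) / ((x + μ l) * (μ j - μ l)) := by
  have h1 : PP μ = PP (Function.update μ j (μ j)) := by rw [Function.update_eq_self]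
  rw [h1, PP_update, PP_update, mul_assoc]
  congr 1
  have h2 : ∏ l ∈ (univ.filter (fun l => 0 < μ l)).erase j,
      (((x : ℚ) - μ l) * (μ j + μ l)) / ((x + μ l) * (μ j - μ l))
      = ∏ l ∈ univ.erase j, (if 0 < μ l then
      (((x : ℚ) - μ l) * (μ j + μ l)) / ((x + μ l) * (μ j - μ l)) else 1) := by
    rw [← prod_filter]
    refine prod_congr ?_ (fun _ _ => rfl)
    ext l; simp [and_comm]
  rw [h2, ← prod_mul_distrib]
  exact prod_congr rfl (fun l hl => (fac_ratio hμ hj x (ne_of_mem_erase hl)).1)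

lemma fac_ne_zero {μ : Fin L → ℕ} (hμ : Val μ) : PP μ ≠ 0 := by
  unfold PP
  refine prod_ne_zero_iff.mpr (fun i _ => prod_ne_zero_iff.mpr (fun l _ => ?_))
  unfold FF
  split_ifs with h
  · unfold rho
    split_ifs with h2
    · exact one_ne_zero
    · have h3 := hμ i l h
      have h4 : μ l < μ i := by omega
      have h4' : (μ l : ℚ) < μ i := by exact_mod_cast h4
      have h0 : (0 : ℚ) ≤ μ l := by positivity
      refine div_ne_zero (by intro h; linarith) (by intro h; linarith)
  · exact one_ne_zero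

lemma G_ne_zero {μ : Fin L → ℕ} (hμ : Val μ) : G μ ≠ 0 := by
  unfold G
  refine mul_ne_zero (mul_ne_zero (by exact_mod_cast Nat.factorial_ne_zero _) ?_) (fac_ne_zero hμ)
  refine prod_ne_zero_iff.mpr (fun i _ => ?_)
  exact one_div_ne_zero (by exact_mod_cast Nat.factorial_ne_zero _)

lemma sz_up (μ : Fin L → ℕ) (i : Fin L) : sz (up μ i) = sz μ + 1 := by
  unfold sz up
  rw [← add_sum_erase univ _ (mem_univ i), ← add_sum_erase univ (fun l => μ l) (mem_univ i)]
  rw [Function.update_self]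
  have : ∑ x ∈ univ.erase i, Function.update μ i (μ i + 1) x = ∑ x ∈ univ.erase i, μ x :=
    sum_congr rfl (fun x hx => by rw [Function.update_of_ne (ne_of_mem_erase hx)])
  rw [this]; ring

lemma up_dn {μ : Fin L → ℕ} {i : Fin L} (h : 0 < μ i) : up (dn μ i) i = μ := by
  unfold up dn
  simp only [Function.update_self, Function.update_idem]
  rw [Nat.sub_add_cancel h, Function.update_eq_self]

lemma dn_up (μ : Fin L → ℕ) (i : Fin L) : dn (up μ i) i = μ := by
  unfold up dn
  simp

lemma sz_dn {μ : Fin L → ℕ} {i : Fin L} (h : 0 < μ i) : sz (dn μ i) + 1 = sz μ := by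
  rw [← sz_up _ i, up_dn h]

/-- The ratio for lowering a part. -/
lemma G_dn {μ : Fin L → ℕ} (hμ : Val μ) {j : Fin L} (hj : 0 < μ j) :
    G (dn μ j) = G μ * ((μ j : ℚ) / (sz μ : ℚ)) *
      ∏ l ∈ (univ.filter (fun l => 0 < μ l)).erase j,
        ((((μ j : ℚ) ^ 2 - μ j) - ((μ l : ℚ) ^ 2 + μ l)) /
          (((μ j : ℚ) ^ 2 - μ j) - ((μ l : ℚ) ^ 2 - μ l))) := by
  have hs := sz_dn hj
  have hs0 : (sz μ : ℚ) ≠ 0 := by
    have : 0 < sz μ := by omega
    positivity
  unfold G
  rw [show dn μ j = Function.update μ j (μ j - 1) from rfl, PP_ratio hμ hj]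
  have h1 : ((sz (Function.update μ j (μ j - 1))).factorial : ℚ) =
      ((sz μ).factorial : ℚ) / (sz μ : ℚ) := by
    have : sz (Function.update μ j (μ j - 1)) + 1 = sz μ := hs
    rw [← this, Nat.factorial_succ]
    push_cast
    have : ((sz (Function.update μ j (μ j - 1)) : ℚ) + 1) ≠ 0 := by positivity
    field_simp
  have h2 : ∏ i, (1 / ((Function.update μ j (μ j - 1) i).factorial : ℚ)) =
      (μ j : ℚ) * ∏ i, (1 / ((μ i).factorial : ℚ)) := by
    rw [← mul_prod_erase univ _ (mem_univ j),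
      ← mul_prod_erase univ (fun i => (1 / ((μ i).factorial : ℚ))) (mem_univ j)]
    rw [Function.update_self]
    have : ∏ x ∈ univ.erase j, (1 / ((Function.update μ j (μ j - 1) x).factorial : ℚ)) =
        ∏ x ∈ univ.erase j, (1 / ((μ x).factorial : ℚ)) :=
      prod_congr rfl (fun x hx => by rw [Function.update_of_ne (ne_of_mem_erase hx)])
    rw [this, ← mul_assoc]
    congr 1
    obtain ⟨m, hm⟩ : ∃ m, μ j = m + 1 := ⟨μ j - 1, by omega⟩
    rw [hm, Nat.factorial_succ]
    push_cast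
    have : ((m : ℚ) + 1) ≠ 0 := by positivity
    have h3 : ((m.factorial : ℚ)) ≠ 0 := by exact_mod_cast Nat.factorial_ne_zero _
    field_simp
  rw [h1, h2]
  have h3 : ∏ l ∈ (univ.filter (fun l => 0 < μ l)).erase j,
      ((((μ j - 1 : ℕ) : ℚ) - μ l) * (μ j + μ l)) / ((((μ j - 1 : ℕ) : ℚ) + μ l) * (μ j - μ l))
      = ∏ l ∈ (univ.filter (fun l => 0 < μ l)).erase j,
        ((((μ j : ℚ) ^ 2 - μ j) - ((μ l : ℚ) ^ 2 + μ l)) /
          (((μ j : ℚ) ^ 2 - μ j) - ((μ l : ℚ) ^ 2 - μ l))) := by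
    refine prod_congr rfl (fun l _ => ?_)
    rw [Nat.cast_sub hj]
    congr 1 <;> push_cast <;> ring
  rw [h3]
  ring

end Pool.Agent.U346.Cde
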