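import Mathlib
import Pool.Agent.U346.CdeB

set_option autoImplicit false

/-! The recursion for the number of standard shifted tableaux and weighted additions of boxes. -/

namespace Pool.Agent.U346.Cde

open Finset
open scoped Classical

variable {L : ℕ}

/-- The removable rows. -/
noncomputable def Rem (μ : Fin L → ℕ) : Finset (Fin L) :=
  univ.filter (fun i => 0 < μ i ∧ Val (dn μ i))

/-- The addable rows. -/
noncomputable def Add (μ : Fin L → ℕ) : Finset (Fin L) :=
  univ.filter (fun i => Val (up μ i))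

lemma G_dn_of_not {μ : Fin L → ℕ} (hμ : Val μ) {j : Fin L} (hj : 0 < μ j)
    (h : ¬ Val (dn μ j)) : G (dn μ j) = 0 := by
  rw [G_dn hμ hj]
  have : ∃ l, j < l ∧ 0 < μ l ∧ μ j = μ l + 1 := by
    by_contra hc
    push Not at hc
    apply h
    intro i l hil
    have h0 := hμ i l hil
    unfold dn
    by_cases hi : i = j
    · subst hi
      rw [Function.update_self, Function.update_of_ne (ne_of_gt hil)]
      have := hc l hil
      by_cases h1 : μ l = 0
      · left; exact h1
      · have h2 := this (by omega)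
        right; omega
    · rw [Function.update_of_ne hi]
      by_cases hl : l = j
      · subst hl
        rw [Function.update_self]
        right
        omega
      · rw [Function.update_of_ne hl]
        exact h0
  obtain ⟨l, hjl, hl, he⟩ := this
  have : ∏ l ∈ (univ.filter (fun l => 0 < μ l)).erase j,
        ((((μ j : ℚ) ^ 2 - μ j) - ((μ l : ℚ) ^ 2 + μ l)) /
          (((μ j : ℚ) ^ 2 - μ j) - ((μ l : ℚ) ^ 2 - μ l))) = 0 := by
    refine prod_eq_zero (i := l) ?_ ?_
    · simp [hl, hjl.ne']
    · rw [he]; push_cast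
      have : ((μ l : ℚ) + 1) ^ 2 - (μ l + 1) - ((μ l) ^ 2 + μ l) = 0 := by ring
      rw [this, zero_div]
  rw [this, mul_zero]

/-- The product formula satisfies the recursion. -/
lemma G_rec {μ : Fin L → ℕ} (hμ : Val μ) (h0 : 0 < sz μ) :
    G μ = ∑ j ∈ Rem μ, G (dn μ j) := by
  have h1 : ∑ j ∈ Rem μ, G (dn μ j) = ∑ j ∈ univ.filter (fun l => 0 < μ l), G (dn μ j) := by
    refine sum_subset ?_ ?_
    · intro j hj
      simp only [Rem, mem_filter, mem_univ, true_and] at hj ⊢
      exact hj.1
    · intro j hj hj'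
      simp only [Rem, mem_filter, mem_univ, true_and, not_and] at hj hj'
      exact G_dn_of_not hμ hj (hj' hj)
  rw [h1]
  have hinj : ∀ m ∈ univ.filter (fun l => 0 < μ l), ∀ l ∈ univ.filter (fun l => 0 < μ l),
      ((μ m : ℚ) ^ 2 - μ m) = ((μ l : ℚ) ^ 2 - μ l) → m = l := by
    intro m hm l hl he
    simp only [mem_filter, mem_univ, true_and] at hm hl
    by_contra hne
    have h2 : ((μ m : ℚ) - μ l) * ((μ m : ℚ) + μ l - 1) = 0 := by linear_combination he
    rcases lt_or_gt_of_ne hne with h | h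
    · have h3 := hμ m l h
      have h4 : μ l < μ m := by omega
      have h4' : (μ l : ℚ) < μ m := by exact_mod_cast h4
      have h5 : (1 : ℚ) ≤ μ l := by exact_mod_cast hl
      rcases mul_eq_zero.mp h2 with h6 | h6 <;> linarith
    · have h3 := hμ l m h
      have h4 : μ m < μ l := by omega
      have h4' : (μ m : ℚ) < μ l := by exact_mod_cast h4
      have h5 : (1 : ℚ) ≤ μ m := by exact_mod_cast hm
      rcases mul_eq_zero.mp h2 with h6 | h6 <;> linarith
  have hK := idK (univ.filter (fun l => 0 < μ l)) (fun l => (μ l : ℚ) ^ 2 + μ l)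
    (fun l => (μ l : ℚ) ^ 2 - μ l) hinj
  have hsz : ∑ l ∈ univ.filter (fun l => 0 < μ l), (μ l : ℚ) = (sz μ : ℚ) := by
    unfold sz
    push_cast
    rw [sum_filter]
    refine sum_congr rfl (fun l _ => ?_)
    split_ifs with h
    · rfl
    · have : μ l = 0 := by omega
      rw [this]; simp
  have hs0 : (sz μ : ℚ) ≠ 0 := by positivity
  have h2 : ∑ j ∈ univ.filter (fun l => 0 < μ l), G (dn μ j) =
      G μ / (sz μ : ℚ) * (-1 / 2) * ∑ m ∈ univ.filter (fun l => 0 < μ l),
        (((μ m : ℚ) ^ 2 - μ m) - ((μ m : ℚ) ^ 2 + μ m)) *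
        ∏ l ∈ (univ.filter (fun l => 0 < μ l)).erase m,
          ((((μ m : ℚ) ^ 2 - μ m) - ((μ l : ℚ) ^ 2 + μ l)) /
            (((μ m : ℚ) ^ 2 - μ m) - ((μ l : ℚ) ^ 2 - μ l))) := by
    rw [mul_sum]
    refine sum_congr rfl (fun j hj => ?_)
    simp only [mem_filter, mem_univ, true_and] at hj
    rw [G_dn hμ hj]
    ring
  rw [h2, hK]
  have h3 : ∑ l ∈ univ.filter (fun l => 0 < μ l),
      (((μ l : ℚ) ^ 2 - μ l) - ((μ l : ℚ) ^ 2 + μ l)) = (-2) * (sz μ : ℚ) := by
    rw [← hsz, mul_sum]
    exact sum_congr rfl (fun l _ => by ring)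
  rw [h3]
  field_simp
  try ring

lemma Val_sup {μ κ : Fin L → ℕ} (h1 : Val μ) (h2 : Val κ) : Val (fun i => max (μ i) (κ i)) := by
  intro i j hij
  have a1 := h1 i j hij
  have a2 := h2 i j hij
  simp only
  omega

lemma Val_inf {μ κ : Fin L → ℕ} (h1 : Val μ) (h2 : Val κ) : Val (fun i => min (μ i) (κ i)) := by
  intro i j hij
  have a1 := h1 i j hij
  have a2 := h2 i j hij
  simp only
  omega

lemma swap_cond {μ : Fin L → ℕ} (hμ : Val μ) {i j : Fin L} (hij : i ≠ j) :
    (Val (up μ i) ∧ (0 < up μ i j ∧ Val (dn (up μ i) j))) ↔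
    ((0 < μ j ∧ Val (dn μ j)) ∧ Val (up (dn μ j) i)) := by
  have e1 : up μ i j = μ j := by unfold up; rw [Function.update_of_ne hij.symm]
  have e2 : dn (up μ i) j = up (dn μ j) i := by
    unfold dn up
    rw [Function.update_of_ne hij.symm, Function.update_of_ne hij, Function.update_comm hij]
  rw [e1, e2]
  constructor
  · rintro ⟨h1, h2, h3⟩
    refine ⟨⟨h2, ?_⟩, h3⟩
    have := Val_inf hμ h3
    convert this using 1
    funext l
    unfold up dn
    by_cases hl : l = i
    · subst hl; simp [Function.update_of_ne hij]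
    · by_cases hl2 : l = j
      · subst hl2; simp [Function.update_of_ne hij.symm]
      · simp [Function.update_of_ne hl, Function.update_of_ne hl2]
  · rintro ⟨⟨h1, h2⟩, h3⟩
    refine ⟨?_, h1, h3⟩
    have := Val_sup hμ h3
    convert this using 1
    funext l
    unfold up dn
    by_cases hl : l = i
    · subst hl; simp [Function.update_of_ne hij]
    · by_cases hl2 : l = j
      · subst hl2; simp [Function.update_of_ne hij.symm]
      · simp [Function.update_of_ne hl, Function.update_of_ne hl2]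

/-- Weighted sum over the ways to add a box. -/
noncomputable def AH (H : Fin L → ℕ → ℚ) (μ : Fin L → ℕ) : ℚ :=
  ∑ i ∈ Add μ, H i (μ i) * G (up μ i)

lemma AH_rec (H : Fin L → ℕ → ℚ) {μ : Fin L → ℕ} (hμ : Val μ) :
    AH H μ = ∑ j ∈ Rem μ, AH H (dn μ j) +
      (∑ i ∈ Add μ, H i (μ i) - ∑ j ∈ Rem μ, H j (μ j - 1)) * G μ := by
  have hL : AH H μ = ∑ i, ∑ j, (if (Val (up μ i) ∧ (0 < up μ i j ∧ Val (dn (up μ i) j)))
      then H i (μ i) * G (dn (up μ i) j) else 0) := by
    unfold AH Add
    rw [sum_filter]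
    refine sum_congr rfl (fun i _ => ?_)
    by_cases h : Val (up μ i)
    · rw [if_pos h, G_rec h (by rw [sz_up]; omega), mul_sum]
      unfold Rem
      rw [sum_filter]
      refine sum_congr rfl (fun j _ => ?_)
      simp only [h, true_and]
    · rw [if_neg h]
      symm
      refine sum_eq_zero (fun j _ => ?_)
      rw [if_neg (fun hc => h hc.1)]
  have hR : ∑ j ∈ Rem μ, AH H (dn μ j) = ∑ i, ∑ j, (if ((0 < μ j ∧ Val (dn μ j)) ∧
      Val (up (dn μ j) i)) then H i (dn μ j i) * G (up (dn μ j) i) else 0) := by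
    rw [sum_comm]
    unfold Rem
    rw [sum_filter]
    refine sum_congr rfl (fun j _ => ?_)
    by_cases h : (0 < μ j ∧ Val (dn μ j))
    · rw [if_pos h]
      unfold AH Add
      rw [sum_filter]
      refine sum_congr rfl (fun i _ => ?_)
      simp only [h, true_and, and_self]
    · rw [if_neg h]
      symm
      refine sum_eq_zero (fun j _ => ?_)
      rw [if_neg (fun hc => h hc.1)]
  have h1 : ∀ i, ∑ j, (if (Val (up μ i) ∧ (0 < up μ i j ∧ Val (dn (up μ i) j)))
      then H i (μ i) * G (dn (up μ i) j) else 0) =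
      (if Val (up μ i) then H i (μ i) * G μ else 0) +
      ∑ j ∈ univ.erase i, (if (Val (up μ i) ∧ (0 < up μ i j ∧ Val (dn (up μ i) j)))
      then H i (μ i) * G (dn (up μ i) j) else 0) := by
    intro i
    rw [← add_sum_erase univ _ (mem_univ i)]
    congr 1
    rw [dn_up]
    have : 0 < up μ i i := by unfold up; simp
    simp only [this, hμ, and_true]
  have h2 : ∀ i, ∑ j, (if ((0 < μ j ∧ Val (dn μ j)) ∧
      Val (up (dn μ j) i)) then H i (dn μ j i) * G (up (dn μ j) i) else 0) =
      (if (0 < μ i ∧ Val (dn μ i)) then H i (μ i - 1) * G μ else 0) +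
      ∑ j ∈ univ.erase i, (if (Val (up μ i) ∧ (0 < up μ i j ∧ Val (dn (up μ i) j)))
      then H i (μ i) * G (dn (up μ i) j) else 0) := by
    intro i
    rw [← add_sum_erase univ _ (mem_univ i)]
    congr 1
    · by_cases h : (0 < μ i ∧ Val (dn μ i))
      · rw [if_pos ⟨h, by rw [up_dn h.1]; exact hμ⟩, if_pos h, up_dn h.1]
        unfold dn; simp
      · rw [if_neg (fun hc => h hc.1), if_neg h]
    · refine sum_congr rfl (fun j hj => ?_)
      have hij : i ≠ j := (ne_of_mem_erase hj).symm
      have e2 : dn (up μ i) j = up (dn μ j) i := by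
        unfold dn up
        rw [Function.update_of_ne hij.symm, Function.update_of_ne hij, Function.update_comm hij]
      have e3 : dn μ j i = μ i := by unfold dn; rw [Function.update_of_ne hij]
      by_cases h : ((0 < μ j ∧ Val (dn μ j)) ∧ Val (up (dn μ j) i))
      · rw [if_pos h, if_pos ((swap_cond hμ hij).mpr h), e2, e3]
      · rw [if_neg h, if_neg (fun hc => h ((swap_cond hμ hij).mp hc))]
  rw [hL, hR]
  simp_rw [h1, h2]
  rw [sum_add_distrib, sum_add_distrib, sub_mul]
  unfold Add Rem
  rw [sum_mul, sum_mul, sum_filter, sum_filter]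
  ring

end Pool.Agent.U346.Cde
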