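import Mathlib
import Pool.Agent.U346.CdeC

set_option autoImplicit false

/-! The local weight identity and the formula for the marked chains. -/

namespace Pool.Agent.U346.Cde

open Finset
open scoped Classical

/-- The weight of the box added in row `i` to a part equal to `v`. -/
noncomputable def hw (L : ℕ) (i v : ℕ) : ℚ :=
  if v = 0 then (i : ℚ) - L else (v : ℚ) + 2 * i + 1 - 2 * L

noncomputable def tt (L : ℕ) (p : ℕ → ℕ) (m : ℕ) : ℚ :=
  if (m = 0 ∨ p m + 2 ≤ p (m - 1)) then hw L m (p m) else 0

noncomputable def ss (L : ℕ) (p : ℕ → ℕ) (m : ℕ) : ℚ :=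
  if (0 < p m ∧ (p (m + 1) = 0 ∨ p (m + 1) + 2 ≤ p m)) then hw L m (p m - 1) + 2 else 0

lemma claim_aux (L : ℕ) (p : ℕ → ℕ) (hp : ∀ m, p (m + 1) = 0 ∨ p (m + 1) < p m) (m : ℕ) :
    ∑ i ∈ range (m + 1), tt L p i - ∑ i ∈ range m, ss L p i =
      if 0 < p m then hw L m (p m) - m else -(L : ℚ) := by
  induction m with
  | zero =>
    simp only [zero_add, range_one, sum_singleton, range_zero, sum_empty, sub_zero]
    unfold tt
    rw [if_pos (Or.inl rfl)]
    split_ifs with h
    · simp
    · have : p 0 = 0 := by omega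
      rw [this]; unfold hw; simp
  | succ m ih =>
    rw [sum_range_succ (tt L p) (m + 1), sum_range_succ (ss L p) m]
    have e : ∑ i ∈ range (m + 1), tt L p i + tt L p (m + 1) -
        (∑ i ∈ range m, ss L p i + ss L p m) =
        (∑ i ∈ range (m + 1), tt L p i - ∑ i ∈ range m, ss L p i) +
          tt L p (m + 1) - ss L p m := by ring
    rw [e, ih]
    have hpm := hp m
    unfold tt ss
    simp only [Nat.add_sub_cancel, Nat.succ_ne_zero, false_or]
    rcases Nat.eq_zero_or_pos (p m) with h0 | h0
    · have h1 : p (m + 1) = 0 := by omega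
      rw [h0, h1]
      simp
    · rw [if_pos h0]
      rcases Nat.eq_zero_or_pos (p (m + 1)) with h1 | h1
      · rw [h1]
        simp only [true_or, and_true, h0, if_true, lt_irrefl, if_false, zero_add]
        rcases Nat.lt_or_ge (p m) 2 with h2 | h2
        · have h3 : p m = 1 := by omega
          rw [h3]
          unfold hw
          simp
          ring
        · rw [if_pos h2]
          unfold hw
          have h3 : p m - 1 ≠ 0 := by omega
          have h4 : p m ≠ 0 := by omega
          rw [if_neg h4, if_pos rfl, if_neg h3]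
          rw [Nat.cast_sub (by omega)]
          push_cast
          ring
      · have h2 : p (m + 1) < p m := by omega
        rw [if_pos h1]
        rcases Nat.lt_or_ge (p m) (p (m + 1) + 2) with h3 | h3
        · have h4 : p m = p (m + 1) + 1 := by omega
          rw [if_neg (by omega), if_neg (by omega)]
          unfold hw
          rw [if_neg (by omega), if_neg (by omega), h4]
          push_cast
          ring
        · rw [if_pos h3, if_pos ⟨h0, Or.inr h3⟩]
          unfold hw
          rw [if_neg (by omega), if_neg (by omega), if_neg (by omega)]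
          rw [Nat.cast_sub (by omega)]
          push_cast
          ring

lemma claim_total (L : ℕ) (p : ℕ → ℕ) (hp : ∀ m, p (m + 1) = 0 ∨ p (m + 1) < p m)
    (hL : p L = 0) :
    ∑ i ∈ range L, tt L p i - ∑ i ∈ range L, ss L p i + (L : ℚ) = 0 := by
  cases L with
  | zero => simp
  | succ m =>
    have h := claim_aux (m + 1) p hp m
    rw [sum_range_succ _ m] at h
    rw [sum_range_succ (tt (m + 1) p) m, sum_range_succ (ss (m + 1) p) m]
    have e : ∑ i ∈ range m, tt (m + 1) p i + tt (m + 1) p m -
        (∑ i ∈ range m, ss (m + 1) p i + ss (m + 1) p m) + ((m + 1 : ℕ) : ℚ) =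
        (∑ i ∈ range m, tt (m + 1) p i + tt (m + 1) p m - ∑ i ∈ range m, ss (m + 1) p i)
         - ss (m + 1) p m + ((m + 1 : ℕ) : ℚ) := by ring
    rw [e, h]
    unfold ss
    rw [hL]
    rcases Nat.eq_zero_or_pos (p m) with h0 | h0
    · rw [h0]; simp
    · simp only [true_or, and_true, h0, if_true]
      rcases Nat.lt_or_ge (p m) 2 with h2 | h2
      · have h3 : p m = 1 := by omega
        rw [h3]
        unfold hw
        simp
        ring
      · unfold hw
        rw [if_neg (by omega), if_neg (by omega)]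
        rw [Nat.cast_sub (by omega)]
        push_cast
        ring

variable {L : ℕ}

noncomputable def ext (μ : Fin L → ℕ) (i : ℕ) : ℕ := if h : i < L then μ ⟨i, h⟩ else 0

lemma ext_fin (μ : Fin L → ℕ) (i : Fin L) : ext μ (i : ℕ) = μ i := by
  unfold ext; rw [dif_pos i.2]

lemma ext_step {μ : Fin L → ℕ} (hμ : Val μ) (m : ℕ) :
    ext μ (m + 1) = 0 ∨ ext μ (m + 1) < ext μ m := by
  unfold ext
  by_cases h : m + 1 < L
  · rw [dif_pos h, dif_pos (by omega)]
    exact hμ _ _ (by simp [Fin.lt_def])
  · rw [dif_neg h]; left; rfl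

lemma Val_up_iff {μ : Fin L → ℕ} (hμ : Val μ) (i : Fin L) :
    Val (up μ i) ↔ ((i : ℕ) = 0 ∨ ext μ i + 2 ≤ ext μ ((i : ℕ) - 1)) := by
  constructor
  · intro h
    by_cases h0 : (i : ℕ) = 0
    · left; exact h0
    · right
      have hl : (i : ℕ) - 1 < L := by omega
      have h1 := h ⟨(i : ℕ) - 1, hl⟩ i (by simp [Fin.lt_def]; omega)
      unfold up at h1
      rw [Function.update_self, Function.update_of_ne (by
        intro he; have := congrArg Fin.val he; simp at this; omega)] at h1
      rw [ext_fin]
      unfold ext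
      rw [dif_pos hl]
      omega
  · intro h a b hab
    unfold up
    have hab' := hμ a b hab
    by_cases hb : b = i
    · subst hb
      rw [Function.update_self, Function.update_of_ne (ne_of_lt hab)]
      right
      have hb0 : (b : ℕ) ≠ 0 := by
        have := Fin.lt_def.mp hab; omega
      have h2 := h.resolve_left hb0
      rw [ext_fin] at h2
      have hl : (b : ℕ) - 1 < L := by omega
      unfold ext at h2
      rw [dif_pos hl] at h2
      by_cases h3 : a = ⟨(b : ℕ) - 1, hl⟩
      · rw [h3]; omega
      · have h4 : a < ⟨(b : ℕ) - 1, hl⟩ := by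
          rw [Fin.lt_def]
          have h5 := Fin.lt_def.mp hab
          have h6 : (a : ℕ) ≠ (b : ℕ) - 1 := fun he => h3 (Fin.ext he)
          simp only
          omega
        have h7 := hμ a _ h4
        omega
    · rw [Function.update_of_ne hb]
      by_cases ha : a = i
      · subst ha
        rw [Function.update_self]
        omega
      · rw [Function.update_of_ne ha]
        exact hab'

lemma Val_dn_iff {μ : Fin L → ℕ} (hμ : Val μ) (i : Fin L) :
    (0 < μ i ∧ Val (dn μ i)) ↔ (0 < ext μ i ∧ (ext μ ((i : ℕ) + 1) = 0 ∨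
      ext μ ((i : ℕ) + 1) + 2 ≤ ext μ i)) := by
  rw [ext_fin]
  constructor
  · rintro ⟨h0, h⟩
    refine ⟨h0, ?_⟩
    by_cases hl : (i : ℕ) + 1 < L
    · have h1 := h i ⟨(i : ℕ) + 1, hl⟩ (by simp [Fin.lt_def])
      unfold dn at h1
      rw [Function.update_self, Function.update_of_ne (by
        intro he; have := congrArg Fin.val he; simp at this)] at h1
      unfold ext
      rw [dif_pos hl]
      omega
    · left; unfold ext; rw [dif_neg hl]
  · rintro ⟨h0, h⟩
    refine ⟨h0, ?_⟩
    intro a b hab
    unfold dn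
    have hab' := hμ a b hab
    by_cases ha : a = i
    · subst ha
      rw [Function.update_self, Function.update_of_ne (ne_of_gt hab)]
      have hl : (a : ℕ) + 1 < L := by
        have := Fin.lt_def.mp hab; omega
      unfold ext at h
      rw [dif_pos hl] at h
      by_cases h3 : b = ⟨(a : ℕ) + 1, hl⟩
      · rw [h3]; omega
      · have h4 : (⟨(a : ℕ) + 1, hl⟩ : Fin L) < b := by
          rw [Fin.lt_def]
          have h5 := Fin.lt_def.mp hab
          have h6 : (b : ℕ) ≠ (a : ℕ) + 1 := fun he => h3 (Fin.ext he)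
          simp only
          omega
        have h7 := hμ _ b h4
        omega
    · rw [Function.update_of_ne ha]
      by_cases hb : b = i
      · subst hb
        rw [Function.update_self]
        omega
      · rw [Function.update_of_ne hb]
        exact hab'

lemma loc {μ : Fin L → ℕ} (hμ : Val μ) :
    ∑ i ∈ Add μ, hw L i (μ i) - ∑ j ∈ Rem μ, hw L j (μ j - 1) + (L : ℚ)
      = 2 * ((Rem μ).card : ℚ) := by
  have h := claim_total L (ext μ) (ext_step hμ) (by unfold ext; simp)
  rw [← Fin.sum_univ_eq_sum_range (fun i => tt L (ext μ) i),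
    ← Fin.sum_univ_eq_sum_range (fun i => ss L (ext μ) i)] at h
  have h1 : ∑ i ∈ Add μ, hw L i (μ i) = ∑ i : Fin L, tt L (ext μ) i := by
    unfold Add
    rw [sum_filter]
    refine sum_congr rfl (fun i _ => ?_)
    unfold tt
    rw [← ext_fin μ i]
    simp only [Val_up_iff hμ]
  have h2 : ∑ j ∈ Rem μ, hw L j (μ j - 1) + 2 * ((Rem μ).card : ℚ)
      = ∑ i : Fin L, ss L (ext μ) i := by
    have : 2 * ((Rem μ).card : ℚ) = ∑ j ∈ Rem μ, (2 : ℚ) := by
      rw [sum_const, nsmul_eq_mul]; ring
    rw [this, ← sum_add_distrib]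
    unfold Rem
    rw [sum_filter]
    refine sum_congr rfl (fun i _ => ?_)
    unfold ss
    rw [← ext_fin μ i]
    have := Val_dn_iff hμ i
    rw [← ext_fin μ i] at this
    simp only [this]
  linarith

/-- Twice the number of chains with a marked element and a marked removable box. -/
noncomputable def BB (μ : Fin L → ℕ) : ℚ :=
  (1 / 2) * ((L : ℚ) * ((sz μ : ℚ) + 1) * G μ + AH (fun i v => hw L i v) μ)

lemma BB_rec {μ : Fin L → ℕ} (hμ : Val μ) (h0 : 0 < sz μ) :
    BB μ = ((Rem μ).card : ℚ) * G μ + ∑ j ∈ Rem μ, BB (dn μ j) := by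
  unfold BB
  rw [AH_rec _ hμ, ← mul_sum, sum_add_distrib]
  have h1 : ∑ j ∈ Rem μ, (L : ℚ) * ((sz (dn μ j) : ℚ) + 1) * G (dn μ j) =
      (L : ℚ) * (sz μ : ℚ) * G μ := by
    rw [G_rec hμ h0, mul_sum]
    refine sum_congr rfl (fun j hj => ?_)
    have hj' : 0 < μ j := by
      unfold Rem at hj
      simp only [mem_filter] at hj
      exact hj.2.1
    have := sz_dn hj'
    rw [← this]
    push_cast
    ring
  rw [h1]
  have h2 := loc hμ
  have h3 : (∑ i ∈ Add μ, hw L i (μ i) - ∑ j ∈ Rem μ, hw L j (μ j - 1)) =
      2 * ((Rem μ).card : ℚ) - L := by linarith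
  simp only [h3]
  ring

end Pool.Agent.U346.Cde
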