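import Mathlib
import Pool.Agent.U346.CdeD

set_option autoImplicit false

/-! Words describing maximal chains. -/

namespace Pool.Agent.U346.Cde

open Finset
open scoped Classical

variable {L : ℕ}

noncomputable def SS {N : ℕ} (w : Fin N → Fin L) (j : ℕ) (i : Fin L) : ℕ :=
  (univ.filter (fun t : Fin N => (t : ℕ) < j ∧ w t = i)).card

noncomputable def WW (N : ℕ) (μ : Fin L → ℕ) : Finset (Fin N → Fin L) :=
  univ.filter (fun w => (∀ j : ℕ, j ≤ N → Val (SS w j)) ∧ SS w N = μ)

lemma SS_zero {N : ℕ} (w : Fin N → Fin L) : SS w 0 = 0 := by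
  funext i; unfold SS; simp

lemma SS_snoc {N : ℕ} (w : Fin N → Fin L) (i : Fin L) {j : ℕ} (hj : j ≤ N) :
    SS (Fin.snoc (α := fun _ => Fin L) w i : Fin (N + 1) → Fin L) j = SS w j := by
  funext l
  unfold SS
  rw [card_filter, card_filter, Fin.sum_univ_castSucc]
  simp only [Fin.snoc_castSucc, Fin.snoc_last, Fin.val_castSucc, Fin.val_last]
  rw [if_neg (by rintro ⟨h, _⟩; omega), add_zero]

lemma SS_snoc_last {N : ℕ} (w : Fin N → Fin L) (i : Fin L) :
    SS (Fin.snoc (α := fun _ => Fin L) w i : Fin (N + 1) → Fin L) (N + 1) = up (SS w N) i := by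
  funext l
  unfold up
  unfold SS
  rw [card_filter, Fin.sum_univ_castSucc]
  simp only [Fin.snoc_castSucc, Fin.snoc_last, Fin.val_castSucc, Fin.val_last]
  have h1 : ∑ x : Fin N, (if ((x : ℕ) < N + 1 ∧ w x = l) then 1 else 0) =
      (univ.filter (fun t : Fin N => (t : ℕ) < N ∧ w t = l)).card := by
    rw [card_filter]
    refine sum_congr rfl (fun x _ => ?_)
    have := x.2
    simp [this, Nat.lt_succ_of_lt this]
  rw [h1]
  by_cases h : l = i
  · subst h
    simp [Function.update_self]
  · rw [Function.update_of_ne h]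
    rw [if_neg (by rintro ⟨_, h2⟩; exact h h2.symm), add_zero]

lemma mem_WW_snoc {N : ℕ} {μ : Fin L → ℕ} (hμ : Val μ) (w : Fin N → Fin L) (i : Fin L) :
    (Fin.snoc (α := fun _ => Fin L) w i : Fin (N + 1) → Fin L) ∈ WW (N + 1) μ ↔
      (0 < μ i ∧ w ∈ WW N (dn μ i)) := by
  unfold WW
  simp only [mem_filter, mem_univ, true_and]
  constructor
  · rintro ⟨h1, h2⟩
    rw [SS_snoc_last] at h2
    subst h2
    refine ⟨by unfold up; simp, ?_, by rw [dn_up]⟩
    intro j hj
    rw [← SS_snoc w i hj]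
    exact h1 j (by omega)
  · rintro ⟨h0, h1, h2⟩
    have h3 : SS (Fin.snoc (α := fun _ => Fin L) w i : Fin (N + 1) → Fin L) (N + 1) = μ := by
      rw [SS_snoc_last, h2, up_dn h0]
    refine ⟨?_, h3⟩
    intro j hj
    rcases Nat.lt_or_ge N j with h | h
    · have : j = N + 1 := by omega
      subst this
      rw [h3]; exact hμ
    · rw [SS_snoc w i h]
      exact h1 j h

lemma sum_WW_succ {N : ℕ} {μ : Fin L → ℕ} (hμ : Val μ) (f : (Fin (N + 1) → Fin L) → ℚ) :
    ∑ w ∈ WW (N + 1) μ, f w =
      ∑ i ∈ Rem μ, ∑ w ∈ WW N (dn μ i), f (Fin.snoc (α := fun _ => Fin L) w i) := by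
  have h1 : ∑ w ∈ WW (N + 1) μ, f w = ∑ w, (if w ∈ WW (N + 1) μ then f w else 0) := by
    rw [sum_ite_mem, univ_inter]
  rw [h1, ← (Fin.snocEquiv (fun _ : Fin (N + 1) => Fin L)).sum_comp, Fintype.sum_prod_type]
  have h2 : ∑ i ∈ Rem μ, ∑ w ∈ WW N (dn μ i), f (Fin.snoc (α := fun _ => Fin L) w i) =
      ∑ i, (if 0 < μ i then ∑ w ∈ WW N (dn μ i), f (Fin.snoc (α := fun _ => Fin L) w i)
        else 0) := by
    unfold Rem
    rw [sum_filter]
    refine sum_congr rfl (fun i _ => ?_)
    by_cases h : 0 < μ i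
    · rw [if_pos h]
      by_cases h3 : Val (dn μ i)
      · rw [if_pos ⟨h, h3⟩]
      · rw [if_neg (fun hc => h3 hc.2)]
        have : WW N (dn μ i) = ∅ := by
          unfold WW
          rw [filter_eq_empty_iff]
          rintro w - ⟨h4, h5⟩
          exact h3 (h5 ▸ h4 N le_rfl)
        rw [this]; simp
    · rw [if_neg h, if_neg (fun hc => h hc.1)]
  rw [h2]
  refine sum_congr rfl (fun i _ => ?_)
  by_cases h : 0 < μ i
  · rw [if_pos h, ← univ_inter (WW N (dn μ i)), ← sum_ite_mem]
    refine sum_congr rfl (fun w _ => ?_)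
    have e : (Fin.snocEquiv (fun _ : Fin (N + 1) => Fin L)) (i, w) =
        (Fin.snoc (α := fun _ => Fin L) w i : Fin (N + 1) → Fin L) := rfl
    rw [e]
    by_cases hw : w ∈ WW N (dn μ i)
    · rw [if_pos hw, if_pos ((mem_WW_snoc hμ w i).mpr ⟨h, hw⟩)]
    · rw [if_neg hw, if_neg (fun hc => hw ((mem_WW_snoc hμ w i).mp hc).2)]
  · rw [if_neg h]
    refine sum_eq_zero (fun w _ => ?_)
    have e : (Fin.snocEquiv (fun _ : Fin (N + 1) => Fin L)) (i, w) =
        (Fin.snoc (α := fun _ => Fin L) w i : Fin (N + 1) → Fin L) := rfl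
    rw [e, if_neg (fun hc => h ((mem_WW_snoc hμ w i).mp hc).1)]

lemma G_zero : G (0 : Fin L → ℕ) = 1 := by
  unfold G PP FF rho sz
  simp

lemma Val_zero : Val (0 : Fin L → ℕ) := fun _ _ _ => Or.inl rfl

lemma BB_zero : BB (0 : Fin L → ℕ) = 0 := by
  unfold BB
  rw [G_zero]
  have h0 : sz (0 : Fin L → ℕ) = 0 := by unfold sz; simp
  rw [h0]
  unfold AH
  cases L with
  | zero => rw [Finset.sum_eq_zero (fun x _ => x.elim0)]; simp
  | succ m =>
    have h1 : Add (0 : Fin (m + 1) → ℕ) = {0} := by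
      unfold Add
      ext i
      simp only [mem_filter, mem_univ, true_and, mem_singleton]
      rw [Val_up_iff Val_zero]
      have : ∀ l, ext (0 : Fin (m + 1) → ℕ) l = 0 := by
        intro l; unfold ext; simp
      rw [this, this]
      constructor
      · rintro (h | h)
        · exact Fin.ext h
        · omega
      · rintro h; left; rw [h]; rfl
    rw [h1, sum_singleton]
    have h2 : G (up (0 : Fin (m + 1) → ℕ) 0) = 1 := by
      unfold G
      rw [sz_up, h0]
      have h3 : PP (up (0 : Fin (m + 1) → ℕ) 0) = 1 := by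
        unfold PP
        refine prod_eq_one (fun i _ => prod_eq_one (fun l _ => ?_))
        unfold FF
        split_ifs with h
        · have hl : l ≠ 0 := by
            rintro rfl
            exact absurd h (Fin.not_lt_zero i)
          have : up (0 : Fin (m + 1) → ℕ) 0 l = 0 := by
            unfold up; rw [Function.update_of_ne hl]; rfl
          rw [this]; unfold rho; simp
        · rfl
      rw [h3]
      have h4 : ∏ i, (1 / ((up (0 : Fin (m + 1) → ℕ) 0 i).factorial : ℚ)) = 1 := by
        refine prod_eq_one (fun i _ => ?_)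
        unfold up
        by_cases hi : i = 0
        · subst hi; simp
        · rw [Function.update_of_ne hi]; simp
      rw [h4]; simp
    rw [h2]
    unfold hw
    simp

lemma sz_pos_of_ne {μ : Fin L → ℕ} (h : sz μ = 0) : μ = 0 := by
  funext i
  unfold sz at h
  exact (sum_eq_zero_iff.mp h) i (mem_univ i)

/-- The number of words, and the total number of removable boxes along all words. -/
theorem words (N : ℕ) : ∀ μ : Fin L → ℕ, Val μ → sz μ = N →
    ((WW N μ).card : ℚ) = G μ ∧
    ∑ w ∈ WW N μ, ∑ j ∈ range (N + 1), ((Rem (SS w j)).card : ℚ) = BB μ := by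
  induction N with
  | zero =>
    intro μ hμ h0
    have hμ0 := sz_pos_of_ne h0
    subst hμ0
    have h1 : WW 0 (0 : Fin L → ℕ) = univ := by
      unfold WW
      rw [filter_eq_self]
      rintro w -
      refine ⟨?_, SS_zero w⟩
      intro j hj
      have : j = 0 := by omega
      subst this
      rw [SS_zero]; exact Val_zero
    rw [h1]
    refine ⟨by rw [G_zero]; simp, ?_⟩
    rw [BB_zero]
    refine sum_eq_zero (fun w _ => ?_)
    rw [zero_add, range_one, sum_singleton, SS_zero]
    have : Rem (0 : Fin L → ℕ) = ∅ := by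
      unfold Rem
      rw [filter_eq_empty_iff]
      rintro i - ⟨h, _⟩
      simp at h
    rw [this]; simp
  | succ N ih =>
    intro μ hμ hN
    have hpos : 0 < sz μ := by omega
    have key : ∀ i ∈ Rem μ, ((WW N (dn μ i)).card : ℚ) = G (dn μ i) ∧
        ∑ w ∈ WW N (dn μ i), ∑ j ∈ range (N + 1), ((Rem (SS w j)).card : ℚ) = BB (dn μ i) := by
      intro i hi
      unfold Rem at hi
      simp only [mem_filter, mem_univ, true_and] at hi
      refine ih _ hi.2 ?_
      have := sz_dn hi.1
      omega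
    have hc : ((WW (N + 1) μ).card : ℚ) = G μ := by
      rw [card_eq_sum_ones, Nat.cast_sum]
      have := sum_WW_succ hμ (N := N) (fun _ => (1 : ℚ))
      simp only [Nat.cast_one]
      rw [this, G_rec hμ hpos]
      refine sum_congr rfl (fun i hi => ?_)
      rw [sum_const, nsmul_eq_mul, mul_one]
      exact (key i hi).1
    refine ⟨hc, ?_⟩
    have h1 : ∑ w ∈ WW (N + 1) μ, ∑ j ∈ range (N + 1 + 1), ((Rem (SS w j)).card : ℚ) =
        ∑ w ∈ WW (N + 1) μ, ∑ j ∈ range (N + 1), ((Rem (SS w j)).card : ℚ) +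
          ((WW (N + 1) μ).card : ℚ) * ((Rem μ).card : ℚ) := by
      simp_rw [sum_range_succ _ (N + 1)]
      rw [sum_add_distrib]
      congr 1
      rw [← nsmul_eq_mul, ← sum_const]
      refine sum_congr rfl (fun w hw => ?_)
      unfold WW at hw
      simp only [mem_filter] at hw
      rw [hw.2.2]
    rw [h1, hc, BB_rec hμ hpos, sum_WW_succ hμ]
    rw [add_comm, mul_comm]
    congr 1
    refine sum_congr rfl (fun i hi => ?_)
    rw [← (key i hi).2]
    refine sum_congr rfl (fun w _ => sum_congr rfl (fun j hj => ?_))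
    rw [SS_snoc w i (by have := mem_range.mp hj; omega)]

end Pool.Agent.U346.Cde
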