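import Mathlib
import Pool.Agent.U346.CdeE

set_option autoImplicit false

/-! Evaluation at the trapezoid. -/

namespace Pool.Agent.U346.Cde

open Finset
open scoped Classical

variable {L : ℕ}

/-- The ratio for raising a part. -/
lemma G_up {μ : Fin L → ℕ} (hμ : Val μ) {j : Fin L} (hj : 0 < μ j) :
    G (up μ j) = G μ * (((sz μ : ℚ) + 1) / ((μ j : ℚ) + 1)) *
      ∏ l ∈ (univ.filter (fun l => 0 < μ l)).erase j,
        ((((μ j : ℚ) ^ 2 + μ j) - ((μ l : ℚ) ^ 2 - μ l)) /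
          (((μ j : ℚ) ^ 2 + μ j) - ((μ l : ℚ) ^ 2 + μ l))) := by
  unfold G
  rw [sz_up, show up μ j = Function.update μ j (μ j + 1) from rfl, PP_ratio hμ hj]
  have h2 : ∏ i, (1 / ((Function.update μ j (μ j + 1) i).factorial : ℚ)) =
      (1 / ((μ j : ℚ) + 1)) * ∏ i, (1 / ((μ i).factorial : ℚ)) := by
    rw [← mul_prod_erase univ _ (mem_univ j),
      ← mul_prod_erase univ (fun i => (1 / ((μ i).factorial : ℚ))) (mem_univ j)]
    rw [Function.update_self]
    have : ∏ x ∈ univ.erase j, (1 / ((Function.update μ j (μ j + 1) x).factorial : ℚ)) =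
        ∏ x ∈ univ.erase j, (1 / ((μ x).factorial : ℚ)) :=
      prod_congr rfl (fun x hx => by rw [Function.update_of_ne (ne_of_mem_erase hx)])
    rw [this, ← mul_assoc]
    congr 1
    rw [Nat.factorial_succ]
    push_cast
    have : ((μ j : ℚ) + 1) ≠ 0 := by positivity
    have h3 : (((μ j).factorial : ℚ)) ≠ 0 := by exact_mod_cast Nat.factorial_ne_zero _
    field_simp
  rw [h2, Nat.factorial_succ]
  have h3 : ∏ l ∈ (univ.filter (fun l => 0 < μ l)).erase j,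
      ((((μ j + 1 : ℕ) : ℚ) - μ l) * (μ j + μ l)) / ((((μ j + 1 : ℕ) : ℚ) + μ l) * (μ j - μ l))
      = ∏ l ∈ (univ.filter (fun l => 0 < μ l)).erase j,
        ((((μ j : ℚ) ^ 2 + μ j) - ((μ l : ℚ) ^ 2 - μ l)) /
          (((μ j : ℚ) ^ 2 + μ j) - ((μ l : ℚ) ^ 2 + μ l))) := by
    refine prod_congr rfl (fun l _ => ?_)
    congr 1 <;> push_cast <;> ring
  rw [h3]
  push_cast
  ring

/-- The total for raising a part, when all parts are positive. -/
lemma sum_up {μ : Fin L → ℕ} (hμ : Val μ) (hpos : ∀ i, 0 < μ i) :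
    ∑ i, G (up μ i) = G μ * ((sz μ : ℚ) + 1) *
      (1 / 2) * (1 - ∏ l, (((μ l : ℚ) - 1) / ((μ l : ℚ) + 1))) := by
  have hfil : univ.filter (fun l => 0 < μ l) = univ := by
    rw [filter_eq_self]; intro i _; exact hpos i
  have hinj : ∀ m ∈ (univ : Finset (Fin L)), ∀ l ∈ (univ : Finset (Fin L)),
      ((μ m : ℚ) ^ 2 + μ m) = ((μ l : ℚ) ^ 2 + μ l) → m = l := by
    intro m _ l _ he
    by_contra hne
    have h2 : ((μ m : ℚ) - μ l) * ((μ m : ℚ) + μ l + 1) = 0 := by linear_combination he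
    have p1 : (0 : ℚ) < μ m := by exact_mod_cast hpos m
    have p2 : (0 : ℚ) < μ l := by exact_mod_cast hpos l
    rcases lt_or_gt_of_ne hne with h | h
    · have h3 := hμ m l h
      have := hpos l
      have h4 : μ l < μ m := by omega
      have h4' : (μ l : ℚ) < μ m := by exact_mod_cast h4
      rcases mul_eq_zero.mp h2 with h6 | h6 <;> linarith
    · have h3 := hμ l m h
      have := hpos m
      have h4 : μ m < μ l := by omega
      have h4' : (μ m : ℚ) < μ l := by exact_mod_cast h4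
      rcases mul_eq_zero.mp h2 with h6 | h6 <;> linarith
  have hJ := idJ univ (fun l => (μ l : ℚ) ^ 2 - μ l) (fun l => (μ l : ℚ) ^ 2 + μ l) hinj 0
    (by
      intro m _
      have p1 : (0 : ℚ) < μ m := by exact_mod_cast hpos m
      have : (0 : ℚ) < (μ m : ℚ) ^ 2 + μ m := by positivity
      exact this.ne)
  have h1 : ∏ l, ((0 : ℚ) - ((μ l : ℚ) ^ 2 - μ l)) / (0 - ((μ l : ℚ) ^ 2 + μ l)) =
      ∏ l, (((μ l : ℚ) - 1) / ((μ l : ℚ) + 1)) := by
    refine prod_congr rfl (fun l _ => ?_)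
    have p1 : (0 : ℚ) < μ l := by exact_mod_cast hpos l
    have e1 : (0 : ℚ) - ((μ l : ℚ) ^ 2 + μ l) ≠ 0 := by
      have : (0 : ℚ) < (μ l : ℚ) ^ 2 + μ l := by positivity
      intro h; linarith
    have e2 : (μ l : ℚ) + 1 ≠ 0 := by positivity
    rw [div_eq_div_iff e1 e2]
    ring
  rw [h1] at hJ
  rw [hJ]
  have h2 : ∀ i, G (up μ i) = G μ * ((sz μ : ℚ) + 1) * (1 / 2) *
      (-((((μ i : ℚ) ^ 2 + μ i) - ((μ i : ℚ) ^ 2 - μ i)) / (0 - ((μ i : ℚ) ^ 2 + μ i)) *
        ∏ l ∈ univ.erase i, ((((μ i : ℚ) ^ 2 + μ i) - ((μ l : ℚ) ^ 2 - μ l)) /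
          (((μ i : ℚ) ^ 2 + μ i) - ((μ l : ℚ) ^ 2 + μ l))))) := by
    intro i
    rw [G_up hμ (hpos i), hfil]
    generalize ∏ l ∈ univ.erase i, ((((μ i : ℚ) ^ 2 + μ i) - ((μ l : ℚ) ^ 2 - μ l)) /
          (((μ i : ℚ) ^ 2 + μ i) - ((μ l : ℚ) ^ 2 + μ l))) = P
    have p1 : (0 : ℚ) < μ i := by exact_mod_cast hpos i
    have e1 : (0 : ℚ) - ((μ i : ℚ) ^ 2 + μ i) ≠ 0 := by
      have : (0 : ℚ) < (μ i : ℚ) ^ 2 + μ i := by positivity
      intro h; linarith
    have e2 : (μ i : ℚ) + 1 ≠ 0 := by positivity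
    have e3 : (((μ i : ℚ) ^ 2 + μ i) - ((μ i : ℚ) ^ 2 - μ i)) / (0 - ((μ i : ℚ) ^ 2 + μ i)) =
        - (2 / ((μ i : ℚ) + 1)) := by
      rw [div_eq_iff e1]
      field_simp
      ring
    rw [e3]
    field_simp
  simp_rw [h2]
  rw [← mul_sum, sum_neg_distrib]
  ring

/-- The parts of the trapezoid. -/
def TT (n k : ℕ) : Fin (k + 1) → ℕ := fun i => n - 2 * (i : ℕ)

lemma TT_cast {n k : ℕ} (h : 2 * k < n) (i : Fin (k + 1)) :
    (TT n k i : ℚ) = (n : ℚ) - 2 * (i : ℕ) := by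
  unfold TT
  have := i.2
  rw [Nat.cast_sub (by omega)]
  push_cast; ring

lemma TT_pos {n k : ℕ} (h : 2 * k < n) (i : Fin (k + 1)) : 0 < TT n k i := by
  unfold TT
  have := i.2
  omega

lemma TT_val {n k : ℕ} : Val (TT n k) := by
  intro i j hij
  unfold TT
  have := Fin.lt_def.mp hij
  omega

lemma TT_up {n k : ℕ} (h : 2 * k < n) (i : Fin (k + 1)) : Val (up (TT n k) i) := by
  intro a b hab
  have h1 := Fin.lt_def.mp hab
  have h2 := b.2
  unfold up
  by_cases ha : a = i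
  · subst ha
    rw [Function.update_self, Function.update_of_ne (ne_of_gt hab)]
    unfold TT; omega
  · rw [Function.update_of_ne ha]
    by_cases hb : b = i
    · subst hb
      rw [Function.update_self]
      unfold TT; omega
    · rw [Function.update_of_ne hb]
      unfold TT; omega

lemma tele (n : ℕ) : ∀ k : ℕ, 2 * k < n →
    ∏ l ∈ range (k + 1), (((n : ℚ) - 2 * l - 1) / ((n : ℚ) - 2 * l + 1)) =
      ((n : ℚ) - 2 * k - 1) / ((n : ℚ) + 1) := by
  intro k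
  induction k with
  | zero => intro _; simp
  | succ k ih =>
    intro h
    rw [prod_range_succ, ih (by omega)]
    have h' : (2 * ((k : ℚ) + 1)) < n := by exact_mod_cast h
    have e1 : (n : ℚ) + 1 ≠ 0 := by positivity
    have e2 : (n : ℚ) - 2 * ((k + 1 : ℕ) : ℚ) + 1 ≠ 0 := by
      push_cast; intro h; linarith
    rw [div_mul_div_comm, div_eq_div_iff (mul_ne_zero e1 e2) e1]
    push_cast
    ring

lemma sum_up_TT {n k : ℕ} (h : 2 * k < n) :
    ∑ i, G (up (TT n k) i) = G (TT n k) * ((sz (TT n k) : ℚ) + 1) *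
      (((k : ℚ) + 1) / ((n : ℚ) + 1)) := by
  rw [sum_up TT_val (TT_pos h)]
  have h1 : ∏ l, (((TT n k l : ℚ) - 1) / ((TT n k l : ℚ) + 1)) =
      ((n : ℚ) - 2 * k - 1) / ((n : ℚ) + 1) := by
    rw [← tele n k h, ← Fin.prod_univ_eq_prod_range
      (fun l => (((n : ℚ) - 2 * l - 1) / ((n : ℚ) - 2 * l + 1)))]
    refine prod_congr rfl (fun l _ => ?_)
    rw [TT_cast h]
  rw [h1]
  have e1 : (n : ℚ) + 1 ≠ 0 := by positivity
  field_simp
  ring

lemma sz_TT {n k : ℕ} (h : 2 * k < n) :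
    (sz (TT n k) : ℚ) = ((k : ℚ) + 1) * ((n : ℚ) - k) := by
  unfold sz
  push_cast
  simp_rw [TT_cast h]
  rw [sum_sub_distrib, ← mul_sum, Fin.sum_univ_eq_sum_range (fun i => (i : ℚ))]
  have h2 : ∀ m : ℕ, ∑ i ∈ range (m + 1), (i : ℚ) = (m : ℚ) * (m + 1) / 2 := by
    intro m
    induction m with
    | zero => simp
    | succ m ih => rw [sum_range_succ, ih]; push_cast; ring
  rw [h2]
  simp
  ring

/-- The value at the trapezoid. -/
theorem BB_TT {n k : ℕ} (h : 2 * k < n) :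
    BB (TT n k) = G (TT n k) * ((sz (TT n k) : ℚ) + 1) *
      ((sz (TT n k) : ℚ) / ((n : ℚ) + 1)) := by
  unfold BB AH
  have h1 : Add (TT n k) = univ := by
    unfold Add
    rw [filter_eq_self]
    intro i _; exact TT_up h i
  rw [h1]
  have h2 : ∑ i : Fin (k + 1), (fun (i : Fin (k + 1)) v => hw (k + 1) (i : ℕ) v) i (TT n k i) *
      G (up (TT n k) i) = ((n : ℚ) - 2 * k - 1) * ∑ i, G (up (TT n k) i) := by
    rw [mul_sum]
    refine sum_congr rfl (fun i _ => ?_)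
    congr 1
    simp only
    unfold hw
    rw [if_neg (TT_pos h i).ne', TT_cast h]
    push_cast
    ring
  rw [h2, sum_up_TT h, sz_TT h]
  have e1 : (n : ℚ) + 1 ≠ 0 := by positivity
  push_cast
  field_simp
  ring

end Pool.Agent.U346.Cde
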