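import Mathlib
import Pool.Agent.U346.CdeF

set_option autoImplicit false

/-! Counting strict partitions in the trapezoid, and their removable boxes. -/

namespace Pool.Agent.U346.Cde

open Finset
open scoped Classical

/-- Strict vectors with `r` rows, parts at most `m`, and `i`-th part at most `b - 2 i`. -/
noncomputable def XX (m b r : ℕ) : Finset (Fin r → ℕ) :=
  (Fintype.piFinset (fun _ : Fin r => range (m + 1))).filter
    (fun ν => (∀ i : Fin r, ν i ≤ b - 2 * (i : ℕ)) ∧ Val ν)

lemma mem_XX {m b r : ℕ} {ν : Fin r → ℕ} :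
    ν ∈ XX m b r ↔ (∀ i, ν i ≤ m) ∧ (∀ i : Fin r, ν i ≤ b - 2 * (i : ℕ)) ∧ Val ν := by
  unfold XX
  rw [mem_filter, Fintype.mem_piFinset]
  simp

lemma XX_zero (b r : ℕ) : XX 0 b r = {0} := by
  ext ν
  rw [mem_XX, mem_singleton]
  constructor
  · rintro ⟨h, _⟩
    funext i
    exact Nat.le_zero.mp (h i)
  · rintro rfl
    exact ⟨fun _ => le_rfl, fun _ => Nat.zero_le _, Val_zero⟩

lemma Val_cons {r x : ℕ} {ν : Fin r → ℕ} :
    Val (Fin.cons x ν : Fin (r + 1) → ℕ) ↔ Val ν ∧ ∀ i, ν i = 0 ∨ ν i < x := by
  constructor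
  · intro h
    refine ⟨?_, ?_⟩
    · intro i j hij
      have := h i.succ j.succ (by simpa using hij)
      simpa using this
    · intro i
      have := h 0 i.succ (Fin.succ_pos i)
      simpa using this
  · rintro ⟨h1, h2⟩ i j hij
    induction i using Fin.cases with
    | zero =>
      induction j using Fin.cases with
      | zero => exact absurd hij (lt_irrefl _)
      | succ j => simpa using h2 j
    | succ i =>
      induction j using Fin.cases with
      | zero => exact absurd hij (by simp)
      | succ j => simpa using h1 i j (by simpa using hij)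

lemma XX_cap {m b r : ℕ} (h : b ≤ m) : XX (m + 1) b r = XX m b r := by
  ext ν
  rw [mem_XX, mem_XX]
  constructor
  · rintro ⟨_, h2, h3⟩
    exact ⟨fun i => le_trans (h2 i) (by omega), h2, h3⟩
  · rintro ⟨h1, h2, h3⟩
    exact ⟨fun i => le_trans (h1 i) (by omega), h2, h3⟩

lemma XX_succ {m b r : ℕ} (h : m + 1 ≤ b) :
    XX (m + 1) b (r + 1) = XX m b (r + 1) ∪
      (XX m (b - 2) r).image (fun ν => (Fin.cons (m + 1) ν : Fin (r + 1) → ℕ)) := by
  ext ν
  rw [mem_union, mem_image, mem_XX, mem_XX]
  constructor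
  · rintro ⟨h1, h2, h3⟩
    by_cases h0 : ν 0 = m + 1
    · right
      refine ⟨Fin.tail ν, ?_, ?_⟩
      · rw [mem_XX]
        have hc : (Fin.cons (ν 0) (Fin.tail ν) : Fin (r + 1) → ℕ) = ν := Fin.cons_self_tail ν
        rw [← hc, Val_cons, h0] at h3
        refine ⟨?_, ?_, h3.1⟩
        · intro i
          have := h3.2 i
          omega
        · intro i
          have := h2 i.succ
          have e : b - 2 * ((i.succ : Fin (r + 1)) : ℕ) = b - 2 - 2 * (i : ℕ) := by
            rw [Fin.val_succ]; omega
          rw [e] at this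
          exact this
      · rw [← h0]
        exact Fin.cons_self_tail ν
    · left
      refine ⟨?_, h2, h3⟩
      intro i
      induction i using Fin.cases with
      | zero => have := h1 0; omega
      | succ i =>
        have := h3 0 i.succ (Fin.succ_pos i)
        have := h1 0
        omega
  · rintro (⟨h1, h2, h3⟩ | ⟨ν', h', rfl⟩)
    · exact ⟨fun i => le_trans (h1 i) (by omega), h2, h3⟩
    · rw [mem_XX] at h'
      obtain ⟨h1, h2, h3⟩ := h'
      refine ⟨?_, ?_, ?_⟩
      · intro i
        induction i using Fin.cases with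
        | zero => simp
        | succ i => rw [Fin.cons_succ]; exact le_trans (h1 i) (by omega)
      · intro i
        induction i using Fin.cases with
        | zero => simp only [Fin.cons_zero, Fin.val_zero]; omega
        | succ i =>
          rw [Fin.cons_succ, Fin.val_succ]
          have := h2 i
          omega
      · rw [Val_cons]
        refine ⟨h3, fun i => ?_⟩
        right
        have := h1 i
        omega

lemma XX_disj {m b r : ℕ} :
    Disjoint (XX m b (r + 1))
      ((XX m (b - 2) r).image (fun ν => (Fin.cons (m + 1) ν : Fin (r + 1) → ℕ))) := by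
  rw [disjoint_left]
  intro ν h1 h2
  rw [mem_image] at h2
  obtain ⟨ν', _, rfl⟩ := h2
  rw [mem_XX] at h1
  have := h1.1 0
  simp at this

lemma sum_XX_succ {m b r : ℕ} (h : m + 1 ≤ b) (f : (Fin (r + 1) → ℕ) → ℕ) :
    ∑ ν ∈ XX (m + 1) b (r + 1), f ν = ∑ ν ∈ XX m b (r + 1), f ν +
      ∑ ν ∈ XX m (b - 2) r, f (Fin.cons (m + 1) ν) := by
  rw [XX_succ h, sum_union XX_disj, sum_image]
  intro a _ b _ hab
  have := congrArg Fin.tail hab
  simpa using this

noncomputable def AA (m b r : ℕ) : ℕ := (XX m b r).card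
noncomputable def SD (m b r : ℕ) : ℕ := ∑ ν ∈ XX m b r, (Rem ν).card

lemma AA_succ {m b r : ℕ} (h : m + 1 ≤ b) :
    AA (m + 1) b (r + 1) = AA m b (r + 1) + AA m (b - 2) r := by
  unfold AA
  rw [card_eq_sum_ones, card_eq_sum_ones, card_eq_sum_ones, sum_XX_succ h]

lemma AA_cap {m b r : ℕ} (h : b ≤ m) : AA (m + 1) b r = AA m b r := by
  unfold AA; rw [XX_cap h]

lemma SD_cap {m b r : ℕ} (h : b ≤ m) : SD (m + 1) b r = SD m b r := by
  unfold SD; rw [XX_cap h]

lemma AA_zero (b r : ℕ) : AA 0 b r = 1 := by unfold AA; rw [XX_zero]; rfl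

lemma AA_r0 (m b : ℕ) : AA m b 0 = 1 := by
  unfold AA
  have : XX m b 0 = univ := by
    ext ν
    rw [mem_XX]
    simp only [mem_univ, iff_true]
    exact ⟨fun i => i.elim0, fun i => i.elim0, fun i => i.elim0⟩
  rw [this]; simp

lemma Rem_zero {L : ℕ} : Rem (0 : Fin L → ℕ) = ∅ := by
  unfold Rem
  rw [filter_eq_empty_iff]
  rintro i - ⟨h, _⟩
  simp at h

lemma SD_zero (b r : ℕ) : SD 0 b r = 0 := by
  unfold SD; rw [XX_zero, sum_singleton, Rem_zero]; rfl

lemma SD_r0 (m b : ℕ) : SD m b 0 = 0 := by
  unfold SD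
  refine sum_eq_zero (fun ν _ => ?_)
  rw [card_eq_zero]
  ext i
  exact i.elim0

lemma Rem_cons {m b r : ℕ} {ν : Fin r → ℕ} (h : ν ∈ XX m b r) :
    (Rem (Fin.cons (m + 1) ν : Fin (r + 1) → ℕ)).card =
      (Rem ν).card + (if ∀ i, ν i = 0 ∨ ν i < m then 1 else 0) := by
  rw [mem_XX] at h
  obtain ⟨h1, h2, h3⟩ := h
  unfold Rem
  rw [card_filter, card_filter, Fin.sum_univ_succ, add_comm]
  congr 1
  · refine sum_congr rfl (fun i _ => ?_)
    have e1 : dn (Fin.cons (m + 1) ν : Fin (r + 1) → ℕ) i.succ =
        (Fin.cons (m + 1) (dn ν i) : Fin (r + 1) → ℕ) := by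
      unfold dn
      rw [Fin.cons_succ, Fin.cons_update]
    rw [e1, Fin.cons_succ]
    have e2 : Val (Fin.cons (m + 1) (dn ν i) : Fin (r + 1) → ℕ) ↔ Val (dn ν i) := by
      rw [Val_cons]
      constructor
      · exact fun h => h.1
      · intro h
        refine ⟨h, fun l => ?_⟩
        right
        unfold dn
        by_cases hl : l = i
        · subst hl
          rw [Function.update_self]
          have := h1 l; omega
        · rw [Function.update_of_ne hl]
          have := h1 l; omega
    simp only [e2]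
  · have e1 : dn (Fin.cons (m + 1) ν : Fin (r + 1) → ℕ) 0 =
        (Fin.cons m ν : Fin (r + 1) → ℕ) := by
      unfold dn
      rw [Fin.cons_zero, Fin.update_cons_zero]
      rfl
    rw [e1, Fin.cons_zero]
    have e2 : (0 < m + 1 ∧ Val (Fin.cons m ν : Fin (r + 1) → ℕ)) ↔
        (∀ i, ν i = 0 ∨ ν i < m) := by
      rw [Val_cons]
      constructor
      · exact fun h => h.2.2
      · exact fun h => ⟨by omega, h3, h⟩
    simp only [e2]

lemma filter_XX (m b r : ℕ) :
    (XX m b r).filter (fun ν => ∀ i, ν i = 0 ∨ ν i < m) = XX (m - 1) b r := by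
  ext ν
  rw [mem_filter, mem_XX, mem_XX]
  constructor
  · rintro ⟨⟨h1, h2, h3⟩, h4⟩
    refine ⟨fun i => ?_, h2, h3⟩
    have := h4 i
    omega
  · rintro ⟨h1, h2, h3⟩
    refine ⟨⟨fun i => ?_, h2, h3⟩, fun i => ?_⟩
    · have := h1 i; omega
    · have := h1 i; omega

lemma SD_succ {m b r : ℕ} (h : m + 1 ≤ b) :
    SD (m + 1) b (r + 1) = SD m b (r + 1) + SD m (b - 2) r + AA (m - 1) (b - 2) r := by
  unfold SD
  rw [sum_XX_succ h, add_assoc]
  congr 1
  rw [sum_congr rfl (fun ν hν => Rem_cons hν), sum_add_distrib]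
  congr 1
  rw [← card_filter, filter_XX]
  rfl

/-- The total number of removable boxes. -/
lemma SD_formula : ∀ (m b r : ℕ), m + 1 ≤ b →
    SD (m + 1) b (r + 1) = AA m (b - 2) r + m * AA (m - 1) (b - 2) r := by
  intro m
  induction m using Nat.strong_induction_on with
  | _ m ih =>
    intro b r hb
    cases m with
    | zero =>
      rw [SD_succ hb, SD_zero, SD_zero]
      simp
    | succ m =>
      rw [SD_succ hb, ih m (by omega) b r (by omega)]
      simp only [Nat.add_sub_cancel]
      cases r with
      | zero =>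
        rw [SD_r0, AA_r0, AA_r0, AA_r0]
        ring
      | succ r =>
        rcases Nat.lt_or_ge (b - 2) (m + 1) with h1 | h1
        · -- b = m + 2
          have hb2 : b - 2 = m := by omega
          rw [hb2, SD_cap le_rfl, AA_cap (le_refl m)]
          cases m with
          | zero =>
            rw [SD_zero]; simp
          | succ m' =>
            rw [ih m' (by omega) (m' + 1) r le_rfl, AA_succ (le_refl (m' + 1))]
            simp only [Nat.add_sub_cancel]
            have e1 : m' + 1 - 2 = m' - 1 := by omega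
            rw [e1]
            have e2 : AA m' (m' - 1) r = AA (m' - 1) (m' - 1) r := by
              cases m' with
              | zero => rfl
              | succ m'' =>
                simp only [Nat.add_sub_cancel]
                exact AA_cap le_rfl
            rw [e2]
            ring
        · rw [ih m (by omega) (b - 2) r h1, AA_succ h1]
          cases m with
          | zero => ring
          | succ m' =>
            simp only [Nat.add_sub_cancel]
            rw [AA_succ (m := m') (b := b - 2) (r := r) (by omega)]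
            ring

noncomputable def cc (m r q : ℕ) : ℕ :=
  ∑ t ∈ range (q + 1), (if t ≤ r then m.choose (r - t) else 0)

lemma cc_r0 (m q : ℕ) : cc m 0 q = 1 := by
  unfold cc
  rw [sum_range_succ']
  simp

lemma cc_succ (m r q : ℕ) : cc m r (q + 1) = cc m r q + (if q + 1 ≤ r then
    m.choose (r - (q + 1)) else 0) := by
  unfold cc; rw [sum_range_succ]

lemma cc_pascal (m r q : ℕ) : cc (m + 1) (r + 1) q = cc m (r + 1) q + cc m r q := by
  unfold cc
  rw [← sum_add_distrib]
  refine sum_congr rfl (fun t _ => ?_)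
  rcases Nat.lt_or_ge r t with h | h
  · rw [if_neg (by omega : ¬ (t ≤ r))]
    rcases Nat.lt_or_ge (r + 1) t with h2 | h2
    · rw [if_neg (by omega), if_neg (by omega)]
    · have : t = r + 1 := by omega
      subst this
      simp
  · rw [if_pos (by omega), if_pos (by omega), if_pos h]
    have : r + 1 - t = (r - t) + 1 := by omega
    rw [this, Nat.choose_succ_succ]
    ring

lemma cc_step (m r q : ℕ) :
    cc (m + 1) (r + 1) (q + 1) = cc m (r + 1) (q + 2) + cc m r q := by
  rw [cc_pascal, cc_succ m (r + 1) (q + 1), cc_succ m r q]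
  have : (if q + 1 + 1 ≤ r + 1 then m.choose (r + 1 - (q + 1 + 1)) else 0) =
      (if q + 1 ≤ r then m.choose (r - (q + 1)) else 0) := by
    by_cases h : q + 1 ≤ r
    · rw [if_pos (by omega), if_pos h]
      congr 1
      omega
    · rw [if_neg (by omega), if_neg h]
  rw [this]
  ring

lemma AA_formula : ∀ (m b r : ℕ), m ≤ b + 1 → 2 * r ≤ b + 1 →
    AA m b r = cc m r (b + 1 - m) := by
  intro m
  induction m with
  | zero =>
    intro b r _ hr
    rw [AA_zero]
    unfold cc
    rw [sum_eq_single r]
    · simp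
    · intro t _ ht
      split_ifs with h
      · exact Nat.choose_eq_zero_of_lt (by omega)
      · rfl
    · intro h
      exfalso
      apply h
      rw [mem_range]
      omega
  | succ m ih =>
    intro b r hm hr
    cases r with
    | zero => rw [AA_r0, cc_r0]
    | succ r =>
      rcases Nat.lt_or_ge b (m + 1) with h | h
      · have hb : b = m := by omega
        subst hb
        rw [AA_cap le_rfl, ih b (r + 1) (by omega) hr]
        have e1 : b + 1 - b = 0 + 1 := by omega
        have e2 : b + 1 - (b + 1) = 0 := by omega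
        rw [e1, e2, cc_succ, cc_pascal]
        congr 1
      · rw [AA_succ h, ih b (r + 1) (by omega) hr]
        have e1 : b + 1 - (m + 1) = (b - 1 - m) + 1 := by omega
        have e2 : b + 1 - m = (b - 1 - m) + 2 := by omega
        rw [e1, e2, cc_step]
        congr 1
        cases r with
        | zero => rw [AA_r0, cc_r0]
        | succ r =>
          rw [ih (b - 2) (r + 1) (by omega) (by omega)]
          congr 1
          omega

lemma AA_main {n k : ℕ} (h : 2 * k < n) : AA n n (k + 1) = (n + 1).choose (k + 1) := by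
  rw [AA_formula n n (k + 1) (by omega) (by omega)]
  have e1 : n + 1 - n = 0 + 1 := by omega
  rw [e1, cc_succ]
  unfold cc
  simp [Nat.choose_succ_succ]
  ring

lemma SD_main {n k : ℕ} (h : 2 * k < n) : SD n n (k + 1) = n * (n - 1).choose k := by
  obtain ⟨m, rfl⟩ : ∃ m, n = m + 1 := ⟨n - 1, by omega⟩
  rw [SD_formula m (m + 1) k le_rfl]
  simp only [Nat.add_sub_cancel]
  have e1 : m + 1 - 2 = m - 1 := by omega
  rw [e1]
  have e2 : AA m (m - 1) k = AA (m - 1) (m - 1) k := by
    cases m with
    | zero => rfl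
    | succ m'' =>
      simp only [Nat.add_sub_cancel]
      exact AA_cap le_rfl
  rw [e2]
  have e3 : AA (m - 1) (m - 1) k = m.choose k := by
    cases m with
    | zero =>
      have : k = 0 := by omega
      subst this
      rw [AA_r0]; simp
    | succ m' =>
      simp only [Nat.add_sub_cancel]
      rw [AA_formula m' m' k (by omega) (by omega)]
      have e4 : m' + 1 - m' = 0 + 1 := by omega
      rw [e4, cc_succ]
      cases k with
      | zero => rw [cc_r0]; simp
      | succ k =>
        unfold cc
        simp [Nat.choose_succ_succ]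
        ring
  rw [e3]
  ring

/-- The edge density. -/
theorem density {n k : ℕ} (h : 2 * k < n) :
    (SD n n (k + 1) : ℚ) / (AA n n (k + 1) : ℚ) =
      (((k : ℚ) + 1) * ((n : ℚ) - k)) / ((n : ℚ) + 1) := by
  rw [SD_main h, AA_main h]
  obtain ⟨m, rfl⟩ : ∃ m, n = m + 1 := ⟨n - 1, by omega⟩
  simp only [Nat.add_sub_cancel]
  have h1 : (m + 1 + 1) * (m + 1).choose k = (m + 1 + 1).choose (k + 1) * (k + 1) :=
    Nat.add_one_mul_choose_eq (m + 1) k
  have h2 : m.choose k * (m + 1) = (m + 1).choose k * (m + 1 - k) := Nat.choose_mul_succ_eq m k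
  have h1' : ((m : ℚ) + 1 + 1) * ((m + 1).choose k : ℚ) =
      ((m + 1 + 1).choose (k + 1) : ℚ) * ((k : ℚ) + 1) := by exact_mod_cast h1
  have h2' : (m.choose k : ℚ) * ((m : ℚ) + 1) = ((m + 1).choose k : ℚ) * ((m : ℚ) + 1 - k) := by
    have : ((m + 1 - k : ℕ) : ℚ) = (m : ℚ) + 1 - k := by
      rw [Nat.cast_sub (by omega)]; push_cast; ring
    rw [← this]
    exact_mod_cast h2
  have hc : ((m + 1 + 1).choose (k + 1) : ℚ) ≠ 0 := by
    have : 0 < (m + 1 + 1).choose (k + 1) := Nat.choose_pos (by omega)
    positivity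
  have e1 : ((m + 1 : ℕ) : ℚ) + 1 ≠ 0 := by positivity
  rw [div_eq_div_iff hc e1]
  push_cast
  linear_combination (((m : ℚ) + 1 + 1)) * h2' + ((m : ℚ) + 1 - k) * h1'

end Pool.Agent.U346.Cde
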