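import Mathlib

set_option autoImplicit false

namespace Pool.Agent.U346

open MvPolynomial Module

/-- The polynomial ring in the entries of a matrix with `M + 1` rows and columns indexed by `κ`. -/
abbrev S (M : ℕ) (κ : Type) := MvPolynomial (Fin (M + 1) × κ) ℚ

/-- Weights: one integer for each row. -/
abbrev Wt (M : ℕ) := Fin (M + 1) → ℤ

/-- The weight of a variable. -/
def w {M : ℕ} {κ : Type} (p : Fin (M + 1) × κ) : Wt M := Pi.single p.1 1

/-- The weight spaces. -/
noncomputable def gr (M : ℕ) (κ : Type) (μ : Wt M) : Submodule ℚ (S M κ) :=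
  weightedHomogeneousSubmodule ℚ w μ

/-- The simple roots. -/
def al {M : ℕ} (j : Fin M) : Wt M := Pi.single j.castSucc 1 - Pi.single j.succ 1

/-- The raising operator: row `j + 1` goes to row `j`. -/
noncomputable def E {M : ℕ} {κ : Type} (j : Fin M) : Derivation ℚ (S M κ) (S M κ) :=
  mkDerivation ℚ (fun p => if p.1 = j.succ then X (j.castSucc, p.2) else 0)

/-- The lowering operator: row `j` goes to row `j + 1`. -/
noncomputable def F {M : ℕ} {κ : Type} (j : Fin M) : Derivation ℚ (S M κ) (S M κ) :=
  mkDerivation ℚ (fun p => if p.1 = j.castSucc then X (j.succ, p.2) else 0)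

variable {M : ℕ} {κ : Type}

theorem mem_gr (μ : Wt M) (f : S M κ) : f ∈ gr M κ μ ↔ IsWeightedHomogeneous w f μ := Iff.rfl

theorem mul_mem_gr {μ ν : Wt M} {f g : S M κ} (hf : f ∈ gr M κ μ) (hg : g ∈ gr M κ ν) :
    f * g ∈ gr M κ (μ + ν) := IsWeightedHomogeneous.mul hf hg

theorem X_mem_gr (p : Fin (M + 1) × κ) : (X p : S M κ) ∈ gr M κ (w p) :=
  isWeightedHomogeneous_X ℚ w p

theorem weight_sub_single (d : (Fin (M + 1) × κ) →₀ ℕ) (p : Fin (M + 1) × κ) (hp : p ∈ d.support) :
    Finsupp.weight w (d - Finsupp.single p 1) = Finsupp.weight (w (M := M)) d - w p := by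
  classical
  have h : d = (d - Finsupp.single p 1) + Finsupp.single p 1 := by
    ext q
    rw [Finsupp.add_apply, Finsupp.tsub_apply]
    by_cases hq : q = p
    · subst hq
      rw [Finsupp.single_eq_same]
      have := Finsupp.mem_support_iff.1 hp
      omega
    · rw [Finsupp.single_eq_of_ne hq]; omega
  have h2 := congrArg (Finsupp.weight (w (M := M))) h
  rw [map_add, Finsupp.weight_single, one_smul] at h2
  rw [h2]; abel

/-- A derivation that shifts the weights of the variables by `δ` shifts all weights by `δ`. -/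
theorem deriv_mem_gr (D : Derivation ℚ (S M κ) (S M κ)) (δ : Wt M)
    (h : ∀ p, D (X p) ∈ gr M κ (w p + δ)) (μ : Wt M) (f : S M κ) (hf : f ∈ gr M κ μ) :
    D f ∈ gr M κ (μ + δ) := by
  have hD : D = mkDerivation ℚ (fun p => D (X p)) := by
    apply derivation_ext
    intro p
    rw [mkDerivation_X]
  refine IsWeightedHomogeneous.induction_on (w := w) (m := μ)
    (motive := fun g _ => D g ∈ gr M κ (μ + δ)) ?_ ?_ ?_ hf
  · rw [map_zero]; exact Submodule.zero_mem _
  · intro p q _ _ hp hq
    rw [map_add]; exact Submodule.add_mem _ hp hq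
  · intro d r hd
    rw [hD, mkDerivation_monomial, Finsupp.sum]
    refine Submodule.smul_mem _ _ (Submodule.sum_mem _ fun p hp => ?_)
    rw [smul_eq_mul]
    have h1 : (monomial (d - Finsupp.single p 1) (d p : ℚ) : S M κ) ∈ gr M κ (μ - w p) := by
      apply isWeightedHomogeneous_monomial
      rw [weight_sub_single d p hp, hd]
    have h2 := mul_mem_gr h1 (h p)
    rwa [show μ - w p + (w p + δ) = μ + δ by abel] at h2

theorem euler (D : Derivation ℚ (S M κ) (S M κ)) (ℓ : Wt M →+ ℚ)
    (h : ∀ p, D (X p) = ℓ (w p) • X p) (μ : Wt M) (f : S M κ) (hf : f ∈ gr M κ μ) :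
    D f = ℓ μ • f := by
  classical
  have hD : D = mkDerivation ℚ (fun p => D (X p)) := by
    apply derivation_ext
    intro p
    rw [mkDerivation_X]
  refine IsWeightedHomogeneous.induction_on (w := w) (m := μ)
    (motive := fun g _ => D g = ℓ μ • g) ?_ ?_ ?_ hf
  · rw [map_zero, smul_zero]
  · intro p q _ _ hp hq
    rw [map_add, hp, hq, smul_add]
  · intro d r hd
    rw [hD, mkDerivation_monomial, Finsupp.sum]
    have h1 : ∀ p ∈ d.support, (monomial (d - Finsupp.single p 1) (d p : ℚ) : S M κ) • D (X p) =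
        ((d p : ℚ) * ℓ (w p)) • monomial d (1 : ℚ) := by
      intro p hp
      rw [h p, smul_eq_mul, mul_smul_comm, X, monomial_mul, mul_one]
      have e : d - Finsupp.single p 1 + Finsupp.single p 1 = d := by
        apply tsub_add_cancel_of_le
        rw [Finsupp.single_le_iff]
        have := Finsupp.mem_support_iff.1 hp
        omega
      rw [e, smul_monomial, smul_monomial]
      congr 1
      simp [mul_comm]
    rw [Finset.sum_congr rfl h1, ← Finset.sum_smul]
    have h2 : ∑ p ∈ d.support, (d p : ℚ) * ℓ (w p) = ℓ μ := by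
      rw [← hd, Finsupp.weight_apply, Finsupp.sum, map_sum]
      apply Finset.sum_congr rfl
      intro p _
      rw [map_nsmul, nsmul_eq_mul]
    rw [h2, smul_smul, smul_monomial, smul_monomial]
    congr 1
    simp [mul_comm]

theorem E_X (j : Fin M) (p : Fin (M + 1) × κ) :
    E j (X p : S M κ) = if p.1 = j.succ then X (j.castSucc, p.2) else 0 := mkDerivation_X _ _ _

theorem F_X (j : Fin M) (p : Fin (M + 1) × κ) :
    F j (X p : S M κ) = if p.1 = j.castSucc then X (j.succ, p.2) else 0 := mkDerivation_X _ _ _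

theorem E_mem (j : Fin M) (μ : Wt M) (f : S M κ) (hf : f ∈ gr M κ μ) :
    E j f ∈ gr M κ (μ + al j) := by
  apply deriv_mem_gr _ _ _ _ _ hf
  intro p
  rw [E_X]
  split_ifs with h
  · have h1 : w p + al j = w (M := M) (κ := κ) (j.castSucc, p.2) := by
      unfold w al; rw [h]; abel
    rw [h1]; exact X_mem_gr _
  · exact Submodule.zero_mem _

theorem F_mem (j : Fin M) (μ : Wt M) (f : S M κ) (hf : f ∈ gr M κ μ) :
    F j f ∈ gr M κ (μ - al j) := by
  rw [sub_eq_add_neg]
  apply deriv_mem_gr _ _ _ _ _ hf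
  intro p
  rw [F_X]
  split_ifs with h
  · have h1 : w p + -al j = w (M := M) (κ := κ) (j.succ, p.2) := by
      unfold w al; rw [h]; abel
    rw [h1]; exact X_mem_gr _
  · exact Submodule.zero_mem _

theorem cs_ne_s (j : Fin M) : j.castSucc ≠ j.succ := by
  intro h
  have := congrArg Fin.val h
  simp at this

theorem EF_same (j : Fin M) (μ : Wt M) (f : S M κ) (hf : f ∈ gr M κ μ) :
    E j (F j f) - F j (E j f) = ((μ j.castSucc - μ j.succ : ℤ) : ℚ) • f := by
  have h := euler (⁅E j, F j⁆) ((Int.castAddHom ℚ).comp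
    ((Pi.evalAddMonoidHom (fun _ => ℤ) j.castSucc) - (Pi.evalAddMonoidHom (fun _ => ℤ) j.succ)))
    (by
      intro p
      rw [Derivation.commutator_apply, E_X, F_X]
      have hne := cs_ne_s j
      by_cases h1 : p.1 = j.castSucc
      · have h2 : p.1 ≠ j.succ := by rw [h1]; exact hne
        rw [if_pos h1, if_neg h2, map_zero, sub_zero, E_X, if_pos rfl]
        have : p = (j.castSucc, p.2) := Prod.ext h1 rfl
        simp only [AddMonoidHom.coe_comp, Function.comp_apply, AddMonoidHom.sub_apply,
          Pi.evalAddMonoidHom_apply, w, h1, Pi.single_eq_same, Pi.single_eq_of_ne hne.symm]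
        rw [← this]
        simp
      · by_cases h2 : p.1 = j.succ
        · rw [if_neg h1, if_pos h2, map_zero, zero_sub, F_X, if_pos rfl]
          have : p = (j.succ, p.2) := Prod.ext h2 rfl
          simp only [AddMonoidHom.coe_comp, Function.comp_apply, AddMonoidHom.sub_apply,
            Pi.evalAddMonoidHom_apply, w, h2, Pi.single_eq_same, Pi.single_eq_of_ne hne]
          rw [← this]
          simp
        · rw [if_neg h1, if_neg h2, map_zero, map_zero, sub_zero]
          simp only [AddMonoidHom.coe_comp, Function.comp_apply, AddMonoidHom.sub_apply,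
            Pi.evalAddMonoidHom_apply, w, Pi.single_eq_of_ne (Ne.symm h1),
            Pi.single_eq_of_ne (Ne.symm h2)]
          simp) μ f hf
  rw [Derivation.commutator_apply] at h
  rw [h]
  simp

theorem EF_diff (i j : Fin M) (hij : i ≠ j) (f : S M κ) : E j (F i f) = F i (E j f) := by
  have h : ⁅(E j : Derivation ℚ (S M κ) (S M κ)), (F i : Derivation ℚ (S M κ) (S M κ))⁆ = 0 := by
    apply derivation_ext
    intro p
    rw [Derivation.commutator_apply, E_X, F_X, Derivation.zero_apply]
    have e1 : E j (if p.1 = i.castSucc then X (i.succ, p.2) else 0 : S M κ) = 0 := by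
      split_ifs with h
      · rw [E_X, if_neg]
        intro h2
        exact hij (Fin.succ_injective _ h2)
      · exact map_zero _
    have e2 : F i (if p.1 = j.succ then X (j.castSucc, p.2) else 0 : S M κ) = 0 := by
      split_ifs with h
      · rw [F_X, if_neg]
        intro h2
        exact hij (Fin.castSucc_injective _ h2).symm
      · exact map_zero _
    rw [e1, e2, sub_zero]
  have h2 := congrArg (fun D => D f) h
  simp only [Derivation.commutator_apply, Derivation.zero_apply] at h2
  exact sub_eq_zero.1 h2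

theorem weight_apply_le [Fintype κ] (d : (Fin (M + 1) × κ) →₀ ℕ) (p : Fin (M + 1) × κ) :
    (d p : ℤ) ≤ Finsupp.weight (w (M := M)) d p.1 := by
  classical
  rw [Finsupp.weight_apply, Finsupp.sum_fintype _ _ (by simp), Finset.sum_apply]
  have : (d p : ℤ) = (d p • w (M := M) p) p.1 := by
    simp [w]
  rw [this]
  apply Finset.single_le_sum (f := fun q => (d q • w (M := M) q) p.1) _ (Finset.mem_univ p)
  intro q _
  show 0 ≤ (d q • w (M := M) q) p.1
  rw [Pi.smul_apply]
  unfold w
  by_cases h : p.1 = q.1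
  · rw [h]; simp
  · rw [Pi.single_eq_of_ne h]; simp

theorem weight_nonneg [Fintype κ] (d : (Fin (M + 1) × κ) →₀ ℕ) (r : Fin (M + 1)) :
    0 ≤ Finsupp.weight (w (M := M)) d r := by
  classical
  rw [Finsupp.weight_apply, Finsupp.sum_fintype _ _ (by simp), Finset.sum_apply]
  apply Finset.sum_nonneg
  intro q _
  rw [Pi.smul_apply]
  unfold w
  by_cases h : r = q.1
  · rw [h]; simp
  · rw [Pi.single_eq_of_ne h]; simp

theorem gr_eq_bot [Fintype κ] (μ : Wt M) (r : Fin (M + 1)) (hr : μ r < 0) : gr M κ μ = ⊥ := by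
  rw [eq_bot_iff]
  intro f hf
  rw [Submodule.mem_bot]
  by_contra hne
  obtain ⟨d, hd⟩ := exists_coeff_ne_zero hne
  have h1 := hf hd
  have h2 := weight_nonneg (M := M) (κ := κ) d r
  rw [h1] at h2
  omega

theorem finite_weight [Fintype κ] (μ : Wt M) :
    {d : (Fin (M + 1) × κ) →₀ ℕ | Finsupp.weight (w (M := M)) d = μ}.Finite := by
  classical
  apply Set.Finite.subset (Set.finite_Iic (Finsupp.equivFunOnFinite.symm
    (fun p : Fin (M + 1) × κ => (μ p.1).toNat)))
  intro d hd p
  have h := weight_apply_le (M := M) d p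
  rw [hd] at h
  rw [Finsupp.equivFunOnFinite_symm_apply_apply]
  omega

instance finite_gr [Fintype κ] (μ : Wt M) : FiniteDimensional ℚ (gr M κ μ) := by
  classical
  have h : gr M κ μ ≤ Submodule.span ℚ
      ((fun d => (monomial d (1 : ℚ) : S M κ)) '' {d | Finsupp.weight (w (M := M)) d = μ}) := by
    intro f hf
    refine IsWeightedHomogeneous.induction_on (w := w) (m := μ)
      (motive := fun g _ => g ∈ Submodule.span ℚ
      ((fun d => (monomial d (1 : ℚ) : S M κ)) '' {d | Finsupp.weight (w (M := M)) d = μ}))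
      ?_ ?_ ?_ hf
    · exact Submodule.zero_mem _
    · intro p q _ _ hp hq
      exact Submodule.add_mem _ hp hq
    · intro d r hd
      have : (monomial d r : S M κ) = r • monomial d (1 : ℚ) := by
        rw [smul_monomial, smul_eq_mul, mul_one]
      rw [this]
      exact Submodule.smul_mem _ _ (Submodule.subset_span ⟨d, hd, rfl⟩)
  have h2 : FiniteDimensional ℚ (Submodule.span ℚ
      ((fun d => (monomial d (1 : ℚ) : S M κ)) '' {d | Finsupp.weight (w (M := M)) d = μ})) :=
    FiniteDimensional.span_of_finite ℚ ((finite_weight μ).image _)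
  exact Submodule.finiteDimensional_of_le h

/-- The component of weight `μ`. -/
noncomputable def cmp (μ : Wt M) : S M κ →ₗ[ℚ] S M κ := weightedHomogeneousComponent w μ

theorem cmp_mem (μ : Wt M) (f : S M κ) : cmp μ f ∈ gr M κ μ :=
  weightedHomogeneousComponent_mem _ _ _

theorem cmp_same {μ : Wt M} {f : S M κ} (hf : f ∈ gr M κ μ) : cmp μ f = f :=
  IsWeightedHomogeneous.weightedHomogeneousComponent_same hf

theorem cmp_ne {μ ν : Wt M} (h : ν ≠ μ) {f : S M κ} (hf : f ∈ gr M κ μ) : cmp ν f = 0 :=
  IsWeightedHomogeneous.weightedHomogeneousComponent_ne ν hf h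

theorem exists_sum_cmp (f : S M κ) : ∃ T : Finset (Wt M), f = ∑ μ ∈ T, cmp μ f ∧
    ∀ μ ∉ T, cmp μ f = 0 := by
  classical
  have h := weightedHomogeneousComponent_finsupp (w := w (M := M)) f
  refine ⟨h.toFinset, ?_, ?_⟩
  · have h2 := sum_weightedHomogeneousComponent (w (M := M)) f
    rw [finsum_eq_sum _ h] at h2
    exact h2.symm
  · intro μ hμ
    by_contra hne
    exact hμ (h.mem_toFinset.2 hne)

theorem cmp_mul_of_mem {ν : Wt M} {g : S M κ} (hg : g ∈ gr M κ ν) (f : S M κ) (μ : Wt M) :
    cmp μ (f * g) = cmp (μ - ν) f * g := by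
  classical
  obtain ⟨T, hT, hT2⟩ := exists_sum_cmp f
  have key : ∀ ρ, cmp μ (cmp ρ f * g) = if ρ = μ - ν then cmp (μ - ν) f * g else 0 := by
    intro ρ
    have h1 := mul_mem_gr (cmp_mem ρ f) hg
    split_ifs with h
    · subst h
      rw [sub_add_cancel] at h1
      exact cmp_same h1
    · apply cmp_ne _ h1
      intro h2
      apply h
      rw [h2]; abel
  conv_lhs => rw [hT]
  rw [Finset.sum_mul, map_sum, Finset.sum_congr rfl (fun ρ _ => key ρ), Finset.sum_ite_eq']
  split_ifs with h
  · rfl
  · rw [hT2 _ h, zero_mul]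

end Pool.Agent.U346
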