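import Pool.Agent.U346.DOp

set_option autoImplicit false

namespace Pool.Agent.U346

open MvPolynomial

variable {n : ℕ}

/-- Antisymmetrization. -/
noncomputable def Alt : MvPolynomial (Fin n) ℤ →ₗ[ℤ] MvPolynomial (Fin n) ℤ :=
  ∑ σ : Equiv.Perm (Fin n), ((Equiv.Perm.sign σ : ℤˣ) : ℤ) • (rename σ).toLinearMap

theorem Alt_apply (f : MvPolynomial (Fin n) ℤ) :
    Alt f = ∑ σ : Equiv.Perm (Fin n), ((Equiv.Perm.sign σ : ℤˣ) : ℤ) • rename σ f := by
  unfold Alt
  rw [LinearMap.sum_apply]
  rfl

theorem rename_mul_perm (σ τ : Equiv.Perm (Fin n)) (f : MvPolynomial (Fin n) ℤ) :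
    rename (σ * τ) f = rename σ (rename τ f) := by
  rw [rename_rename]
  rfl

theorem Alt_rename (τ : Equiv.Perm (Fin n)) (f : MvPolynomial (Fin n) ℤ) :
    Alt (rename τ f) = ((Equiv.Perm.sign τ : ℤˣ) : ℤ) • Alt f := by
  rw [Alt_apply, Alt_apply, Finset.smul_sum,
    ← Equiv.sum_comp (Equiv.mulRight τ⁻¹)
      (fun σ => ((Equiv.Perm.sign σ : ℤˣ) : ℤ) • rename σ (rename τ f))]
  refine Finset.sum_congr rfl fun σ _ => ?_
  rw [Equiv.coe_mulRight, ← rename_mul_perm, inv_mul_cancel_right, smul_smul]
  congr 1
  rw [Equiv.Perm.sign_mul, Equiv.Perm.sign_inv]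
  push_cast
  ring

theorem Alt_sym {i j : Fin n} (hij : i ≠ j) {f : MvPolynomial (Fin n) ℤ}
    (hf : rename (Equiv.swap i j) f = f) : Alt f = 0 := by
  have h1 := Alt_rename (Equiv.swap i j) f
  rw [hf, Equiv.Perm.sign_swap hij] at h1
  have h2 : Alt f = - Alt f := by simpa using h1
  have h3 : (2 : ℤ) • Alt f = 0 := by
    rw [two_smul]
    nth_rewrite 1 [h2]
    rw [neg_add_cancel]
  exact (smul_eq_zero.1 h3).resolve_left (by norm_num)

theorem Alt_adj {i j : Fin n} (hij : i ≠ j) (p q : MvPolynomial (Fin n) ℤ) :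
    Alt (p * dd i j hij q) = Alt (dd i j hij p * q) := by
  rw [← sub_eq_zero, ← map_sub]
  apply Alt_sym hij
  apply mul_left_cancel₀ (XX_ne hij)
  have h1 := dd_spec hij p
  have h2 := dd_spec hij q
  rw [map_sub, map_mul, map_mul, sym_dd, sym_dd]
  have e1 : (X i - X j) * (rename (Equiv.swap i j) p * dd i j hij q -
      dd i j hij p * rename (Equiv.swap i j) q) =
      rename (Equiv.swap i j) p * ((X i - X j) * dd i j hij q) -
      ((X i - X j) * dd i j hij p) * rename (Equiv.swap i j) q := by ring
  have e2 : (X i - X j) * (p * dd i j hij q - dd i j hij p * q) =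
      p * ((X i - X j) * dd i j hij q) - ((X i - X j) * dd i j hij p) * q := by ring
  rw [e1, e2, h1, h2]
  ring

variable {D : Equiv.Perm (Fin n) → MvPolynomial (Fin n) ℤ → MvPolynomial (Fin n) ℤ}

theorem DH.adj (h : DH D) (w : Equiv.Perm (Fin n)) (p q : MvPolynomial (Fin n) ℤ) :
    Alt (p * D w q) = Alt (D w⁻¹ p * q) := by
  induction w using perm_induction generalizing p q with
  | h1 => rw [inv_one, h.one, h.one]
  | hs w i j hij hd hl ih =>
    rw [h.down hij hd, Alt_adj, ih, mul_inv_rev, Equiv.swap_inv,
      h.right' hij (x := w⁻¹) hd p]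

theorem DH.sym_rev (h : DH D) (f : MvPolynomial (Fin n) ℤ) (σ : Equiv.Perm (Fin n)) :
    rename σ (D Fin.revPerm f) = D Fin.revPerm f := by
  induction σ using perm_induction with
  | h1 => rw [Equiv.Perm.coe_one, rename_id]; rfl
  | hs w i j hij hd hl ih =>
    have e : w = Equiv.swap i j * (Equiv.swap i j * w) := by
      rw [← mul_assoc, Equiv.swap_mul_self, one_mul]
    rw [e, rename_mul_perm, ih]
    have h1 : (Fin.revPerm : Equiv.Perm (Fin n))⁻¹ j < (Fin.revPerm : Equiv.Perm (Fin n))⁻¹ i := by
      have h2 : (Fin.revPerm : Equiv.Perm (Fin n))⁻¹ = Fin.revPerm := by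
        rw [inv_eq_iff_mul_eq_one]
        ext i; simp
      rw [h2, Fin.revPerm_apply, Fin.revPerm_apply, Fin.rev_lt_rev, Fin.lt_def]
      omega
    rw [h.down hij h1, sym_dd]

theorem Alt_mul_sym {g : MvPolynomial (Fin n) ℤ} (hg : ∀ σ : Equiv.Perm (Fin n), rename σ g = g)
    (f : MvPolynomial (Fin n) ℤ) : Alt (f * g) = Alt f * g := by
  rw [Alt_apply, Alt_apply, Finset.sum_mul]
  refine Finset.sum_congr rfl fun σ _ => ?_
  rw [map_mul, hg, smul_mul_assoc]

/-- Exponent vectors from functions. -/
noncomputable def ex (f : Fin n → ℕ) : Fin n →₀ ℕ := Finsupp.equivFunOnFinite.symm f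

theorem ex_apply (f : Fin n → ℕ) (i : Fin n) : ex f i = f i := rfl

/-- One step of the staircase. -/
theorem dd_stair {i j : Fin n} (hij : i ≠ j) (κ κ' : Fin n →₀ ℕ) (h1 : κ i = κ j + 1)
    (h2 : κ' i = κ j) (h3 : κ' j = κ j) (h4 : ∀ k, k ≠ i → k ≠ j → κ' k = κ k) :
    dd i j hij (monomial κ 1) = monomial κ' 1 := by
  set ρ : Fin n →₀ ℕ := (κ.erase i).erase j with hρ
  have hi : ρ i = 0 := by rw [hρ, Finsupp.erase_ne hij, Finsupp.erase_same]
  have hj : ρ j = 0 := by rw [hρ, Finsupp.erase_same]
  have hr : ∀ k, k ≠ i → k ≠ j → ρ k = κ k := by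
    intro k h1 h2
    rw [hρ, Finsupp.erase_ne h2, Finsupp.erase_ne h1]
  have hκ : κ = ρ + (Finsupp.single i (κ j + 1) + Finsupp.single j (κ j)) := by
    ext k
    rw [Finsupp.add_apply, Finsupp.add_apply]
    by_cases k1 : k = i
    · rw [k1, hi, Finsupp.single_eq_same, Finsupp.single_eq_of_ne hij]
      omega
    · by_cases k2 : k = j
      · rw [k2, hj, Finsupp.single_eq_same, Finsupp.single_eq_of_ne (Ne.symm hij)]
        omega
      · rw [hr k k1 k2, Finsupp.single_eq_of_ne k1, Finsupp.single_eq_of_ne k2]
        omega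
  have hκ' : κ' = ρ + (Finsupp.single i (κ j + 0) + Finsupp.single j (κ j + (1 - 1 - 0))) := by
    ext k
    rw [Finsupp.add_apply, Finsupp.add_apply]
    by_cases k1 : k = i
    · rw [k1, hi, Finsupp.single_eq_same, Finsupp.single_eq_of_ne hij]
      omega
    · by_cases k2 : k = j
      · rw [k2, hj, Finsupp.single_eq_same, Finsupp.single_eq_of_ne (Ne.symm hij)]
        omega
      · rw [h4 k k1 k2, hr k k1 k2, Finsupp.single_eq_of_ne k1, Finsupp.single_eq_of_ne k2]
        omega
  have h5 := dd_explicit hij ρ hi hj (κ j) 1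
  rw [Finset.sum_range_one, ← hκ, ← hκ'] at h5
  exact h5

theorem DH.stair (h : DH D) (k : ℕ) (hk : k ≤ n) (x : Equiv.Perm (Fin n))
    (h1 : ∀ i : Fin n, i.val < k → (x i).val = k - 1 - i.val)
    (h2 : ∀ i : Fin n, k ≤ i.val → x i = i) :
    D x (monomial (ex fun i => k - 1 - i.val) 1) = 1 := by
  induction k generalizing x with
  | zero =>
    have hx : x = 1 := by
      ext i
      rw [h2 i (Nat.zero_le _)]
      rfl
    rw [hx, h.one]
    have : (ex fun i : Fin n => 0 - 1 - i.val) = 0 := by
      ext i
      rw [ex_apply, Finsupp.zero_apply]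
      omega
    rw [this]
    rfl
  | succ k ih =>
    have stage : ∀ l c : ℕ, c + l = k → ∀ x : Equiv.Perm (Fin n),
        (∀ i : Fin n, i.val < c → (x i).val = k - 1 - i.val) →
        (∀ i : Fin n, i.val = c → (x i).val = k) →
        (∀ i : Fin n, c < i.val → i.val ≤ k → (x i).val = k - i.val) →
        (∀ i : Fin n, k < i.val → x i = i) →
        D x (monomial (ex fun i => if i.val < c then k - 1 - i.val else k - i.val) 1) = 1 := by
      intro l
      induction l with
      | zero =>
        intro c hc x a1 a2 a3 a4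
        have hck : c = k := by omega
        subst hck
        have := ih (by omega) x a1 (fun i hi => by
          rcases Nat.lt_or_eq_of_le hi with h' | h'
          · exact a4 i h'
          · exact Fin.ext ((a2 i h'.symm).trans h'))
        have e : (ex fun i : Fin n => if i.val < c then c - 1 - i.val else c - i.val) =
            ex fun i => c - 1 - i.val := by
          ext i
          rw [ex_apply, ex_apply]
          split_ifs <;> omega
        rw [e]
        exact this
      | succ l ih2 =>
        intro c hc x a1 a2 a3 a4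
        have hcn : c < n := by omega
        have hcn' : c + 1 < n := by omega
        have hij : (⟨c + 1, hcn'⟩ : Fin n).val = (⟨c, hcn⟩ : Fin n).val + 1 := rfl
        have b1 := a2 ⟨c, hcn⟩ rfl
        have b2 := a3 ⟨c + 1, hcn'⟩ (Nat.lt_succ_self c) (by show c + 1 ≤ k; omega)
        have b2' : (x ⟨c + 1, hcn'⟩).val = k - (c + 1) := b2
        rw [h.right' hij (x := x) (by rw [Fin.lt_def, b1, b2']; omega)]
        rw [dd_stair (ne_of_adj hij) (ex fun i => if i.val < c then k - 1 - i.val else k - i.val)
          (ex fun i => if i.val < c + 1 then k - 1 - i.val else k - i.val)]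
        · apply ih2 (c + 1) (by omega)
          · intro i hi
            rw [Equiv.Perm.mul_apply]
            by_cases hic : i.val = c
            · have : i = ⟨c, hcn⟩ := Fin.ext hic
              rw [this, Equiv.swap_apply_left, b2']
              show k - (c + 1) = k - 1 - c
              omega
            · rw [Equiv.swap_apply_of_ne_of_ne, a1 i (by omega)]
              · intro h'; exact hic (congrArg Fin.val h')
              · intro h'
                have : i.val = c + 1 := congrArg Fin.val h'
                omega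
          · intro i hi
            have : i = ⟨c + 1, hcn'⟩ := Fin.ext hi
            rw [Equiv.Perm.mul_apply, this, Equiv.swap_apply_right, b1]
          · intro i hi1 hi2
            rw [Equiv.Perm.mul_apply, Equiv.swap_apply_of_ne_of_ne, a3 i (by omega) hi2]
            · intro h'
              have : i.val = c := congrArg Fin.val h'
              omega
            · intro h'
              have : i.val = c + 1 := congrArg Fin.val h'
              omega
          · intro i hi
            rw [Equiv.Perm.mul_apply, Equiv.swap_apply_of_ne_of_ne, a4 i hi]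
            · intro h'
              have : i.val = c := congrArg Fin.val h'
              omega
            · intro h'
              have : i.val = c + 1 := congrArg Fin.val h'
              omega
        · rw [ex_apply, ex_apply, if_neg (lt_irrefl c), if_neg (by show ¬ c + 1 < c; omega)]
          show k - c = k - (c + 1) + 1
          omega
        · rw [ex_apply, ex_apply, if_pos (by show c < c + 1; omega),
            if_neg (by show ¬ c + 1 < c; omega)]
          show k - 1 - c = k - (c + 1)
          omega
        · rw [ex_apply, ex_apply, if_neg (by show ¬ c + 1 < c + 1; omega),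
            if_neg (by show ¬ c + 1 < c; omega)]
        · intro i hi1 hi2
          rw [ex_apply, ex_apply]
          have c1 : i.val ≠ c := fun h' => hi1 (Fin.ext h')
          have c2 : i.val ≠ c + 1 := fun h' => hi2 (Fin.ext h')
          by_cases h3 : i.val < c
          · rw [if_pos h3, if_pos (by omega)]
          · rw [if_neg h3, if_neg (by omega)]
    have := stage k 0 (by omega) x (fun i hi => by omega) (fun i hi => by
        rw [h1 i (by omega)]; omega) (fun i hi1 hi2 => by rw [h1 i (by omega)]; omega)
      (fun i hi => h2 i (by omega))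
    have e : (ex fun i : Fin n => k + 1 - 1 - i.val) =
        ex fun i => if i.val < 0 then k - 1 - i.val else k - i.val := by
      ext i
      rw [ex_apply, ex_apply, if_neg (Nat.not_lt_zero _)]
      omega
    rw [e]
    exact this

theorem DH.rev_stair (h : DH D) :
    D Fin.revPerm (monomial (ex fun i : Fin n => n - 1 - i.val) 1) = 1 := by
  apply h.stair n le_rfl
  · intro i _
    rw [Fin.revPerm_apply, Fin.val_rev]
    omega
  · intro i hi
    have := i.isLt
    omega

/-- The Vandermonde product. -/
noncomputable def vand (n : ℕ) : MvPolynomial (Fin n) ℤ :=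
  ∏ i : Fin n, ∏ j ∈ Finset.Ioi i, (X j - X i)

theorem monomial_ex (f : Fin n → ℕ) :
    (monomial (ex f) 1 : MvPolynomial (Fin n) ℤ) = ∏ i, X i ^ f i := by
  rw [monomial_eq, map_one, one_mul, Finsupp.prod_fintype _ _ (fun i => pow_zero _)]
  rfl

theorem vand_eq : vand n = Alt (monomial (ex fun i : Fin n => i.val) 1) := by
  unfold vand
  rw [← Matrix.det_vandermonde, Matrix.det_apply, Alt_apply]
  refine Finset.sum_congr rfl fun σ _ => ?_
  rw [monomial_ex, map_prod]
  have : ∀ i, rename σ ((X i : MvPolynomial (Fin n) ℤ) ^ i.val) = X (σ i) ^ i.val := by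
    intro i
    rw [map_pow, rename_X]
  rw [Finset.prod_congr rfl (fun i _ => this i)]
  rfl

theorem rename_rev_ex (f : Fin n → ℕ) :
    rename (Fin.revPerm : Equiv.Perm (Fin n)) (monomial (ex f) 1 : MvPolynomial (Fin n) ℤ) =
      monomial (ex fun i => f (Fin.rev i)) 1 := by
  rw [monomial_ex, monomial_ex, map_prod,
    ← Equiv.prod_comp (Fin.revPerm : Equiv.Perm (Fin n)) (fun i => X i ^ f (Fin.rev i))]
  refine Finset.prod_congr rfl fun i _ => ?_
  rw [map_pow, rename_X, Fin.revPerm_apply, Fin.rev_rev]

theorem DH.bialt (h : DH D) (q : MvPolynomial (Fin n) ℤ) :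
    vand n * D Fin.revPerm q = Alt (rename (Fin.revPerm : Equiv.Perm (Fin n)) q) := by
  have h1 : (monomial (ex fun i : Fin n => i.val) 1 : MvPolynomial (Fin n) ℤ) =
      rename (Fin.revPerm : Equiv.Perm (Fin n)) (monomial (ex fun i : Fin n => n - 1 - i.val) 1) := by
    rw [rename_rev_ex]
    congr 2
    ext i
    rw [ex_apply, ex_apply, Fin.val_rev]
    have := i.isLt
    omega
  have h2 : (Fin.revPerm : Equiv.Perm (Fin n))⁻¹ = Fin.revPerm := by
    rw [inv_eq_iff_mul_eq_one]
    ext i; simp
  rw [vand_eq, h1, Alt_rename, Alt_rename, smul_mul_assoc, ← Alt_mul_sym (h.sym_rev q), h.adj, h2,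
    h.rev_stair, one_mul]

end Pool.Agent.U346
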