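import Pool.Agent.U346.Bialt

set_option autoImplicit false

namespace Pool.Agent.U346

open MvPolynomial

variable {n : ℕ}

/-- The degree in the first `k` variables. -/
def sl (k : ℕ) (κ : Fin n → ℕ) : ℕ := ∑ r ∈ Finset.univ.filter (fun r : Fin n => r.val < k), κ r

theorem Sp_mono {P Q : (Fin n →₀ ℕ) → Prop} (h : ∀ m, P m → Q m) {f : MvPolynomial (Fin n) ℤ}
    (hf : f ∈ Sp P) : f ∈ Sp Q := fun m hm => h m (hf m hm)

theorem sl_rule {i j : Fin n} (hij : i ≠ j) {k : ℕ} (hi : i.val < k) (hj : j.val < k)
    {κ μ : Fin n →₀ ℕ} (h : Rule i j κ μ) : sl k μ + 1 = sl k κ := by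
  classical
  obtain ⟨h1, h2, _, _⟩ := h
  unfold sl
  have mi : i ∈ Finset.univ.filter (fun r : Fin n => r.val < k) :=
    Finset.mem_filter.2 ⟨Finset.mem_univ _, hi⟩
  have mj : j ∈ (Finset.univ.filter (fun r : Fin n => r.val < k)).erase i :=
    Finset.mem_erase.2 ⟨Ne.symm hij, Finset.mem_filter.2 ⟨Finset.mem_univ _, hj⟩⟩
  rw [← Finset.add_sum_erase _ _ mi, ← Finset.add_sum_erase _ _ mj,
    ← Finset.add_sum_erase _ (fun r => κ r) mi, ← Finset.add_sum_erase _ _ mj]
  have e : ∑ x ∈ ((Finset.univ.filter (fun r : Fin n => r.val < k)).erase i).erase j, μ x =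
      ∑ x ∈ ((Finset.univ.filter (fun r : Fin n => r.val < k)).erase i).erase j, κ x := by
    refine Finset.sum_congr rfl fun r hr => ?_
    rw [Finset.mem_erase, Finset.mem_erase] at hr
    exact h1 r hr.2.1 hr.1
  rw [e]
  omega

variable {D : Equiv.Perm (Fin n) → MvPolynomial (Fin n) ℤ → MvPolynomial (Fin n) ℤ}

theorem DH.degree_drop (h : DH D) (k : ℕ) (x : Equiv.Perm (Fin n)) :
    (∀ i : Fin n, k ≤ i.val → x i = i) → ∀ (d : ℕ) (f : MvPolynomial (Fin n) ℤ),
      f ∈ Sp (fun κ : Fin n →₀ ℕ => d + ln x ≤ sl k κ) →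
      D x f ∈ Sp (fun κ : Fin n →₀ ℕ => d ≤ sl k κ) := by
  induction x using perm_induction with
  | h1 =>
    intro _ d f hf
    rw [h.one]
    rw [ln_one] at hf
    exact hf
  | hs x i j hij hd hl ih =>
    intro hx d f hf
    have hj : j.val < k := by
      by_contra hcon
      push Not at hcon
      have e1 : x⁻¹ j = j := by
        conv_lhs => rw [← hx j hcon]
        exact pia x j
      rw [e1, Fin.lt_def] at hd
      have e2 := hx (x⁻¹ i) (by omega)
      rw [pai] at e2
      rw [← e2] at hd
      omega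
    have hi : i.val < k := by omega
    rw [h.down hij hd]
    have h1 := ih (by
      intro r hr
      rw [Equiv.Perm.mul_apply, hx r hr, Equiv.swap_apply_of_ne_of_ne]
      · intro h'; rw [h'] at hr; omega
      · intro h'; rw [h'] at hr; omega) (d + 1) f (Sp_mono (fun m hm => by omega) hf)
    refine dd_Sp _ (fun κ μ hκ hr => ?_) h1
    have := sl_rule (ne_of_adj hij) hi hj hr
    omega

/-- The monomials in the ideal. -/
def PB (B : ℕ → ℕ) (μ : Fin n →₀ ℕ) : Prop := ∃ i : Fin n, B i.val ≤ μ i

theorem PB_of_sl {B : ℕ → ℕ} {k : ℕ} (hk : 1 ≤ k) (hn : k ≤ n) {μ : Fin n →₀ ℕ}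
    (h : sl k (fun r : Fin n => B r.val) ≤ sl k μ) : PB B μ := by
  by_contra hcon
  unfold PB at hcon
  push Not at hcon
  have : sl k μ < sl k (fun r : Fin n => B r.val) := by
    unfold sl
    apply Finset.sum_lt_sum_of_nonempty
    · exact ⟨⟨0, by omega⟩, Finset.mem_filter.2 ⟨Finset.mem_univ _, by show 0 < k; omega⟩⟩
    · intro i _
      exact hcon i
  omega

/-- The top value stays to the left of its place. -/
theorem right_desc {k c : ℕ} (hk : k < n) (hc : c < k) {x : Equiv.Perm (Fin n)}
    (h1 : x ⟨c, by omega⟩ = ⟨k, hk⟩) (h2 : ∀ i : Fin n, k < i.val → x i = i) :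
    x ⟨c + 1, by omega⟩ < x ⟨c, by omega⟩ := by
  rw [h1, Fin.lt_def]
  show (x ⟨c + 1, by omega⟩).val < k
  by_contra hcon
  push Not at hcon
  rcases Nat.lt_or_eq_of_le hcon with h3 | h3
  · have h4 := x.injective (h2 _ h3)
    have h5 := congrArg Fin.val h4
    rw [h4] at h3
    have : k < c + 1 := h3
    omega
  · have h4 : x ⟨c + 1, by omega⟩ = x ⟨c, by omega⟩ := by
      rw [h1]; exact Fin.ext h3.symm
    have h5 := congrArg Fin.val (x.injective h4)
    simp at h5

theorem DH.stageA (h : DH D) {L B : ℕ → ℕ} {k : ℕ} (hk : k < n)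
    (hLB : sl k (fun r : Fin n => B r.val) + n * n ≤ L k) (l : ℕ) :
    ∀ (c : ℕ) (hc : c + l = k), 1 ≤ c → ∀ x : Equiv.Perm (Fin n),
      x ⟨c, by omega⟩ = ⟨k, hk⟩ → (∀ i : Fin n, k < i.val → x i = i) →
      ∀ f ∈ Sp (fun κ : Fin n →₀ ℕ => L k ≤ κ ⟨0, by omega⟩), D x f ∈ Sp (PB B) := by
  induction l with
  | zero =>
    intro c hc h1 x hx1 hx2 f hf
    have hck : c = k := by omega
    subst hck
    have h2 := h.degree_drop c x (fun i hi => by
      rcases Nat.lt_or_eq_of_le hi with h' | h'
      · exact hx2 i h'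
      · have : i = ⟨c, hk⟩ := Fin.ext h'.symm
        rw [this]; exact hx1) (sl c (fun r : Fin n => B r.val)) f (Sp_mono (fun κ hκ => by
        have h3 := ln_le x
        have h4 : κ ⟨0, by omega⟩ ≤ sl c κ := by
          unfold sl
          exact Finset.single_le_sum (f := fun r => κ r) (fun _ _ => Nat.zero_le _)
            (Finset.mem_filter.2 ⟨Finset.mem_univ _, by show 0 < c; omega⟩)
        omega) hf)
    exact Sp_mono (fun κ hκ => PB_of_sl h1 (by omega) hκ) h2
  | succ l ih =>
    intro c hc h1 x hx1 hx2 f hf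
    have hcn : c < n := by omega
    have hcn' : c + 1 < n := by omega
    have hij : (⟨c + 1, hcn'⟩ : Fin n).val = (⟨c, hcn⟩ : Fin n).val + 1 := rfl
    rw [h.right' hij (x := x) (right_desc hk (by omega) hx1 hx2)]
    refine ih (c + 1) (by omega) (by omega) _ ?_ ?_ _ ?_
    · rw [Equiv.Perm.mul_apply, Equiv.swap_apply_right, hx1]
    · intro i hi
      rw [Equiv.Perm.mul_apply, Equiv.swap_apply_of_ne_of_ne, hx2 i hi]
      · intro h'
        have : i.val = c := congrArg Fin.val h'
        omega
      · intro h'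
        have : i.val = c + 1 := congrArg Fin.val h'
        omega
    · refine dd_Sp _ (fun κ μ hκ hr => ?_) hf
      have := hr.1 ⟨0, by omega⟩ (by
        intro h'
        have : (0 : ℕ) = c := congrArg Fin.val h'
        omega) (by
        intro h'
        have : (0 : ℕ) = c + 1 := congrArg Fin.val h'
        omega)
      show L k ≤ μ ⟨0, by omega⟩
      rw [this]
      exact hκ

theorem DH.claim2 (h : DH D) {L B : ℕ → ℕ} (hmono : Monotone L)
    (hLB : ∀ k, k < n → sl k (fun r : Fin n => B r.val) + n * n ≤ L k) (k : ℕ) :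
    k ≤ n → ∀ x : Equiv.Perm (Fin n), (∀ i : Fin n, k ≤ i.val → x i = i) → ln x < tri k →
      ∀ f ∈ Sp (fun κ : Fin n →₀ ℕ => ∀ i : Fin n, i.val < k → L (k - 1 - i.val) ≤ κ i),
        D x f ∈ Sp (PB B) := by
  induction k with
  | zero =>
    intro _ x _ hx
    exact absurd hx (Nat.not_lt_zero _)
  | succ k ih =>
    intro hkn x hx hlx f hf
    have hk : k < n := by omega
    have stage : ∀ l c : ℕ, ∀ (hc : c + l = k), ∀ x : Equiv.Perm (Fin n),
        x ⟨c, by omega⟩ = ⟨k, hk⟩ → (∀ i : Fin n, k < i.val → x i = i) →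
        ln x + c < tri (k + 1) →
        ∀ f ∈ Sp (fun κ : Fin n →₀ ℕ => (∀ i : Fin n, i.val < c → L (k - 1 - i.val) ≤ κ i) ∧
          ∀ i : Fin n, c ≤ i.val → i.val ≤ k → L (k - i.val) ≤ κ i), D x f ∈ Sp (PB B) := by
      intro l
      induction l with
      | zero =>
        intro c hc x hx1 hx2 hlx f hf
        have hck : c = k := by omega
        subst hck
        refine ih (by omega) x (fun i hi => ?_) ?_ f (Sp_mono (fun κ hκ => hκ.1) hf)
        · rcases Nat.lt_or_eq_of_le hi with h' | h'
          · exact hx2 i h'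
          · have : i = ⟨c, hk⟩ := Fin.ext h'.symm
            rw [this]; exact hx1
        · have : tri (c + 1) = tri c + c := rfl
          omega
      | succ l ih2 =>
        intro c hc x hx1 hx2 hlx f hf
        have hcn : c < n := by omega
        have hcn' : c + 1 < n := by omega
        have hij : (⟨c + 1, hcn'⟩ : Fin n).val = (⟨c, hcn⟩ : Fin n).val + 1 := rfl
        have hdesc := right_desc hk (by omega) hx1 hx2
        rw [h.right' hij (x := x) hdesc]
        refine ih2 (c + 1) (by omega) _ ?_ ?_ ?_ _ ?_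
        · rw [Equiv.Perm.mul_apply, Equiv.swap_apply_right, hx1]
        · intro i hi
          rw [Equiv.Perm.mul_apply, Equiv.swap_apply_of_ne_of_ne, hx2 i hi]
          · intro h'
            have : i.val = c := congrArg Fin.val h'
            omega
          · intro h'
            have : i.val = c + 1 := congrArg Fin.val h'
            omega
        · have := ln_right_desc hij hdesc
          omega
        · refine dd_Sp _ (fun κ μ hκ hr => ?_) hf
          obtain ⟨k1, k2⟩ := hκ
          obtain ⟨r1, r2, r3, r4⟩ := hr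
          have q1 := k2 ⟨c, hcn⟩ le_rfl (by show c ≤ k; omega)
          have q2 := k2 ⟨c + 1, hcn'⟩ (by show c ≤ c + 1; omega) (by show c + 1 ≤ k; omega)
          have q1' : L (k - c) ≤ κ ⟨c, hcn⟩ := q1
          have q2' : L (k - (c + 1)) ≤ κ ⟨c + 1, hcn'⟩ := q2
          have q3 : L (k - (c + 1)) ≤ L (k - c) := hmono (by omega)
          have q4 : L (k - (c + 1)) ≤ min (κ ⟨c, hcn⟩) (κ ⟨c + 1, hcn'⟩) :=
            le_min (q3.trans q1') q2'
          constructor
          · intro i hi
            by_cases hic : i.val = c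
            · have : i = ⟨c, hcn⟩ := Fin.ext hic
              rw [this]
              show L (k - 1 - c) ≤ _
              rw [show k - 1 - c = k - (c + 1) by omega]
              exact q4.trans r3
            · rw [r1 i (fun h' => hic (congrArg Fin.val h')) (fun h' => by
                have : i.val = c + 1 := congrArg Fin.val h'
                omega)]
              exact k1 i (by omega)
          · intro i hi1 hi2
            by_cases hic : i.val = c + 1
            · have : i = ⟨c + 1, hcn'⟩ := Fin.ext hic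
              rw [this]
              exact q4.trans r4
            · rw [r1 i (fun h' => by
                have : i.val = c := congrArg Fin.val h'
                omega) (fun h' => hic (congrArg Fin.val h'))]
              exact k2 i (by omega) hi2
    -- the position of the top value
    have hc1 : (x⁻¹ ⟨k, hk⟩).val ≤ k := by
      by_contra hcon
      push Not at hcon
      have h2 := hx _ (show k + 1 ≤ (x⁻¹ ⟨k, hk⟩).val by omega)
      rw [pai] at h2
      rw [← h2] at hcon
      exact absurd hcon (lt_irrefl k)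
    obtain ⟨c, hc⟩ : ∃ c, c = (x⁻¹ ⟨k, hk⟩).val := ⟨_, rfl⟩
    have hxc : x ⟨c, by omega⟩ = ⟨k, hk⟩ := by
      have : (⟨c, by omega⟩ : Fin n) = x⁻¹ ⟨k, hk⟩ := Fin.ext hc
      rw [this, pai]
    have hx' : ∀ i : Fin n, k < i.val → x i = i := fun i hi => hx i hi
    by_cases hc0 : c = 0
    · subst hc0
      refine stage k 0 (by omega) x hxc hx' (by omega) f (Sp_mono (fun κ hκ => ?_) hf)
      refine ⟨fun i hi => absurd hi (Nat.not_lt_zero _), fun i _ hi => ?_⟩
      have := hκ i (by omega)
      rwa [show k + 1 - 1 - i.val = k - i.val by omega] at this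
    · refine h.stageA hk (hLB k hk) (k - c) c (by omega) (by omega) x hxc hx' f
        (Sp_mono (fun κ hκ => ?_) hf)
      have := hκ ⟨0, by omega⟩ (by show 0 < k + 1; omega)
      exact this

/-- The operators other than the longest one send the dominant monomial into the ideal. -/
theorem DH.claim2_top (h : DH D) {L B : ℕ → ℕ} (hmono : Monotone L)
    (hLB : ∀ k, k < n → sl k (fun r : Fin n => B r.val) + n * n ≤ L k)
    {x : Equiv.Perm (Fin n)} (hx : x ≠ Fin.revPerm) :
    D x (monomial (ex fun i : Fin n => L (n - 1 - i.val)) 1) ∈ Sp (PB B) := by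
  refine h.claim2 hmono hLB n le_rfl x (fun i hi => ?_) (ln_lt_tri hx) _ (monomial_Sp ?_ 1)
  · have := i.isLt
    omega
  · intro i _
    rw [ex_apply]

end Pool.Agent.U346
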