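import Pool.Agent.U346.Prod

set_option autoImplicit false

namespace Pool.Agent.U346

open MvPolynomial Module

variable {M : ℕ} {κ κ' : Type}

/-- The natural weight of a monomial. -/
noncomputable def wN (d : (Fin (M + 1) × κ) →₀ ℕ) : Fin (M + 1) →₀ ℕ :=
  Finsupp.equivFunOnFinite.symm (fun r => (Finsupp.weight (w (M := M)) d r).toNat)

/-- Integer valued version of a natural weight. -/
def toWt (m : Fin (M + 1) →₀ ℕ) : Wt M := fun r => (m r : ℤ)

theorem toWt_inj : Function.Injective (toWt (M := M)) := by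
  intro m m' h
  ext r
  have := congrFun h r
  unfold toWt at this
  exact_mod_cast this

theorem toWt_wN [Fintype κ] (d : (Fin (M + 1) × κ) →₀ ℕ) :
    toWt (wN d) = Finsupp.weight (w (M := M)) d := by
  funext r
  unfold toWt wN
  rw [Finsupp.equivFunOnFinite_symm_apply_apply, Int.toNat_of_nonneg (weight_nonneg d r)]

theorem toWt_add (m m' : Fin (M + 1) →₀ ℕ) : toWt (m + m') = toWt m + toWt m' := by
  funext r
  unfold toWt
  rw [Finsupp.add_apply, Pi.add_apply]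
  push_cast
  rfl

/-- The generating series of a function on weights. -/
def ofFun (h : Wt M → ℤ) : MvPowerSeries (Fin (M + 1)) ℤ := fun m => h (toWt m)

theorem coeff_ofFun (h : Wt M → ℤ) (m : Fin (M + 1) →₀ ℕ) :
    MvPowerSeries.coeff m (ofFun h) = h (toWt m) := rfl

theorem hF_nonneg (I : Ideal (S M κ)) [Fintype κ] (ν : Wt M) : 0 ≤ hF I ν := by
  unfold hF
  have : finrank ℚ ((I.restrictScalars ℚ ⊓ gr M κ ν : Submodule ℚ (S M κ))) ≤
      finrank ℚ (gr M κ ν) := Submodule.finrank_mono inf_le_right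
  omega

theorem hF_supp (I : Ideal (S M κ)) [Fintype κ] (ν : Wt M) (r : Fin (M + 1)) (hr : ν r < 0) :
    hF I ν = 0 := by
  unfold hF
  have h1 : finrank ℚ (gr M κ ν) = 0 := by
    rw [gr_eq_bot ν r hr, finrank_bot]
  have h2 : finrank ℚ ((I.restrictScalars ℚ ⊓ gr M κ ν : Submodule ℚ (S M κ))) ≤
      finrank ℚ (gr M κ ν) := Submodule.finrank_mono inf_le_right
  omega

theorem HH_nonneg {h : Wt M → ℤ} (hh : h ∈ HH M) (ν : Wt M) : 0 ≤ h ν := by
  unfold HH at hh
  refine AddSubmonoid.closure_induction (motive := fun h _ => ∀ ν, 0 ≤ h ν) ?_ ?_ ?_ hh ν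
  · rintro h ⟨κ, _, I, χ, hI, hχ, rfl⟩ ν
    exact hF_nonneg _ _
  · intro ν; exact le_rfl
  · intro h1 h2 _ _ i1 i2 ν
    exact add_nonneg (i1 ν) (i2 ν)

theorem HH_supp {h : Wt M → ℤ} (hh : h ∈ HH M) (ν : Wt M) (r : Fin (M + 1)) (hr : ν r < 0) :
    h ν = 0 := by
  unfold HH at hh
  refine AddSubmonoid.closure_induction (motive := fun h _ => ∀ ν : Wt M, ν r < 0 → h ν = 0)
    ?_ ?_ ?_ hh ν hr
  · rintro h ⟨κ, _, I, χ, hI, hχ, rfl⟩ ν hν
    have : 0 ≤ χ r := hχ r
    exact hF_supp _ _ r (by rw [Pi.sub_apply]; linarith)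
  · intro ν _; rfl
  · intro h1 h2 _ _ i1 i2 ν hν
    rw [Pi.add_apply, i1 ν hν, i2 ν hν, add_zero]

/-- Shifts are multiplications by monomials. -/
theorem ofFun_shift {h : Wt M → ℤ} (hh : ∀ (ν : Wt M) (r : Fin (M + 1)), ν r < 0 → h ν = 0)
    (n : Fin (M + 1) →₀ ℕ) :
    ofFun (fun ν => h (ν - toWt n)) = MvPowerSeries.monomial n 1 * ofFun h := by
  classical
  ext m
  rw [coeff_ofFun, MvPowerSeries.coeff_monomial_mul]
  split_ifs with hle
  · rw [one_mul, coeff_ofFun]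
    congr 1
    funext r
    rw [Pi.sub_apply]
    unfold toWt
    rw [Finsupp.tsub_apply, Nat.cast_sub (hle r)]
  · have : ∃ r, m r < n r := by
      by_contra hcon
      push Not at hcon
      exact hle hcon
    obtain ⟨r, hr⟩ := this
    apply hh _ r
    rw [Pi.sub_apply]
    unfold toWt
    omega

theorem exists_toWt {χ : Wt M} (hχ : 0 ≤ χ) : ∃ n : Fin (M + 1) →₀ ℕ, χ = toWt n := by
  refine ⟨Finsupp.equivFunOnFinite.symm (fun r => (χ r).toNat), ?_⟩
  funext r
  unfold toWt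
  rw [Finsupp.equivFunOnFinite_symm_apply_apply, Int.toNat_of_nonneg (hχ r)]

theorem hF_prod [Fintype κ] [Fintype κ'] {I : Ideal (S M κ)} {I' : Ideal (S M κ')}
    (hI : BIdeal I) (hI' : BIdeal I') :
    ofFun (hF (PI I I')) = ofFun (hF I) * ofFun (hF I') := by
  classical
  obtain ⟨β, a, h⟩ := exists_MB I
  obtain ⟨β', a', h'⟩ := exists_MB I'
  have h'' := MB_prod hI hI' h h'
  ext m
  rw [coeff_ofFun, MvPowerSeries.coeff_mul, h''.dim (PI_B hI hI')]
  simp only [coeff_ofFun, h.dim hI, h'.dim hI']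
  have hw : ∀ b : β × β', Finsupp.weight (w (M := M)) ((a b.1).mapDomain
      (fun p => (p.1, (Sum.inl p.2 : κ ⊕ κ'))) +
      (a' b.2).mapDomain (fun p => (p.1, Sum.inr p.2))) = toWt (wN (a b.1) + wN (a' b.2)) := by
    intro b
    rw [toWt_add, toWt_wN, toWt_wN, map_add]
    congr 1
    · rw [Finsupp.weight_apply, Finsupp.sum_mapDomain_index, Finsupp.weight_apply]
      · rfl
      · intro b; rw [zero_smul]
      · intro b m n; rw [add_smul]
    · rw [Finsupp.weight_apply, Finsupp.sum_mapDomain_index, Finsupp.weight_apply]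
      · rfl
      · intro b; rw [zero_smul]
      · intro b m n; rw [add_smul]
  have e1 : Nat.card {b : β × β' // Finsupp.weight (w (M := M)) ((a b.1).mapDomain
      (fun p => (p.1, (Sum.inl p.2 : κ ⊕ κ'))) +
      (a' b.2).mapDomain (fun p => (p.1, Sum.inr p.2))) = toWt m} =
      Nat.card ((p : Finset.HasAntidiagonal.antidiagonal m) ×
        ({b : β // Finsupp.weight (w (M := M)) (a b) = toWt p.1.1} ×
        {b : β' // Finsupp.weight (w (M := M)) (a' b) = toWt p.1.2})) := by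
    symm
    refine Nat.card_congr (Equiv.ofBijective (fun x => ⟨(x.2.1.1, x.2.2.1), ?_⟩) ⟨?_, ?_⟩)
    · rw [hw, toWt_add, toWt_wN, toWt_wN]
      show Finsupp.weight (w (M := M)) (a x.2.1.1) + Finsupp.weight (w (M := M)) (a' x.2.2.1) = _
      rw [x.2.1.2, x.2.2.2, ← toWt_add, Finset.HasAntidiagonal.mem_antidiagonal.1 x.1.2]
    · rintro ⟨⟨⟨p, q⟩, hp⟩, ⟨b, hb⟩, ⟨b', hb'⟩⟩ ⟨⟨⟨p', q'⟩, hp'⟩, ⟨c, hc⟩, ⟨c', hc'⟩⟩ hh
      simp only [Subtype.mk.injEq, Prod.mk.injEq] at hh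
      obtain ⟨rfl, rfl⟩ := hh
      have e2 : p = p' := toWt_inj (hb.symm.trans hc)
      have e3 : q = q' := toWt_inj (hb'.symm.trans hc')
      subst e2
      subst e3
      rfl
    · rintro ⟨⟨b, b'⟩, hb⟩
      rw [hw] at hb
      have hb := toWt_inj hb
      exact ⟨⟨⟨(wN (a b), wN (a' b')), Finset.HasAntidiagonal.mem_antidiagonal.2 hb⟩,
        ⟨b, (toWt_wN _).symm⟩, ⟨b', (toWt_wN _).symm⟩⟩, rfl⟩
  have hfin : ∀ (ν : Wt M), Finite {b : β // Finsupp.weight (w (M := M)) (a b) = ν} := by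
    intro ν
    have h1 : Set.Finite {b : β | Finsupp.weight (w (M := M)) (a b) = ν} :=
      Set.Finite.preimage h.inj.injOn (finite_weight (M := M) (κ := κ) ν)
    exact h1.to_subtype
  have hfin' : ∀ (ν : Wt M), Finite {b : β' // Finsupp.weight (w (M := M)) (a' b) = ν} := by
    intro ν
    have h1 : Set.Finite {b : β' | Finsupp.weight (w (M := M)) (a' b) = ν} :=
      Set.Finite.preimage h'.inj.injOn (finite_weight (M := M) (κ := κ') ν)
    exact h1.to_subtype
  rw [e1, Nat.card_sigma]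
  push_cast
  rw [← Finset.sum_coe_sort (Finset.HasAntidiagonal.antidiagonal m)]
  refine Finset.sum_congr rfl fun p _ => ?_
  rw [Nat.card_prod]
  push_cast
  rfl

theorem HH_mul {h1 h2 : Wt M → ℤ} (hh1 : h1 ∈ HH M) (hh2 : h2 ∈ HH M) :
    ∃ h ∈ HH M, ofFun h = ofFun h1 * ofFun h2 := by
  have hadd : ∀ f g : Wt M → ℤ, ofFun (f + g) = ofFun f + ofFun g := by
    intro f g; ext m; rfl
  have hzero : ofFun (0 : Wt M → ℤ) = 0 := by ext m; rfl
  unfold HH at hh1
  refine AddSubmonoid.closure_induction (motive := fun h1 _ =>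
    ∃ h ∈ HH M, ofFun h = ofFun h1 * ofFun h2) ?_ ?_ ?_ hh1
  · rintro h1 ⟨κ, _, I, χ, hI, hχ, rfl⟩
    unfold HH at hh2
    refine AddSubmonoid.closure_induction (motive := fun h2 _ =>
      ∃ h ∈ HH M, ofFun h = ofFun (fun ν => hF I (ν - χ)) * ofFun h2) ?_ ?_ ?_ hh2
    · rintro h2 ⟨κ', _, I', χ', hI', hχ', rfl⟩
      refine ⟨fun ν => hF (PI I I') (ν - (χ + χ')), ?_, ?_⟩
      · apply AddSubmonoid.subset_closure
        exact ⟨κ ⊕ κ', inferInstance, PI I I', χ + χ', PI_B hI hI', add_nonneg hχ hχ', rfl⟩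
      · obtain ⟨n, rfl⟩ := exists_toWt hχ
        obtain ⟨n', rfl⟩ := exists_toWt hχ'
        have hmm : (MvPowerSeries.monomial (n + n') (1 : ℤ) : MvPowerSeries (Fin (M + 1)) ℤ) =
            MvPowerSeries.monomial n 1 * MvPowerSeries.monomial n' 1 := by
          rw [MvPowerSeries.monomial_mul_monomial, one_mul]
        rw [← toWt_add, ofFun_shift (hF_supp _), ofFun_shift (hF_supp _), ofFun_shift (hF_supp _),
          hF_prod hI hI', hmm]
        exact mul_mul_mul_comm _ _ _ _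
    · exact ⟨0, (HH M).zero_mem, by rw [hzero, mul_zero]⟩
    · rintro f g _ _ ⟨f', hf', ef⟩ ⟨g', hg', eg⟩
      exact ⟨f' + g', (HH M).add_mem hf' hg', by rw [hadd, hadd, ef, eg, mul_add]⟩
  · exact ⟨0, (HH M).zero_mem, by rw [hzero, zero_mul]⟩
  · rintro f g _ _ ⟨f', hf', ef⟩ ⟨g', hg', eg⟩
    exact ⟨f' + g', (HH M).add_mem hf' hg', by rw [hadd, hadd, ef, eg, add_mul]⟩

end Pool.Agent.U346
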