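import Pool.Agent.U346.Filt

set_option autoImplicit false

namespace Pool.Agent.U346

open MvPolynomial Module

variable {M : ℕ} {κ : Type}

theorem EE_Wd (j i : Fin M) (d : ℕ) (f : W M κ) (hf : f ∈ Wd M κ d) : EE j i f ∈ Wd M κ d := by
  intro k hk
  rw [EE_apply, hf k hk, hf (k + 1) (by omega), map_zero, smul_zero, add_zero]

theorem FF_Wd (j : Fin M) (d : ℕ) (f : W M κ) (hf : f ∈ Wd M κ d) : FF j d f ∈ Wd M κ d := by
  intro k hk
  rw [FF_apply, hf k hk, map_zero, zero_add]
  by_cases hk2 : k = d + 1
  · subst hk2
    simp
  · rw [hf (k - 1) (by omega), smul_zero]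

theorem EE_top (j i : Fin M) (d : ℕ) (f : W M κ) (hf : f ∈ Wd M κ d) :
    EE j i f d = E i (f d) := by
  rw [EE_apply, hf (d + 1) (by omega), smul_zero, add_zero]

theorem EEpow_Wd (j : Fin M) (d n : ℕ) (f : W M κ) (hf : f ∈ Wd M κ d) :
    (EE j j ^ n) f ∈ Wd M κ d := by
  induction n with
  | zero => simpa using hf
  | succ n ih =>
    rw [pow_succ', Module.End.mul_apply]
    exact EE_Wd _ _ _ _ ih

theorem EEpow_top (j : Fin M) (d n : ℕ) (f : W M κ) (hf : f ∈ Wd M κ d) :
    (EE j j ^ n) f d = (EL j ^ n) (f d) := by
  induction n with
  | zero => simp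
  | succ n ih =>
    rw [pow_succ', Module.End.mul_apply, EE_top _ _ _ _ (EEpow_Wd j d n f hf), ih, pow_succ',
      Module.End.mul_apply, EL_apply]

/-- `(F ^ n f) d ∈ I` for all `n`. -/
def Q0 (I : Ideal (S M κ)) (j : Fin M) (d : ℕ) : Submodule (S M κ) (W M κ) where
  carrier := {f | f ∈ Wd M κ d ∧ ∀ n : ℕ, (FF j d ^ n) f d ∈ I}
  add_mem' := by
    rintro f g ⟨h1, h2⟩ ⟨h3, h4⟩
    refine ⟨Submodule.add_mem _ h1 h3, fun n => ?_⟩
    rw [map_add, Pi.add_apply]
    exact I.add_mem (h2 n) (h4 n)
  zero_mem' := by
    refine ⟨Submodule.zero_mem _, fun n => ?_⟩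
    rw [map_zero]
    exact I.zero_mem
  smul_mem' := by
    rintro g f ⟨h1, h2⟩
    refine ⟨Submodule.smul_mem _ _ h1, fun n => ?_⟩
    have key : ∀ n : ℕ, ∀ (g : S M κ) (f : W M κ), (∀ n : ℕ, (FF j d ^ n) f d ∈ I) →
        (FF j d ^ n) (g • f) d ∈ I := by
      intro n
      induction n with
      | zero =>
        intro g f h
        have := h 0
        simp only [pow_zero, Module.End.one_apply] at this ⊢
        exact I.mul_mem_left _ this
      | succ n ih =>
        intro g f h
        rw [pow_succ, Module.End.mul_apply, FF_smul, map_add, Pi.add_apply]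
        refine I.add_mem (ih _ f h) (ih g _ fun m => ?_)
        have := h (m + 1)
        rwa [pow_succ, Module.End.mul_apply] at this
    exact key n g f h2

theorem mem_Q0 {I : Ideal (S M κ)} {j : Fin M} {d : ℕ} {f : W M κ} :
    f ∈ Q0 I j d ↔ f ∈ Wd M κ d ∧ ∀ n : ℕ, (FF j d ^ n) f d ∈ I := Iff.rfl

theorem FF_cW (j : Fin M) (d : ℕ) (f : W M κ) (hf : f ∈ Wd M κ d) (μ : Wt M) :
    FF j d (cW j d μ f) = cW j d (μ - al j) (FF j d f) := by
  classical
  -- it suffices to treat homogeneous `f` supported in one place
  funext k
  have hcmpF : ∀ (ρ : Wt M) (g : S M κ), F j (cmp ρ g) = cmp (ρ - al j) (F j g) := by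
    intro ρ g
    obtain ⟨T, hT, hT2⟩ := exists_sum_cmp g
    have key : ∀ σ, cmp (ρ - al j) (F j (cmp σ g)) = if σ = ρ then F j (cmp ρ g) else 0 := by
      intro σ
      have h1 := F_mem j _ _ (cmp_mem σ g)
      split_ifs with h
      · subst h; exact cmp_same h1
      · apply cmp_ne _ h1
        intro h2
        exact h (sub_left_injective h2).symm
    conv_rhs => rw [hT]
    rw [map_sum, map_sum, Finset.sum_congr rfl (fun σ _ => key σ), Finset.sum_ite_eq']
    split_ifs with h
    · rfl
    · rw [hT2 _ h, map_zero]
  rw [FF_apply]
  by_cases hk : k ≤ d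
  · have e1 : cW j d μ f k = cmp (μ - sh j d k) (f k) := by unfold cW; rw [if_pos hk]
    have e2 : cW j d (μ - al j) (FF j d f) k = cmp (μ - al j - sh j d k) (FF j d f k) := by
      unfold cW; rw [if_pos hk]
    rw [e1, e2, FF_apply, map_add, hcmpF, show μ - sh j d k - al j = μ - al j - sh j d k by abel]
    congr 1
    cases k with
    | zero => simp
    | succ k =>
      have e3 : cW j d μ f k = cmp (μ - sh j d k) (f k) := by unfold cW; rw [if_pos (by omega)]
      rw [Nat.add_sub_cancel, e3, map_smul, show μ - al j - sh j d (k + 1) = μ - sh j d k by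
        rw [sh_succ j d k]; abel]
  · have e1 : cW j d μ f k = 0 := by unfold cW; rw [if_neg hk]
    have e2 : cW j d (μ - al j) (FF j d f) k = 0 := by unfold cW; rw [if_neg hk]
    rw [e1, e2, map_zero, zero_add]
    by_cases hk2 : k = d + 1
    · subst hk2; simp
    · have e3 : cW j d μ f (k - 1) = 0 := by unfold cW; rw [if_neg (by omega)]
      rw [e3, smul_zero]

theorem FFpow_Wd (j : Fin M) (d n : ℕ) (f : W M κ) (hf : f ∈ Wd M κ d) :
    (FF j d ^ n) f ∈ Wd M κ d := by
  induction n with
  | zero => simpa using hf
  | succ n ih =>
    rw [pow_succ', Module.End.mul_apply]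
    exact FF_Wd _ _ _ ih

theorem FFpow_cW (j : Fin M) (d n : ℕ) (f : W M κ) (hf : f ∈ Wd M κ d) (μ : Wt M) :
    (FF j d ^ n) (cW j d μ f) = cW j d (μ - (n : ℤ) • al j) ((FF j d ^ n) f) := by
  induction n with
  | zero => simp
  | succ n ih =>
    rw [pow_succ', Module.End.mul_apply, ih, FF_cW _ _ _ (FFpow_Wd j d n f hf), Module.End.mul_apply]
    congr 1
    push_cast; module

theorem Q0_good (I : Ideal (S M κ)) (hI : BIdeal I) (j : Fin M) (d : ℕ) : Good j d (Q0 I j d) := by
  refine ⟨fun f hf => hf.1, ?_, ?_⟩
  · rintro f ⟨h1, h2⟩ μ
    refine ⟨(cW_mem j d μ f).2, fun n => ?_⟩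
    rw [FFpow_cW _ _ _ _ h1]
    unfold cW
    rw [if_pos le_rfl]
    exact hI.hom _ (h2 n) _
  · rintro i f ⟨h1, h2⟩
    refine ⟨EE_Wd _ _ _ _ h1, fun n => ?_⟩
    by_cases hij : i = j
    · subst hij
      -- F^n E f = E F^n f - (multiples of F^(n-1) f componentwise)
      have key : ∀ n : ℕ, ∀ f : W M κ, f ∈ Wd M κ d → (∀ m : ℕ, (FF i d ^ m) f d ∈ I) →
          (FF i d ^ n) (EE i i f) d ∈ I := by
        intro n
        induction n with
        | zero =>
          intro f hf h
          simp only [pow_zero, Module.End.one_apply]
          rw [EE_top _ _ _ _ hf]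
          exact hI.stab _ _ (by simpa using h 0)
        | succ n ih =>
          intro f hf h
          -- FF (EE f) = EE (FF f) - H f, where H f is weightwise a multiple of f
          rw [pow_succ, Module.End.mul_apply]
          have e : FF i d (EE i i f) = EE i i (FF i d f) - (EE i i (FF i d f) - FF i d (EE i i f)) := by
            abel
          rw [e, map_sub, Pi.sub_apply]
          refine I.sub_mem (ih _ (FF_Wd _ _ _ hf) fun m => ?_) ?_
          · have := h (m + 1)
            rwa [pow_succ, Module.End.mul_apply] at this
          · -- decompose f into homogeneous components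
            have hmem : ∀ x ∈ Q0 I i d, (FF i d ^ n) (EE i i (FF i d x) - FF i d (EE i i x)) d ∈ I := by
              intro x hx
              have hgood_hom : ∀ μ, cW i d μ x ∈ Q0 I i d := by
                intro μ
                obtain ⟨g1, g2⟩ := hx
                refine ⟨(cW_mem i d μ x).2, fun n => ?_⟩
                rw [FFpow_cW _ _ _ _ g1]
                unfold cW
                rw [if_pos le_rfl]
                exact hI.hom _ (g2 n) _
              classical
              -- finite set of weights
              have hfin : ∃ T : Finset (Wt M), x = ∑ μ ∈ T, cW i d μ x := by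
                choose T hT hT2 using fun g : S M κ => exists_sum_cmp g
                refine ⟨(Finset.range (d + 1)).biUnion fun k => (T (x k)).image (fun ρ => ρ + sh i d k),
                  ?_⟩
                funext k
                rw [Finset.sum_apply]
                by_cases hk : k ≤ d
                · have e3 : ∀ μ : Wt M, cW i d μ x k = cmp (μ - sh i d k) (x k) := by
                    intro μ; unfold cW; rw [if_pos hk]
                  simp only [e3]
                  conv_lhs => rw [hT (x k)]
                  have e4 : ∑ μ ∈ T (x k), cmp μ (x k) =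
                      ∑ μ ∈ (T (x k)).image (fun ρ => ρ + sh i d k), cmp (μ - sh i d k) (x k) := by
                    rw [Finset.sum_image (fun a _ b _ hab => add_right_cancel hab)]
                    simp only [add_sub_cancel_right]
                  rw [e4]
                  apply Finset.sum_subset
                  · exact Finset.subset_biUnion_of_mem
                      (fun k => (T (x k)).image (fun ρ => ρ + sh i d k)) (Finset.mem_range.2 (by omega))
                  · intro μ _ hμ
                    apply hT2
                    intro hmem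
                    apply hμ
                    exact Finset.mem_image.2 ⟨_, hmem, by rw [sub_add_cancel]⟩
                · rw [hx.1 k (by omega), Finset.sum_eq_zero]
                  intro μ _
                  unfold cW; rw [if_neg hk]
              obtain ⟨T, hT⟩ := hfin
              rw [hT]
              simp only [map_sum, ← Finset.sum_sub_distrib]
              rw [Finset.sum_apply]
              refine I.sum_mem fun μ _ => ?_
              have hy := cW_mem i d μ x
              have hH : EE i i (FF i d (cW i d μ x)) - FF i d (EE i i (cW i d μ x)) =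
                  ((μ i.castSucc - μ i.succ : ℤ) : ℚ) • cW i d μ x := by
                funext l
                rw [Pi.sub_apply, EE_FF_same, Pi.smul_apply]
                by_cases hl : l ≤ d
                · have := EF_same i _ _ (hy.1 l hl)
                  rw [this, ← add_smul]
                  congr 1
                  have h1 : sh i d l i.castSucc = (d : ℤ) - l := by
                    unfold sh
                    rw [Pi.add_apply, Pi.smul_apply, Pi.smul_apply, al_cs,
                      Pi.single_eq_of_ne (cs_ne_s i)]
                    simp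
                  have h2 : sh i d l i.succ = l := by
                    unfold sh
                    rw [Pi.add_apply, Pi.smul_apply, Pi.smul_apply, al_s, Pi.single_eq_same]
                    simp
                  simp only [Pi.sub_apply, h1, h2]
                  push_cast
                  ring
                · rw [hy.2 l (by omega)]
                  simp
              rw [hH, map_smul, Pi.smul_apply]
              exact (I.restrictScalars ℚ).smul_mem _ ((hgood_hom μ).2 n)
            exact hmem f ⟨hf, h⟩
      exact key n f h1 h2
    · have key : ∀ n : ℕ, (FF j d ^ n) (EE j i f) = EE j i ((FF j d ^ n) f) := by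
        intro n
        induction n with
        | zero => simp
        | succ n ih =>
          rw [pow_succ', Module.End.mul_apply, ih, ← EE_FF_diff j i hij, Module.End.mul_apply]
      rw [key, EE_top _ _ _ _ (FFpow_Wd j d n f h1)]
      exact hI.stab _ _ (h2 n)

end Pool.Agent.U346
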