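import Pool.Agent.U346.Ord

set_option autoImplicit false
set_option linter.unusedSectionVars false

namespace Pool.Agent.U346

open MvPolynomial

variable {σ τ : Type} [DecidableEq σ] [DecidableEq τ]

theorem XX_ne {i j : σ} (h : i ≠ j) : (X i - X j : MvPolynomial σ ℤ) ≠ 0 := by
  rw [sub_ne_zero]
  intro h'
  exact h (X_injective h')

/-- Divided differences. -/
noncomputable def dd (i j : σ) (h : i ≠ j) : MvPolynomial σ ℤ →ₗ[ℤ] MvPolynomial σ ℤ where
  toFun f := Classical.choose (exists_dd i j f)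
  map_add' f g := by
    apply mul_left_cancel₀ (XX_ne h)
    rw [mul_add, Classical.choose_spec (exists_dd i j _), Classical.choose_spec (exists_dd i j _),
      Classical.choose_spec (exists_dd i j _), map_add]
    ring
  map_smul' c f := by
    apply mul_left_cancel₀ (XX_ne h)
    rw [mul_smul_comm, Classical.choose_spec (exists_dd i j _),
      Classical.choose_spec (exists_dd i j _), map_smul, smul_sub]
    rfl

theorem dd_spec {i j : σ} (h : i ≠ j) (f : MvPolynomial σ ℤ) :
    (X i - X j) * dd i j h f = f - rename (Equiv.swap i j) f :=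
  Classical.choose_spec (exists_dd i j f)

theorem dd_unique {i j : σ} (h : i ≠ j) {f g : MvPolynomial σ ℤ}
    (hg : (X i - X j) * g = f - rename (Equiv.swap i j) f) : g = dd i j h f :=
  mul_left_cancel₀ (XX_ne h) (hg.trans (dd_spec h f).symm)

theorem dd_mul_sym {i j : σ} (h : i ≠ j) {f : MvPolynomial σ ℤ}
    (hf : rename (Equiv.swap i j) f = f) (g : MvPolynomial σ ℤ) :
    dd i j h (f * g) = f * dd i j h g := by
  symm
  apply dd_unique
  rw [map_mul, hf, mul_left_comm, dd_spec]
  ring

theorem dd_of_sym {i j : σ} (h : i ≠ j) {f : MvPolynomial σ ℤ}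
    (hf : rename (Equiv.swap i j) f = f) : dd i j h f = 0 := by
  symm
  apply dd_unique
  rw [hf, sub_self, mul_zero]

theorem rename_swap_swap (i j : σ) (f : MvPolynomial σ ℤ) :
    rename (Equiv.swap i j) (rename (Equiv.swap i j) f) = f := by
  rw [rename_rename, ← Equiv.coe_trans, Equiv.swap_swap, Equiv.coe_refl, rename_id]
  rfl

theorem sym_dd {i j : σ} (h : i ≠ j) (f : MvPolynomial σ ℤ) :
    rename (Equiv.swap i j) (dd i j h f) = dd i j h f := by
  apply dd_unique
  have h1 := congrArg (rename (Equiv.swap i j)) (dd_spec h f)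
  rw [map_mul, map_sub, map_sub, rename_X, rename_X, Equiv.swap_apply_left,
    Equiv.swap_apply_right, rename_swap_swap] at h1
  have h2 : (X i - X j) * rename (Equiv.swap i j) (dd i j h f) =
      -((X j - X i) * rename (Equiv.swap i j) (dd i j h f)) := by ring
  rw [h2, h1]
  ring

theorem dd_dd {i j : σ} (h : i ≠ j) (f : MvPolynomial σ ℤ) : dd i j h (dd i j h f) = 0 :=
  dd_of_sym h (sym_dd h f)

theorem dd_rename {φ : σ → τ} (hφ : Function.Injective φ) {i j : σ} (h : i ≠ j)
    (f : MvPolynomial σ ℤ) :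
    rename φ (dd i j h f) = dd (φ i) (φ j) (fun h' => h (hφ h')) (rename φ f) := by
  apply dd_unique
  have h1 := congrArg (rename φ) (dd_spec h f)
  rw [map_mul, map_sub, map_sub, rename_X, rename_X] at h1
  rw [h1, rename_rename, rename_rename]
  congr 3
  funext k
  rw [Function.comp_apply, Function.comp_apply]
  by_cases hi : k = i
  · subst hi
    rw [Equiv.swap_apply_left, Equiv.swap_apply_left]
  · by_cases hj : k = j
    · subst hj
      rw [Equiv.swap_apply_right, Equiv.swap_apply_right]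
    · rw [Equiv.swap_apply_of_ne_of_ne hi hj,
        Equiv.swap_apply_of_ne_of_ne (fun h => hi (hφ h)) (fun h => hj (hφ h))]

/-- The relation between a monomial and the monomials of its divided difference. -/
def Rule (i j : σ) (κ μ : σ →₀ ℕ) : Prop :=
  (∀ r, r ≠ i → r ≠ j → μ r = κ r) ∧ μ i + μ j + 1 = κ i + κ j ∧
    min (κ i) (κ j) ≤ μ i ∧ min (κ i) (κ j) ≤ μ j

/-- Polynomials whose monomials satisfy a predicate. -/
def Sp (P : (σ →₀ ℕ) → Prop) : Submodule ℤ (MvPolynomial σ ℤ) where
  carrier := {f | ∀ m, coeff m f ≠ 0 → P m}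
  add_mem' := by
    intro f g hf hg m hm
    by_cases h : coeff m f = 0
    · apply hg
      rw [coeff_add, h, zero_add] at hm
      exact hm
    · exact hf m h
  zero_mem' := by
    intro m hm
    exact absurd (coeff_zero m) hm
  smul_mem' := by
    intro c f hf m hm
    apply hf
    intro h
    apply hm
    rw [coeff_smul, h, smul_zero]

theorem mem_Sp {P : (σ →₀ ℕ) → Prop} {f : MvPolynomial σ ℤ} :
    f ∈ Sp P ↔ ∀ m, coeff m f ≠ 0 → P m := Iff.rfl

theorem monomial_Sp {P : (σ →₀ ℕ) → Prop} {m : σ →₀ ℕ} (h : P m) (c : ℤ) :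
    (monomial m c : MvPolynomial σ ℤ) ∈ Sp P := by
  intro m' hm'
  rw [coeff_monomial] at hm'
  by_cases h' : m = m'
  · rw [← h']; exact h
  · rw [if_neg h'] at hm'
    exact absurd rfl hm'

/-- A linear map that sends monomials satisfying `P` into a submodule sends `Sp P` there. -/
theorem Sp_le {P : (σ →₀ ℕ) → Prop} (L : MvPolynomial σ ℤ →ₗ[ℤ] MvPolynomial σ ℤ)
    (T : Submodule ℤ (MvPolynomial σ ℤ)) (h : ∀ m, P m → L (monomial m 1) ∈ T)
    {f : MvPolynomial σ ℤ} (hf : f ∈ Sp P) : L f ∈ T := by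
  rw [f.as_sum, map_sum]
  refine Submodule.sum_mem _ fun m hm => ?_
  have : (monomial m (coeff m f) : MvPolynomial σ ℤ) = coeff m f • monomial m 1 := by
    rw [smul_monomial, smul_eq_mul, mul_one]
  rw [this, map_smul]
  exact Submodule.smul_mem _ _ (h m (hf m (mem_support_iff.1 hm)))

/-- The divided difference of a monomial, explicitly. -/
theorem dd_explicit {i j : σ} (h : i ≠ j) (ρ : σ →₀ ℕ) (hi : ρ i = 0) (hj : ρ j = 0) (b r : ℕ) :
    dd i j h (monomial (ρ + (Finsupp.single i (b + r) + Finsupp.single j b)) 1) =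
      ∑ t ∈ Finset.range r, monomial (ρ + (Finsupp.single i (b + t) +
        Finsupp.single j (b + (r - 1 - t)))) 1 := by
  have hmon : ∀ p q : ℕ, (monomial (ρ + (Finsupp.single i p + Finsupp.single j q)) 1 :
      MvPolynomial σ ℤ) = monomial ρ 1 * (X i ^ p * X j ^ q) := by
    intro p q
    rw [X_pow_eq_monomial, X_pow_eq_monomial, monomial_mul, monomial_mul]
    norm_num
  have hρ' : Finsupp.mapDomain (Equiv.swap i j) ρ = ρ := by
    ext k
    have hk : k = Equiv.swap i j (Equiv.swap i j k) := (Equiv.swap_apply_self i j k).symm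
    conv_lhs => rw [hk]
    rw [Finsupp.mapDomain_apply (Equiv.swap i j).injective]
    by_cases h1 : k = i
    · rw [h1, Equiv.swap_apply_left, hi, hj]
    · by_cases h2 : k = j
      · rw [h2, Equiv.swap_apply_right, hi, hj]
      · rw [Equiv.swap_apply_of_ne_of_ne h1 h2]
  have hρ : rename (Equiv.swap i j) (monomial ρ 1 : MvPolynomial σ ℤ) = monomial ρ 1 := by
    rw [rename_monomial, hρ']
  symm
  apply dd_unique
  simp only [hmon]
  rw [map_mul, hρ, map_mul, map_pow, map_pow, rename_X, rename_X, Equiv.swap_apply_left,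
    Equiv.swap_apply_right]
  have h3 : ∑ t ∈ Finset.range r, (monomial ρ 1 : MvPolynomial σ ℤ) *
      (X i ^ (b + t) * X j ^ (b + (r - 1 - t))) =
      (monomial ρ 1 * (X i * X j) ^ b) * ∑ t ∈ Finset.range r, X i ^ t * X j ^ (r - 1 - t) := by
    rw [Finset.mul_sum]
    refine Finset.sum_congr rfl fun t _ => ?_
    rw [pow_add, pow_add, mul_pow]
    ring
  rw [h3]
  have h4 := (Commute.all (X i : MvPolynomial σ ℤ) (X j)).geom_sum₂_mul r
  have h5 : (X i - X j : MvPolynomial σ ℤ) * ((monomial ρ 1 * (X i * X j) ^ b) *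
      ∑ t ∈ Finset.range r, X i ^ t * X j ^ (r - 1 - t)) =
      (monomial ρ 1 * (X i * X j) ^ b) *
      ((∑ t ∈ Finset.range r, X i ^ t * X j ^ (r - 1 - t)) * (X i - X j)) := by ring
  rw [h5, h4, mul_pow, pow_add, pow_add]
  ring

theorem dd_monomial_swap {i j : σ} (h : i ≠ j) (f : MvPolynomial σ ℤ) :
    dd i j h (rename (Equiv.swap i j) f) = - dd i j h f := by
  symm
  apply dd_unique
  rw [mul_neg, dd_spec, rename_swap_swap]
  ring

theorem dd_monomial_Sp {i j : σ} (h : i ≠ j) (κ : σ →₀ ℕ) :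
    dd i j h (monomial κ 1) ∈ Sp (Rule i j κ) := by
  set ρ : σ →₀ ℕ := (κ.erase i).erase j with hρ
  have hi : ρ i = 0 := by rw [hρ, Finsupp.erase_ne h, Finsupp.erase_same]
  have hj : ρ j = 0 := by rw [hρ, Finsupp.erase_same]
  have hr : ∀ k, k ≠ i → k ≠ j → ρ k = κ k := by
    intro k h1 h2
    rw [hρ, Finsupp.erase_ne h2, Finsupp.erase_ne h1]
  have hκ : κ = ρ + (Finsupp.single i (κ i) + Finsupp.single j (κ j)) := by
    ext k
    rw [Finsupp.add_apply, Finsupp.add_apply]
    by_cases h1 : k = i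
    · subst h1
      rw [hi, Finsupp.single_eq_same, Finsupp.single_eq_of_ne h]
      omega
    · by_cases h2 : k = j
      · subst h2
        rw [hj, Finsupp.single_eq_same, Finsupp.single_eq_of_ne h1]
        omega
      · rw [hr k h1 h2, Finsupp.single_eq_of_ne h1, Finsupp.single_eq_of_ne h2]
        omega
  have key : ∀ a b : ℕ, b ≤ a → ∀ κ' : σ →₀ ℕ, (∀ k, k ≠ i → k ≠ j → κ' k = ρ k) →
      ((κ' i = a ∧ κ' j = b) ∨ (κ' i = b ∧ κ' j = a)) →
      dd i j h (monomial (ρ + (Finsupp.single i a + Finsupp.single j b)) 1) ∈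
        Sp (Rule i j κ') := by
    intro a b hab κ' h1 h2
    obtain ⟨r, rfl⟩ := Nat.exists_eq_add_of_le hab
    rw [dd_explicit h ρ hi hj b r]
    refine Submodule.sum_mem _ fun t ht => monomial_Sp ?_ 1
    rw [Finset.mem_range] at ht
    have e1 : (ρ + (Finsupp.single i (b + t) + Finsupp.single j (b + (r - 1 - t)))) i = b + t := by
      rw [Finsupp.add_apply, Finsupp.add_apply, hi, Finsupp.single_eq_same,
        Finsupp.single_eq_of_ne h]
      omega
    have e2 : (ρ + (Finsupp.single i (b + t) + Finsupp.single j (b + (r - 1 - t)))) j =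
        b + (r - 1 - t) := by
      rw [Finsupp.add_apply, Finsupp.add_apply, hj, Finsupp.single_eq_same,
        Finsupp.single_eq_of_ne (Ne.symm h)]
      omega
    refine ⟨fun k hk1 hk2 => ?_, ?_, ?_, ?_⟩
    · rw [Finsupp.add_apply, Finsupp.add_apply, Finsupp.single_eq_of_ne hk1,
        Finsupp.single_eq_of_ne hk2, h1 k hk1 hk2]
      omega
    · rw [e1, e2]; omega
    · rw [e1]; omega
    · rw [e2]; omega
  rcases le_total (κ j) (κ i) with hle | hle
  · have h1 := key (κ i) (κ j) hle κ (fun k h1 h2 => (hr k h1 h2).symm) (Or.inl ⟨rfl, rfl⟩)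
    rw [← hκ] at h1
    exact h1
  · have h1 := key (κ j) (κ i) hle κ (fun k h1 h2 => (hr k h1 h2).symm) (Or.inr ⟨rfl, rfl⟩)
    have h2' : Finsupp.mapDomain (Equiv.swap i j) κ =
        ρ + (Finsupp.single i (κ j) + Finsupp.single j (κ i)) := by
      ext k
      have hk : k = Equiv.swap i j (Equiv.swap i j k) := (Equiv.swap_apply_self i j k).symm
      conv_lhs => rw [hk]
      rw [Finsupp.mapDomain_apply (Equiv.swap i j).injective, Finsupp.add_apply, Finsupp.add_apply]
      by_cases k1 : k = i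
      · rw [k1, Equiv.swap_apply_left, hi, Finsupp.single_eq_same, Finsupp.single_eq_of_ne h]
        omega
      · by_cases k2 : k = j
        · rw [k2, Equiv.swap_apply_right, hj, Finsupp.single_eq_same,
            Finsupp.single_eq_of_ne (Ne.symm h)]
          omega
        · rw [Equiv.swap_apply_of_ne_of_ne k1 k2, hr k k1 k2, Finsupp.single_eq_of_ne k1,
            Finsupp.single_eq_of_ne k2]
          omega
    have h2 : rename (Equiv.swap i j) (monomial κ 1 : MvPolynomial σ ℤ) =
        monomial (ρ + (Finsupp.single i (κ j) + Finsupp.single j (κ i))) 1 := by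
      rw [rename_monomial, h2']
    rw [← h2, dd_monomial_swap] at h1
    exact (Submodule.neg_mem_iff _).1 h1

theorem dd_Sp {i j : σ} (h : i ≠ j) {P P' : (σ →₀ ℕ) → Prop}
    (hPP : ∀ κ μ, P κ → Rule i j κ μ → P' μ) {f : MvPolynomial σ ℤ} (hf : f ∈ Sp P) :
    dd i j h f ∈ Sp P' := by
  refine Sp_le (dd i j h) (Sp P') (fun κ hκ => ?_) hf
  intro μ hμ
  exact hPP κ μ hκ (dd_monomial_Sp h κ μ hμ)

end Pool.Agent.U346
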