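import Mathlib

set_option autoImplicit false

namespace Pool.Agent.U346

variable {n : ℕ}

/-- The inversions. -/
def IS (w : Equiv.Perm (Fin n)) : Finset (Fin n × Fin n) :=
  Finset.univ.filter (fun p : Fin n × Fin n => p.1 < p.2 ∧ w p.2 < w p.1)

theorem mem_IS {w : Equiv.Perm (Fin n)} {a b : Fin n} : (a, b) ∈ IS w ↔ a < b ∧ w b < w a := by
  unfold IS
  rw [Finset.mem_filter]
  exact ⟨fun h => h.2, fun h => ⟨Finset.mem_univ _, h⟩⟩

/-- The number of inversions. -/
def ln (w : Equiv.Perm (Fin n)) : ℕ := (IS w).card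

theorem pai (w : Equiv.Perm (Fin n)) (x : Fin n) : w (w⁻¹ x) = x := w.apply_symm_apply x

theorem pia (w : Equiv.Perm (Fin n)) (x : Fin n) : w⁻¹ (w x) = x := w.symm_apply_apply x

theorem swap_lt_swap {i j : Fin n} (hij : j.val = i.val + 1) {a b : Fin n}
    (h : ¬ (a = i ∧ b = j)) (h' : ¬ (a = j ∧ b = i)) :
    Equiv.swap i j a < Equiv.swap i j b ↔ a < b := by
  have key : ∀ c : Fin n, (Equiv.swap i j c).val =
      if c.val = i.val then i.val + 1 else if c.val = i.val + 1 then i.val else c.val := by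
    intro c
    rw [Equiv.swap_apply_def]
    by_cases h1 : c = i
    · rw [if_pos h1, if_pos (congrArg Fin.val h1), hij]
    · rw [if_neg h1, if_neg (fun h => h1 (Fin.ext h))]
      by_cases h2 : c = j
      · rw [if_pos h2, if_pos (by rw [h2, hij])]
      · rw [if_neg h2, if_neg]
        intro h3
        exact h2 (Fin.ext (by rw [h3, hij]))
  rw [Fin.lt_def, Fin.lt_def, key, key]
  have e1 : a = i ↔ a.val = i.val := Fin.ext_iff
  have e2 : b = j ↔ b.val = i.val + 1 := by rw [Fin.ext_iff, hij]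
  have e3 : a = j ↔ a.val = i.val + 1 := by rw [Fin.ext_iff, hij]
  have e4 : b = i ↔ b.val = i.val := Fin.ext_iff
  rw [e1, e2] at h
  rw [e3, e4] at h'
  split_ifs <;> omega

theorem ln_desc {i j : Fin n} (hij : j.val = i.val + 1) {w : Equiv.Perm (Fin n)}
    (h : w⁻¹ j < w⁻¹ i) : ln (Equiv.swap i j * w) + 1 = ln w := by
  classical
  have hmem : (w⁻¹ j, w⁻¹ i) ∈ IS w := by
    rw [mem_IS]
    refine ⟨h, ?_⟩
    rw [pai, pai, Fin.lt_def]
    omega
  have hset : IS (Equiv.swap i j * w) = (IS w).erase (w⁻¹ j, w⁻¹ i) := by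
    ext ⟨a, b⟩
    rw [Finset.mem_erase, mem_IS, mem_IS, Equiv.Perm.mul_apply, Equiv.Perm.mul_apply, ne_eq,
      Prod.mk.injEq]
    by_cases hab : w b = i ∧ w a = j
    · obtain ⟨h1, h2⟩ := hab
      have h3 : b = w⁻¹ i := by rw [← h1, pia]
      have h4 : a = w⁻¹ j := by rw [← h2, pia]
      rw [h1, h2, Equiv.swap_apply_left, Equiv.swap_apply_right, Fin.lt_def (a := j)]
      constructor
      · rintro ⟨_, h5⟩
        omega
      · rintro ⟨h5, _⟩
        exact absurd ⟨h4, h3⟩ h5
    · by_cases hab' : w b = j ∧ w a = i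
      · obtain ⟨h1, h2⟩ := hab'
        have h3 : b = w⁻¹ j := by rw [← h1, pia]
        have h4 : a = w⁻¹ i := by rw [← h2, pia]
        constructor
        · rintro ⟨h5, _⟩
          rw [h3, h4] at h5
          exact absurd h5 (not_lt.2 h.le)
        · rintro ⟨_, h5, _⟩
          rw [h3, h4] at h5
          exact absurd h5 (not_lt.2 h.le)
      · rw [swap_lt_swap hij hab hab']
        constructor
        · rintro ⟨h5, h6⟩
          refine ⟨?_, h5, h6⟩
          rintro ⟨h7, h8⟩
          apply hab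
          rw [h7, h8, pai, pai]
          exact ⟨rfl, rfl⟩
        · rintro ⟨_, h5, h6⟩
          exact ⟨h5, h6⟩
  unfold ln
  rw [hset]
  exact Finset.card_erase_add_one hmem

theorem ln_asc {i j : Fin n} (hij : j.val = i.val + 1) {w : Equiv.Perm (Fin n)}
    (h : w⁻¹ i < w⁻¹ j) : ln (Equiv.swap i j * w) = ln w + 1 := by
  have h1 := ln_desc hij (w := Equiv.swap i j * w) (by
    rw [mul_inv_rev, Equiv.swap_inv, Equiv.Perm.mul_apply, Equiv.Perm.mul_apply,
      Equiv.swap_apply_left, Equiv.swap_apply_right]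
    exact h)
  rw [← mul_assoc, Equiv.swap_mul_self, one_mul] at h1
  exact h1.symm

theorem ln_inv (w : Equiv.Perm (Fin n)) : ln w⁻¹ = ln w := by
  classical
  unfold ln
  apply Finset.card_bij (fun p _ => (w⁻¹ p.2, w⁻¹ p.1))
  · rintro ⟨a, b⟩ h
    rw [mem_IS] at h ⊢
    rw [pai, pai]
    exact ⟨h.2, h.1⟩
  · rintro ⟨a, b⟩ _ ⟨c, d⟩ _ h
    simp only [Prod.mk.injEq] at h
    rw [w⁻¹.injective h.1, w⁻¹.injective h.2]
  · rintro ⟨a, b⟩ h
    rw [mem_IS] at h
    refine ⟨(w b, w a), ?_, ?_⟩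
    · rw [mem_IS, pia, pia]
      exact ⟨h.2, h.1⟩
    · show (w⁻¹ (w a), w⁻¹ (w b)) = (a, b)
      rw [pia, pia]

theorem ln_one : ln (1 : Equiv.Perm (Fin n)) = 0 := by
  unfold ln
  rw [Finset.card_eq_zero, Finset.eq_empty_iff_forall_notMem]
  rintro ⟨a, b⟩ h
  rw [mem_IS] at h
  exact absurd h.1 (not_lt.2 (le_of_lt h.2))

theorem mono_eq_one {w : Equiv.Perm (Fin n)}
    (h : ∀ i j : Fin n, j.val = i.val + 1 → w i < w j) : w = 1 := by
  have hge : ∀ k : ℕ, ∀ hk : k < n, k ≤ (w ⟨k, hk⟩).val := by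
    intro k
    induction k with
    | zero => intro _; exact Nat.zero_le _
    | succ k ih =>
      intro hk
      have h1 := ih (by omega)
      have h2 := h ⟨k, by omega⟩ ⟨k + 1, hk⟩ rfl
      rw [Fin.lt_def] at h2
      omega
  have hsm : StrictMono w := by
    intro a b hab
    obtain ⟨d, hd⟩ : ∃ d, b.val = a.val + d + 1 := ⟨b.val - a.val - 1, by
      rw [Fin.lt_def] at hab; omega⟩
    induction d generalizing b with
    | zero => exact h a b (by omega)
    | succ d ih =>
      have hb : b.val < n := b.isLt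
      have h1 := ih (b := ⟨a.val + d + 1, by omega⟩) (by rw [Fin.lt_def]; show a.val < a.val + d + 1; omega) rfl
      exact h1.trans (h _ b (by rw [hd]; rfl))
  have hm : ∀ k : ℕ, ∀ hk : k < n, (w ⟨n - 1 - k, by omega⟩).val ≤ n - 1 - k := by
    intro k
    induction k with
    | zero =>
      intro hk
      have := (w ⟨n - 1 - 0, by omega⟩).isLt
      omega
    | succ k ih =>
      intro hk
      have h1 := ih (by omega)
      have h2 := h ⟨n - 1 - (k + 1), by omega⟩ ⟨n - 1 - k, by omega⟩ (by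
        show n - 1 - k = n - 1 - (k + 1) + 1
        omega)
      rw [Fin.lt_def] at h2
      omega
  ext i
  rw [Equiv.Perm.one_apply]
  apply le_antisymm
  · have h1 := hm (n - 1 - i.val) (by omega)
    have h2 : (⟨n - 1 - (n - 1 - i.val), by omega⟩ : Fin n) = i := Fin.ext (by
      show n - 1 - (n - 1 - i.val) = i.val
      have := i.isLt
      omega)
    rw [h2] at h1
    have := i.isLt
    omega
  · exact hge i.val i.isLt

theorem exists_desc {w : Equiv.Perm (Fin n)} (hw : w ≠ 1) :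
    ∃ i j : Fin n, j.val = i.val + 1 ∧ w⁻¹ j < w⁻¹ i := by
  by_contra hcon
  push Not at hcon
  apply hw
  rw [← inv_eq_one]
  apply mono_eq_one
  intro i j hij
  have h1 := hcon i j hij
  rcases lt_or_eq_of_le h1 with h2 | h2
  · exact h2
  · exfalso
    have := w⁻¹.injective h2
    rw [this] at hij
    omega

theorem ln_le (w : Equiv.Perm (Fin n)) : ln w ≤ n * n := by
  unfold ln IS
  refine (Finset.card_le_univ _).trans ?_
  rw [Fintype.card_prod, Fintype.card_fin]

theorem ln_right_asc {i j : Fin n} (hij : j.val = i.val + 1) {w : Equiv.Perm (Fin n)}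
    (h : w i < w j) : ln (w * Equiv.swap i j) = ln w + 1 := by
  rw [← ln_inv, mul_inv_rev, Equiv.swap_inv, ln_asc hij (by rwa [inv_inv]), ln_inv]

theorem ln_right_desc {i j : Fin n} (hij : j.val = i.val + 1) {w : Equiv.Perm (Fin n)}
    (h : w j < w i) : ln (w * Equiv.swap i j) + 1 = ln w := by
  rw [← ln_inv, mul_inv_rev, Equiv.swap_inv, ln_desc hij (by rwa [inv_inv]), ln_inv]

/-- Triangular numbers. -/
def tri : ℕ → ℕ
  | 0 => 0
  | k + 1 => tri k + k

theorem sum_range_tri (n : ℕ) : ∑ i ∈ Finset.range n, i = tri n := by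
  induction n with
  | zero => rfl
  | succ n ih => rw [Finset.sum_range_succ, ih]; rfl

/-- The pairs. -/
def PS (n : ℕ) : Finset (Fin n × Fin n) := Finset.univ.filter (fun p : Fin n × Fin n => p.1 < p.2)

theorem mem_PS {a b : Fin n} : (a, b) ∈ PS n ↔ a < b := by
  unfold PS
  rw [Finset.mem_filter]
  exact ⟨fun h => h.2, fun h => ⟨Finset.mem_univ _, h⟩⟩

theorem card_pairs : (PS n).card = tri n := by
  classical
  have h1 : (PS n).card = ∑ b : Fin n, b.val := by
    rw [Finset.card_eq_sum_card_fiberwise (f := fun p : Fin n × Fin n => p.2) (t := Finset.univ)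
      (fun _ _ => Finset.mem_coe.2 (Finset.mem_univ _))]
    refine Finset.sum_congr rfl fun b _ => ?_
    have : (Finset.filter (fun p : Fin n × Fin n => p.2 = b) (PS n)) =
        (Finset.Iio b).image (fun a => (a, b)) := by
      ext ⟨a, c⟩
      rw [Finset.mem_filter, mem_PS, Finset.mem_image]
      constructor
      · rintro ⟨h1, rfl⟩
        exact ⟨a, Finset.mem_Iio.2 h1, rfl⟩
      · rintro ⟨a', h1, h2⟩
        rw [Prod.mk.injEq] at h2
        obtain ⟨rfl, rfl⟩ := h2
        exact ⟨Finset.mem_Iio.1 h1, rfl⟩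
    rw [this, Finset.card_image_of_injective _ (fun a a' h => (Prod.mk.inj h).1), Fin.card_Iio]
  rw [h1, Fin.sum_univ_eq_sum_range (fun i => i) n, sum_range_tri]

theorem ln_rev (x : Equiv.Perm (Fin n)) :
    ln (x * (Fin.revPerm : Equiv.Perm (Fin n))) + ln x = tri n := by
  classical
  have h1 : ln (x * (Fin.revPerm : Equiv.Perm (Fin n))) = ((PS n) \ (IS x)).card := by
    unfold ln
    apply Finset.card_bij (fun p _ => (Fin.rev p.2, Fin.rev p.1))
    · rintro ⟨a, b⟩ h
      rw [mem_IS, Equiv.Perm.mul_apply, Equiv.Perm.mul_apply, Fin.revPerm_apply,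
        Fin.revPerm_apply] at h
      rw [Finset.mem_sdiff, mem_PS, mem_IS]
      exact ⟨Fin.rev_lt_rev.2 h.1, fun h' => absurd h.2 (not_lt.2 h'.2.le)⟩
    · rintro ⟨a, b⟩ _ ⟨c, d⟩ _ h
      simp only [Prod.mk.injEq] at h
      rw [Fin.rev_injective h.1, Fin.rev_injective h.2]
    · rintro ⟨a, b⟩ h
      rw [Finset.mem_sdiff, mem_PS, mem_IS] at h
      refine ⟨(Fin.rev b, Fin.rev a), ?_, ?_⟩
      · rw [mem_IS, Equiv.Perm.mul_apply, Equiv.Perm.mul_apply, Fin.revPerm_apply,
          Fin.revPerm_apply, Fin.rev_rev, Fin.rev_rev]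
        refine ⟨Fin.rev_lt_rev.2 h.1, lt_of_le_of_ne (not_lt.1 fun h' => h.2 ⟨h.1, h'⟩) ?_⟩
        intro h2
        exact absurd (x.injective h2) (ne_of_lt h.1)
      · simp only [Fin.rev_rev]
  have h2 : IS x ⊆ PS n := by
    rintro ⟨a, b⟩ h
    rw [mem_IS] at h
    exact mem_PS.2 h.1
  have h3 := Finset.card_sdiff_add_card_eq_card h2
  rw [h1, ← card_pairs]
  exact h3

theorem ln_pos {x : Equiv.Perm (Fin n)} (hx : x ≠ 1) : 0 < ln x := by
  obtain ⟨i, j, hij, h⟩ := exists_desc hx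
  have := ln_desc hij h
  omega

theorem ln_lt_tri {x : Equiv.Perm (Fin n)} (hx : x ≠ Fin.revPerm) : ln x < tri n := by
  have h1 := ln_rev x
  have h2 : x * (Fin.revPerm : Equiv.Perm (Fin n)) ≠ 1 := by
    intro h
    apply hx
    have h3 : (Fin.revPerm : Equiv.Perm (Fin n)) * Fin.revPerm = 1 := by
      ext i; simp
    calc x = x * ((Fin.revPerm : Equiv.Perm (Fin n)) * Fin.revPerm) := by rw [h3, mul_one]
      _ = Fin.revPerm := by rw [← mul_assoc, h, one_mul]
  have h3 := ln_pos h2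
  omega

theorem ln_swap {i j : Fin n} (hij : j.val = i.val + 1) : ln (Equiv.swap i j) = 1 := by
  have h := ln_asc hij (w := 1) (by
    rw [inv_one, Equiv.Perm.one_apply, Equiv.Perm.one_apply, Fin.lt_def]; omega)
  rw [mul_one, ln_one] at h
  exact h

end Pool.Agent.U346
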