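import Pool.Agent.U346.DD
import Pool.Agent.U346.Perm

set_option autoImplicit false

namespace Pool.Agent.U346

open MvPolynomial

variable {n : ℕ}

theorem ne_of_adj {i j : Fin n} (hij : j.val = i.val + 1) : i ≠ j := by
  intro h
  rw [h] at hij
  omega

/-- Operators indexed by permutations, given by the recursion of the divided differences. -/
structure DH (D : Equiv.Perm (Fin n) → MvPolynomial (Fin n) ℤ → MvPolynomial (Fin n) ℤ) :
    Prop where
  one : ∀ f, D 1 f = f
  step : ∀ (w : Equiv.Perm (Fin n)) (i j : Fin n), j.val = i.val + 1 →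
    ln (Equiv.swap i j * w) < ln w → ∀ f, (X i - X j) * D w f =
      D (Equiv.swap i j * w) f - rename (Equiv.swap i j) (D (Equiv.swap i j * w) f)

variable {D : Equiv.Perm (Fin n) → MvPolynomial (Fin n) ℤ → MvPolynomial (Fin n) ℤ}

theorem DH.down (h : DH D) {i j : Fin n} (hij : j.val = i.val + 1) {w : Equiv.Perm (Fin n)}
    (hw : w⁻¹ j < w⁻¹ i) (f : MvPolynomial (Fin n) ℤ) :
    D w f = dd i j (ne_of_adj hij) (D (Equiv.swap i j * w) f) := by
  apply dd_unique
  apply h.step w i j hij
  have := ln_desc hij hw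
  omega

theorem DH.up (h : DH D) {i j : Fin n} (hij : j.val = i.val + 1) {w : Equiv.Perm (Fin n)}
    (hw : w⁻¹ i < w⁻¹ j) (f : MvPolynomial (Fin n) ℤ) :
    D (Equiv.swap i j * w) f = dd i j (ne_of_adj hij) (D w f) := by
  have h1 := h.down hij (w := Equiv.swap i j * w) (by
    rw [mul_inv_rev, Equiv.swap_inv, Equiv.Perm.mul_apply, Equiv.Perm.mul_apply,
      Equiv.swap_apply_left, Equiv.swap_apply_right]
    exact hw) f
  rwa [← mul_assoc, Equiv.swap_mul_self, one_mul] at h1

theorem lt_or_lt (w : Equiv.Perm (Fin n)) {i j : Fin n} (hij : j.val = i.val + 1) :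
    w i < w j ∨ w j < w i := by
  rcases lt_trichotomy (w i) (w j) with h | h | h
  · exact Or.inl h
  · exact absurd (w.injective h) (ne_of_adj hij)
  · exact Or.inr h

/-- Induction on left descents. -/
theorem perm_induction {P : Equiv.Perm (Fin n) → Prop} (h1 : P 1)
    (hs : ∀ (w : Equiv.Perm (Fin n)) (i j : Fin n), j.val = i.val + 1 → w⁻¹ j < w⁻¹ i →
      ln (Equiv.swap i j * w) + 1 = ln w → P (Equiv.swap i j * w) → P w) (w : Equiv.Perm (Fin n)) :
    P w := by
  obtain ⟨k, hk⟩ : ∃ k, ln w = k := ⟨_, rfl⟩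
  induction k generalizing w with
  | zero =>
    by_cases hw : w = 1
    · rw [hw]; exact h1
    · have := ln_pos hw
      omega
  | succ k ih =>
    have hw : w ≠ 1 := by
      intro h
      rw [h, ln_one] at hk
      omega
    obtain ⟨i, j, hij, hd⟩ := exists_desc hw
    have h2 := ln_desc hij hd
    exact hs w i j hij hd h2 (ih _ (by omega))

theorem DH.lin (h : DH D) (w : Equiv.Perm (Fin n)) :
    ∃ L : MvPolynomial (Fin n) ℤ →ₗ[ℤ] MvPolynomial (Fin n) ℤ, ∀ f, D w f = L f := by
  induction w using perm_induction with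
  | h1 => exact ⟨LinearMap.id, h.one⟩
  | hs w i j hij hd _ ih =>
    obtain ⟨L, hL⟩ := ih
    refine ⟨(dd i j (ne_of_adj hij)).comp L, fun f => ?_⟩
    rw [h.down hij hd, hL]
    rfl

theorem DH.map_zero (h : DH D) (w : Equiv.Perm (Fin n)) : D w 0 = 0 := by
  obtain ⟨L, hL⟩ := h.lin w
  rw [hL, _root_.map_zero]

theorem DH.comp_or (h : DH D) (x v : Equiv.Perm (Fin n)) :
    (ln (v * x) = ln v + ln x ∧ ∀ f, D v (D x f) = D (v * x) f) ∨ ∀ f, D v (D x f) = 0 := by
  induction v using perm_induction with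
  | h1 =>
    left
    refine ⟨by rw [one_mul, ln_one, zero_add], fun f => ?_⟩
    rw [h.one, one_mul]
  | hs v i j hij hd hl ih =>
    rcases ih with ⟨e1, e2⟩ | e2
    · have e3 : Equiv.swap i j * (Equiv.swap i j * v * x) = v * x := by
        rw [← mul_assoc, ← mul_assoc, Equiv.swap_mul_self, one_mul]
      rcases lt_or_lt (Equiv.swap i j * v * x)⁻¹ hij with h1 | h1
      · left
        have h2 := ln_asc hij h1
        rw [e3] at h2
        refine ⟨by omega, fun f => ?_⟩
        have h3 := h.up hij h1 f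
        rw [e3] at h3
        rw [h3, ← e2, h.down hij hd]
      · right
        intro f
        rw [h.down hij hd, e2, h.down hij h1, dd_dd]
    · right
      intro f
      rw [h.down hij hd, e2, _root_.map_zero]

theorem ln_mul_le (x v : Equiv.Perm (Fin n)) : ln (v * x) ≤ ln v + ln x := by
  induction v using perm_induction with
  | h1 => rw [one_mul, ln_one, zero_add]
  | hs v i j hij hd hl ih =>
    have e3 : Equiv.swap i j * (Equiv.swap i j * v * x) = v * x := by
      rw [← mul_assoc, ← mul_assoc, Equiv.swap_mul_self, one_mul]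
    rcases lt_or_lt (Equiv.swap i j * v * x)⁻¹ hij with h1 | h1
    · have h2 := ln_asc hij h1
      rw [e3] at h2
      omega
    · have h2 := ln_desc hij h1
      rw [e3] at h2
      omega

theorem DH.comp_add (h : DH D) (x v : Equiv.Perm (Fin n)) (hadd : ln (v * x) = ln v + ln x)
    (f : MvPolynomial (Fin n) ℤ) : D v (D x f) = D (v * x) f := by
  induction v using perm_induction with
  | h1 => rw [h.one, one_mul]
  | hs v i j hij hd hl ih =>
    have e3 : Equiv.swap i j * (Equiv.swap i j * v * x) = v * x := by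
      rw [← mul_assoc, ← mul_assoc, Equiv.swap_mul_self, one_mul]
    have h4 := ln_mul_le x (Equiv.swap i j * v)
    rcases lt_or_lt (Equiv.swap i j * v * x)⁻¹ hij with h1 | h1
    · have h2 := ln_asc hij h1
      rw [e3] at h2
      have h3 := h.up hij h1 f
      rw [e3] at h3
      rw [h3, ← ih (by omega), h.down hij hd]
    · have h2 := ln_desc hij h1
      rw [e3] at h2
      omega

theorem DH.swap (h : DH D) {i j : Fin n} (hij : j.val = i.val + 1) (f : MvPolynomial (Fin n) ℤ) :
    D (Equiv.swap i j) f = dd i j (ne_of_adj hij) f := by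
  have := h.up hij (w := 1) (by
    rw [inv_one, Equiv.Perm.one_apply, Equiv.Perm.one_apply, Fin.lt_def]; omega) f
  rw [mul_one, h.one] at this
  exact this

theorem DH.right (h : DH D) {i j : Fin n} (hij : j.val = i.val + 1) {y : Equiv.Perm (Fin n)}
    (hy : y i < y j) (f : MvPolynomial (Fin n) ℤ) :
    D (y * Equiv.swap i j) f = D y (dd i j (ne_of_adj hij) f) := by
  rw [← h.swap hij, h.comp_add _ _ (by rw [ln_right_asc hij hy, ln_swap hij])]

/-- Peeling off a right descent. -/
theorem DH.right' (h : DH D) {i j : Fin n} (hij : j.val = i.val + 1) {x : Equiv.Perm (Fin n)}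
    (hx : x j < x i) (f : MvPolynomial (Fin n) ℤ) :
    D x f = D (x * Equiv.swap i j) (dd i j (ne_of_adj hij) f) := by
  have h1 := h.right hij (y := x * Equiv.swap i j) (by
    rw [Equiv.Perm.mul_apply, Equiv.Perm.mul_apply, Equiv.swap_apply_left,
      Equiv.swap_apply_right]
    exact hx) f
  rwa [mul_assoc, Equiv.swap_mul_self, mul_one] at h1

/-- The composite with the complement. -/
theorem DH.comp_rev (h : DH D) (v : Equiv.Perm (Fin n)) (f : MvPolynomial (Fin n) ℤ) :
    D v (D (v⁻¹ * Fin.revPerm) f) = D Fin.revPerm f := by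
  have h1 := ln_rev v⁻¹
  have h2 := ln_rev (1 : Equiv.Perm (Fin n))
  rw [ln_one, one_mul, add_zero] at h2
  rw [ln_inv] at h1
  rw [h.comp_add]
  · rw [mul_inv_cancel_left]
  · rw [mul_inv_cancel_left, h2, ← h1, add_comm]

/-- The operator of another permutation on the complement. -/
theorem DH.comp_ne (h : DH D) {v v' : Equiv.Perm (Fin n)} (hv : v' ≠ v) :
    (∀ f, D v' (D (v⁻¹ * Fin.revPerm) f) = 0) ∨ ∃ x : Equiv.Perm (Fin n), x ≠ Fin.revPerm ∧
      ∀ f, D v' (D (v⁻¹ * Fin.revPerm) f) = D x f := by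
  rcases h.comp_or (v⁻¹ * Fin.revPerm) v' with ⟨_, h2⟩ | h2
  · right
    refine ⟨v' * (v⁻¹ * Fin.revPerm), ?_, h2⟩
    intro h3
    apply hv
    rw [← mul_assoc] at h3
    have h4 := mul_eq_right.1 h3
    rwa [mul_inv_eq_one] at h4
  · left; exact h2

end Pool.Agent.U346
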