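import Pool.Agent.U346.Core

set_option autoImplicit false

namespace Pool.Agent.U346

open MvPolynomial Module

variable {M : ℕ} {κ : Type}

/-- The sequences in `Vd` whose last entry is in `I`. -/
def QI (I : Ideal (S M κ)) (j : Fin M) (d : ℕ) (μ : Wt M) : Submodule ℚ (W M κ) where
  carrier := {f | f ∈ Vd M κ j d μ ∧ f d ∈ I}
  add_mem' := by
    rintro f g ⟨h1, h2⟩ ⟨h3, h4⟩
    exact ⟨Submodule.add_mem _ h1 h3, I.add_mem h2 h4⟩
  zero_mem' := ⟨Submodule.zero_mem _, I.zero_mem⟩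
  smul_mem' := by
    rintro c f ⟨h1, h2⟩
    exact ⟨Submodule.smul_mem _ _ h1, (I.restrictScalars ℚ).smul_mem c h2⟩

theorem mem_QI {I : Ideal (S M κ)} {j : Fin M} {d : ℕ} {μ : Wt M} {f : W M κ} :
    f ∈ QI I j d μ ↔ f ∈ Vd M κ j d μ ∧ f d ∈ I := Iff.rfl

theorem sh_top (j : Fin M) (d : ℕ) : sh j d d = (d : ℤ) • Pi.single j.succ 1 := by
  unfold sh
  rw [sub_self, zero_smul, add_zero]

theorem single_mem_Vd (j : Fin M) (d : ℕ) (μ : Wt M) (y : S M κ)
    (hy : y ∈ gr M κ (μ - (d : ℤ) • Pi.single j.succ 1)) :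
    (Pi.single d y : W M κ) ∈ Vd M κ j d μ := by
  refine ⟨fun k hk => ?_, fun k hk => ?_⟩
  · by_cases h : k = d
    · subst h
      rw [Pi.single_eq_same, sh_top]
      exact hy
    · rw [Pi.single_eq_of_ne h]
      exact Submodule.zero_mem _
  · rw [Pi.single_eq_of_ne (by omega)]

/-- The dimension of `Vd` modulo `QI`. -/
theorem QI_dim [Fintype κ] (I : Ideal (S M κ)) (j : Fin M) (d : ℕ) (μ : Wt M) :
    (finrank ℚ (Vd M κ j d μ) : ℤ) - finrank ℚ (QI I j d μ) =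
      hF I (μ - (d : ℤ) • Pi.single j.succ 1) := by
  unfold hF
  refine (rank_aux (U := W M κ) (V := S M κ)
    (I.restrictScalars ℚ ⊓ gr M κ (μ - (d : ℤ) • Pi.single j.succ 1))
    (gr M κ (μ - (d : ℤ) • Pi.single j.succ 1)) inf_le_right (Vd M κ j d μ) (QI I j d μ)
    (LinearMap.proj d) ?_ ?_ ?_).symm
  · intro g hg
    have := hg.1 d le_rfl
    rwa [sh_top] at this
  · intro b hb
    refine ⟨Pi.single d b, single_mem_Vd j d μ b hb, ?_⟩
    rw [LinearMap.proj_apply, Pi.single_eq_same, sub_self]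
    exact Submodule.zero_mem _
  · intro g
    rw [mem_QI]
    constructor
    · rintro ⟨h1, h2⟩
      refine ⟨h1, h2, ?_⟩
      have := h1.1 d le_rfl
      rwa [sh_top] at this
    · rintro ⟨h1, h2, _⟩
      exact ⟨h1, h2⟩

theorem QI_star [Fintype κ] (I : Ideal (S M κ)) (hI : BIdeal I) (j : Fin M) :
    ∃ d0 : ℕ, ∀ d : ℕ, d0 ≤ d → ∀ (μ : Wt M) (k : ℤ) (m : ℕ),
      μ j.castSucc - μ j.succ + 2 * k = -m →
      ∀ z ∈ QI I j d (μ + (k + (m + 1)) • al j),
      ∃ y ∈ QI I j d (μ + k • al j), (EE j j ^ (m + 1)) y = z := by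
  obtain ⟨d0, hd0⟩ := starI I hI j
  refine ⟨d0, fun d hd μ k m hm z hz => ?_⟩
  obtain ⟨hz1, hz2⟩ := hz
  have hzd := hz1.1 d le_rfl
  rw [sh_top] at hzd
  obtain ⟨y0, hy0I, hy0, hy0z⟩ := hd0 (μ + (k + ((m : ℤ) + 1)) • al j -
    (d : ℤ) • Pi.single j.succ 1) (m + 1) (by
      simp only [Pi.add_apply, Pi.sub_apply, Pi.smul_apply, al_cs, al_s, smul_eq_mul,
        Pi.single_eq_same, Pi.single_eq_of_ne (cs_ne_s j)]
      push_cast
      have : (d0 : ℤ) ≤ d := by exact_mod_cast hd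
      linarith) _ hz2 hzd
  have hy0' : y0 ∈ gr M κ (μ + k • al j - (d : ℤ) • Pi.single j.succ 1) := by
    rwa [show μ + (k + ((m : ℤ) + 1)) • al j - (d : ℤ) • Pi.single j.succ 1 -
      ((m + 1 : ℕ) : ℤ) • al j = μ + k • al j - (d : ℤ) • Pi.single j.succ 1 by
        push_cast; module] at hy0
  have hY := single_mem_Vd j d _ y0 hy0'
  set Y : W M κ := Pi.single d y0 with hYdef
  have hEY : (EE j j ^ (m + 1)) Y ∈ Vd M κ j d (μ + (k + (m + 1)) • al j) := by
    have := (sW (κ := κ) j d μ).powE_mem (m + 1) k Y hY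
    have h2 : (EE j j ^ (m + 1)) Y ∈ Vd M κ j d (μ + (k + ((m + 1 : ℕ) : ℤ)) • al j) := this
    push_cast at h2
    exact h2
  have hz'1 : z - (EE j j ^ (m + 1)) Y ∈ Vd M κ j d (μ + (k + (m + 1)) • al j) :=
    Submodule.sub_mem _ hz1 hEY
  have hz'2 : (z - (EE j j ^ (m + 1)) Y) d = 0 := by
    rw [Pi.sub_apply, EEpow_top j d (m + 1) Y hY.2, hYdef, Pi.single_eq_same, hy0z, sub_self]
  cases d with
  | zero =>
    refine ⟨Y, ⟨hY, ?_⟩, ?_⟩
    · rw [hYdef, Pi.single_eq_same]; exact hy0I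
    · symm
      rw [← sub_eq_zero]
      funext l
      cases l with
      | zero => exact hz'2
      | succ l => exact hz'1.2 (l + 1) (by omega)
  | succ d' =>
    have hdown := Vd_down j d' _ _ hz'1 hz'2
    obtain ⟨y1, hy1, hy1z⟩ := (sW (κ := κ) j d' (μ - Pi.single j.castSucc 1)).surj2 k (m + 1) (by
      show ((m + 1 : ℕ) : ℤ) ≤ (μ - Pi.single j.castSucc 1 : Wt M) j.castSucc -
        (μ - Pi.single j.castSucc 1 : Wt M) j.succ + 2 * (k + ((m + 1 : ℕ) : ℤ))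
      rw [Pi.sub_apply, Pi.sub_apply, Pi.single_eq_same, Pi.single_eq_of_ne (cs_ne_s j).symm]
      push_cast
      linarith) (z - (EE j j ^ (m + 1)) Y) (by
      show _ ∈ Vd M κ j d' (μ - Pi.single j.castSucc 1 + (k + ((m + 1 : ℕ) : ℤ)) • al j)
      rwa [show μ + (k + ((m : ℤ) + 1)) • al j - Pi.single j.castSucc 1 =
        μ - Pi.single j.castSucc 1 + (k + ((m + 1 : ℕ) : ℤ)) • al j by
          push_cast; module] at hdown)
    have hy1' : y1 ∈ Vd M κ j d' (μ - Pi.single j.castSucc 1 + k • al j) := hy1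
    have hup := Vd_up j d' (μ + k • al j) y1 (by
      rwa [show μ - Pi.single j.castSucc 1 + k • al j =
        μ + k • al j - Pi.single j.castSucc 1 by module] at hy1')
    refine ⟨Y + y1, ⟨Submodule.add_mem _ hY hup, ?_⟩, ?_⟩
    · rw [Pi.add_apply, hYdef, Pi.single_eq_same, hy1'.2 (d' + 1) (by omega), add_zero]
      exact hy0I
    · have hy1z' : (EE j j ^ (m + 1)) y1 = z - (EE j j ^ (m + 1)) Y := hy1z
      rw [map_add, hy1z']
      abel

/-- The reflection of a weight. -/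
def refl {M : ℕ} (j : Fin M) (ν : Wt M) : Wt M := ν - (ν j.castSucc - ν j.succ) • al j

/-- The first form of the divided difference step. -/
theorem dstep_core [Fintype κ] (I : Ideal (S M κ)) (hI : BIdeal I) (j : Fin M) :
    ∃ d0 : ℕ, ∀ d : ℕ, d0 ≤ d → ∃ g ∈ HH M, ∀ ν : Wt M,
      g (ν - Pi.single j.succ 1) - g (ν - Pi.single j.castSucc 1) =
        hF I (ν - ((d : ℤ) + 1) • Pi.single j.succ 1) -
          hF I (refl j ν - ((d : ℤ) + 1) • Pi.single j.succ 1) := by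
  obtain ⟨d0, hd0⟩ := QI_star I hI j
  refine ⟨d0, fun d hd => ⟨hW j d (Q0 I j d), filt j d _ (Q0_good I hI j d), fun ν => ?_⟩⟩
  set μ : Wt M := ν - Pi.single j.succ 1 with hμ
  have h := (sW (κ := κ) j d μ).dim_formula (fun k => QI I j d (μ + k • al j))
    (fun k => (Q0 I j d).restrictScalars ℚ ⊓ Vd M κ j d (μ + k • al j))
    (fun k x hx => hx.1)
    (fun k x hx => by
      refine ⟨(sW (κ := κ) j d μ).hE k x hx.1, ?_⟩
      show EE j j x d ∈ I
      rw [EE_top j j d x hx.1.2]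
      exact hI.stab j _ hx.2)
    (fun k x => by
      constructor
      · rintro ⟨h1, h2⟩
        refine ⟨h2, fun n => ⟨?_, ?_⟩⟩
        · exact (sW (κ := κ) j d μ).powF_mem n k x h2
        · exact (mem_Q0.1 h1).2 n
      · rintro ⟨h1, h2⟩
        refine ⟨?_, h1⟩
        exact mem_Q0.2 ⟨h1.2, fun n => (h2 n).2⟩)
    (fun k m hm z hz => hd0 d hd μ k m hm z hz) 0
  have hV : ∀ k, (sW (κ := κ) j d μ).V k = Vd M κ j d (μ + k • al j) := fun k => rfl
  have hc : (sW (κ := κ) j d μ).c = μ j.castSucc - μ j.succ := rfl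
  rw [hc, hV 0, hV (0 - 1), hV (1 - (μ j.castSucc - μ j.succ) - 0)] at h
  have e0 : μ + (0 : ℤ) • al j = μ := by rw [zero_smul, add_zero]
  have e1 : μ + (0 - 1 : ℤ) • al j = ν - Pi.single j.castSucc 1 := by
    rw [hμ]; unfold al; module
  have e2 : μ + (1 - (μ j.castSucc - μ j.succ) - 0) • al j = refl j ν - Pi.single j.succ 1 := by
    have a1 : μ j.castSucc = ν j.castSucc := by
      rw [hμ, Pi.sub_apply, Pi.single_eq_of_ne (cs_ne_s j), sub_zero]
    have a2 : μ j.succ = ν j.succ - 1 := by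
      rw [hμ, Pi.sub_apply, Pi.single_eq_same]
    rw [a1, a2, hμ]
    unfold refl
    module
  rw [e0, e1, e2] at h
  have q1 := QI_dim I j d μ
  have q2 := QI_dim I j d (refl j ν - Pi.single j.succ 1)
  have e3 : μ - (d : ℤ) • Pi.single j.succ 1 = ν - ((d : ℤ) + 1) • Pi.single j.succ 1 := by
    rw [hμ]; module
  have e4 : refl j ν - Pi.single j.succ 1 - (d : ℤ) • Pi.single j.succ 1 =
      refl j ν - ((d : ℤ) + 1) • Pi.single j.succ 1 := by
    module
  rw [e3] at q1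
  rw [e4] at q2
  unfold hW
  rw [← q1, ← q2]
  exact h

theorem HH_shift {h : Wt M → ℤ} (hh : h ∈ HH M) (ψ : Wt M) (hψ : 0 ≤ ψ) :
    (fun ν => h (ν - ψ)) ∈ HH M := by
  unfold HH at hh
  refine AddSubmonoid.closure_induction (motive := fun h _ => (fun ν => h (ν - ψ)) ∈ HH M)
    ?_ ?_ ?_ hh
  · rintro h ⟨κ, _, I, χ, hI, hχ, rfl⟩
    apply AddSubmonoid.subset_closure
    refine ⟨κ, inferInstance, I, ψ + χ, hI, add_nonneg hψ hχ, ?_⟩
    funext ν
    show hF I (ν - ψ - χ) = _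
    rw [sub_sub]
  · exact (HH M).zero_mem
  · intro h1 h2 _ _ ih1 ih2
    exact (HH M).add_mem ih1 ih2

/-- The divided difference step. -/
theorem dstep {h : Wt M → ℤ} (hh : h ∈ HH M) (j : Fin M) :
    ∃ d0 : ℕ, ∀ d : ℕ, d0 ≤ d → ∃ g ∈ HH M, ∀ ν : Wt M,
      g (ν - Pi.single j.succ 1) - g (ν - Pi.single j.castSucc 1) =
        h (ν - ((d : ℤ) + 1) • Pi.single j.succ 1) -
          h (refl j ν - ((d : ℤ) + 1) • Pi.single j.succ 1) := by
  unfold HH at hh
  refine AddSubmonoid.closure_induction (motive := fun h _ => ∃ d0 : ℕ, ∀ d : ℕ, d0 ≤ d →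
    ∃ g ∈ HH M, ∀ ν : Wt M,
      g (ν - Pi.single j.succ 1) - g (ν - Pi.single j.castSucc 1) =
        h (ν - ((d : ℤ) + 1) • Pi.single j.succ 1) -
          h (refl j ν - ((d : ℤ) + 1) • Pi.single j.succ 1)) ?_ ?_ ?_ hh
  · rintro h ⟨κ, _, I, χ, hI, hχ, rfl⟩
    obtain ⟨d0, hd0⟩ := dstep_core I hI j
    refine ⟨d0 + (χ j.castSucc).toNat, fun d hd => ?_⟩
    have c1 : 0 ≤ χ j.castSucc := hχ _
    have c2 : 0 ≤ χ j.succ := hχ _
    obtain ⟨d', hd'⟩ := Int.eq_ofNat_of_zero_le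
      (show 0 ≤ (d : ℤ) + χ j.succ - χ j.castSucc by omega)
    obtain ⟨g, hg, hgν⟩ := hd0 d' (by omega)
    set ψ : Wt M := χ + (χ j.castSucc - χ j.succ) • Pi.single j.succ 1 with hψ
    have p1 : ψ j.castSucc = χ j.castSucc := by
      rw [hψ, Pi.add_apply, Pi.smul_apply, Pi.single_eq_of_ne (cs_ne_s j), smul_zero, add_zero]
    have p2 : ψ j.succ = χ j.castSucc := by
      rw [hψ, Pi.add_apply, Pi.smul_apply, Pi.single_eq_same, smul_eq_mul]; ring
    have hψ0 : 0 ≤ ψ := by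
      intro r
      by_cases hr : r = j.succ
      · rw [hr, p2]; exact c1
      · rw [hψ, Pi.add_apply, Pi.smul_apply, Pi.single_eq_of_ne hr, smul_zero, add_zero]
        exact hχ r
    refine ⟨fun ν => g (ν - ψ), HH_shift hg ψ hψ0, fun ν => ?_⟩
    have e := hgν (ν - ψ)
    have f1 : ν - ψ - Pi.single j.succ 1 = ν - Pi.single j.succ 1 - ψ := by abel
    have f2 : ν - ψ - Pi.single j.castSucc 1 = ν - Pi.single j.castSucc 1 - ψ := by abel
    have f3 : ν - ψ - ((d' : ℤ) + 1) • Pi.single j.succ 1 =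
        ν - ((d : ℤ) + 1) • Pi.single j.succ 1 - χ := by
      have h' : (d' : ℤ) = (d : ℤ) + χ j.succ - χ j.castSucc := hd'.symm
      rw [h', hψ]; module
    have f4 : refl j (ν - ψ) - ((d' : ℤ) + 1) • Pi.single j.succ 1 =
        refl j ν - ((d : ℤ) + 1) • Pi.single j.succ 1 - χ := by
      have h' : (d' : ℤ) = (d : ℤ) + χ j.succ - χ j.castSucc := hd'.symm
      have h'' : refl j (ν - ψ) = refl j ν - ψ := by
        unfold refl
        rw [Pi.sub_apply, Pi.sub_apply, p1, p2]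
        module
      rw [h'', h', hψ]; module
    rw [f1, f2, f3, f4] at e
    exact e
  · refine ⟨0, fun d _ => ⟨0, (HH M).zero_mem, fun ν => ?_⟩⟩
    simp
  · rintro h1 h2 _ _ ⟨a, ha⟩ ⟨b, hb⟩
    refine ⟨max a b, fun d hd => ?_⟩
    obtain ⟨g1, hg1, e1⟩ := ha d (le_trans (le_max_left _ _) hd)
    obtain ⟨g2, hg2, e2⟩ := hb d (le_trans (le_max_right _ _) hd)
    refine ⟨g1 + g2, (HH M).add_mem hg1 hg2, fun ν => ?_⟩
    have e1 := e1 ν
    have e2 := e2 ν
    simp only [Pi.add_apply]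
    linarith

end Pool.Agent.U346
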