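import Pool.Agent.U346.WMod

set_option autoImplicit false

namespace Pool.Agent.U346

open MvPolynomial Module

variable {M : ℕ} {κ : Type}

/-- The Hilbert function of the quotient by an ideal. -/
noncomputable def hF (I : Ideal (S M κ)) (ν : Wt M) : ℤ :=
  (finrank ℚ (gr M κ ν) : ℤ) -
    finrank ℚ ((I.restrictScalars ℚ ⊓ gr M κ ν : Submodule ℚ (S M κ)))

/-- The sums of shifted Hilbert functions of quotients by graded ideals stable under the raising
operators. -/
def HH (M : ℕ) : AddSubmonoid (Wt M → ℤ) :=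
  AddSubmonoid.closure {h | ∃ (κ : Type) (_ : Fintype κ) (I : Ideal (S M κ)) (χ : Wt M),
    BIdeal I ∧ 0 ≤ χ ∧ h = fun ν => hF I (ν - χ)}

theorem rank_aux {U V : Type*} [AddCommGroup U] [Module ℚ U] [AddCommGroup V] [Module ℚ V]
    (A B : Submodule ℚ V) (hAB : A ≤ B) [FiniteDimensional ℚ B] (G K : Submodule ℚ U)
    [FiniteDimensional ℚ G] (φ : U →ₗ[ℚ] V) (h1 : ∀ g ∈ G, φ g ∈ B)
    (h2 : ∀ b ∈ B, ∃ g ∈ G, b - φ g ∈ A) (h3 : ∀ g, g ∈ K ↔ g ∈ G ∧ φ g ∈ A) :
    (finrank ℚ B : ℤ) - finrank ℚ A = (finrank ℚ G : ℤ) - finrank ℚ K := by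
  let A' : Submodule ℚ B := A.comap B.subtype
  let ψ0 : G →ₗ[ℚ] B := φ.restrict h1
  let ψ : G →ₗ[ℚ] (B ⧸ A') := A'.mkQ.comp ψ0
  have hsurj : Function.Surjective ψ := by
    intro q
    obtain ⟨b, rfl⟩ := A'.mkQ_surjective q
    obtain ⟨g, hg, hb⟩ := h2 b.1 b.2
    refine ⟨⟨g, hg⟩, ?_⟩
    show A'.mkQ _ = A'.mkQ _
    rw [Submodule.mkQ_apply, Submodule.mkQ_apply, eq_comm, Submodule.Quotient.eq]
    exact hb
  have e1 := LinearMap.finrank_range_add_finrank_ker ψ
  rw [LinearMap.range_eq_top.2 hsurj, finrank_top] at e1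
  have e2 := Submodule.finrank_quotient_add_finrank A'
  have e3 : finrank ℚ A' = finrank ℚ A :=
    LinearEquiv.finrank_eq (Submodule.comapSubtypeEquivOfLe hAB)
  have hKG : K ≤ G := fun g hg => ((h3 g).1 hg).1
  have e4 : LinearMap.ker ψ = K.comap G.subtype := by
    ext g
    rw [LinearMap.mem_ker, Submodule.mem_comap, Submodule.subtype_apply, h3]
    constructor
    · intro h
      refine ⟨g.2, ?_⟩
      have h' : A'.mkQ (ψ0 g) = 0 := h
      rw [Submodule.mkQ_apply, Submodule.Quotient.mk_eq_zero] at h'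
      exact h'
    · rintro ⟨_, h⟩
      show A'.mkQ (ψ0 g) = 0
      rw [Submodule.mkQ_apply, Submodule.Quotient.mk_eq_zero]
      exact h
  have e5 : finrank ℚ (K.comap G.subtype) = finrank ℚ K :=
    LinearEquiv.finrank_eq (Submodule.comapSubtypeEquivOfLe hKG)
  rw [e4, e5] at e1
  omega

/-- The component of weight `μ` of a sequence. -/
noncomputable def cW (j : Fin M) (d : ℕ) (μ : Wt M) (f : W M κ) : W M κ :=
  fun k => if k ≤ d then cmp (μ - sh j d k) (f k) else 0

theorem cW_mem (j : Fin M) (d : ℕ) (μ : Wt M) (f : W M κ) : cW j d μ f ∈ Vd M κ j d μ := by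
  refine ⟨fun k hk => ?_, fun k hk => ?_⟩
  · unfold cW; rw [if_pos hk]; exact cmp_mem _ _
  · unfold cW; rw [if_neg (by omega)]

theorem cW_same {j : Fin M} {d : ℕ} {μ : Wt M} {f : W M κ} (hf : f ∈ Vd M κ j d μ) :
    cW j d μ f = f := by
  funext k
  unfold cW
  by_cases hk : k ≤ d
  · rw [if_pos hk, cmp_same (hf.1 k hk)]
  · rw [if_neg hk, hf.2 k (by omega)]

theorem cW_add (j : Fin M) (d : ℕ) (μ : Wt M) (f g : W M κ) :
    cW j d μ (f + g) = cW j d μ f + cW j d μ g := by
  funext k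
  unfold cW
  rw [Pi.add_apply, Pi.add_apply]
  split_ifs
  · rw [map_add]
  · rw [add_zero]

theorem cW_smul {j : Fin M} {d : ℕ} {μ : Wt M} {f : W M κ} (hf : f ∈ Vd M κ j d μ) (g : S M κ)
    (ν : Wt M) : cW j d ν (g • f) = cmp (ν - μ) g • f := by
  funext k
  unfold cW
  rw [Pi.smul_apply, smul_eq_mul, Pi.smul_apply, smul_eq_mul]
  by_cases hk : k ≤ d
  · rw [if_pos hk, cmp_mul_of_mem (hf.1 k hk),
      show ν - sh j d k - (μ - sh j d k) = ν - μ by abel]
  · rw [if_neg hk, hf.2 k (by omega), mul_zero]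

/-- Graded submodules stable under the raising operators. -/
structure Good (j : Fin M) (d : ℕ) (P : Submodule (S M κ) (W M κ)) : Prop where
  le : P ≤ Wd M κ d
  hom : ∀ f ∈ P, ∀ μ, cW j d μ f ∈ P
  stab : ∀ i : Fin M, ∀ f ∈ P, EE j i f ∈ P

/-- The Hilbert function of the quotient of `Wd` by a submodule. -/
noncomputable def hW (j : Fin M) (d : ℕ) (P : Submodule (S M κ) (W M κ)) (ν : Wt M) : ℤ :=
  (finrank ℚ (Vd M κ j d ν) : ℤ) -
    finrank ℚ ((P.restrictScalars ℚ ⊓ Vd M κ j d ν : Submodule ℚ (W M κ)))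

theorem exists_hom_notMem (j : Fin M) (d : ℕ) (P : Submodule (S M κ) (W M κ))
    (h : ¬ Wd M κ d ≤ P) : ∃ (μ : Wt M) (f : W M κ), f ∈ Vd M κ j d μ ∧ f ∉ P := by
  classical
  by_contra hcon
  push Not at hcon
  apply h
  intro f hf
  have h1 : f = ∑ k ∈ Finset.range (d + 1), (Pi.single k (f k) : W M κ) := by
    funext l
    rw [Finset.sum_apply]
    by_cases hl : l < d + 1
    · rw [Finset.sum_eq_single l]
      · rw [Pi.single_eq_same]
      · intro b _ hb
        rw [Pi.single_eq_of_ne (Ne.symm hb)]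
      · intro h3
        exact absurd (Finset.mem_range.2 hl) h3
    · rw [hf l (by omega), Finset.sum_eq_zero]
      intro k hk
      rw [Pi.single_eq_of_ne]
      rintro rfl
      exact hl (Finset.mem_range.1 hk)
  rw [h1]
  refine Submodule.sum_mem _ fun k hk => ?_
  obtain ⟨T, hT, _⟩ := exists_sum_cmp (f k)
  rw [hT]
  have h2 : (Pi.single k (∑ μ ∈ T, cmp μ (f k)) : W M κ) =
      ∑ μ ∈ T, (Pi.single k (cmp μ (f k)) : W M κ) := by
    funext l
    rw [Finset.sum_apply]
    by_cases hl : l = k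
    · subst hl
      simp only [Pi.single_eq_same]
    · simp only [Pi.single_eq_of_ne hl, Finset.sum_const_zero]
  rw [h2]
  refine Submodule.sum_mem _ fun μ _ => hcon (μ + sh j d k) _ ⟨?_, ?_⟩
  · intro l hl
    by_cases hlk : l = k
    · subst hlk
      rw [Pi.single_eq_same, add_sub_cancel_right]
      exact cmp_mem _ _
    · rw [Pi.single_eq_of_ne hlk]
      exact Submodule.zero_mem _
  · intro l hl
    rw [Pi.single_eq_of_ne]
    rintro rfl
    have := Finset.mem_range.1 hk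
    omega

/-- The statistic that decreases under the raising operators. -/
def st {M : ℕ} (μ : Wt M) : ℤ := ∑ r : Fin (M + 1), (r.val : ℤ) * μ r

theorem st_add_al (μ : Wt M) (i : Fin M) : st (μ + al i) = st μ - 1 := by
  unfold st
  have h : ∀ r : Fin (M + 1), (r.val : ℤ) * (μ + al i) r =
      (r.val : ℤ) * μ r + ((if r = i.castSucc then (r.val : ℤ) else 0) -
        (if r = i.succ then (r.val : ℤ) else 0)) := by
    intro r
    rw [Pi.add_apply]
    unfold al
    rw [Pi.sub_apply, Pi.single_apply, Pi.single_apply]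
    split_ifs <;> ring
  rw [Finset.sum_congr rfl (fun r _ => h r), Finset.sum_add_distrib, Finset.sum_sub_distrib,
    Finset.sum_ite_eq', Finset.sum_ite_eq']
  simp only [Finset.mem_univ, if_true, Fin.val_castSucc, Fin.val_succ]
  push_cast
  ring

theorem nonneg_of_mem [Fintype κ] {j : Fin M} {d : ℕ} {μ : Wt M} {f : W M κ}
    (hf : f ∈ Vd M κ j d μ) (hne : f ≠ 0) : 0 ≤ μ := by
  intro r
  by_contra h
  rw [Vd_eq_bot j d μ r (not_le.1 h), Submodule.mem_bot] at hf
  exact hne hf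

theorem st_nonneg {μ : Wt M} (h : 0 ≤ μ) : 0 ≤ st μ := by
  unfold st
  apply Finset.sum_nonneg
  intro r _
  exact mul_nonneg (Int.natCast_nonneg _) (h r)

theorem exists_extremal [Fintype κ] (j : Fin M) (d : ℕ) (P : Submodule (S M κ) (W M κ))
    (h : ¬ Wd M κ d ≤ P) : ∃ (μ : Wt M) (f : W M κ), f ∈ Vd M κ j d μ ∧ f ∉ P ∧
      ∀ i : Fin M, EE j i f ∈ P := by
  classical
  have hex : ∃ n : ℕ, ∃ (μ : Wt M) (f : W M κ), f ∈ Vd M κ j d μ ∧ f ∉ P ∧ st μ = n := by
    obtain ⟨μ, f, hf, hfP⟩ := exists_hom_notMem j d P h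
    have hne : f ≠ 0 := fun h0 => hfP (h0 ▸ P.zero_mem)
    obtain ⟨n, hn⟩ := Int.eq_ofNat_of_zero_le (st_nonneg (nonneg_of_mem hf hne))
    exact ⟨n, μ, f, hf, hfP, hn⟩
  obtain ⟨μ, f, hf, hfP, hn⟩ := Nat.find_spec hex
  refine ⟨μ, f, hf, hfP, fun i => ?_⟩
  by_contra hcon
  have hE := EE_mem j i d μ f hf
  have hne : EE j i f ≠ 0 := fun h0 => hcon (h0 ▸ P.zero_mem)
  have h1 := st_nonneg (nonneg_of_mem hE hne)
  rw [st_add_al, hn] at h1
  have h2 : 0 < Nat.find hex := by omega
  apply Nat.find_min hex (m := Nat.find hex - 1) (by omega)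
  refine ⟨_, _, hE, hcon, ?_⟩
  rw [st_add_al, hn]
  omega

/-- The annihilator of `f` modulo `P`. -/
noncomputable def ann (P : Submodule (S M κ) (W M κ)) (f : W M κ) : Ideal (S M κ) :=
  P.comap (LinearMap.toSpanSingleton (S M κ) (W M κ) f)

theorem mem_ann {P : Submodule (S M κ) (W M κ)} {f : W M κ} {g : S M κ} :
    g ∈ ann P f ↔ g • f ∈ P := Iff.rfl

theorem bideal_ann {j : Fin M} {d : ℕ} {P : Submodule (S M κ) (W M κ)} (hP : Good j d P)
    {μ : Wt M} {f : W M κ} (hf : f ∈ Vd M κ j d μ) (hE : ∀ i : Fin M, EE j i f ∈ P) :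
    BIdeal (ann P f) := by
  constructor
  · intro g hg ρ
    have := hP.hom _ (mem_ann.1 hg) (ρ + μ)
    rw [cW_smul hf, add_sub_cancel_right] at this
    exact this
  · intro i g hg
    have h1 := hP.stab i _ (mem_ann.1 hg)
    rw [EE_smul] at h1
    have h2 := P.smul_mem g (hE i)
    have h3 := P.sub_mem h1 h2
    rw [add_sub_cancel_right] at h3
    exact h3

theorem good_sup {j : Fin M} {d : ℕ} {P : Submodule (S M κ) (W M κ)} (hP : Good j d P)
    {μ : Wt M} {f : W M κ} (hf : f ∈ Vd M κ j d μ) (hE : ∀ i : Fin M, EE j i f ∈ P) :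
    Good j d (P ⊔ Submodule.span (S M κ) {f}) := by
  have key : ∀ x, x ∈ P ⊔ Submodule.span (S M κ) {f} ↔ ∃ p ∈ P, ∃ g : S M κ, x = p + g • f := by
    intro x
    rw [Submodule.mem_sup]
    constructor
    · rintro ⟨p, hp, z, hz, rfl⟩
      obtain ⟨g, rfl⟩ := Submodule.mem_span_singleton.1 hz
      exact ⟨p, hp, g, rfl⟩
    · rintro ⟨p, hp, g, rfl⟩
      exact ⟨p, hp, _, Submodule.mem_span_singleton.2 ⟨g, rfl⟩, rfl⟩
  refine ⟨sup_le hP.le ?_, ?_, ?_⟩
  · rw [Submodule.span_singleton_le_iff_mem]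
    exact hf.2
  · intro x hx ν
    obtain ⟨p, hp, g, rfl⟩ := (key x).1 hx
    rw [cW_add, cW_smul hf]
    exact (key _).2 ⟨_, hP.hom p hp ν, _, rfl⟩
  · intro i x hx
    obtain ⟨p, hp, g, rfl⟩ := (key x).1 hx
    rw [map_add, EE_smul]
    refine (key _).2 ⟨EE j i p + g • EE j i f, P.add_mem (hP.stab i p hp) (P.smul_mem g (hE i)),
      E i g, ?_⟩
    abel

theorem hW_step [Fintype κ] {j : Fin M} {d : ℕ} {P : Submodule (S M κ) (W M κ)} (hP : Good j d P)
    {μ : Wt M} {f : W M κ} (hf : f ∈ Vd M κ j d μ) (ν : Wt M) :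
    hW j d P ν = hW j d (P ⊔ Submodule.span (S M κ) {f}) ν + hF (ann P f) (ν - μ) := by
  have h := rank_aux (P.restrictScalars ℚ ⊓ Vd M κ j d ν)
    ((P ⊔ Submodule.span (S M κ) {f}).restrictScalars ℚ ⊓ Vd M κ j d ν) (by
      apply inf_le_inf_right
      intro x hx
      exact Submodule.mem_sup_left (show x ∈ P from hx))
    (gr M κ (ν - μ)) ((ann P f).restrictScalars ℚ ⊓ gr M κ (ν - μ))
    ((LinearMap.toSpanSingleton (S M κ) (W M κ) f).restrictScalars ℚ)
    (by
      intro g hg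
      refine ⟨Submodule.mem_sup_right (Submodule.mem_span_singleton.2 ⟨g, rfl⟩), ?_⟩
      show g • f ∈ Vd M κ j d ν
      refine ⟨fun k hk => ?_, fun k hk => ?_⟩
      · have := mul_mem_gr hg (hf.1 k hk)
        rwa [show ν - μ + (μ - sh j d k) = ν - sh j d k by abel] at this
      · rw [Pi.smul_apply, hf.2 k hk, smul_zero])
    (by
      rintro b ⟨hb1, hb2⟩
      obtain ⟨p, hp, z, hz, hpz⟩ := Submodule.mem_sup.1 (show b ∈ P ⊔ _ from hb1)
      obtain ⟨g, rfl⟩ := Submodule.mem_span_singleton.1 hz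
      refine ⟨cmp (ν - μ) g, cmp_mem _ _, ?_⟩
      have h1 : cW j d ν b = cW j d ν p + cmp (ν - μ) g • f := by
        rw [← hpz, cW_add, cW_smul hf]
      rw [cW_same hb2] at h1
      have h2 : b - cmp (ν - μ) g • f = cW j d ν p := by rw [h1, add_sub_cancel_right]
      show b - cmp (ν - μ) g • f ∈ _
      rw [h2]
      exact ⟨hP.hom p hp ν, cW_mem _ _ _ _⟩)
    (by
      intro g
      constructor
      · rintro ⟨h1, h2⟩
        refine ⟨h2, mem_ann.1 h1, ?_⟩
        show g • f ∈ Vd M κ j d ν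
        refine ⟨fun k hk => ?_, fun k hk => ?_⟩
        · have := mul_mem_gr h2 (hf.1 k hk)
          rwa [show ν - μ + (μ - sh j d k) = ν - sh j d k by abel] at this
        · rw [Pi.smul_apply, hf.2 k hk, smul_zero]
      · rintro ⟨h1, h2, _⟩
        exact ⟨h2, h1⟩)
  unfold hW hF
  linarith

theorem filt [Fintype κ] (j : Fin M) (d : ℕ) (P : Submodule (S M κ) (W M κ)) (hP : Good j d P) :
    hW j d P ∈ HH M := by
  have key : ∀ Q : Submodule (S M κ) (Wd M κ d), ∀ P : Submodule (S M κ) (W M κ), Good j d P →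
      P.comap (Wd M κ d).subtype = Q → hW j d P ∈ HH M := by
    intro Q
    induction Q using IsNoetherian.induction with
    | hgt Q ih =>
      intro P hP hPQ
      by_cases htop : Wd M κ d ≤ P
      · have h0 : hW j d P = 0 := by
          funext ν
          unfold hW
          have : (P.restrictScalars ℚ ⊓ Vd M κ j d ν : Submodule ℚ (W M κ)) = Vd M κ j d ν := by
            apply inf_eq_right.2
            intro x hx
            exact htop (Vd_le _ _ _ _ hx)
          rw [this, sub_self]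
          rfl
        rw [h0]
        exact AddSubmonoid.zero_mem _
      · obtain ⟨μ, f, hf, hfP, hE⟩ := exists_extremal j d P htop
        have hG := good_sup hP hf hE
        have hfW : f ∈ Wd M κ d := hf.2
        have hlt : Q < (P ⊔ Submodule.span (S M κ) {f}).comap (Wd M κ d).subtype := by
          rw [← hPQ]
          refine lt_of_le_of_ne (Submodule.comap_mono le_sup_left) ?_
          intro heq
          apply hfP
          have : (⟨f, hfW⟩ : Wd M κ d) ∈ P.comap (Wd M κ d).subtype := by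
            rw [heq]
            exact Submodule.mem_sup_right (Submodule.mem_span_singleton_self f)
          exact this
        have h1 := ih _ hlt _ hG rfl
        have h2 : (fun ν => hF (ann P f) (ν - μ)) ∈ HH M := by
          apply AddSubmonoid.subset_closure
          refine ⟨κ, inferInstance, ann P f, μ, bideal_ann hP hf hE, ?_, rfl⟩
          exact nonneg_of_mem hf (fun h0 => hfP (h0 ▸ P.zero_mem))
        have h3 : hW j d P = hW j d (P ⊔ Submodule.span (S M κ) {f}) +
            fun ν => hF (ann P f) (ν - μ) := by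
          funext ν
          exact hW_step hP hf ν
        rw [h3]
        exact AddSubmonoid.add_mem _ h1 h2
  exact key _ P hP rfl

end Pool.Agent.U346
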