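import Pool.Agent.U346.Phi

set_option autoImplicit false

namespace Pool.Agent.U346

open MvPolynomial

variable {N : ℕ}

/-- The polynomials in the first `k` variables. -/
noncomputable def su (N k : ℕ) : Subalgebra ℤ (MvPolynomial (Fin N) ℤ) :=
  supported ℤ {i : Fin N | i.val < k}

theorem zz_su {i k : ℕ} (h : i < k) : zz N i ∈ su N k := by
  unfold zz
  split_ifs with hi
  · exact (X_mem_supported (R := ℤ)).2 h
  · exact Subalgebra.zero_mem _

theorem su_mono {k l : ℕ} (h : k ≤ l) {f : MvPolynomial (Fin N) ℤ} (hf : f ∈ su N k) :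
    f ∈ su N l := by
  have h1 : ({i : Fin N | i.val < k} : Set (Fin N)) ⊆ {i : Fin N | i.val < l} := by
    intro i hi
    have hi' : i.val < k := hi
    show i.val < l
    omega
  exact supported_mono (R := ℤ) h1 hf

theorem ee_su (k j : ℕ) : ee N k j ∈ su N k := by
  induction k generalizing j with
  | zero =>
    cases j with
    | zero => rw [ee_zero]; exact Subalgebra.one_mem _
    | succ j => rw [ee_big 0 (j + 1) (by omega)]; exact Subalgebra.zero_mem _
  | succ k ih =>
    cases j with
    | zero => rw [ee_zero]; exact Subalgebra.one_mem _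
    | succ j =>
      rw [ee_succ]
      exact Subalgebra.sub_mem _ (su_mono (by omega) (ih _))
        (Subalgebra.mul_mem _ (zz_su (by omega)) (su_mono (by omega) (ih _)))

theorem su_Fx {k i : ℕ} (h : k ≤ i) {f : MvPolynomial (Fin N) ℤ} (hf : f ∈ su N k) :
    Fx N i f := by
  intro hi
  have h1 : su N k ≤ AlgHom.equalizer (rename (Equiv.swap (⟨i, by omega⟩ : Fin N) ⟨i + 1, hi⟩) :
      MvPolynomial (Fin N) ℤ →ₐ[ℤ] MvPolynomial (Fin N) ℤ)
      (AlgHom.id ℤ (MvPolynomial (Fin N) ℤ)) := by
    unfold su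
    rw [supported_eq_adjoin_X, Algebra.adjoin_le_iff]
    rintro _ ⟨r, hr, rfl⟩
    show rename _ (X r) = X r
    have hr' : r.val < k := hr
    rw [rename_X, Equiv.swap_apply_of_ne_of_ne]
    · intro h'
      have : r.val = i := congrArg Fin.val h'
      omega
    · intro h'
      have : r.val = i + 1 := congrArg Fin.val h'
      omega
  exact h1 hf

theorem su_coeff {k : ℕ} {f : MvPolynomial (Fin N) ℤ} (hf : f ∈ su N k) {m : Fin N →₀ ℕ}
    (hm : coeff m f ≠ 0) (i : Fin N) (hi : k ≤ i.val) : m i = 0 := by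
  by_contra hne
  have h1 : i ∈ f.vars := by
    rw [mem_vars_iff_mem_support]
    exact ⟨m, mem_support_iff.2 hm, Finsupp.mem_support_iff.2 hne⟩
  have h2 := (mem_supported (R := ℤ)).1 hf (Finset.mem_coe.2 h1)
  have h3 : i.val < k := h2
  omega

/-- The exponents of the extracted coefficient. -/
noncomputable def be (N : ℕ) (B : ℕ → ℕ) (k : ℕ) : Fin N →₀ ℕ :=
  Finsupp.equivFunOnFinite.symm (fun r => if r.val < k then B r.val - 1 else 0)

theorem be_apply (B : ℕ → ℕ) (k : ℕ) (r : Fin N) :
    be N B k r = if r.val < k then B r.val - 1 else 0 := rfl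

theorem be_succ (B : ℕ → ℕ) (k : ℕ) (hk : k < N) :
    be N B (k + 1) = be N B k + Finsupp.single ⟨k, hk⟩ (B k - 1) := by
  ext r
  rw [Finsupp.add_apply, be_apply, be_apply, Finsupp.single_apply]
  by_cases h : r.val = k
  · have : (⟨k, hk⟩ : Fin N) = r := Fin.ext h.symm
    rw [if_pos (by omega), if_neg (by omega), if_pos this, h, zero_add]
  · have : ¬ (⟨k, hk⟩ : Fin N) = r := fun h' => h (by rw [← h'])
    rw [if_neg this, add_zero]
    by_cases h2 : r.val < k
    · rw [if_pos (by omega), if_pos h2]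
    · rw [if_neg (by omega), if_neg h2]

/-- The Vandermonde product in the first `k` variables. -/
noncomputable def vd (N k : ℕ) : MvPolynomial (Fin N) ℤ :=
  ∏ j ∈ Finset.range k, ∏ i ∈ Finset.range j, (zz N j - zz N i)

theorem vd_su (k : ℕ) : vd N k ∈ su N k := by
  unfold vd
  refine Subalgebra.prod_mem _ fun j hj => Subalgebra.prod_mem _ fun i hi => ?_
  rw [Finset.mem_range] at hj hi
  exact Subalgebra.sub_mem _ (zz_su hj) (zz_su (by omega))

theorem coeff_su {k : ℕ} (hk : k < N) {f : MvPolynomial (Fin N) ℤ} (hf : f ∈ su N k)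
    (β : Fin N →₀ ℕ) (b c : ℕ) (hβ : β ⟨k, hk⟩ = 0) :
    coeff (β + Finsupp.single ⟨k, hk⟩ b) (f * zz N k ^ c) = if c = b then coeff β f else 0 := by
  rw [zz_lt hk, X_pow_eq_monomial, coeff_mul_monomial', mul_one]
  split_ifs with h1 h2 h2
  · rw [h2, add_tsub_cancel_right]
  · by_contra hne
    have h3 := su_coeff hf hne ⟨k, hk⟩ le_rfl
    rw [Finsupp.tsub_apply, Finsupp.add_apply, Finsupp.single_eq_same, Finsupp.single_eq_same,
      hβ] at h3
    have h4 := h1 ⟨k, hk⟩
    rw [Finsupp.add_apply, Finsupp.single_eq_same, Finsupp.single_eq_same, hβ] at h4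
    omega
  · exfalso
    apply h1
    rw [h2]
    exact le_add_self
  · rfl

/-- The functional given by a coefficient. -/
noncomputable def Phi (N : ℕ) (B : ℕ → ℕ) (k : ℕ) : MvPolynomial (Fin N) ℤ →ₗ[ℤ] ℤ :=
  (lcoeff ℤ (be N B k)).comp (LinearMap.mulLeft ℤ (vd N k))

theorem Phi_apply (B : ℕ → ℕ) (k : ℕ) (f : MvPolynomial (Fin N) ℤ) :
    Phi N B k f = coeff (be N B k) (vd N k * f) := rfl

theorem Phi_succ {B : ℕ → ℕ} (hBk : ∀ r, r < B r) (k : ℕ) (hk : B k ≤ N)
    (f : MvPolynomial (Fin N) ℤ) (hf : f ∈ su N k) (a : ℕ) :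
    Phi N B (k + 1) (f * zz N k ^ a) =
      if B k - 1 - k ≤ a then Phi N B k (f * ee N k (a - (B k - 1 - k))) else 0 := by
  have hBkk := hBk k
  have hkN : k < N := by omega
  have e1 : vd N (k + 1) * (f * zz N k ^ a) =
      ∑ j ∈ Finset.range (k + 1), (vd N k * (f * ee N k j)) * zz N k ^ (k - j + a) := by
    unfold vd
    rw [Finset.prod_range_succ, prod_diff, Finset.mul_sum, Finset.sum_mul]
    refine Finset.sum_congr rfl fun j _ => ?_
    rw [pow_add]
    ring
  rw [Phi_apply, e1, be_succ B k hkN, coeff_sum]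
  have e2 : ∀ j ∈ Finset.range (k + 1), coeff (be N B k + Finsupp.single ⟨k, hkN⟩ (B k - 1))
      ((vd N k * (f * ee N k j)) * zz N k ^ (k - j + a)) =
      if k - j + a = B k - 1 then Phi N B k (f * ee N k j) else 0 := by
    intro j _
    rw [coeff_su hkN (Subalgebra.mul_mem _ (vd_su k) (Subalgebra.mul_mem _ hf (ee_su k j)))]
    · rfl
    · rw [be_apply, if_neg (lt_irrefl k)]
  rw [Finset.sum_congr rfl e2]
  split_ifs with h1
  · by_cases h2 : a - (B k - 1 - k) ≤ k
    · rw [Finset.sum_eq_single (a - (B k - 1 - k))]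
      · rw [if_pos (by omega)]
      · intro j hj hne
        rw [Finset.mem_range] at hj
        rw [if_neg (by omega)]
      · intro h3
        exact absurd (Finset.mem_range.2 (by omega)) h3
    · rw [ee_big k _ (by omega), mul_zero, map_zero]
      apply Finset.sum_eq_zero
      intro j hj
      rw [Finset.mem_range] at hj
      rw [if_neg (by omega)]
  · apply Finset.sum_eq_zero
    intro j hj
    rw [Finset.mem_range] at hj
    rw [if_neg (by omega)]

theorem Phi_eq_Psi {B : ℕ → ℕ} (hmono : StrictMono B) (hBk : ∀ r, r < B r) (k : ℕ)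
    (hk : ∀ r, r < k → B r ≤ N) (f : MvPolynomial (Fin N) ℤ) (hf : f ∈ su N k) :
    Phi N B k f = Psi N B k f := by
  induction k generalizing f with
  | zero =>
    rw [Phi_apply, Psi_apply]
    have e1 : vd N 0 = 1 := rfl
    have e2 : be N B 0 = 0 := by
      ext r
      rw [be_apply, if_neg (Nat.not_lt_zero _)]
      rfl
    rw [e1, e2, one_mul]
    rfl
  | succ k ih =>
    have hBkk := hBk k
    have hkk := hk k (Nat.lt_succ_self k)
    have hkN : k < N := by omega
    have hrepr : f = ∑ m ∈ f.support, coeff m f • ((monomial (m.erase ⟨k, hkN⟩) 1) *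
        zz N k ^ (m ⟨k, hkN⟩)) := by
      conv_lhs => rw [f.as_sum]
      refine Finset.sum_congr rfl fun m _ => ?_
      rw [zz_lt hkN, X_pow_eq_monomial, monomial_mul, mul_one, smul_monomial, smul_eq_mul, mul_one,
        Finsupp.erase_add_single]
    rw [hrepr, map_sum, map_sum]
    refine Finset.sum_congr rfl fun m hm => ?_
    rw [map_smul, map_smul]
    congr 1
    have hmem : (monomial (m.erase ⟨k, hkN⟩) 1 : MvPolynomial (Fin N) ℤ) ∈ su N k := by
      refine (mem_supported (R := ℤ)).2 ?_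
      rw [vars_monomial one_ne_zero]
      intro r hr
      have hr1 := Finsupp.mem_support_iff.1 (Finset.mem_coe.1 hr)
      have hrk : r ≠ ⟨k, hkN⟩ := by
        rintro rfl
        rw [Finsupp.erase_same] at hr1
        exact hr1 rfl
      rw [Finsupp.erase_ne hrk] at hr1
      show r.val < k
      by_contra hcon
      push Not at hcon
      apply hr1
      apply su_coeff hf (mem_support_iff.1 hm) r
      have : r.val ≠ k := fun h' => hrk (Fin.ext h')
      omega
    rw [Phi_succ hBk k hkk _ hmem, Psi_succ hmono hBk k hkk _ (fun i hi => su_Fx hi hmem)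
      (fun i j hi => su_Fx hi (ee_su k j))]
    split_ifs
    · exact ih (fun r hr => hk r (by omega)) _ (Subalgebra.mul_mem _ hmem (ee_su k _))
    · rfl

end Pool.Agent.U346
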