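import Pool.Agent.U346.ThmP
import Pool.Agent.U346.PhiEq
import Pool.Agent.U346.Claim2

set_option autoImplicit false

namespace Pool.Agent.U346

open MvPolynomial

theorem KK_ddn {N i : ℕ} (h : i + 1 < N) {f : MvPolynomial (Fin N) ℤ} (hf : KK N f) :
    KK N (ddn N i f) := by
  unfold ddn
  rw [dif_pos h]
  exact KK.dd _ _ rfl f _ (dd_spec _ f) hf

theorem KK_chain {N k l : ℕ} (h : k + l < N) {f : MvPolynomial (Fin N) ℤ} (hf : KK N f) :
    KK N (chain N k l f) := by
  induction l with
  | zero => exact hf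
  | succ l ih =>
    show KK N (ddn N (k + l) (chain N k l f))
    exact KK_ddn (by omega) (ih (by omega))

theorem KK_TT {N : ℕ} {B : ℕ → ℕ} (k : ℕ) (hk : ∀ r, r < k → B r ≤ N) (hBk : ∀ r, r < B r)
    {f : MvPolynomial (Fin N) ℤ} (hf : KK N f) : KK N (TT N B k f) := by
  induction k generalizing f with
  | zero => exact hf
  | succ k ih =>
    show KK N (TT N B k (chain N k (B k - 1 - k) f))
    have h1 := hk k (Nat.lt_succ_self k)
    have h2 := hBk k
    exact ih (fun r hr => hk r (by omega)) (KK_chain (by omega) hf)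

theorem KK_one (N : ℕ) : KK N 1 := by
  have h := KK.e (N := N) 0 (Nat.zero_le _)
  have h2 : Finset.univ.filter (fun r : Fin N => r.val < 0) = ∅ := by
    rw [Finset.filter_eq_empty_iff]
    intro r _
    exact Nat.not_lt_zero _
  rw [h2, Finset.prod_empty] at h
  exact h

/-- Dominant monomials. -/
theorem KK_dom (N : ℕ) (a : ℕ) : ∀ lam : ℕ → ℕ, Antitone lam → (∀ k, N ≤ k → lam k = 0) →
    lam 0 = a → KK N (∏ r : Fin N, X r ^ lam r.val) := by
  classical
  induction a with
  | zero =>
    intro lam h1 h2 h3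
    have : ∏ r : Fin N, (X r : MvPolynomial (Fin N) ℤ) ^ lam r.val = 1 := by
      apply Finset.prod_eq_one
      intro r _
      have h4 := h1 (Nat.zero_le r.val)
      rw [show lam r.val = 0 by omega, pow_zero]
    rw [this]
    exact KK_one N
  | succ a ih =>
    intro lam h1 h2 h3
    have hex : ∃ k, lam k = 0 := ⟨N, h2 N le_rfl⟩
    have hk1 : lam (Nat.find hex) = 0 := Nat.find_spec hex
    have hk2 : ∀ r, r < Nat.find hex → lam r ≠ 0 := fun r hr => Nat.find_min hex hr
    have hk3 : Nat.find hex ≤ N := Nat.find_min' hex (h2 N le_rfl)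
    set k := Nat.find hex with hk
    have e : ∏ r : Fin N, (X r : MvPolynomial (Fin N) ℤ) ^ lam r.val =
        (∏ r ∈ Finset.univ.filter (fun r : Fin N => r.val < k), X r) *
          ∏ r : Fin N, X r ^ (lam r.val - 1) := by
      rw [Finset.prod_filter, ← Finset.prod_mul_distrib]
      refine Finset.prod_congr rfl fun r _ => ?_
      split_ifs with h
      · have := hk2 r.val h
        rw [← pow_succ']
        congr 1
        omega
      · have h4 := h1 (show k ≤ r.val by omega)
        rw [hk1] at h4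
        rw [show lam r.val = 0 by omega, one_mul]
    rw [e]
    refine KK.mul _ _ (KK.e k hk3) (ih (fun r => lam r - 1) (fun i j hij => ?_) (fun r hr => ?_) ?_)
    · have := h1 hij
      show lam j - 1 ≤ lam i - 1
      omega
    · show lam r - 1 = 0
      rw [h2 r hr]
    · show lam 0 - 1 = a
      omega

variable {n : ℕ}

theorem castLE_inj {N : ℕ} (h : n ≤ N) : Function.Injective (Fin.castLE h) :=
  Fin.castLE_injective h

theorem rename_prod {N : ℕ} (h : n ≤ N) (f : ℕ → ℕ) :
    rename (Fin.castLE h) (∏ r : Fin n, (X r : MvPolynomial (Fin n) ℤ) ^ f r.val) =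
      ∏ r : Fin N, X r ^ (if r.val < n then f r.val else 0) := by
  classical
  rw [map_prod]
  have h1 : ∀ r : Fin n, rename (Fin.castLE h) ((X r : MvPolynomial (Fin n) ℤ) ^ f r.val) =
      (fun s : Fin N => (X s : MvPolynomial (Fin N) ℤ) ^ (if s.val < n then f s.val else 0))
        (Fin.castLEEmb h r) := by
    intro r
    rw [map_pow, rename_X]
    show X (Fin.castLE h r) ^ f r.val =
      X (Fin.castLE h r) ^ (if (Fin.castLE h r).val < n then f (Fin.castLE h r).val else 0)
    rw [if_pos (by rw [Fin.val_castLE]; exact r.isLt), Fin.val_castLE]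
  rw [Finset.prod_congr rfl (fun r _ => h1 r), ← Finset.prod_map Finset.univ (Fin.castLEEmb h)
    (fun s : Fin N => (X s : MvPolynomial (Fin N) ℤ) ^ (if s.val < n then f s.val else 0))]
  apply Finset.prod_subset (Finset.subset_univ _)
  intro s _ hs
  have h2 : ¬ s.val < n := by
    intro h3
    apply hs
    rw [Finset.mem_map]
    exact ⟨⟨s.val, h3⟩, Finset.mem_univ _, Fin.ext rfl⟩
  rw [if_neg h2, pow_zero]

theorem KK_rename_dom {N : ℕ} (h : n ≤ N) (f : ℕ → ℕ) (hf : ∀ i j, i ≤ j → j < n → f j ≤ f i) :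
    KK N (rename (Fin.castLE h) (∏ r : Fin n, (X r : MvPolynomial (Fin n) ℤ) ^ f r.val)) := by
  rw [rename_prod]
  refine KK_dom N _ (fun r => if r < n then f r else 0) (fun i j hij => ?_) (fun k hk => ?_) rfl
  · show (if j < n then f j else 0) ≤ (if i < n then f i else 0)
    split_ifs with h1 h2
    · exact hf i j hij h1
    · omega
    · exact Nat.zero_le _
    · exact Nat.zero_le _
  · show (if k < n then f k else 0) = 0
    rw [if_neg (by omega)]

variable {D : Equiv.Perm (Fin n) → MvPolynomial (Fin n) ℤ → MvPolynomial (Fin n) ℤ}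

theorem DH.KK (h : DH D) {N : ℕ} (hn : n ≤ N) (w : Equiv.Perm (Fin n))
    {f : MvPolynomial (Fin n) ℤ} (hf : KK N (rename (Fin.castLE hn) f)) :
    KK N (rename (Fin.castLE hn) (D w f)) := by
  induction w using perm_induction with
  | h1 => rw [h.one]; exact hf
  | hs w i j hij hd hl ih =>
    rw [h.down hij hd, dd_rename (castLE_inj hn)]
    refine KK.dd (Fin.castLE hn i) (Fin.castLE hn j) ?_ _ _ (dd_spec _ _) ih
    rw [Fin.val_castLE, Fin.val_castLE, hij]

theorem vd_eq {N : ℕ} (h : n ≤ N) : vd N n = rename (Fin.castLE h) (vand n) := by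
  classical
  unfold vd vand
  rw [map_prod]
  simp only [map_prod, map_sub, rename_X]
  rw [Finset.prod_sigma', Finset.prod_sigma']
  refine Finset.prod_bij' (fun p hp => ⟨⟨p.2, ?_⟩, ⟨p.1, ?_⟩⟩) (fun p _ => ⟨p.2.val, p.1.val⟩)
    ?_ ?_ ?_ ?_ ?_
  · rw [Finset.mem_sigma, Finset.mem_range, Finset.mem_range] at hp
    omega
  · rw [Finset.mem_sigma, Finset.mem_range, Finset.mem_range] at hp
    exact hp.1
  · intro p hp
    rw [Finset.mem_sigma, Finset.mem_range, Finset.mem_range] at hp
    rw [Finset.mem_sigma]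
    exact ⟨Finset.mem_univ _, Finset.mem_Ioi.2 hp.2⟩
  · intro p hp
    rw [Finset.mem_sigma] at hp
    rw [Finset.mem_sigma, Finset.mem_range, Finset.mem_range]
    have h1 : p.1 < p.2 := Finset.mem_Ioi.1 hp.2
    exact ⟨p.2.isLt, h1⟩
  · intro p _; rfl
  · intro p _; rfl
  · intro p hp
    rw [Finset.mem_sigma, Finset.mem_range, Finset.mem_range] at hp
    rw [zz_lt (show p.1 < N by omega), zz_lt (show p.2 < N by omega)]
    rfl

theorem be_eq {N : ℕ} (h : n ≤ N) (B : ℕ → ℕ) :
    be N B n = (ex fun i : Fin n => B i.val - 1).mapDomain (Fin.castLE h) := by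
  ext r
  rw [be_apply]
  split_ifs with hr
  · have : r = Fin.castLE h ⟨r.val, hr⟩ := Fin.ext rfl
    conv_rhs => rw [this]
    rw [Finsupp.mapDomain_apply (castLE_inj h)]
    rfl
  · rw [Finsupp.mapDomain_of_notMem_range]
    rintro ⟨s, rfl⟩
    exact hr (by rw [Fin.val_castLE]; exact s.isLt)

theorem Phi_rename {N : ℕ} (h : n ≤ N) (B : ℕ → ℕ) (G : MvPolynomial (Fin n) ℤ) :
    Phi N B n (rename (Fin.castLE h) G) = coeff (ex fun i : Fin n => B i.val - 1) (vand n * G) := by
  rw [Phi_apply, vd_eq h, ← map_mul, be_eq h, coeff_rename_mapDomain _ (castLE_inj h)]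

theorem rename_su {N : ℕ} (h : n ≤ N) (G : MvPolynomial (Fin n) ℤ) :
    rename (Fin.castLE h) G ∈ su N n := by
  induction G using MvPolynomial.induction_on with
  | C a =>
    rw [rename_C]
    exact Subalgebra.algebraMap_mem _ a
  | add p q hp hq => rw [map_add]; exact Subalgebra.add_mem _ hp hq
  | mul_X p i hp =>
    rw [map_mul, rename_X]
    refine Subalgebra.mul_mem _ hp ((X_mem_supported (R := ℤ)).2 ?_)
    show (Fin.castLE h i).val < n
    rw [Fin.val_castLE]
    exact i.isLt

/-- The functional is nonnegative on the class. -/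
theorem Phi_nonneg {N : ℕ} (hn : n ≤ N) {B : ℕ → ℕ} (hmono : StrictMono B)
    (hBk : ∀ r, r < B r) (hN : ∀ r, r < n → B r ≤ N) {G : MvPolynomial (Fin n) ℤ}
    (hG : KK N (rename (Fin.castLE hn) G)) :
    0 ≤ coeff (ex fun i : Fin n => B i.val - 1) (vand n * G) := by
  rw [← Phi_rename hn B G, Phi_eq_Psi hmono hBk n hN _ (rename_su hn G), Psi_apply]
  exact thmP (KK_TT n hN hBk hG)

end Pool.Agent.U346
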