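import Mathlib

set_option autoImplicit false

namespace Pool.Agent.U346

open MvPolynomial

variable {σ : Type}

/-- All monomials have degree at least `c`. -/
def LowOrd (c : ℕ) (p : MvPolynomial σ ℤ) : Prop := ∀ m : σ →₀ ℕ, m.degree < c → coeff m p = 0

theorem LowOrd.zero (c : ℕ) : LowOrd c (0 : MvPolynomial σ ℤ) := fun m _ => coeff_zero m

theorem LowOrd.any (p : MvPolynomial σ ℤ) : LowOrd 0 p := fun _ h => absurd h (Nat.not_lt_zero _)

theorem LowOrd.mono {a b : ℕ} (h : a ≤ b) {p : MvPolynomial σ ℤ} (hp : LowOrd b p) : LowOrd a p :=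
  fun m hm => hp m (lt_of_lt_of_le hm h)

theorem LowOrd.add {c : ℕ} {p q : MvPolynomial σ ℤ} (hp : LowOrd c p) (hq : LowOrd c q) :
    LowOrd c (p + q) := fun m hm => by rw [coeff_add, hp m hm, hq m hm, add_zero]

theorem LowOrd.sub {c : ℕ} {p q : MvPolynomial σ ℤ} (hp : LowOrd c p) (hq : LowOrd c q) :
    LowOrd c (p - q) := fun m hm => by rw [coeff_sub, hp m hm, hq m hm, sub_zero]

theorem LowOrd.mul {a b : ℕ} {p q : MvPolynomial σ ℤ} (hp : LowOrd a p) (hq : LowOrd b q) :
    LowOrd (a + b) (p * q) := by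
  classical
  intro m hm
  rw [coeff_mul]
  refine Finset.sum_eq_zero fun x hx => ?_
  have h1 := Finset.HasAntidiagonal.mem_antidiagonal.1 hx
  have h2 : x.1.degree + x.2.degree = m.degree := by rw [← h1, map_add]
  by_cases h3 : x.1.degree < a
  · rw [hp _ h3, zero_mul]
  · rw [hq _ (by omega), mul_zero]

theorem LowOrd.of_hom {c : ℕ} {p : MvPolynomial σ ℤ} (hp : p.IsHomogeneous c) : LowOrd c p := by
  intro m hm
  exact hp.coeff_eq_zero (ne_of_lt hm)

theorem lowOrd_iff {c : ℕ} {p : MvPolynomial σ ℤ} :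
    LowOrd c p ↔ ∀ e < c, homogeneousComponent e p = 0 := by
  classical
  constructor
  · intro h e he
    ext m
    rw [coeff_homogeneousComponent, coeff_zero]
    split_ifs with hm
    · exact h m (by omega)
    · rfl
  · intro h m hm
    have := congrArg (coeff m) (h _ hm)
    rwa [coeff_homogeneousComponent, if_pos rfl, coeff_zero] at this

theorem hc_mul {L : MvPolynomial σ ℤ} (hL : L.IsHomogeneous 1) (p : MvPolynomial σ ℤ) (e : ℕ) :
    homogeneousComponent (e + 1) (L * p) = L * homogeneousComponent e p := by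
  classical
  have h1 : ∀ i, homogeneousComponent (e + 1) (L * homogeneousComponent i p) =
      if i = e then L * homogeneousComponent e p else 0 := by
    intro i
    have h2 : L * homogeneousComponent i p ∈ homogeneousSubmodule σ ℤ (1 + i) :=
      hL.mul (homogeneousComponent_isHomogeneous i p)
    rw [homogeneousComponent_of_mem h2]
    by_cases hi : i = e
    · subst hi
      rw [if_pos (by ring), if_pos rfl]
    · rw [if_neg (by omega), if_neg hi]
  conv_lhs => rw [← sum_homogeneousComponent p]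
  rw [Finset.mul_sum, map_sum, Finset.sum_congr rfl (fun i _ => h1 i), Finset.sum_ite_eq']
  split_ifs with h
  · rfl
  · rw [homogeneousComponent_eq_zero, mul_zero]
    rw [Finset.mem_range] at h
    omega

theorem hc_mul_zero {L : MvPolynomial σ ℤ} (hL : L.IsHomogeneous 1) (p : MvPolynomial σ ℤ) :
    homogeneousComponent 0 (L * p) = 0 := by
  rw [homogeneousComponent_zero]
  have h1 : coeff 0 L = 0 := hL.coeff_eq_zero (by simp)
  have h2 : coeff 0 (L * p) = 0 := by
    rw [← constantCoeff_eq, map_mul, constantCoeff_eq, h1, zero_mul]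
  rw [h2, map_zero]

theorem LowOrd.cancel {L : MvPolynomial σ ℤ} (hL : L.IsHomogeneous 1) (hL0 : L ≠ 0) {c : ℕ}
    {p : MvPolynomial σ ℤ} (h : LowOrd (c + 1) (L * p)) : LowOrd c p := by
  rw [lowOrd_iff] at h ⊢
  intro e he
  have := h (e + 1) (by omega)
  rw [hc_mul hL] at this
  exact (mul_eq_zero.1 this).resolve_left hL0

theorem hom_cancel {L : MvPolynomial σ ℤ} (hL : L.IsHomogeneous 1) (hL0 : L ≠ 0) {c : ℕ}
    {p : MvPolynomial σ ℤ} (h : (L * p).IsHomogeneous (c + 1)) : p.IsHomogeneous c := by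
  have h1 : ∀ e, e ≠ c → homogeneousComponent e p = 0 := by
    intro e he
    have h2 := hc_mul hL p e
    rw [homogeneousComponent_of_mem (n := c + 1) h, if_neg (by omega)] at h2
    exact (mul_eq_zero.1 h2.symm).resolve_left hL0
  rw [← sum_homogeneousComponent p]
  refine IsHomogeneous.sum _ _ _ fun i _ => ?_
  by_cases hi : i = c
  · subst hi; exact homogeneousComponent_isHomogeneous _ _
  · rw [h1 i hi]; exact isHomogeneous_zero _ _ _

theorem LowOrd.rename {c : ℕ} {p : MvPolynomial σ ℤ} (hp : LowOrd c p) (e : Equiv.Perm σ) :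
    LowOrd c (rename e p) := by
  rw [lowOrd_iff] at hp ⊢
  intro i hi
  rw [← rename_homogeneousComponent, hp i hi, map_zero]

/-- Divided differences exist. -/
theorem exists_dd [DecidableEq σ] (i j : σ) (p : MvPolynomial σ ℤ) :
    ∃ q, (X i - X j) * q = p - rename (Equiv.swap i j) p := by
  induction p using MvPolynomial.induction_on with
  | C a => exact ⟨0, by rw [rename_C, sub_self, mul_zero]⟩
  | add p q hp hq =>
    obtain ⟨a, ha⟩ := hp
    obtain ⟨b, hb⟩ := hq
    refine ⟨a + b, ?_⟩
    rw [mul_add, ha, hb, map_add]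
    ring
  | mul_X p k hp =>
    obtain ⟨a, ha⟩ := hp
    have h1 : ∃ b : MvPolynomial σ ℤ, (X i - X j) * b = X k - X (Equiv.swap i j k) := by
      by_cases hk : k = i
      · subst hk
        exact ⟨1, by rw [Equiv.swap_apply_left, mul_one]⟩
      · by_cases hk2 : k = j
        · subst hk2
          exact ⟨-1, by rw [Equiv.swap_apply_right]; ring⟩
        · exact ⟨0, by rw [Equiv.swap_apply_of_ne_of_ne hk hk2, sub_self, mul_zero]⟩
    obtain ⟨b, hb⟩ := h1
    refine ⟨a * X k + rename (Equiv.swap i j) p * b, ?_⟩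
    rw [map_mul, rename_X]
    have e1 : (X i - X j) * (a * X k + rename (Equiv.swap i j) p * b) =
        ((X i - X j) * a) * X k + rename (Equiv.swap i j) p * ((X i - X j) * b) := by ring
    rw [e1, ha, hb]
    ring

end Pool.Agent.U346
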