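import Pool.Agent.U346.Series

set_option autoImplicit false

namespace Pool.Agent.U346

open MvPolynomial

variable {N : ℕ}

/-- A chain of divided differences. -/
noncomputable def chain (N k : ℕ) : ℕ → (MvPolynomial (Fin N) ℤ →ₗ[ℤ] MvPolynomial (Fin N) ℤ)
  | 0 => LinearMap.id
  | l + 1 => (ddn N (k + l)).comp (chain N k l)

/-- The composite of all chains. -/
noncomputable def TT (N : ℕ) (B : ℕ → ℕ) :
    ℕ → (MvPolynomial (Fin N) ℤ →ₗ[ℤ] MvPolynomial (Fin N) ℤ)
  | 0 => LinearMap.id
  | k + 1 => (TT N B k).comp (chain N k (B k - 1 - k))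

theorem chain_hh (k l : ℕ) (hl : k + l < N) (f : MvPolynomial (Fin N) ℤ)
    (hf : ∀ i, k ≤ i → Fx N i f) (j : ℕ) :
    chain N k l (f * hh N (k + 1) j) = if l ≤ j then f * hh N (k + 1 + l) (j - l) else 0 := by
  induction l with
  | zero =>
    rw [if_pos (Nat.zero_le _)]
    rfl
  | succ l ih =>
    show ddn N (k + l) (chain N k l (f * hh N (k + 1) j)) = _
    rw [ih (by omega)]
    split_ifs with h1 h2 h2
    · rw [ddn_mul (hf _ (by omega))]
      obtain ⟨r, hr⟩ : ∃ r, j - l = r + 1 := ⟨j - l - 1, by omega⟩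
      rw [hr, show k + 1 + l = k + l + 1 by omega, ddn_hh (by omega),
        show k + 1 + (l + 1) = k + l + 2 by omega, show j - (l + 1) = r by omega]
    · rw [ddn_mul (hf _ (by omega)), show j - l = 0 by omega, ddn_hh_zero, mul_zero]
    · omega
    · exact map_zero _

theorem chain_mul (k l : ℕ) (s : MvPolynomial (Fin N) ℤ) (hs : ∀ i, i < k + l → Fx N i s)
    (g : MvPolynomial (Fin N) ℤ) : chain N k l (s * g) = s * chain N k l g := by
  induction l with
  | zero => rfl
  | succ l ih =>
    show ddn N (k + l) (chain N k l (s * g)) = s * ddn N (k + l) (chain N k l g)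
    rw [ih (fun i hi => hs i (by omega)), ddn_mul (hs _ (by omega))]

theorem TT_mul {B : ℕ → ℕ} (k Q : ℕ) (hB : ∀ r, r < k → B r < Q) (hBk : ∀ r, r < B r)
    (s : MvPolynomial (Fin N) ℤ) (hs : ∀ i, i + 1 < Q → Fx N i s) (g : MvPolynomial (Fin N) ℤ) :
    TT N B k (s * g) = s * TT N B k g := by
  induction k generalizing g with
  | zero => rfl
  | succ k ih =>
    show TT N B k (chain N k (B k - 1 - k) (s * g)) = s * TT N B k (chain N k (B k - 1 - k) g)
    rw [chain_mul, ih (fun r hr => hB r (by omega))]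
    intro i hi
    apply hs
    have h1 := hB k (Nat.lt_succ_self k)
    have h2 := hBk k
    omega

/-- The value at the origin of the composite of chains. -/
noncomputable def Psi (N : ℕ) (B : ℕ → ℕ) (k : ℕ) : MvPolynomial (Fin N) ℤ →ₗ[ℤ] ℤ :=
  (lcoeff ℤ 0).comp (TT N B k)

theorem Psi_apply (B : ℕ → ℕ) (k : ℕ) (f : MvPolynomial (Fin N) ℤ) :
    Psi N B k f = constantCoeff (TT N B k f) := rfl

theorem Psi_succ {B : ℕ → ℕ} (hmono : StrictMono B) (hBk : ∀ r, r < B r) (k : ℕ) (hk : B k ≤ N)
    (f : MvPolynomial (Fin N) ℤ) (hf : ∀ i, k ≤ i → Fx N i f)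
    (hee : ∀ i j, k ≤ i → Fx N i (ee N k j)) (a : ℕ) :
    Psi N B (k + 1) (f * zz N k ^ a) =
      if B k - 1 - k ≤ a then Psi N B k (f * ee N k (a - (B k - 1 - k))) else 0 := by
  have hBkk := hBk k
  set l := B k - 1 - k with hl
  have h1 : ∀ p ∈ Finset.HasAntidiagonal.antidiagonal a,
      Psi N B (k + 1) (f * (ee N k p.1 * hh N (k + 1) p.2)) =
        if p.2 = l then Psi N B k (f * ee N k p.1) else 0 := by
    intro p _
    rw [Psi_apply]
    show constantCoeff (TT N B k (chain N k (B k - 1 - k) (f * (ee N k p.1 * hh N (k + 1) p.2)))) = _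
    rw [← mul_assoc, chain_hh k (B k - 1 - k) (by omega) (f * ee N k p.1) (by
      intro i hi h
      rw [map_mul, hf i hi h, hee i p.1 hi h])]
    split_ifs with h2 h3 h3
    · rw [mul_comm (f * ee N k p.1), TT_mul k (B k) (fun r hr => hmono hr) hBk _ (by
        intro i hi h
        apply rename_hh h
        right
        omega), map_mul, constantCoeff_hh, if_pos (by omega), one_mul]
      rfl
    · rw [mul_comm (f * ee N k p.1), TT_mul k (B k) (fun r hr => hmono hr) hBk _ (by
        intro i hi h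
        apply rename_hh h
        right
        omega), map_mul, constantCoeff_hh, if_neg (by omega), zero_mul]
    · omega
    · rw [map_zero, map_zero]
  rw [zz_pow, Finset.mul_sum, map_sum, Finset.sum_congr rfl h1]
  split_ifs with h2
  · rw [Finset.sum_eq_single (a - l, l)]
    · rw [if_pos rfl]
    · rintro ⟨p, q⟩ hpq hne
      rw [Finset.HasAntidiagonal.mem_antidiagonal] at hpq
      rw [if_neg]
      rintro (h3 : q = l)
      apply hne
      have h4 : p + q = a := hpq
      rw [Prod.mk.injEq]
      exact ⟨by omega, h3⟩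
    · intro h3
      exfalso
      apply h3
      rw [Finset.HasAntidiagonal.mem_antidiagonal]
      show a - l + l = a
      omega
  · apply Finset.sum_eq_zero
    rintro ⟨p, q⟩ hpq
    rw [Finset.HasAntidiagonal.mem_antidiagonal] at hpq
    rw [if_neg]
    rintro (h3 : q = l)
    have h4 : p + q = a := hpq
    omega

end Pool.Agent.U346
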