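import Pool.Agent.U346.Real

set_option autoImplicit false

namespace Pool.Agent.U346

open MvPolynomial Module

variable {M : ℕ}

theorem rename_Pi1 (e : Equiv.Perm (Fin (M + 1))) :
    MvPowerSeries.rename e (Pi1 M) = Pi1 M := by
  unfold Pi1
  rw [map_prod]
  have : ∀ r, MvPowerSeries.rename e (1 - MvPowerSeries.X r : MvPowerSeries (Fin (M + 1)) ℤ) =
      1 - MvPowerSeries.X (e r) := by
    intro r
    rw [map_sub, map_one, MvPowerSeries.rename_X]
  rw [Finset.prod_congr rfl (fun r _ => this r)]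
  exact Equiv.prod_comp e (fun r => (1 - MvPowerSeries.X r : MvPowerSeries (Fin (M + 1)) ℤ))

theorem Bb_dd {f g : MvPolynomial (Fin (M + 1)) ℤ} {c : ℕ} (j : Fin M) (hf : Bb f (c + 1))
    (hg : (X j.castSucc - X j.succ) * g =
      f - rename (Equiv.swap j.castSucc j.succ) f) : Bb g c := by
  classical
  obtain ⟨hf1, h, hh, m, K, hK, hl⟩ := hf
  have hne : j.castSucc ≠ j.succ := cs_ne_s j
  have hL : (X j.castSucc - X j.succ : MvPolynomial (Fin (M + 1)) ℤ).IsHomogeneous 1 :=
    (isHomogeneous_X ℤ _).sub (isHomogeneous_X ℤ _)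
  have hL0 : (X j.castSucc - X j.succ : MvPolynomial (Fin (M + 1)) ℤ) ≠ 0 := by
    rw [sub_ne_zero]
    intro h
    exact hne (X_injective h)
  have hgh : g.IsHomogeneous c := by
    apply hom_cancel hL hL0
    rw [hg]
    exact hf1.sub hf1.rename_isHomogeneous
  obtain ⟨d, g', hg', hser⟩ := dstep_series hh j
  set P : MvPolynomial (Fin (M + 1)) ℤ := X j.succ ^ (d + 1) * K with hP
  obtain ⟨Q, hQ⟩ := exists_dd j.castSucc j.succ P
  refine ⟨hgh, g', hg', m, -Q, ?_, ?_⟩
  · have h1 : (MvPowerSeries.X j.succ - MvPowerSeries.X j.castSucc) * (ofFun g' * Pi1 M ^ m) =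
        (P : MvPowerSeries (Fin (M + 1)) ℤ) -
          MvPowerSeries.rename (Equiv.swap j.castSucc j.succ) (P : MvPowerSeries (Fin (M + 1)) ℤ) := by
      rw [← mul_assoc, hser, hP, MvPolynomial.coe_mul, MvPolynomial.coe_pow, MvPolynomial.coe_X,
        ← hK, sub_mul]
      congr 1
      · rw [mul_assoc]
      · rw [map_mul, map_mul, map_mul, map_pow (MvPowerSeries.rename _) (Pi1 M),
          rename_Pi1, mul_assoc]
    have h2 : (MvPowerSeries.X j.succ - MvPowerSeries.X j.castSucc) *
        ((-Q : MvPolynomial (Fin (M + 1)) ℤ) : MvPowerSeries (Fin (M + 1)) ℤ) =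
        (P : MvPowerSeries (Fin (M + 1)) ℤ) -
          MvPowerSeries.rename (Equiv.swap j.castSucc j.succ) (P : MvPowerSeries (Fin (M + 1)) ℤ) := by
      have h3 := congrArg (fun p : MvPolynomial (Fin (M + 1)) ℤ =>
        (p : MvPowerSeries (Fin (M + 1)) ℤ)) hQ
      have hsub : ∀ p q : MvPolynomial (Fin (M + 1)) ℤ,
          ((p - q : MvPolynomial (Fin (M + 1)) ℤ) : MvPowerSeries (Fin (M + 1)) ℤ) = p - q :=
        fun p q => map_sub (MvPolynomial.coeToMvPowerSeries.ringHom (R := ℤ)
          (σ := Fin (M + 1))) p q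
      have hneg : ∀ p : MvPolynomial (Fin (M + 1)) ℤ,
          ((-p : MvPolynomial (Fin (M + 1)) ℤ) : MvPowerSeries (Fin (M + 1)) ℤ) = -p :=
        fun p => map_neg (MvPolynomial.coeToMvPowerSeries.ringHom (R := ℤ)
          (σ := Fin (M + 1))) p
      simp only [MvPolynomial.coe_mul, hsub, MvPolynomial.coe_X] at h3
      rw [MvPowerSeries.rename_coe, ← h3, hneg]
      ring
    have h4 : (MvPowerSeries.X j.succ - MvPowerSeries.X j.castSucc :
        MvPowerSeries (Fin (M + 1)) ℤ) ≠ 0 := by
      intro h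
      have := congrArg (MvPowerSeries.coeff (Finsupp.single j.succ 1)) h
      rw [map_sub, MvPowerSeries.coeff_X, MvPowerSeries.coeff_X, if_pos rfl, if_neg, map_zero] at this
      · norm_num at this
      · intro h'
        exact hne (Finsupp.single_left_injective one_ne_zero h').symm
    exact mul_left_cancel₀ h4 (h1.trans h2.symm)
  · have hL' : (X j.castSucc - X j.succ : MvPolynomial (Fin (M + 1)) ℤ) * (sub1 (-Q) - g) =
        (sub1 P - f) - rename (Equiv.swap j.castSucc j.succ) (sub1 P - f) := by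
      have h5 := congrArg sub1 hQ
      rw [map_mul, map_sub, map_sub, sub1_X, sub1_X, sub1_rename] at h5
      rw [mul_sub, hg, map_neg, map_sub]
      have h6 : (X j.castSucc - X j.succ : MvPolynomial (Fin (M + 1)) ℤ) * -sub1 Q =
        (1 - X j.castSucc - (1 - X j.succ)) * sub1 Q := by ring
      rw [h6, h5]
      ring
    apply LowOrd.cancel hL hL0
    rw [hL']
    have h7 : LowOrd (c + 1 + 1) (sub1 P - f) := by
      have h8 : sub1 P - f = ((1 - X j.succ) ^ (d + 1) - 1) * sub1 K + (sub1 K - f) := by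
        rw [hP, map_mul, map_pow, sub1_X]; ring
      rw [h8]
      refine LowOrd.add ?_ hl
      have h9 : LowOrd 1 ((1 - X j.succ : MvPolynomial (Fin (M + 1)) ℤ) ^ (d + 1) - 1) := by
        intro m hm
        have hm0 : m = 0 := by
          rw [Nat.lt_one_iff] at hm
          exact (Finsupp.degree_eq_zero_iff m).1 hm
        rw [hm0, ← constantCoeff_eq, map_sub, map_pow, map_sub, map_one, constantCoeff_X]
        norm_num
      have h10 : LowOrd (c + 1) (sub1 K) := by
        have : sub1 K = (sub1 K - f) + f := by ring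
        rw [this]
        exact (hl.mono (by omega)).add (LowOrd.of_hom hf1)
      exact (h9.mul h10).mono (by omega)
    exact h7.sub (h7.rename _)

/-- Eventually at most `-1`. -/
def EvNeg (A : PowerSeries ℤ) : Prop := ∃ n0 : ℕ, ∀ n ≥ n0, PowerSeries.coeff n A ≤ -1

theorem coeff_succ_mul (A : PowerSeries ℤ) (n : ℕ) :
    PowerSeries.coeff (n + 1) (A * (1 - PowerSeries.X)) =
      PowerSeries.coeff (n + 1) A - PowerSeries.coeff n A := by
  rw [mul_sub, mul_one, map_sub, PowerSeries.coeff_succ_mul_X]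

theorem coeff_partial_sum (A : PowerSeries ℤ) (n : ℕ) :
    PowerSeries.coeff n A =
      ∑ i ∈ Finset.range (n + 1), PowerSeries.coeff i (A * (1 - PowerSeries.X)) := by
  induction n with
  | zero =>
    rw [zero_add, Finset.sum_range_one, mul_sub, mul_one, map_sub]
    simp
  | succ n ih =>
    rw [Finset.sum_range_succ, ← ih, coeff_succ_mul]
    ring

theorem evNeg_step (A : PowerSeries ℤ) (h : EvNeg (A * (1 - PowerSeries.X))) : EvNeg A := by
  obtain ⟨n0, hn0⟩ := h
  have h1 : ∀ k : ℕ, PowerSeries.coeff (n0 + k) A ≤ PowerSeries.coeff n0 A - k := by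
    intro k
    induction k with
    | zero => simp
    | succ k ih =>
      have := hn0 (n0 + k + 1) (by omega)
      rw [coeff_succ_mul] at this
      push_cast
      rw [← add_assoc]
      linarith
  refine ⟨n0 + (PowerSeries.coeff n0 A).natAbs + 1, fun n hn => ?_⟩
  obtain ⟨k, rfl⟩ := Nat.exists_eq_add_of_le (show n0 ≤ n by omega)
  have h2 := h1 k
  have h3 := Int.le_natAbs (a := PowerSeries.coeff n0 A)
  omega

theorem evNeg_pow (k : ℕ) (A : PowerSeries ℤ) (h : EvNeg (A * (1 - PowerSeries.X) ^ k)) :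
    EvNeg A := by
  induction k with
  | zero => simpa using h
  | succ k ih =>
    apply ih
    apply evNeg_step
    rwa [pow_succ, ← mul_assoc] at h

/-- Specialization of all variables to one variable. -/
noncomputable def spec (M : ℕ) : MvPowerSeries (Fin (M + 1)) ℤ →ₐ[ℤ] PowerSeries ℤ :=
  MvPowerSeries.rename (fun _ : Fin (M + 1) => ())

theorem spec_X (r : Fin (M + 1)) : spec M (MvPowerSeries.X r) = PowerSeries.X :=
  MvPowerSeries.rename_X _ _

theorem spec_poly (K : MvPolynomial (Fin (M + 1)) ℤ) : ∃ n0 : ℕ, ∀ n ≥ n0,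
    ∑ i ∈ Finset.range (n + 1), PowerSeries.coeff i (spec M K) = eval (fun _ => (1 : ℤ)) K := by
  induction K using MvPolynomial.induction_on with
  | C a =>
    refine ⟨0, fun n _ => ?_⟩
    rw [MvPolynomial.coe_C]
    have h1 : spec M (MvPowerSeries.C a) = PowerSeries.C a := MvPowerSeries.rename_C _ _
    rw [h1, eval_C, Finset.sum_eq_single 0]
    · simp
    · intro b _ hb
      rw [PowerSeries.coeff_C, if_neg hb]
    · intro h; exact absurd (Finset.mem_range.2 (by omega)) h
  | add p q hp hq =>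
    obtain ⟨a, ha⟩ := hp
    obtain ⟨b, hb⟩ := hq
    refine ⟨max a b, fun n hn => ?_⟩
    rw [MvPolynomial.coe_add, map_add, map_add, ← ha n (le_trans (le_max_left _ _) hn),
      ← hb n (le_trans (le_max_right _ _) hn), ← Finset.sum_add_distrib]
    exact Finset.sum_congr rfl fun i _ => map_add _ _ _
  | mul_X p r hp =>
    obtain ⟨a, ha⟩ := hp
    refine ⟨a + 1, fun n hn => ?_⟩
    obtain ⟨n, rfl⟩ : ∃ n', n = n' + 1 := ⟨n - 1, by omega⟩
    rw [MvPolynomial.coe_mul, MvPolynomial.coe_X, map_mul, spec_X, map_mul, eval_X, mul_one,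
      ← ha n (by omega), Finset.sum_range_succ']
    simp only [PowerSeries.coeff_succ_mul_X]
    simp

theorem spec_nonneg {h : Wt M → ℤ} (hh : h ∈ HH M) (n : ℕ) :
    0 ≤ PowerSeries.coeff n (spec M (ofFun h)) := by
  show 0 ≤ MvPowerSeries.coeff (Finsupp.single () n) (MvPowerSeries.rename _ (ofFun h))
  rw [MvPowerSeries.coeff_rename]
  exact Finset.sum_nonneg fun x _ => HH_nonneg hh _

theorem eval_sub1 (K : MvPolynomial (Fin (M + 1)) ℤ) :
    constantCoeff (sub1 K) = eval (fun _ => (1 : ℤ)) K := by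
  have : (constantCoeff (R := ℤ) (σ := Fin (M + 1))).comp (sub1 : _ →ₐ[ℤ] _).toRingHom =
      eval (fun _ => (1 : ℤ)) := by
    apply MvPolynomial.ringHom_ext
    · intro r
      rw [eval_C, RingHom.comp_apply]
      show constantCoeff (sub1 (C r)) = r
      have : sub1 (C r : MvPolynomial (Fin (M + 1)) ℤ) = C r := sub1.commutes r
      rw [this, constantCoeff_C]
    · intro i
      rw [eval_X, RingHom.comp_apply]
      show constantCoeff (sub1 (X i)) = 1
      rw [sub1_X, map_sub, map_one, constantCoeff_X, sub_zero]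
  exact congrArg (fun φ => φ K) this

theorem Bb_nonneg {f : MvPolynomial (Fin (M + 1)) ℤ} {c : ℕ} (hf : Bb f c) :
    0 ≤ constantCoeff f := by
  obtain ⟨hf1, h, hh, m, K, hK, hl⟩ := hf
  by_cases hc : c = 0
  swap
  · rw [constantCoeff_eq, hf1.coeff_eq_zero]
    simpa using Ne.symm hc
  subst hc
  have h1 : constantCoeff f = eval (fun _ => (1 : ℤ)) K := by
    have h2 := hl 0 (by simp)
    rw [← constantCoeff_eq, map_sub, eval_sub1, sub_eq_zero] at h2
    exact h2.symm
  rw [h1]
  by_contra hneg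
  push Not at hneg
  obtain ⟨n0, hn0⟩ := spec_poly K
  have h3 := congrArg (spec M) hK
  have h4 : spec M (Pi1 M) = (1 - PowerSeries.X) ^ (M + 1) := by
    unfold Pi1
    rw [map_prod]
    have : ∀ r : Fin (M + 1), spec M (1 - MvPowerSeries.X r) = 1 - PowerSeries.X := by
      intro r
      rw [map_sub, map_one, spec_X]
    rw [Finset.prod_congr rfl (fun r _ => this r), Finset.prod_const, Finset.card_univ,
      Fintype.card_fin]
  rw [map_mul, map_pow, h4, ← pow_mul] at h3
  -- multiply by one more factor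
  set A := spec M (ofFun h) with hA
  have h5 : EvNeg (A * (1 - PowerSeries.X) ^ ((M + 1) * m) * PowerSeries.mk 1) := by
    refine ⟨n0, fun n hn => ?_⟩
    rw [coeff_partial_sum]
    have h6 : A * (1 - PowerSeries.X) ^ ((M + 1) * m) * PowerSeries.mk 1 * (1 - PowerSeries.X) =
        spec M K := by
      rw [mul_assoc, mul_assoc]
      have : (PowerSeries.mk 1 : PowerSeries ℤ) * (1 - PowerSeries.X) = 1 :=
        PowerSeries.mk_one_mul_one_sub_eq_one ℤ
      rw [this, mul_one, h3]
    rw [h6, hn0 n hn]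
    omega
  have h7 : EvNeg (A * PowerSeries.mk 1) := by
    apply evNeg_pow ((M + 1) * m)
    rwa [mul_right_comm] at h5
  obtain ⟨n1, hn1⟩ := h7
  have h8 := hn1 n1 le_rfl
  have h9 : 0 ≤ PowerSeries.coeff n1 (A * PowerSeries.mk 1) := by
    rw [PowerSeries.coeff_mul]
    refine Finset.sum_nonneg fun x _ => mul_nonneg (spec_nonneg hh _) ?_
    rw [PowerSeries.coeff_mk]
    exact zero_le_one
  omega

end Pool.Agent.U346
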