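import Pool.Agent.U346.Dstep

set_option autoImplicit false

namespace Pool.Agent.U346

open MvPolynomial Module

variable {M : ℕ} {κ : Type}

/-- A family of monomials that is a basis of the quotient. -/
structure MB (I : Ideal (S M κ)) {β : Type} (a : β → ((Fin (M + 1) × κ) →₀ ℕ)) : Prop where
  inj : Function.Injective a
  indep : LinearIndependent ℚ (fun b => Ideal.Quotient.mk I (monomial (a b) (1 : ℚ)))
  spans : ∀ f : S M κ, ∃ c : β →₀ ℚ, f - c.sum (fun b r => r • monomial (a b) (1 : ℚ)) ∈ I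

theorem exists_MB (I : Ideal (S M κ)) : ∃ (β : Type) (a : β → ((Fin (M + 1) × κ) →₀ ℕ)),
    MB I a := by
  obtain ⟨β, a, ha, hspan, hind⟩ := exists_linearIndependent' (K := ℚ)
    (fun d : (Fin (M + 1) × κ) →₀ ℕ => Ideal.Quotient.mk I (monomial d (1 : ℚ)))
  refine ⟨β, a, ha, hind, fun f => ?_⟩
  have h1 : Ideal.Quotient.mk I f ∈ Submodule.span ℚ (Set.range
      (fun d : (Fin (M + 1) × κ) →₀ ℕ => Ideal.Quotient.mk I (monomial d (1 : ℚ)))) := by
    have h2 : f = ∑ d ∈ f.support, coeff d f • monomial d (1 : ℚ) := by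
      conv_lhs => rw [f.as_sum]
      refine Finset.sum_congr rfl fun d _ => ?_
      rw [smul_monomial, smul_eq_mul, mul_one]
    rw [h2, map_sum]
    refine Submodule.sum_mem _ fun d _ => ?_
    have h3 : Ideal.Quotient.mk I (coeff d f • monomial d (1 : ℚ)) =
        coeff d f • Ideal.Quotient.mk I (monomial d (1 : ℚ)) := rfl
    rw [h3]
    exact Submodule.smul_mem _ _ (Submodule.subset_span ⟨d, rfl⟩)
  rw [← hspan] at h1
  obtain ⟨c, hc⟩ := Finsupp.mem_span_range_iff_exists_finsupp.1 h1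
  refine ⟨c, ?_⟩
  rw [← Ideal.Quotient.eq_zero_iff_mem, map_sub, ← hc, sub_eq_zero, Finsupp.sum, Finsupp.sum,
    map_sum]
  rfl

theorem MB.dim [Fintype κ] {I : Ideal (S M κ)} (hI : BIdeal I) {β : Type}
    {a : β → ((Fin (M + 1) × κ) →₀ ℕ)} (h : MB I a) (ν : Wt M) :
    hF I ν = Nat.card {b : β // Finsupp.weight (w (M := M)) (a b) = ν} := by
  classical
  have hfin : Finite {b : β // Finsupp.weight (w (M := M)) (a b) = ν} := by
    have h1 : Set.Finite {b : β | Finsupp.weight (w (M := M)) (a b) = ν} :=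
      Set.Finite.preimage h.inj.injOn (finite_weight (M := M) (κ := κ) ν)
    exact h1.to_subtype
  have : Fintype {b : β // Finsupp.weight (w (M := M)) (a b) = ν} := Fintype.ofFinite _
  let v : {b : β // Finsupp.weight (w (M := M)) (a b) = ν} → S M κ :=
    fun b => monomial (a b.1) (1 : ℚ)
  have hv : LinearIndependent ℚ v := by
    have h1 : LinearIndependent ℚ (fun b : {b : β // Finsupp.weight (w (M := M)) (a b) = ν} =>
      Ideal.Quotient.mk I (monomial (a b.1) (1 : ℚ))) := h.indep.comp _ Subtype.val_injective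
    exact LinearIndependent.of_comp (Ideal.Quotient.mkₐ ℚ I).toLinearMap h1
  have hG : Submodule.span ℚ (Set.range v) ≤ gr M κ ν := by
    rw [Submodule.span_le]
    rintro _ ⟨b, rfl⟩
    exact isWeightedHomogeneous_monomial _ _ _ b.2
  have hfd : FiniteDimensional ℚ (Submodule.span ℚ (Set.range v)) :=
    Submodule.finiteDimensional_of_le hG
  have := rank_aux (I.restrictScalars ℚ ⊓ gr M κ ν) (gr M κ ν) inf_le_right
    (Submodule.span ℚ (Set.range v)) ⊥ LinearMap.id (fun g hg => hG hg)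
    (by
      intro f hf
      obtain ⟨c, hc⟩ := h.spans f
      have h2 := hI.hom _ hc ν
      rw [map_sub, cmp_same hf, Finsupp.sum, map_sum] at h2
      refine ⟨_, ?_, h2, ?_⟩
      · refine Submodule.sum_mem _ fun b _ => ?_
        rw [map_smul]
        refine Submodule.smul_mem _ _ ?_
        by_cases hb : Finsupp.weight (w (M := M)) (a b) = ν
        · rw [cmp_same (isWeightedHomogeneous_monomial _ _ _ hb)]
          exact Submodule.subset_span ⟨⟨b, hb⟩, rfl⟩
        · rw [cmp_ne (fun h' => hb h'.symm) (isWeightedHomogeneous_monomial _ _ _ rfl)]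
          exact Submodule.zero_mem _
      · refine Submodule.sub_mem _ hf (Submodule.sum_mem _ fun b _ => ?_)
        exact cmp_mem _ _)
    (by
      intro g
      rw [Submodule.mem_bot]
      constructor
      · rintro rfl
        exact ⟨Submodule.zero_mem _, Submodule.zero_mem _⟩
      · rintro ⟨h1, h2, _⟩
        obtain ⟨c, hc⟩ := Finsupp.mem_span_range_iff_exists_finsupp.1 h1
        have h3 : Ideal.Quotient.mk I g = 0 := Ideal.Quotient.eq_zero_iff_mem.2 h2
        have h4 := (linearIndependent_iff.1 (h.indep.comp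
          (Subtype.val : {b : β // Finsupp.weight (w (M := M)) (a b) = ν} → β)
          Subtype.val_injective)) c (by
            rw [Finsupp.linearCombination_apply]
            rw [← hc, Finsupp.sum, map_sum] at h3
            exact h3)
        rw [h4, Finsupp.sum_zero_index] at hc
        exact hc.symm)
  unfold hF
  rw [this, finrank_span_eq_card hv, finrank_bot, Nat.card_eq_fintype_card]
  simp

theorem BIdeal_span (G : Set (S M κ)) (hG : ∀ g ∈ G, ∃ ν, g ∈ gr M κ ν)
    (hE : ∀ j, ∀ g ∈ G, E j g ∈ Ideal.span G) : BIdeal (Ideal.span G) := by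
  refine ⟨fun f hf => ?_, fun j f hf => ?_⟩
  · have key : ∀ (c : S M κ) (μ : Wt M), cmp μ (c * f) ∈ Ideal.span G := by
      refine Submodule.span_induction (p := fun f _ => ∀ (c : S M κ) (μ : Wt M),
        cmp μ (c * f) ∈ Ideal.span G) ?_ ?_ ?_ ?_ hf
      · intro g hg c μ
        obtain ⟨ν, hν⟩ := hG g hg
        rw [cmp_mul_of_mem hν]
        exact Ideal.mul_mem_left _ _ (Ideal.subset_span hg)
      · intro c μ
        rw [mul_zero, map_zero]
        exact Submodule.zero_mem _
      · intro x y _ _ hx hy c μ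
        rw [mul_add, map_add]
        exact Submodule.add_mem _ (hx c μ) (hy c μ)
      · intro r x _ hx c μ
        rw [smul_eq_mul, ← mul_assoc]
        exact hx (c * r) μ
    intro μ
    have := key 1 μ
    rwa [one_mul] at this
  · refine Submodule.span_induction (p := fun f _ => E j f ∈ Ideal.span G) ?_ ?_ ?_ ?_ hf
    · intro g hg
      exact hE j g hg
    · rw [map_zero]
      exact Submodule.zero_mem _
    · intro x y _ _ hx hy
      rw [map_add]
      exact Submodule.add_mem _ hx hy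
    · intro r x hx0 hx
      rw [smul_eq_mul, Derivation.leibniz, smul_eq_mul, smul_eq_mul]
      exact Submodule.add_mem _ (Ideal.mul_mem_left _ _ hx) (Ideal.mul_mem_right _ _ hx0)

variable {κ' : Type}

/-- Inclusion of columns. -/
noncomputable def incl (φ : κ → κ') : S M κ →ₐ[ℚ] S M κ' := rename (fun p => (p.1, φ p.2))

theorem incl_X (φ : κ → κ') (p : Fin (M + 1) × κ) : incl φ (X p : S M κ) = X (p.1, φ p.2) :=
  rename_X _ _

theorem incl_mem (φ : κ → κ') (μ : Wt M) (f : S M κ) (hf : f ∈ gr M κ μ) :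
    incl φ f ∈ gr M κ' μ := by
  classical
  refine IsWeightedHomogeneous.induction_on (w := w) (m := μ)
    (motive := fun g _ => incl φ g ∈ gr M κ' μ) ?_ ?_ ?_ hf
  · rw [map_zero]; exact Submodule.zero_mem _
  · intro p q _ _ hp hq
    rw [map_add]; exact Submodule.add_mem _ hp hq
  · intro d r hd
    unfold incl
    rw [rename_monomial]
    apply isWeightedHomogeneous_monomial
    rw [Finsupp.weight_apply, Finsupp.sum_mapDomain_index]
    · rw [← hd, Finsupp.weight_apply]
      rfl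
    · intro b; rw [zero_smul]
    · intro b m n; rw [add_smul]

theorem E_incl (φ : κ → κ') (j : Fin M) (f : S M κ) : E j (incl φ f) = incl φ (E j f) := by
  induction f using MvPolynomial.induction_on with
  | C a =>
    unfold incl
    rw [rename_C]
    have h1 : E j (C a : S M κ') = 0 := Derivation.map_algebraMap _ a
    have h2 : E j (C a : S M κ) = 0 := Derivation.map_algebraMap _ a
    rw [h1, h2, map_zero]
  | add p q hp hq => rw [map_add, map_add, map_add, map_add, hp, hq]
  | mul_X p q hp =>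
    rw [map_mul, incl_X, Derivation.leibniz, Derivation.leibniz, hp, E_X, E_X, smul_eq_mul,
      smul_eq_mul, smul_eq_mul, smul_eq_mul, map_add, map_mul, map_mul, incl_X]
    congr 2
    split_ifs with h
    · rw [incl_X]
    · rw [map_zero]

/-- The generators of the ideal of the product. -/
def PG (I : Ideal (S M κ)) (I' : Ideal (S M κ')) : Set (S M (κ ⊕ κ')) :=
  {x | ∃ f ∈ I, (∃ ν, f ∈ gr M κ ν) ∧ x = incl Sum.inl f} ∪
    {x | ∃ f ∈ I', (∃ ν, f ∈ gr M κ' ν) ∧ x = incl Sum.inr f}

/-- The ideal of the product. -/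
noncomputable def PI (I : Ideal (S M κ)) (I' : Ideal (S M κ')) : Ideal (S M (κ ⊕ κ')) :=
  Ideal.span (PG I I')

variable {I : Ideal (S M κ)} {I' : Ideal (S M κ')}

theorem PI_B (hI : BIdeal I) (hI' : BIdeal I') : BIdeal (PI I I') := by
  apply BIdeal_span
  · rintro g (⟨f, _, ⟨ν, hν⟩, rfl⟩ | ⟨f, _, ⟨ν, hν⟩, rfl⟩)
    · exact ⟨ν, incl_mem _ _ _ hν⟩
    · exact ⟨ν, incl_mem _ _ _ hν⟩
  · rintro j g (⟨f, hf, ⟨ν, hν⟩, rfl⟩ | ⟨f, hf, ⟨ν, hν⟩, rfl⟩)
    · rw [E_incl]
      exact Ideal.subset_span (Or.inl ⟨_, hI.stab j f hf, ⟨_, E_mem j _ _ hν⟩, rfl⟩)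
    · rw [E_incl]
      exact Ideal.subset_span (Or.inr ⟨_, hI'.stab j f hf, ⟨_, E_mem j _ _ hν⟩, rfl⟩)

theorem inl_PI (hI : BIdeal I) (f : S M κ) (hf : f ∈ I) : incl Sum.inl f ∈ PI I I' := by
  obtain ⟨T, hT, _⟩ := exists_sum_cmp f
  rw [hT, map_sum]
  exact Ideal.sum_mem _ fun μ _ =>
    Ideal.subset_span (Or.inl ⟨_, hI.hom f hf μ, ⟨_, cmp_mem μ f⟩, rfl⟩)

theorem inr_PI (hI' : BIdeal I') (f : S M κ') (hf : f ∈ I') : incl Sum.inr f ∈ PI I I' := by
  obtain ⟨T, hT, _⟩ := exists_sum_cmp f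
  rw [hT, map_sum]
  exact Ideal.sum_mem _ fun μ _ =>
    Ideal.subset_span (Or.inr ⟨_, hI'.hom f hf μ, ⟨_, cmp_mem μ f⟩, rfl⟩)

theorem span_prod (x : S M (κ ⊕ κ')) :
    x ∈ Submodule.span ℚ {y : S M (κ ⊕ κ') | ∃ (f : S M κ) (g : S M κ'),
      y = incl Sum.inl f * incl Sum.inr g} := by
  induction x using MvPolynomial.induction_on with
  | C a =>
    apply Submodule.subset_span
    refine ⟨C a, 1, ?_⟩
    rw [map_one, mul_one]
    unfold incl
    rw [rename_C]
  | add p q hp hq => exact Submodule.add_mem _ hp hq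
  | mul_X p q hp =>
    refine Submodule.span_induction (p := fun p _ => p * X q ∈ Submodule.span ℚ
      {y : S M (κ ⊕ κ') | ∃ (f : S M κ) (g : S M κ'),
      y = incl Sum.inl f * incl Sum.inr g}) ?_ ?_ ?_ ?_ hp
    · rintro _ ⟨f, g, rfl⟩
      apply Submodule.subset_span
      obtain ⟨r, k | k⟩ := q
      · refine ⟨f * X (r, k), g, ?_⟩
        rw [map_mul, incl_X]
        ring
      · refine ⟨f, g * X (r, k), ?_⟩
        rw [map_mul, incl_X]
        ring
    · rw [zero_mul]; exact Submodule.zero_mem _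
    · intro x y _ _ hx hy
      rw [add_mul]; exact Submodule.add_mem _ hx hy
    · intro c x _ hx
      rw [smul_mul_assoc]; exact Submodule.smul_mem _ _ hx

open TensorProduct in
theorem MB_prod (hI : BIdeal I) (hI' : BIdeal I') {β β' : Type}
    {a : β → ((Fin (M + 1) × κ) →₀ ℕ)} {a' : β' → ((Fin (M + 1) × κ') →₀ ℕ)} (h : MB I a)
    (h' : MB I' a') : MB (PI I I') (fun b : β × β' =>
      (a b.1).mapDomain (fun p => (p.1, Sum.inl p.2)) +
        (a' b.2).mapDomain (fun p => (p.1, Sum.inr p.2))) := by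
  classical
  have hmon : ∀ b : β × β', (monomial ((a b.1).mapDomain (fun p => (p.1, Sum.inl p.2)) +
        (a' b.2).mapDomain (fun p => (p.1, Sum.inr p.2))) (1 : ℚ) : S M (κ ⊕ κ')) =
      incl Sum.inl (monomial (a b.1) 1) * incl Sum.inr (monomial (a' b.2) 1) := by
    intro b
    unfold incl
    rw [rename_monomial, rename_monomial, monomial_mul, mul_one]
  let ψ0 : Fin (M + 1) × (κ ⊕ κ') → ((S M κ ⧸ I) ⊗[ℚ] (S M κ' ⧸ I')) := fun p =>
    Sum.elim (fun k => (Ideal.Quotient.mk I (X (p.1, k))) ⊗ₜ[ℚ] (1 : S M κ' ⧸ I'))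
      (fun k => (1 : S M κ ⧸ I) ⊗ₜ[ℚ] (Ideal.Quotient.mk I' (X (p.1, k)))) p.2
  let ψ : S M (κ ⊕ κ') →ₐ[ℚ] ((S M κ ⧸ I) ⊗[ℚ] (S M κ' ⧸ I')) := aeval ψ0
  have hψl : ∀ f, ψ (incl Sum.inl f) = (Ideal.Quotient.mk I f) ⊗ₜ 1 := by
    have : ψ.comp (incl Sum.inl) =
        Algebra.TensorProduct.includeLeft.comp (Ideal.Quotient.mkₐ ℚ I) := by
      apply MvPolynomial.algHom_ext
      intro p
      rw [AlgHom.comp_apply, incl_X, AlgHom.comp_apply, aeval_X]
      rfl
    intro f
    exact congrArg (fun φ => φ f) this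
  have hψr : ∀ f, ψ (incl Sum.inr f) = 1 ⊗ₜ (Ideal.Quotient.mk I' f) := by
    have : ψ.comp (incl Sum.inr) =
        Algebra.TensorProduct.includeRight.comp (Ideal.Quotient.mkₐ ℚ I') := by
      apply MvPolynomial.algHom_ext
      intro p
      rw [AlgHom.comp_apply, incl_X, AlgHom.comp_apply, aeval_X]
      rfl
    intro f
    exact congrArg (fun φ => φ f) this
  have hker : ∀ x ∈ PI I I', ψ x = 0 := by
    intro x hx
    have : PI I I' ≤ RingHom.ker ψ := by
      unfold PI
      rw [Ideal.span_le]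
      rintro g (⟨f, hf, _, rfl⟩ | ⟨f, hf, _, rfl⟩)
      · show ψ _ = 0
        rw [hψl, Ideal.Quotient.eq_zero_iff_mem.2 hf, TensorProduct.zero_tmul]
      · show ψ _ = 0
        rw [hψr, Ideal.Quotient.eq_zero_iff_mem.2 hf, TensorProduct.tmul_zero]
    exact this hx
  have hind : LinearIndependent ℚ (fun b : β × β' => Ideal.Quotient.mk (PI I I')
      (monomial ((a b.1).mapDomain (fun p => (p.1, Sum.inl p.2)) +
        (a' b.2).mapDomain (fun p => (p.1, Sum.inr p.2))) (1 : ℚ))) := by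
    have h1 := LinearIndependent.tmul_of_flat_left h.indep h'.indep
    apply LinearIndependent.of_comp (Ideal.Quotient.liftₐ (PI I I') ψ hker).toLinearMap
    have e : (⇑(Ideal.Quotient.liftₐ (PI I I') ψ hker).toLinearMap ∘
        (fun b : β × β' => Ideal.Quotient.mk (PI I I')
      (monomial ((a b.1).mapDomain (fun p => (p.1, Sum.inl p.2)) +
        (a' b.2).mapDomain (fun p => (p.1, Sum.inr p.2))) (1 : ℚ)))) =
        fun i : β × β' => (Ideal.Quotient.mk I (monomial (a i.1) (1 : ℚ))) ⊗ₜ[ℚ]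
          (Ideal.Quotient.mk I' (monomial (a' i.2) (1 : ℚ))) := by
      funext b
      rw [Function.comp_apply, hmon]
      show ψ _ = _
      rw [map_mul, hψl, hψr, Algebra.TensorProduct.tmul_mul_tmul, one_mul, mul_one]
    rw [e]
    exact h1
  refine ⟨?_, hind, ?_⟩
  · intro b b' hbb
    apply hind.injective
    show Ideal.Quotient.mk (PI I I') (monomial _ (1 : ℚ)) =
      Ideal.Quotient.mk (PI I I') (monomial _ (1 : ℚ))
    have hbb' : (a b.1).mapDomain (fun p => (p.1, Sum.inl p.2)) +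
        (a' b.2).mapDomain (fun p => (p.1, Sum.inr p.2)) =
        (a b'.1).mapDomain (fun p => (p.1, Sum.inl p.2)) +
        (a' b'.2).mapDomain (fun p => (p.1, (Sum.inr p.2 : κ ⊕ κ'))) := hbb
    rw [hbb']
  · have key : ∀ x ∈ Submodule.span ℚ {y : S M (κ ⊕ κ') | ∃ (f : S M κ) (g : S M κ'),
      y = incl Sum.inl f * incl Sum.inr g}, x ∈ (PI I I').restrictScalars ℚ ⊔
        Submodule.span ℚ (Set.range (fun b : β × β' =>
          (monomial ((a b.1).mapDomain (fun p => (p.1, Sum.inl p.2)) +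
        (a' b.2).mapDomain (fun p => (p.1, Sum.inr p.2))) (1 : ℚ) : S M (κ ⊕ κ')))) := by
      intro x hx
      refine Submodule.span_le.2 ?_ hx
      rintro _ ⟨f, g, rfl⟩
      obtain ⟨c, hc⟩ := h.spans f
      obtain ⟨c', hc'⟩ := h'.spans g
      set s1 := c.sum (fun b r => r • monomial (a b) (1 : ℚ)) with hs1
      set s2 := c'.sum (fun b r => r • monomial (a' b) (1 : ℚ)) with hs2
      have e : incl Sum.inl f * incl Sum.inr g = (incl Sum.inl (f - s1) * incl Sum.inr g +
        incl Sum.inl s1 * incl Sum.inr (g - s2)) + incl Sum.inl s1 * incl Sum.inr s2 := by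
        rw [map_sub, map_sub]; ring
      rw [e]
      refine Submodule.add_mem_sup ?_ ?_
      · show _ ∈ PI I I'
        exact Ideal.add_mem _ (Ideal.mul_mem_right _ _ (inl_PI hI _ hc))
          (Ideal.mul_mem_left _ _ (inr_PI hI' _ hc'))
      · rw [hs1, hs2, Finsupp.sum, Finsupp.sum, map_sum, map_sum, Finset.sum_mul_sum]
        refine Submodule.sum_mem _ fun b _ => Submodule.sum_mem _ fun b' _ => ?_
        rw [map_smul, map_smul, smul_mul_smul_comm]
        refine Submodule.smul_mem _ _ (Submodule.subset_span ⟨(b, b'), ?_⟩)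
        exact hmon (b, b')
    intro f
    obtain ⟨x, hx, y, hy, hxy⟩ := Submodule.mem_sup.1 (key f (span_prod f))
    obtain ⟨c, hc⟩ := Finsupp.mem_span_range_iff_exists_finsupp.1 hy
    refine ⟨c, ?_⟩
    rw [hc, ← hxy, add_sub_cancel_right]
    exact hx

end Pool.Agent.U346
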