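import Pool.Agent.U346.Vars
import Pool.Agent.U346.Ord

set_option autoImplicit false

namespace Pool.Agent.U346

open MvPolynomial Module

variable {M : ℕ}

/-- The substitution of `1 - x` for `x`. -/
noncomputable def sub1 {σ : Type} : MvPolynomial σ ℤ →ₐ[ℤ] MvPolynomial σ ℤ :=
  aeval (fun i => 1 - X i)

theorem sub1_X {σ : Type} (i : σ) : sub1 (X i : MvPolynomial σ ℤ) = 1 - X i := aeval_X _ _

theorem sub1_rename {σ : Type} (e : Equiv.Perm σ) (p : MvPolynomial σ ℤ) :
    sub1 (rename e p) = rename e (sub1 p) := by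
  have : (sub1 (σ := σ)).comp (rename e) = (rename e).comp sub1 := by
    apply MvPolynomial.algHom_ext
    intro i
    rw [AlgHom.comp_apply, AlgHom.comp_apply, rename_X, sub1_X, sub1_X, map_sub, map_one, rename_X]
  exact congrArg (fun φ => φ p) this

/-- The product of all `1 - x`. -/
noncomputable def Pi1 (M : ℕ) : MvPowerSeries (Fin (M + 1)) ℤ :=
  ∏ r : Fin (M + 1), (1 - MvPowerSeries.X r)

/-- Polynomials that are leading terms of the numerators of Hilbert series. -/
def Bb (f : MvPolynomial (Fin (M + 1)) ℤ) (c : ℕ) : Prop :=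
  f.IsHomogeneous c ∧ ∃ h ∈ HH M, ∃ (m : ℕ) (K : MvPolynomial (Fin (M + 1)) ℤ),
    ofFun h * Pi1 M ^ m = (K : MvPowerSeries (Fin (M + 1)) ℤ) ∧ LowOrd (c + 1) (sub1 K - f)

theorem Bb_mul {f g : MvPolynomial (Fin (M + 1)) ℤ} {a b : ℕ} (hf : Bb f a) (hg : Bb g b) :
    Bb (f * g) (a + b) := by
  obtain ⟨hf1, h1, hh1, m1, K1, e1, l1⟩ := hf
  obtain ⟨hg1, h2, hh2, m2, K2, e2, l2⟩ := hg
  obtain ⟨h, hh, e⟩ := HH_mul hh1 hh2
  refine ⟨hf1.mul hg1, h, hh, m1 + m2, K1 * K2, ?_, ?_⟩
  · rw [e, pow_add, mul_mul_mul_comm, e1, e2, MvPolynomial.coe_mul]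
  · have e3 : sub1 (K1 * K2) - f * g = (sub1 K1 - f) * sub1 K2 + f * (sub1 K2 - g) := by
      rw [map_mul]; ring
    rw [e3]
    have l3 : LowOrd b (sub1 K2) := by
      have : sub1 K2 = (sub1 K2 - g) + g := by ring
      rw [this]
      exact (l2.mono (by omega)).add (LowOrd.of_hom hg1)
    apply LowOrd.add
    · exact (l1.mul l3).mono (by omega)
    · exact ((LowOrd.of_hom hf1).mul l2).mono (by omega)

theorem Bb_e (k : ℕ) (hk : k ≤ M + 1) :
    ∃ c, Bb (∏ r ∈ Finset.univ.filter (fun r : Fin (M + 1) => r.val < k),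
      (X r : MvPolynomial (Fin (M + 1)) ℤ)) c := by
  refine ⟨∑ r ∈ Finset.univ.filter (fun r : Fin (M + 1) => r.val < k), 1,
    IsHomogeneous.prod _ _ _ (fun r _ => isHomogeneous_X ℤ r), hF (IV M k), ?_, 1,
    ∏ r ∈ Finset.univ.filter (fun r : Fin (M + 1) => r.val < k), (1 - X r), ?_, ?_⟩
  · apply AddSubmonoid.subset_closure
    refine ⟨Unit, inferInstance, IV M k, 0, IV_B k, le_rfl, ?_⟩
    funext ν
    rw [sub_zero]
  · rw [pow_one]
    have := IV_series (M := M) k hk
    unfold Pi1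
    rw [this]
    have h2 := map_prod (MvPolynomial.coeToMvPowerSeries.ringHom (R := ℤ) (σ := Fin (M + 1)))
      (fun r => (1 - X r : MvPolynomial (Fin (M + 1)) ℤ))
      (Finset.univ.filter (fun r : Fin (M + 1) => r.val < k))
    have h3 : ∀ p : MvPolynomial (Fin (M + 1)) ℤ,
        (MvPolynomial.coeToMvPowerSeries.ringHom (R := ℤ) (σ := Fin (M + 1))) p = p := fun p => rfl
    rw [h3] at h2
    rw [h2]
    refine Finset.prod_congr rfl fun r _ => ?_
    rw [map_sub, map_one, h3, MvPolynomial.coe_X]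
  · rw [map_prod]
    have : ∏ r ∈ Finset.univ.filter (fun r : Fin (M + 1) => r.val < k),
        sub1 (1 - X r : MvPolynomial (Fin (M + 1)) ℤ) =
        ∏ r ∈ Finset.univ.filter (fun r : Fin (M + 1) => r.val < k), X r := by
      refine Finset.prod_congr rfl fun r _ => ?_
      rw [map_sub, map_one, sub1_X]; ring
    rw [this, sub_self]
    exact LowOrd.zero _

theorem toWt_single (r : Fin (M + 1)) (n : ℕ) :
    toWt (Finsupp.single r n) = (n : ℤ) • (Pi.single r 1 : Wt M) := by
  classical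
  funext s
  unfold toWt
  rw [Pi.smul_apply, Finsupp.single_apply, Pi.single_apply]
  by_cases h : r = s
  · subst h; simp
  · rw [if_neg h, if_neg (Ne.symm h)]; simp

theorem toWt_swap (j : Fin M) (m x : Fin (M + 1) →₀ ℕ)
    (hx : ∀ r, x r = m (Equiv.swap j.castSucc j.succ r)) : toWt x = refl j (toWt m) := by
  funext r
  unfold refl toWt
  rw [Pi.sub_apply, Pi.smul_apply, hx]
  by_cases h1 : r = j.castSucc
  · subst h1
    rw [Equiv.swap_apply_left, al_cs, smul_eq_mul, mul_one]
    ring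
  · by_cases h2 : r = j.succ
    · subst h2
      rw [Equiv.swap_apply_right, al_s, smul_eq_mul]
      ring
    · rw [Equiv.swap_apply_of_ne_of_ne h1 h2]
      unfold al
      rw [Pi.sub_apply, Pi.single_eq_of_ne h1, Pi.single_eq_of_ne h2]
      simp

theorem dstep_series {h : Wt M → ℤ} (hh : h ∈ HH M) (j : Fin M) :
    ∃ d : ℕ, ∃ g ∈ HH M, (MvPowerSeries.X j.succ - MvPowerSeries.X j.castSucc) * ofFun g =
      MvPowerSeries.X j.succ ^ (d + 1) * ofFun h -
        MvPowerSeries.rename (Equiv.swap j.castSucc j.succ)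
          (MvPowerSeries.X j.succ ^ (d + 1) * ofFun h) := by
  classical
  obtain ⟨d, hd⟩ := dstep hh j
  obtain ⟨g, hg, hgν⟩ := hd d le_rfl
  refine ⟨d, g, hg, ?_⟩
  have k1 : MvPowerSeries.X j.succ * ofFun g =
      ofFun (fun ν => g (ν - toWt (Finsupp.single j.succ 1))) := by
    rw [ofFun_shift (fun ν r hr => HH_supp hg ν r hr)]; rfl
  have k2 : MvPowerSeries.X j.castSucc * ofFun g =
      ofFun (fun ν => g (ν - toWt (Finsupp.single j.castSucc 1))) := by
    rw [ofFun_shift (fun ν r hr => HH_supp hg ν r hr)]; rfl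
  have k3 : MvPowerSeries.X j.succ ^ (d + 1) * ofFun h =
      ofFun (fun ν => h (ν - toWt (Finsupp.single j.succ (d + 1)))) := by
    rw [ofFun_shift (fun ν r hr => HH_supp hh ν r hr), MvPowerSeries.X_pow_eq]
  rw [sub_mul, k1, k2, k3]
  ext m
  rw [map_sub, map_sub, coeff_ofFun, coeff_ofFun, coeff_ofFun]
  let x : Fin (M + 1) →₀ ℕ := Finsupp.equivFunOnFinite.symm
    (fun r => m (Equiv.swap j.castSucc j.succ r))
  have hx : Finsupp.embDomain (Equiv.swap j.castSucc j.succ).toEmbedding x = m := by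
    ext r
    have : r = (Equiv.swap j.castSucc j.succ).toEmbedding (Equiv.swap j.castSucc j.succ r) := by
      rw [Equiv.toEmbedding_apply, Equiv.swap_apply_self]
    conv_lhs => rw [this]
    rw [Finsupp.embDomain_apply_self, Finsupp.equivFunOnFinite_symm_apply_apply,
      Equiv.swap_apply_self]
  have h5 := MvPowerSeries.coeff_embDomain_rename (Equiv.swap j.castSucc j.succ).toEmbedding
    (ofFun (fun ν => h (ν - toWt (Finsupp.single j.succ (d + 1))))) x
  rw [hx] at h5
  have h6 : MvPowerSeries.coeff m (MvPowerSeries.rename (Equiv.swap j.castSucc j.succ)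
      (ofFun (fun ν => h (ν - toWt (Finsupp.single j.succ (d + 1)))))) =
      h (toWt x - toWt (Finsupp.single j.succ (d + 1))) := h5
  rw [h6, toWt_swap j m x (fun r => Finsupp.equivFunOnFinite_symm_apply_apply _ _)]
  have := hgν (toWt m)
  simp only [toWt_single]
  push_cast
  simp only [one_smul]
  exact this

end Pool.Agent.U346
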