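import Mathlib

set_option autoImplicit false

namespace Pool.Agent.U346

open Module

/-- A vector space with operators `E`, `F` and weight spaces `V k` (`k` an integer) on which
`E F - F E` is multiplication by `c + 2 k`. -/
structure Sl2 (W : Type*) [AddCommGroup W] [Module ℚ W] where
  E : W →ₗ[ℚ] W
  F : W →ₗ[ℚ] W
  V : ℤ → Submodule ℚ W
  c : ℤ
  hE : ∀ k, ∀ x ∈ V k, E x ∈ V (k + 1)
  hF : ∀ k, ∀ x ∈ V k, F x ∈ V (k - 1)
  hEF : ∀ k, ∀ x ∈ V k, E (F x) - F (E x) = ((c + 2 * k : ℤ) : ℚ) • x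
  bdd : ∃ B : ℕ, ∀ k : ℤ, (B : ℤ) < |k| → V k = ⊥
  fin : ∀ k, FiniteDimensional ℚ (V k)

namespace Sl2

variable {W : Type*} [AddCommGroup W] [Module ℚ W]

/-- Exchange the roles of `E` and `F`. -/
def swap (s : Sl2 W) : Sl2 W where
  E := s.F
  F := s.E
  V := fun k => s.V (-k)
  c := -s.c
  hE := fun k x hx => by
    have := s.hF (-k) x hx
    rwa [show -k - 1 = -(k + 1) by ring] at this
  hF := fun k x hx => by
    have := s.hE (-k) x hx
    rwa [show -k + 1 = -(k - 1) by ring] at this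
  hEF := fun k x hx => by
    have := s.hEF (-k) x hx
    have h2 : s.F (s.E x) - s.E (s.F x) = -(((s.c + 2 * -k : ℤ) : ℚ) • x) := by
      rw [← this]; abel
    rw [h2, ← neg_smul]
    congr 1
    push_cast
    ring
  bdd := by
    obtain ⟨B, hB⟩ := s.bdd
    exact ⟨B, fun k hk => hB (-k) (by rwa [abs_neg])⟩
  fin := fun k => s.fin (-k)

variable (s : Sl2 W)

theorem powE_mem (n : ℕ) : ∀ (k : ℤ) (x : W), x ∈ s.V k → (s.E ^ n) x ∈ s.V (k + n) := by
  induction n with
  | zero => intro k x hx; simpa using hx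
  | succ n ih =>
    intro k x hx
    rw [pow_succ']
    have := s.hE _ _ (ih k x hx)
    rw [Module.End.mul_apply]
    convert this using 2
    push_cast; ring

theorem powF_mem (n : ℕ) : ∀ (k : ℤ) (x : W), x ∈ s.V k → (s.F ^ n) x ∈ s.V (k - n) := by
  induction n with
  | zero => intro k x hx; simpa using hx
  | succ n ih =>
    intro k x hx
    rw [pow_succ']
    have := s.hF _ _ (ih k x hx)
    rw [Module.End.mul_apply]
    convert this using 2
    push_cast; ring

theorem comm (n : ℕ) (k : ℤ) (x : W) (hx : x ∈ s.V k) :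
    (s.E ^ (n + 1)) (s.F x) = s.F ((s.E ^ (n + 1)) x) +
      (((n + 1) * (s.c + 2 * k + n) : ℤ) : ℚ) • (s.E ^ n) x := by
  induction n with
  | zero =>
    have := s.hEF k x hx
    simp only [zero_add, pow_one, pow_zero, Module.End.one_apply]
    rw [sub_eq_iff_eq_add] at this
    rw [this, add_comm]
    congr 2
    push_cast; ring
  | succ n ih =>
    rw [pow_succ' s.E (n + 1), Module.End.mul_apply, ih, map_add, map_smul]
    have h1 := s.hEF _ _ (s.powE_mem (n + 1) k x hx)
    rw [sub_eq_iff_eq_add] at h1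
    rw [h1]
    rw [← Module.End.mul_apply s.E (s.E ^ (n + 1)), ← pow_succ' s.E (n + 1)]
    rw [← Module.End.mul_apply s.E (s.E ^ n), ← pow_succ' s.E n]
    rw [add_comm (((s.c + 2 * (k + ((n + 1 : ℕ) : ℤ)) : ℤ) : ℚ) • (s.E ^ (n + 1)) x), add_assoc,
      ← add_smul]
    congr 2
    push_cast; ring

theorem vanish (k : ℤ) (x : W) (hx : x ∈ s.V k) (b : ℕ) (hb : (s.E ^ b) x = 0) (j : ℕ) :
    (s.E ^ (b + j)) ((s.F ^ j) x) = 0 := by
  induction j with
  | zero => simpa using hb
  | succ j ih =>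
    rw [pow_succ' s.F, Module.End.mul_apply, ← add_assoc,
      s.comm _ _ _ (s.powF_mem j k x hx), ih, smul_zero, add_zero,
      pow_succ' s.E, Module.End.mul_apply, ih, map_zero, map_zero]

theorem low_inj (k : ℤ) (y : W) (hy : y ∈ s.V k) (p : ℕ) (hp : s.c + 2 * k = -p)
    (hF : s.F y = 0) (j : ℕ) (hj : j ≤ p) (hE : (s.E ^ j) y = 0) : y = 0 := by
  induction j with
  | zero => simpa using hE
  | succ j ih =>
    apply ih (by omega)
    have := s.comm j k y hy
    rw [hF, map_zero, hE, map_zero, zero_add] at this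
    have h2 := (smul_eq_zero.1 this.symm).resolve_left ?_
    · exact h2
    · intro h0
      have h3 : ((j : ℤ) + 1) * (s.c + 2 * k + j) = 0 := by exact_mod_cast h0
      rcases mul_eq_zero.1 h3 with h4 | h4
      · omega
      · rw [hp] at h4; omega

theorem F_nilp (k : ℤ) (x : W) (hx : x ∈ s.V k) : ∃ r : ℕ, (s.F ^ r) x = 0 := by
  obtain ⟨B, hB⟩ := s.bdd
  refine ⟨B + k.natAbs + 1, ?_⟩
  have h1 := s.powF_mem (B + k.natAbs + 1) k x hx
  rw [hB] at h1
  · simpa using h1
  · push_cast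
    rw [lt_abs]
    right
    have := Int.le_natAbs (a := k)
    have h3 : ((k.natAbs : ℕ) : ℤ) = |k| := Int.natCast_natAbs k
    have h4 := le_abs_self k
    omega

theorem inj (k : ℤ) (x : W) (hx : x ∈ s.V k) (q : ℕ) (hq : s.c + 2 * k = -q)
    (hE : (s.E ^ q) x = 0) : x = 0 := by
  classical
  have hex := s.F_nilp k x hx
  by_contra hne
  obtain ⟨r, hr, hmin⟩ : ∃ r, (s.F ^ r) x = 0 ∧ ∀ m < r, (s.F ^ m) x ≠ 0 :=
    ⟨Nat.find hex, Nat.find_spec hex, fun m hm => Nat.find_min hex hm⟩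
  have hr0 : r ≠ 0 := by
    intro h0
    rw [h0] at hr
    exact hne (by simpa using hr)
  obtain ⟨r', rfl⟩ : ∃ r', r = r' + 1 := ⟨r - 1, by omega⟩
  have hy0 : (s.F ^ r') x ≠ 0 := hmin r' (by omega)
  apply hy0
  apply s.low_inj (k - r') _ (s.powF_mem r' k x hx) (q + 2 * r') (by push_cast; linarith)
    (by rw [← Module.End.mul_apply, ← pow_succ']; exact hr) (q + r') (by omega)
  exact s.vanish k x hx q hE r'

/-- `E ^ q` from weight `-q` to weight `q`. -/
theorem surj (k : ℤ) (q : ℕ) (hq : s.c + 2 * k = -q) (z : W) (hz : z ∈ s.V (k + q)) :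
    ∃ y ∈ s.V k, (s.E ^ q) y = z := by
  have := s.fin k
  have := s.fin (k + q)
  let f : s.V k →ₗ[ℚ] s.V (k + q) := (s.E ^ q).restrict (s.powE_mem q k)
  let g : s.V (k + q) →ₗ[ℚ] s.V k := (s.F ^ q).restrict (fun x hx => by
    have := s.powF_mem q (k + q) x hx
    rwa [add_sub_cancel_right] at this)
  have hf : Function.Injective f := by
    rw [injective_iff_map_eq_zero]
    intro x hx
    apply Subtype.ext
    apply s.inj k x.1 x.2 q hq
    exact congrArg Subtype.val hx
  have hg : Function.Injective g := by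
    rw [injective_iff_map_eq_zero]
    intro x hx
    apply Subtype.ext
    apply s.swap.inj (-(k + q)) x.1 ?_ q ?_ (congrArg Subtype.val hx)
    · show x.1 ∈ s.V (- -(k + q))
      rw [neg_neg]; exact x.2
    · show -s.c + 2 * (-(k + q)) = -q
      linarith
  have h1 := LinearMap.finrank_le_finrank_of_injective hf
  have h2 := LinearMap.finrank_le_finrank_of_injective hg
  have h3 : Function.Surjective f :=
    (LinearMap.injective_iff_surjective_of_finrank_eq_finrank (le_antisymm h1 h2)).1 hf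
  obtain ⟨y, hy⟩ := h3 ⟨z, hz⟩
  exact ⟨y.1, y.2, congrArg Subtype.val hy⟩

/-- `E ^ a` is surjective onto weights `q ≥ a`. -/
theorem surj2 (k : ℤ) (a : ℕ) (ha : (a : ℤ) ≤ s.c + 2 * (k + a)) (z : W)
    (hz : z ∈ s.V (k + a)) : ∃ y ∈ s.V k, (s.E ^ a) y = z := by
  obtain ⟨b, hb⟩ := Int.eq_ofNat_of_zero_le (sub_nonneg.2 ha)
  have hq : s.c + 2 * (k - b) = -((a + b : ℕ) : ℤ) := by push_cast; linarith
  obtain ⟨y, hy, hyz⟩ := s.surj (k - b) (a + b) hq z (by
    have : k - (b : ℤ) + ((a + b : ℕ) : ℤ) = k + a := by push_cast; ring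
    rw [this]; exact hz)
  refine ⟨(s.E ^ b) y, ?_, ?_⟩
  · have := s.powE_mem b _ y hy
    rwa [sub_add_cancel] at this
  · rw [← Module.End.mul_apply, ← pow_add, hyz]

theorem low (k : ℤ) (x : W) (hx : x ∈ s.V k) (m : ℕ) (hm : s.c + 2 * k = -m)
    (hE : (s.E ^ (m + 1)) x = 0) : s.F x = 0 := by
  apply s.inj (k - 1) _ (s.hF k x hx) (m + 2) (by push_cast; linarith)
  rw [s.comm _ _ _ hx, hE, smul_zero, add_zero, pow_succ', Module.End.mul_apply, hE, map_zero,
    map_zero]

theorem finrank_symm (k l : ℤ) (h : s.c + k + l = 0) : finrank ℚ (s.V k) = finrank ℚ (s.V l) := by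
  wlog hkl : s.c + 2 * k ≤ 0 generalizing k l
  · exact (this l k (by linarith) (by linarith)).symm
  obtain ⟨q, hq⟩ := Int.eq_ofNat_of_zero_le (show 0 ≤ -(s.c + 2 * k) by linarith)
  have hl : l = k + q := by rw [← hq]; linarith
  subst hl
  have := s.fin k
  have := s.fin (k + q)
  let f : s.V k →ₗ[ℚ] s.V (k + q) := (s.E ^ q).restrict (s.powE_mem q k)
  have hf : Function.Injective f := by
    rw [injective_iff_map_eq_zero]
    intro x hx
    apply Subtype.ext
    apply s.inj k x.1 x.2 q (by linarith)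
    exact congrArg Subtype.val hx
  have hs : Function.Surjective f := by
    rintro ⟨z, hz⟩
    obtain ⟨y, hy, hyz⟩ := s.surj k q (by linarith) z hz
    exact ⟨⟨y, hy⟩, Subtype.ext hyz⟩
  exact (LinearEquiv.ofBijective f ⟨hf, hs⟩).finrank_eq

/-- The largest `F`-stable part `Q0` of an `E`-stable family `Q` of subspaces. -/
theorem dim_formula (Q Q0 : ℤ → Submodule ℚ W) (hQV : ∀ k, Q k ≤ s.V k)
    (hQE : ∀ k, ∀ x ∈ Q k, s.E x ∈ Q (k + 1))
    (hQ0 : ∀ k x, x ∈ Q0 k ↔ x ∈ s.V k ∧ ∀ j : ℕ, (s.F ^ j) x ∈ Q (k - j))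
    (star : ∀ (k : ℤ) (m : ℕ), s.c + 2 * k = -m → ∀ z ∈ Q (k + (m + 1)),
      ∃ y ∈ Q k, (s.E ^ (m + 1)) y = z) (k : ℤ) :
    ((finrank ℚ (s.V k) : ℤ) - finrank ℚ (Q0 k)) -
      ((finrank ℚ (s.V (k - 1)) : ℤ) - finrank ℚ (Q0 (k - 1))) =
    ((finrank ℚ (s.V k) : ℤ) - finrank ℚ (Q k)) -
      ((finrank ℚ (s.V (1 - s.c - k)) : ℤ) - finrank ℚ (Q (1 - s.c - k))) := by
  have hQ0V : ∀ k, Q0 k ≤ s.V k := fun k x hx => ((hQ0 k x).1 hx).1
  have hQ0Q : ∀ k, Q0 k ≤ Q k := fun k x hx => by simpa using ((hQ0 k x).1 hx).2 0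
  have h0F : ∀ k, ∀ x ∈ Q0 k, s.F x ∈ Q0 (k - 1) := by
    intro k x hx
    obtain ⟨h1, h2⟩ := (hQ0 k x).1 hx
    refine (hQ0 _ _).2 ⟨s.hF k x h1, fun j => ?_⟩
    have := h2 (j + 1)
    rw [pow_succ, Module.End.mul_apply] at this
    rwa [show k - ((j + 1 : ℕ) : ℤ) = k - 1 - j by push_cast; ring] at this
  have h0E : ∀ k, ∀ x ∈ Q0 k, s.E x ∈ Q0 (k + 1) := by
    intro k x hx
    obtain ⟨h1, h2⟩ := (hQ0 k x).1 hx
    refine (hQ0 _ _).2 ⟨s.hE k x h1, fun j => ?_⟩
    cases j with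
    | zero => simpa using hQE k x (hQ0Q k hx)
    | succ j =>
      have h3 := s.swap.comm j (-k) x (by show x ∈ s.V (- -k); rwa [neg_neg])
      have h4 : (s.F ^ (j + 1)) (s.E x) = s.E ((s.F ^ (j + 1)) x) +
        (((j + 1) * (-s.c + 2 * (-k) + j) : ℤ) : ℚ) • (s.F ^ j) x := h3
      rw [h4, show k + 1 - ((j + 1 : ℕ) : ℤ) = k - j by push_cast; ring]
      refine Submodule.add_mem _ ?_ (Submodule.smul_mem _ _ (h2 j))
      have h5 := hQE _ _ (h2 (j + 1))
      rwa [show k - ((j + 1 : ℕ) : ℤ) + 1 = k - j by push_cast; ring] at h5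
  let s0 : Sl2 W :=
    { E := s.E, F := s.F, V := Q0, c := s.c, hE := h0E, hF := h0F
      hEF := fun k x hx => s.hEF k x (hQ0V k hx)
      bdd := by
        obtain ⟨B, hB⟩ := s.bdd
        exact ⟨B, fun k hk => le_bot_iff.1 ((hQ0V k).trans (hB k hk).le)⟩
      fin := fun k => by
        have := s.fin k
        exact Submodule.finiteDimensional_of_le (hQ0V k) }
  have key : ∀ (k : ℤ) (m : ℕ), s.c + 2 * k = -m →
      (finrank ℚ (Q0 k) : ℤ) - finrank ℚ (Q0 (k + (m + 1))) =
      (finrank ℚ (Q k) : ℤ) - finrank ℚ (Q (k + (m + 1))) := by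
    intro k m hm
    have hfV := s.fin k
    have : FiniteDimensional ℚ (Q k) := Submodule.finiteDimensional_of_le (hQV k)
    have : FiniteDimensional ℚ (Q0 k) := Submodule.finiteDimensional_of_le (hQ0V k)
    have hQpow : ∀ (n : ℕ) (k : ℤ), ∀ x ∈ Q k, (s.E ^ n) x ∈ Q (k + n) := by
      intro n
      induction n with
      | zero => intro k x hx; simpa using hx
      | succ n ih =>
        intro k x hx
        rw [pow_succ', Module.End.mul_apply]
        have := hQE _ _ (ih k x hx)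
        convert this using 2
        push_cast; ring
    let f : Q k →ₗ[ℚ] Q (k + (m + 1)) := (s.E ^ (m + 1)).restrict (fun x hx => by
      have := hQpow (m + 1) k x hx
      simpa using this)
    let f0 : Q0 k →ₗ[ℚ] Q0 (k + (m + 1)) := (s.E ^ (m + 1)).restrict (fun x hx => by
      have := s0.powE_mem (m + 1) k x hx
      simpa using this)
    have hf : Function.Surjective f := by
      rintro ⟨z, hz⟩
      obtain ⟨y, hy, hyz⟩ := star k m hm z hz
      exact ⟨⟨y, hy⟩, Subtype.ext hyz⟩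
    have hf0 : Function.Surjective f0 := by
      rintro ⟨z, hz⟩
      obtain ⟨y, hy, hyz⟩ := s0.surj2 k (m + 1) (by
        show ((m + 1 : ℕ) : ℤ) ≤ s.c + 2 * (k + ((m + 1 : ℕ) : ℤ))
        push_cast; linarith) z (by push_cast; exact hz)
      exact ⟨⟨y, hy⟩, Subtype.ext hyz⟩
    have e1 := LinearMap.finrank_range_add_finrank_ker f
    have e2 := LinearMap.finrank_range_add_finrank_ker f0
    rw [LinearMap.range_eq_top.2 hf, finrank_top] at e1
    rw [LinearMap.range_eq_top.2 hf0, finrank_top] at e2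
    have e3 : finrank ℚ (LinearMap.ker f) = finrank ℚ (LinearMap.ker f0) := by
      have i1 : finrank ℚ (LinearMap.ker f) =
          finrank ℚ ((LinearMap.ker f).map (Q k).subtype) :=
        (LinearEquiv.finrank_eq (Submodule.equivMapOfInjective _ (Q k).injective_subtype _))
      have i2 : finrank ℚ (LinearMap.ker f0) =
          finrank ℚ ((LinearMap.ker f0).map (Q0 k).subtype) :=
        (LinearEquiv.finrank_eq (Submodule.equivMapOfInjective _ (Q0 k).injective_subtype _))
      have i3 : (LinearMap.ker f).map (Q k).subtype = (LinearMap.ker f0).map (Q0 k).subtype := by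
       ext x
       simp only [Submodule.mem_map, LinearMap.mem_ker, Submodule.subtype_apply, Subtype.exists,
         exists_and_right, exists_eq_right]
       constructor
       · rintro ⟨hx, hx2⟩
         have hx3 : (s.E ^ (m + 1)) x = 0 := congrArg Subtype.val hx2
         have hx4 := s.low k x (hQV k hx) m hm hx3
         have hx5 : x ∈ Q0 k := by
           refine (hQ0 k x).2 ⟨hQV k hx, fun j => ?_⟩
           cases j with
           | zero => simpa using hx
           | succ j =>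
             rw [pow_succ, Module.End.mul_apply, hx4, map_zero]
             exact Submodule.zero_mem _
         exact ⟨hx5, Subtype.ext hx3⟩
       · rintro ⟨hx, hx2⟩
         have hx3 : (s.E ^ (m + 1)) x = 0 := congrArg Subtype.val hx2
         exact ⟨hQ0Q k hx, Subtype.ext hx3⟩
      rw [i1, i2, i3]
    omega
  have sym1 : finrank ℚ (s.V (k - 1)) = finrank ℚ (s.V (1 - s.c - k)) :=
    s.finrank_symm _ _ (by ring)
  have sym2 : finrank ℚ (Q0 (k - 1)) = finrank ℚ (Q0 (1 - s.c - k)) :=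
    s0.finrank_symm _ _ (by show s.c + (k - 1) + (1 - s.c - k) = 0; ring)
  rw [sym1, sym2]
  rcases lt_trichotomy (s.c + 2 * k) 1 with h | h | h
  · obtain ⟨m, hm⟩ := Int.eq_ofNat_of_zero_le (show 0 ≤ -(s.c + 2 * k) by linarith)
    have := key k m (by linarith)
    rw [show k + ((m : ℤ) + 1) = 1 - s.c - k by rw [← hm]; ring] at this
    linarith
  · have : 1 - s.c - k = k := by linarith
    rw [this]; ring
  · obtain ⟨m, hm⟩ := Int.eq_ofNat_of_zero_le (show 0 ≤ -(s.c + 2 * (1 - s.c - k)) by linarith)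
    have := key (1 - s.c - k) m (by linarith)
    rw [show (1 - s.c - k) + ((m : ℤ) + 1) = k by rw [← hm]; ring] at this
    linarith

end Sl2

end Pool.Agent.U346
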