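import Pool.Agent.U346.DD

set_option autoImplicit false

namespace Pool.Agent.U346

open MvPolynomial

variable {N : ℕ}

/-- The variable with a natural index. -/
noncomputable def zz (N : ℕ) (i : ℕ) : MvPolynomial (Fin N) ℤ :=
  if h : i < N then X ⟨i, h⟩ else 0

theorem zz_lt {i : ℕ} (h : i < N) : zz N i = X ⟨i, h⟩ := dif_pos h

/-- The geometric series. -/
noncomputable def Gz {R : Type} [CommRing R] (z : R) : PowerSeries R :=
  PowerSeries.mk (fun a => z ^ a)

theorem Gz_mul {R : Type} [CommRing R] (z : R) :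
    Gz z * (1 - PowerSeries.C z * PowerSeries.X) = 1 := by
  ext a
  rw [mul_sub, mul_one, map_sub, ← mul_assoc, mul_comm (Gz z) (PowerSeries.C z)]
  cases a with
  | zero =>
    rw [PowerSeries.coeff_zero_mul_X, sub_zero]
    unfold Gz
    simp
  | succ a =>
    rw [PowerSeries.coeff_succ_mul_X, PowerSeries.coeff_C_mul]
    unfold Gz
    rw [PowerSeries.coeff_mk, PowerSeries.coeff_mk, PowerSeries.coeff_one,
      if_neg (Nat.succ_ne_zero a), pow_succ]
    ring

theorem map_Gz {R R' : Type} [CommRing R] [CommRing R'] (φ : R →+* R') (z : R) :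
    PowerSeries.map φ (Gz z) = Gz (φ z) := by
  ext a
  unfold Gz
  rw [PowerSeries.coeff_map, PowerSeries.coeff_mk, PowerSeries.coeff_mk, map_pow]

/-- The generating series of the elementary symmetric functions with signs. -/
noncomputable def Eg (N : ℕ) : ℕ → PowerSeries (MvPolynomial (Fin N) ℤ)
  | 0 => 1
  | k + 1 => Eg N k * (1 - PowerSeries.C (zz N k) * PowerSeries.X)

/-- The generating series of the complete symmetric functions. -/
noncomputable def Hg (N : ℕ) : ℕ → PowerSeries (MvPolynomial (Fin N) ℤ)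
  | 0 => 1
  | k + 1 => Hg N k * Gz (zz N k)

theorem Eg_mul_Hg (k : ℕ) : Eg N k * Hg N k = 1 := by
  induction k with
  | zero => exact one_mul 1
  | succ k ih =>
    show Eg N k * (1 - PowerSeries.C (zz N k) * PowerSeries.X) * (Hg N k * Gz (zz N k)) = 1
    rw [mul_mul_mul_comm, ih, one_mul, mul_comm]
    exact Gz_mul _

/-- Signed elementary symmetric functions. -/
noncomputable def ee (N k j : ℕ) : MvPolynomial (Fin N) ℤ := PowerSeries.coeff j (Eg N k)

/-- Complete symmetric functions. -/
noncomputable def hh (N k j : ℕ) : MvPolynomial (Fin N) ℤ := PowerSeries.coeff j (Hg N k)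

theorem zz_pow (k a : ℕ) : zz N k ^ a =
    ∑ p ∈ Finset.HasAntidiagonal.antidiagonal a, ee N k p.1 * hh N (k + 1) p.2 := by
  have h : Gz (zz N k) = Eg N k * Hg N (k + 1) := by
    show _ = Eg N k * (Hg N k * Gz (zz N k))
    rw [← mul_assoc, Eg_mul_Hg, one_mul]
  have h2 := congrArg (PowerSeries.coeff a) h
  rw [PowerSeries.coeff_mul] at h2
  unfold Gz at h2
  rw [PowerSeries.coeff_mk] at h2
  exact h2

theorem Hg_back (k : ℕ) : Hg N k = Hg N (k + 1) * (1 - PowerSeries.C (zz N k) * PowerSeries.X) := by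
  show _ = Hg N k * Gz (zz N k) * _
  rw [mul_assoc, Gz_mul, mul_one]

theorem hh_succ (k j : ℕ) : hh N k (j + 1) = hh N (k + 1) (j + 1) - zz N k * hh N (k + 1) j := by
  unfold hh
  conv_lhs => rw [Hg_back]
  rw [mul_sub, mul_one, map_sub, ← mul_assoc, PowerSeries.coeff_succ_mul_X,
    mul_comm (Hg N (k + 1)) (PowerSeries.C _), PowerSeries.coeff_C_mul]

theorem hh_zero (k : ℕ) : hh N k 0 = 1 := by
  unfold hh
  induction k with
  | zero =>
    show PowerSeries.coeff 0 1 = 1
    simp
  | succ k ih =>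
    show PowerSeries.coeff 0 (Hg N k * Gz (zz N k)) = 1
    rw [PowerSeries.coeff_zero_eq_constantCoeff_apply] at ih ⊢
    rw [map_mul, ih, one_mul, ← PowerSeries.coeff_zero_eq_constantCoeff_apply]
    unfold Gz
    rw [PowerSeries.coeff_mk, pow_zero]

theorem ee_zero (k : ℕ) : ee N k 0 = 1 := by
  unfold ee
  induction k with
  | zero =>
    show PowerSeries.coeff 0 1 = 1
    simp
  | succ k ih =>
    show PowerSeries.coeff 0 (Eg N k * (1 - PowerSeries.C (zz N k) * PowerSeries.X)) = 1
    rw [mul_sub, mul_one, map_sub, ih, ← mul_assoc, PowerSeries.coeff_zero_mul_X, sub_zero]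

theorem ee_succ (k j : ℕ) : ee N (k + 1) (j + 1) = ee N k (j + 1) - zz N k * ee N k j := by
  unfold ee
  show PowerSeries.coeff (j + 1) (Eg N k * (1 - PowerSeries.C (zz N k) * PowerSeries.X)) = _
  rw [mul_sub, mul_one, map_sub, ← mul_assoc, PowerSeries.coeff_succ_mul_X,
    mul_comm (Eg N k) (PowerSeries.C _), PowerSeries.coeff_C_mul]

theorem ee_big (k j : ℕ) (h : k < j) : ee N k j = 0 := by
  induction k generalizing j with
  | zero =>
    unfold ee
    show PowerSeries.coeff j 1 = 0
    rw [PowerSeries.coeff_one, if_neg (by omega)]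
  | succ k ih =>
    obtain ⟨j, rfl⟩ : ∃ j', j = j' + 1 := ⟨j - 1, by omega⟩
    rw [ee_succ, ih _ (by omega), ih _ (by omega), mul_zero, sub_zero]

/-- The product of the differences. -/
theorem prod_diff (Y : MvPolynomial (Fin N) ℤ) (k : ℕ) :
    ∏ i ∈ Finset.range k, (Y - zz N i) = ∑ j ∈ Finset.range (k + 1), ee N k j * Y ^ (k - j) := by
  induction k with
  | zero =>
    rw [Finset.range_zero, Finset.prod_empty, Finset.sum_range_one, ee_zero]
    norm_num
  | succ k ih =>
    rw [Finset.prod_range_succ, ih, Finset.sum_range_succ' (fun j => ee N (k + 1) j * _)]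
    have h1 : ∑ j ∈ Finset.range (k + 1), ee N (k + 1) (j + 1) * Y ^ (k + 1 - (j + 1)) =
        ∑ j ∈ Finset.range (k + 1), ee N k (j + 1) * Y ^ (k - j) -
          zz N k * ∑ j ∈ Finset.range (k + 1), ee N k j * Y ^ (k - j) := by
      rw [Finset.mul_sum, ← Finset.sum_sub_distrib]
      refine Finset.sum_congr rfl fun j _ => ?_
      rw [ee_succ, show k + 1 - (j + 1) = k - j by omega]
      ring
    have h2 : ∑ j ∈ Finset.range (k + 1), ee N k (j + 1) * Y ^ (k - j) + ee N (k + 1) 0 *
        Y ^ (k + 1 - 0) = Y * ∑ j ∈ Finset.range (k + 1), ee N k j * Y ^ (k - j) := by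
      rw [Finset.sum_range_succ, ee_big k (k + 1) (by omega), zero_mul, add_zero,
        Finset.sum_range_succ' (fun j => ee N k j * Y ^ (k - j)), mul_add, ee_zero, ee_zero,
        Finset.mul_sum]
      congr 1
      · refine Finset.sum_congr rfl fun j hj => ?_
        rw [Finset.mem_range] at hj
        rw [show k - j = (k - (j + 1)) + 1 by omega, pow_succ]
        ring
      · rw [one_mul, one_mul, Nat.sub_zero, Nat.sub_zero, pow_succ]
        ring
    rw [h1]
    have h3 : ∑ j ∈ Finset.range (k + 1), ee N k (j + 1) * Y ^ (k - j) -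
          zz N k * ∑ j ∈ Finset.range (k + 1), ee N k j * Y ^ (k - j) +
          ee N (k + 1) 0 * Y ^ (k + 1 - 0) =
        (∑ j ∈ Finset.range (k + 1), ee N k (j + 1) * Y ^ (k - j) + ee N (k + 1) 0 *
        Y ^ (k + 1 - 0)) - zz N k * ∑ j ∈ Finset.range (k + 1), ee N k j * Y ^ (k - j) := by
      ring
    rw [h3, h2]
    ring

theorem rename_zz {i : ℕ} (h : i + 1 < N) (q : ℕ) (hq : q ≠ i) (hq2 : q ≠ i + 1) :
    rename (Equiv.swap (⟨i, by omega⟩ : Fin N) ⟨i + 1, h⟩) (zz N q) = zz N q := by
  unfold zz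
  split_ifs with hqN
  · rw [rename_X, Equiv.swap_apply_of_ne_of_ne]
    · intro h'; exact hq (congrArg Fin.val h')
    · intro h'; exact hq2 (congrArg Fin.val h')
  · rw [map_zero]

theorem map_Hg {i : ℕ} (h : i + 1 < N) (q : ℕ) (hq : q ≤ i ∨ i + 1 < q) :
    PowerSeries.map (rename (Equiv.swap (⟨i, by omega⟩ : Fin N) ⟨i + 1, h⟩) :
      MvPolynomial (Fin N) ℤ →ₐ[ℤ] MvPolynomial (Fin N) ℤ).toRingHom (Hg N q) = Hg N q := by
  set φ := (rename (Equiv.swap (⟨i, by omega⟩ : Fin N) ⟨i + 1, h⟩) :
      MvPolynomial (Fin N) ℤ →ₐ[ℤ] MvPolynomial (Fin N) ℤ).toRingHom with hφ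
  have low : ∀ q, q ≤ i → PowerSeries.map φ (Hg N q) = Hg N q := by
    intro q
    induction q with
    | zero => intro _; exact map_one _
    | succ q ih =>
      intro hq
      show PowerSeries.map φ (Hg N q * Gz (zz N q)) = Hg N q * Gz (zz N q)
      rw [map_mul, ih (by omega), map_Gz]
      congr 2
      exact rename_zz h q (by omega) (by omega)
  rcases hq with hq | hq
  · exact low q hq
  · obtain ⟨l, rfl⟩ := Nat.exists_eq_add_of_le (show i + 2 ≤ q by omega)
    induction l with
    | zero =>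
      show PowerSeries.map φ (Hg N i * Gz (zz N i) * Gz (zz N (i + 1))) =
        Hg N i * Gz (zz N i) * Gz (zz N (i + 1))
      rw [map_mul, map_mul, low i le_rfl, map_Gz, map_Gz]
      have e1 : φ (zz N i) = zz N (i + 1) := by
        rw [zz_lt (show i < N by omega), zz_lt h]
        show rename _ (X _) = _
        rw [rename_X, Equiv.swap_apply_left]
      have e2 : φ (zz N (i + 1)) = zz N i := by
        rw [zz_lt (show i < N by omega), zz_lt h]
        show rename _ (X _) = _
        rw [rename_X, Equiv.swap_apply_right]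
      rw [e1, e2]
      ring
    | succ l ih =>
      show PowerSeries.map φ (Hg N (i + 2 + l) * Gz (zz N (i + 2 + l))) =
        Hg N (i + 2 + l) * Gz (zz N (i + 2 + l))
      rw [map_mul, ih (by omega), map_Gz]
      congr 2
      exact rename_zz h _ (by omega) (by omega)

theorem rename_hh {i : ℕ} (h : i + 1 < N) (q : ℕ) (hq : q ≤ i ∨ i + 1 < q) (r : ℕ) :
    rename (Equiv.swap (⟨i, by omega⟩ : Fin N) ⟨i + 1, h⟩) (hh N q r) = hh N q r := by
  have := congrArg (PowerSeries.coeff r) (map_Hg h q hq)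
  rw [PowerSeries.coeff_map] at this
  exact this

/-- Divided differences with a natural index. -/
noncomputable def ddn (N : ℕ) (i : ℕ) : MvPolynomial (Fin N) ℤ →ₗ[ℤ] MvPolynomial (Fin N) ℤ :=
  if h : i + 1 < N then dd (⟨i, by omega⟩ : Fin N) ⟨i + 1, h⟩ (by
    intro h'
    have := congrArg Fin.val h'
    simp at this) else 0

/-- Symmetry in two consecutive variables. -/
def Fx (N : ℕ) (i : ℕ) (f : MvPolynomial (Fin N) ℤ) : Prop :=
  ∀ h : i + 1 < N, rename (Equiv.swap (⟨i, by omega⟩ : Fin N) ⟨i + 1, h⟩) f = f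

theorem ddn_mul {i : ℕ} {f : MvPolynomial (Fin N) ℤ} (hf : Fx N i f) (g : MvPolynomial (Fin N) ℤ) :
    ddn N i (f * g) = f * ddn N i g := by
  unfold ddn
  split_ifs with h
  · exact dd_mul_sym _ (hf h) g
  · rw [LinearMap.zero_apply, LinearMap.zero_apply, mul_zero]

theorem ddn_sym {i : ℕ} {f : MvPolynomial (Fin N) ℤ} (hf : Fx N i f) : ddn N i f = 0 := by
  unfold ddn
  split_ifs with h
  · exact dd_of_sym _ (hf h)
  · rfl

theorem ddn_hh {p : ℕ} (hp : p + 1 < N) (r : ℕ) : ddn N p (hh N (p + 1) (r + 1)) = hh N (p + 2) r := by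
  have f1 : Fx N p (hh N (p + 2) (r + 1)) := fun h => rename_hh h _ (Or.inr (by omega)) _
  have f2 : Fx N p (hh N (p + 2) r) := fun h => rename_hh h _ (Or.inr (by omega)) _
  rw [hh_succ, map_sub, ddn_sym f1, mul_comm, ddn_mul f2, zero_sub]
  have h1 : ddn N p (zz N (p + 1)) = -1 := by
    unfold ddn
    rw [dif_pos hp, zz_lt hp]
    symm
    apply dd_unique
    rw [rename_X, Equiv.swap_apply_right]
    ring
  rw [h1]
  ring

theorem ddn_hh_zero (p : ℕ) (q : ℕ) : ddn N p (hh N q 0) = 0 := by
  apply ddn_sym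
  intro h
  rw [hh_zero, map_one]

theorem constantCoeff_hh (q r : ℕ) :
    constantCoeff (hh N q r) = if r = 0 then 1 else 0 := by
  have h : PowerSeries.map (constantCoeff (σ := Fin N) (R := ℤ)) (Hg N q) = 1 := by
    induction q with
    | zero => exact map_one _
    | succ q ih =>
      show PowerSeries.map (constantCoeff (σ := Fin N) (R := ℤ)) (Hg N q * Gz (zz N q)) = 1
      rw [map_mul, ih, one_mul, map_Gz]
      have h0 : constantCoeff (zz N q) = 0 := by
        unfold zz
        split_ifs with hq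
        · exact constantCoeff_X ℤ (⟨q, hq⟩ : Fin N)
        · exact map_zero constantCoeff
      rw [h0]
      ext a
      unfold Gz
      rw [PowerSeries.coeff_mk, PowerSeries.coeff_one]
      split_ifs with ha
      · rw [ha, pow_zero]
      · exact zero_pow ha
  have := congrArg (PowerSeries.coeff r) h
  rw [PowerSeries.coeff_map, PowerSeries.coeff_one] at this
  exact this

end Pool.Agent.U346
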