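import Pool.Agent.U346.SL2
import Pool.Agent.U346.Base

set_option autoImplicit false

namespace Pool.Agent.U346

open MvPolynomial Module

variable {M : ℕ} {κ : Type}

/-- `E j` as a linear map. -/
noncomputable def EL (j : Fin M) : S M κ →ₗ[ℚ] S M κ := (E j : Derivation ℚ (S M κ) (S M κ))

/-- `F j` as a linear map. -/
noncomputable def FL (j : Fin M) : S M κ →ₗ[ℚ] S M κ := (F j : Derivation ℚ (S M κ) (S M κ))

theorem EL_apply (j : Fin M) (f : S M κ) : EL j f = E j f := rfl

theorem FL_apply (j : Fin M) (f : S M κ) : FL j f = F j f := rfl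

theorem al_cs (j : Fin M) : al j j.castSucc = 1 := by
  unfold al
  rw [Pi.sub_apply, Pi.single_eq_same, Pi.single_eq_of_ne (cs_ne_s j), sub_zero]

theorem al_s (j : Fin M) : al j j.succ = -1 := by
  unfold al
  rw [Pi.sub_apply, Pi.single_eq_same, Pi.single_eq_of_ne (cs_ne_s j).symm, zero_sub]

/-- The `sl2` structure on a string of weight spaces of the polynomial ring. -/
noncomputable def sS [Fintype κ] (j : Fin M) (μ : Wt M) : Sl2 (S M κ) where
  E := EL j
  F := FL j
  V := fun k => gr M κ (μ + k • al j)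
  c := μ j.castSucc - μ j.succ
  hE := fun k x hx => by
    have := E_mem j _ x hx
    rwa [show μ + k • al j + al j = μ + (k + 1) • al j by rw [add_smul, one_smul]; abel] at this
  hF := fun k x hx => by
    have := F_mem j _ x hx
    rwa [show μ + k • al j - al j = μ + (k - 1) • al j by rw [sub_smul, one_smul]; abel] at this
  hEF := fun k x hx => by
    have := EF_same j _ x hx
    rw [EL_apply, EL_apply, FL_apply, FL_apply, this]
    congr 2
    simp only [Pi.add_apply, Pi.smul_apply, al_cs, al_s, smul_eq_mul]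
    ring
  bdd := by
    refine ⟨(μ j.castSucc).natAbs + (μ j.succ).natAbs, fun k hk => ?_⟩
    rcases lt_abs.1 hk with h | h
    · apply gr_eq_bot _ j.succ
      simp only [Pi.add_apply, Pi.smul_apply, al_s, smul_eq_mul]
      push_cast at h
      have := le_abs_self (μ j.succ)
      have := abs_nonneg (μ j.castSucc)
      linarith
    · apply gr_eq_bot _ j.castSucc
      simp only [Pi.add_apply, Pi.smul_apply, al_cs, smul_eq_mul]
      push_cast at h
      have := le_abs_self (μ j.castSucc)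
      have := abs_nonneg (μ j.succ)
      linarith
  fin := fun k => finite_gr _

/-- `E ^ a` from `gr (ν - a α)` onto `gr ν`. -/
theorem surjS [Fintype κ] (j : Fin M) (ν : Wt M) (a : ℕ)
    (ha : (a : ℤ) ≤ ν j.castSucc - ν j.succ) (z : S M κ) (hz : z ∈ gr M κ ν) :
    ∃ y ∈ gr M κ (ν - (a : ℤ) • al j), (EL j ^ a) y = z := by
  obtain ⟨y, hy, hyz⟩ := (sS (κ := κ) j (ν - (a : ℤ) • al j)).surj2 0 a (by
    show (a : ℤ) ≤ (ν - (a : ℤ) • al j) j.castSucc - (ν - (a : ℤ) • al j) j.succ + 2 * (0 + a)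
    simp only [Pi.sub_apply, Pi.smul_apply, al_cs, al_s, smul_eq_mul]
    linarith) z (by
    show z ∈ gr M κ (ν - (a : ℤ) • al j + (0 + (a : ℤ)) • al j)
    rw [zero_add, sub_add_cancel]; exact hz)
  refine ⟨y, ?_, hyz⟩
  have : y ∈ gr M κ (ν - (a : ℤ) • al j + (0 : ℤ) • al j) := hy
  rwa [zero_smul, add_zero] at this

theorem powEL_mem (j : Fin M) (n : ℕ) (μ : Wt M) (f : S M κ) (hf : f ∈ gr M κ μ) :
    (EL j ^ n) f ∈ gr M κ (μ + (n : ℤ) • al j) := by
  induction n with
  | zero => simpa using hf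
  | succ n ih =>
    rw [pow_succ', Module.End.mul_apply, EL_apply]
    have := E_mem j _ _ ih
    rwa [show μ + (n : ℤ) • al j + al j = μ + ((n + 1 : ℕ) : ℤ) • al j by
      push_cast; rw [add_smul, one_smul]; abel] at this

theorem leib_span (j : Fin M) (a : ℕ) : ∀ (x y : S M κ) (T : Submodule ℚ (S M κ)),
    (∀ p q : ℕ, p + q = a → 1 ≤ q → (EL j ^ p) x * (EL j ^ q) y ∈ T) →
    (EL j ^ a) (x * y) - (EL j ^ a) x * y ∈ T := by
  induction a with
  | zero => intro x y T _; simp
  | succ a ih =>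
    intro x y T hT
    have h1 := ih (EL j x) y T (fun p q hpq hq => by
      have := hT (p + 1) q (by omega) hq
      rwa [pow_succ, Module.End.mul_apply] at this)
    have h2 := ih x (EL j y) T (fun p q hpq hq => by
      have := hT p (q + 1) (by omega) (by omega)
      rwa [pow_succ (EL j) q, Module.End.mul_apply] at this)
    have h3 := hT a 1 rfl le_rfl
    rw [pow_one] at h3
    have e : EL j (x * y) = EL j x * y + x * EL j y := by
      rw [EL_apply, Derivation.leibniz, smul_eq_mul, smul_eq_mul, EL_apply, EL_apply]; ring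
    rw [pow_succ, Module.End.mul_apply, Module.End.mul_apply, e, map_add]
    have e2 : (EL j ^ a) (EL j x * y) + (EL j ^ a) (x * EL j y) - (EL j ^ a) (EL j x) * y =
        ((EL j ^ a) (EL j x * y) - (EL j ^ a) (EL j x) * y) +
        ((EL j ^ a) (x * EL j y) - (EL j ^ a) x * EL j y) + (EL j ^ a) x * EL j y := by
      ring
    rw [e2]
    exact Submodule.add_mem _ (Submodule.add_mem _ h1 h2) h3

/-- A graded ideal stable under all raising operators. -/
structure BIdeal (I : Ideal (S M κ)) : Prop where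
  hom : ∀ f ∈ I, ∀ μ, cmp μ f ∈ I
  stab : ∀ j : Fin M, ∀ f ∈ I, E j f ∈ I

theorem BIdeal.pow {I : Ideal (S M κ)} (hI : BIdeal I) (j : Fin M) (n : ℕ) (f : S M κ)
    (hf : f ∈ I) : (EL j ^ n) f ∈ I := by
  induction n with
  | zero => simpa using hf
  | succ n ih =>
    rw [pow_succ', Module.End.mul_apply, EL_apply]
    exact hI.stab j _ ih

theorem exists_hom_gens [Fintype κ] (I : Ideal (S M κ)) (hI : BIdeal I) (j : Fin M) :
    ∃ d0 : ℕ, I = Ideal.span {g : S M κ | g ∈ I ∧ ∃ μ : Wt M, g ∈ gr M κ μ ∧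
      μ j.castSucc + μ j.succ ≤ d0} := by
  classical
  obtain ⟨G, hG⟩ := (isNoetherian_def.1 (inferInstance : IsNoetherian (S M κ) (S M κ))) I
  choose T hT _ using fun f : S M κ => exists_sum_cmp f
  refine ⟨∑ g ∈ G, ∑ μ ∈ T g, (μ j.castSucc + μ j.succ).toNat, ?_⟩
  apply le_antisymm
  · conv_lhs => rw [← hG]
    rw [Submodule.span_le]
    intro g hg
    have hgI : g ∈ I := by rw [← hG]; exact Submodule.subset_span hg
    show g ∈ Ideal.span _
    rw [hT g]
    refine Ideal.sum_mem _ fun μ hμ => Ideal.subset_span ⟨hI.hom g hgI μ, μ, cmp_mem μ g, ?_⟩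
    have h1 : (μ j.castSucc + μ j.succ).toNat ≤
        ∑ μ ∈ T g, (μ j.castSucc + μ j.succ).toNat :=
      Finset.single_le_sum (f := fun μ : Wt M => (μ j.castSucc + μ j.succ).toNat)
        (fun _ _ => Nat.zero_le _) hμ
    have h2 : ∑ μ ∈ T g, (μ j.castSucc + μ j.succ).toNat ≤
        ∑ g ∈ G, ∑ μ ∈ T g, (μ j.castSucc + μ j.succ).toNat :=
      Finset.single_le_sum (f := fun g => ∑ μ ∈ T g, (μ j.castSucc + μ j.succ).toNat)
        (fun _ _ => Nat.zero_le _) hg
    have h3 := Int.self_le_toNat (μ j.castSucc + μ j.succ)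
    omega
  · rw [Ideal.span_le]
    intro g hg
    exact hg.1

theorem starI [Fintype κ] (I : Ideal (S M κ)) (hI : BIdeal I) (j : Fin M) :
    ∃ d0 : ℕ, ∀ (ν : Wt M) (a : ℕ), (a : ℤ) + d0 ≤ ν j.castSucc - ν j.succ →
      ∀ z ∈ I, z ∈ gr M κ ν → ∃ y ∈ I, y ∈ gr M κ (ν - (a : ℤ) • al j) ∧ (EL j ^ a) y = z := by
  classical
  obtain ⟨d0, hd0⟩ := exists_hom_gens I hI j
  refine ⟨d0, ?_⟩
  let T : Wt M → ℕ → Submodule ℚ (S M κ) := fun ν a =>
    ((I.restrictScalars ℚ) ⊓ gr M κ (ν - (a : ℤ) • al j)).map (EL j ^ a)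
  have claim : ∀ n : ℕ, ∀ g ∈ I, ∀ μ : Wt M, g ∈ gr M κ μ → μ j.succ < n →
      μ j.castSucc + μ j.succ ≤ d0 → ∀ (ν : Wt M) (a : ℕ),
      (a : ℤ) + d0 ≤ ν j.castSucc - ν j.succ → ∀ c ∈ gr M κ (ν - μ), c * g ∈ T ν a := by
    intro n
    induction n with
    | zero =>
      intro g _ μ hg hn _ ν a _ c _
      have hb := gr_eq_bot (M := M) (κ := κ) μ j.succ (by simpa using hn)
      rw [hb, Submodule.mem_bot] at hg
      rw [hg, mul_zero]
      exact Submodule.zero_mem _
    | succ n ih =>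
      intro g hgI μ hg hn hd ν a ha c hc
      by_cases hs : μ j.succ < 0
      · have hb := gr_eq_bot (M := M) (κ := κ) μ j.succ hs
        rw [hb, Submodule.mem_bot] at hg
        rw [hg, mul_zero]
        exact Submodule.zero_mem _
      push Not at hs
      obtain ⟨c', hc', hcc⟩ := surjS j (ν - μ) a (by
        simp only [Pi.sub_apply]; linarith) c hc
      have h1 : (EL j ^ a) (c' * g) ∈ T ν a := by
        refine Submodule.mem_map_of_mem ⟨I.mul_mem_left _ hgI, ?_⟩
        have := mul_mem_gr hc' hg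
        rwa [show ν - μ - (a : ℤ) • al j + μ = ν - (a : ℤ) • al j by abel] at this
      have h2 := leib_span j a c' g (T ν a) (fun p q hpq hq => by
        apply ih _ (hI.pow j q g hgI) (μ + (q : ℤ) • al j) (powEL_mem j q μ g hg)
        · simp only [Pi.add_apply, Pi.smul_apply, al_s, smul_eq_mul]
          push_cast at hn
          have : (1 : ℤ) ≤ q := by exact_mod_cast hq
          linarith
        · simp only [Pi.add_apply, Pi.smul_apply, al_s, al_cs, smul_eq_mul]
          linarith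
        · exact ha
        · have := powEL_mem j p _ c' hc'
          rwa [show ν - μ - (a : ℤ) • al j + (p : ℤ) • al j = ν - (μ + (q : ℤ) • al j) by
            rw [← hpq]; push_cast; rw [add_smul]; abel] at this)
      have h3 : c * g = (EL j ^ a) (c' * g) - ((EL j ^ a) (c' * g) - (EL j ^ a) c' * g) := by
        rw [hcc]; ring
      rw [h3]
      exact Submodule.sub_mem _ h1 h2
  have key : ∀ z ∈ I, ∀ (c : S M κ) (ν : Wt M) (a : ℕ),
      (a : ℤ) + d0 ≤ ν j.castSucc - ν j.succ → cmp ν (c * z) ∈ T ν a := by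
    intro z hz
    rw [hd0] at hz
    refine Submodule.span_induction (p := fun z _ => ∀ (c : S M κ) (ν : Wt M) (a : ℕ),
      (a : ℤ) + d0 ≤ ν j.castSucc - ν j.succ → cmp ν (c * z) ∈ T ν a) ?_ ?_ ?_ ?_ hz
    · rintro g ⟨hgI, μ, hg, hd⟩ c ν a ha
      rw [cmp_mul_of_mem hg]
      exact claim ((μ j.succ).toNat + 1) g hgI μ hg (by
        push_cast
        have := Int.self_le_toNat (μ j.succ)
        omega) hd ν a ha _ (cmp_mem _ _)
    · intro c ν a _
      rw [mul_zero, map_zero]
      exact Submodule.zero_mem _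
    · intro x y _ _ hx hy c ν a ha
      rw [mul_add, map_add]
      exact Submodule.add_mem _ (hx c ν a ha) (hy c ν a ha)
    · intro r x _ hx c ν a ha
      rw [smul_eq_mul, ← mul_assoc]
      exact hx (c * r) ν a ha
  intro ν a ha z hz hzν
  have h := key z hz 1 ν a ha
  rw [one_mul, cmp_same hzν] at h
  obtain ⟨y, ⟨hy1, hy2⟩, hyz⟩ := h
  exact ⟨y, hy1, hy2, hyz⟩

end Pool.Agent.U346
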