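import Pool.Agent.U346.Pos

set_option autoImplicit false

namespace Pool.Agent.U346

open MvPolynomial Module

/-- The class of polynomials obtained from the products of initial variables by products and
divided differences. -/
inductive KK (N : ℕ) : MvPolynomial (Fin N) ℤ → Prop
  | e (k : ℕ) (hk : k ≤ N) :
      KK N (∏ r ∈ Finset.univ.filter (fun r : Fin N => r.val < k), X r)
  | mul (f g : MvPolynomial (Fin N) ℤ) : KK N f → KK N g → KK N (f * g)
  | dd (i j : Fin N) (hij : j.val = i.val + 1) (f g : MvPolynomial (Fin N) ℤ)
      (hg : (X i - X j) * g = f - rename (Equiv.swap i j) f) : KK N f → KK N g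

theorem KK_Bb {M : ℕ} {f : MvPolynomial (Fin (M + 1)) ℤ} (h : KK (M + 1) f) :
    f = 0 ∨ ∃ c, Bb f c := by
  induction h with
  | e k hk => exact Or.inr (Bb_e k hk)
  | mul f g _ _ ihf ihg =>
    rcases ihf with h0 | ⟨a, ha⟩
    · left; rw [h0, zero_mul]
    · rcases ihg with h0 | ⟨b, hb⟩
      · left; rw [h0, mul_zero]
      · right; exact ⟨_, Bb_mul ha hb⟩
  | dd i j hij f g hg _ ih =>
    have hne : i ≠ j := by
      intro h
      rw [h] at hij
      omega
    have hL0 : (X i - X j : MvPolynomial (Fin (M + 1)) ℤ) ≠ 0 := by
      rw [sub_ne_zero]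
      intro h
      exact hne (X_injective h)
    rcases ih with h0 | ⟨c, hc⟩
    · left
      rw [h0, map_zero, sub_zero] at hg
      exact (mul_eq_zero.1 hg).resolve_left hL0
    · cases c with
      | zero =>
        left
        have h1 : f = C (coeff 0 f) := by
          have := hc.1
          exact (totalDegree_eq_zero_iff_eq_C).1
            (le_antisymm this.totalDegree_le (Nat.zero_le _))
        rw [h1, rename_C, sub_self] at hg
        exact (mul_eq_zero.1 hg).resolve_left hL0
      | succ c =>
        right
        have hjM : j.val < M + 1 := j.isLt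
        let i' : Fin M := ⟨i.val, by omega⟩
        have e1 : i'.castSucc = i := Fin.ext rfl
        have e2 : i'.succ = j := Fin.ext (by rw [Fin.val_succ]; exact hij.symm)
        refine ⟨c, Bb_dd i' hc ?_⟩
        rw [e1, e2]
        exact hg

/-- Positivity of the constant term on the class `KK`. -/
theorem thmP {N : ℕ} {f : MvPolynomial (Fin N) ℤ} (h : KK N f) : 0 ≤ constantCoeff f := by
  cases N with
  | zero =>
    induction h with
    | e k hk => simp
    | mul f g _ _ ihf ihg => rw [map_mul]; exact mul_nonneg ihf ihg
    | dd i j hij f g hg _ ih => exact i.elim0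
  | succ M =>
    rcases KK_Bb h with h0 | ⟨c, hc⟩
    · rw [h0, map_zero]
    · exact Bb_nonneg hc

end Pool.Agent.U346
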