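import Pool.Agent.U346.Conv

set_option autoImplicit false

namespace Pool.Agent.U346

open MvPolynomial Module

variable {M : ℕ}

/-- The generators of the ideal of the first `k` variables. -/
def VG (M k : ℕ) : Set (S M Unit) := {x | ∃ r : Fin (M + 1), r.val < k ∧ x = X (r, ())}

/-- The ideal of the first `k` variables. -/
noncomputable def IV (M k : ℕ) : Ideal (S M Unit) := Ideal.span (VG M k)

theorem IV_B (k : ℕ) : BIdeal (IV M k) := by
  apply BIdeal_span
  · rintro g ⟨r, _, rfl⟩
    exact ⟨_, X_mem_gr _⟩
  · rintro j g ⟨r, hr, rfl⟩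
    rw [E_X]
    split_ifs with h
    · apply Ideal.subset_span
      refine ⟨j.castSucc, ?_, rfl⟩
      have h' : r = j.succ := h
      rw [h'] at hr
      simp only [Fin.val_succ, Fin.val_castSucc] at hr ⊢
      omega
    · exact Ideal.zero_mem _

theorem IV_MB (k : ℕ) : MB (IV M k) (Subtype.val :
    {d : (Fin (M + 1) × Unit) →₀ ℕ // ∀ r : Fin (M + 1), r.val < k → d (r, ()) = 0} → _) := by
  classical
  refine ⟨Subtype.val_injective, ?_, ?_⟩
  · let ρ : S M Unit →ₐ[ℚ] S M Unit := aeval (fun p => if p.1.val < k then 0 else X p)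
    have hker : ∀ x ∈ IV M k, ρ x = 0 := by
      intro x hx
      have : IV M k ≤ RingHom.ker ρ := by
        unfold IV
        rw [Ideal.span_le]
        rintro g ⟨r, hr, rfl⟩
        show ρ _ = 0
        show aeval _ (X (r, ())) = 0
        rw [aeval_X, if_pos hr]
      exact this hx
    apply LinearIndependent.of_comp (Ideal.Quotient.liftₐ (IV M k) ρ hker).toLinearMap
    have e : (⇑(Ideal.Quotient.liftₐ (IV M k) ρ hker).toLinearMap ∘
        (fun b : {d : (Fin (M + 1) × Unit) →₀ ℕ // ∀ r : Fin (M + 1), r.val < k → d (r, ()) = 0} =>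
          Ideal.Quotient.mk (IV M k) (monomial b.1 (1 : ℚ)))) =
        (fun d => monomial d (1 : ℚ)) ∘ Subtype.val := by
      funext b
      rw [Function.comp_apply]
      show ρ (monomial b.1 (1 : ℚ)) = monomial b.1 (1 : ℚ)
      show aeval _ _ = _
      rw [aeval_monomial, map_one, one_mul]
      have h2 : (monomial b.1 (1 : ℚ) : S M Unit) = b.1.prod (fun p n => X p ^ n) := by
        rw [monomial_eq, map_one, one_mul]
      rw [h2]
      refine Finsupp.prod_congr fun p hp => ?_
      rw [if_neg]
      intro h3
      exact (Finsupp.mem_support_iff.1 hp) (b.2 p.1 h3)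
    rw [e]
    apply LinearIndependent.comp _ _ Subtype.val_injective
    have := (basisMonomials (Fin (M + 1) × Unit) ℚ).linearIndependent
    rwa [coe_basisMonomials] at this
  · intro f
    have key : f ∈ (IV M k).restrictScalars ℚ ⊔ Submodule.span ℚ (Set.range
        (fun b : {d : (Fin (M + 1) × Unit) →₀ ℕ // ∀ r : Fin (M + 1), r.val < k → d (r, ()) = 0} =>
          (monomial b.1 (1 : ℚ) : S M Unit))) := by
      rw [f.as_sum]
      refine Submodule.sum_mem _ fun d _ => ?_
      have : (monomial d (coeff d f) : S M Unit) = coeff d f • monomial d (1 : ℚ) := by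
        rw [smul_monomial, smul_eq_mul, mul_one]
      rw [this]
      apply Submodule.smul_mem
      by_cases hd : ∀ r : Fin (M + 1), r.val < k → d (r, ()) = 0
      · exact Submodule.mem_sup_right (Submodule.subset_span ⟨⟨d, hd⟩, rfl⟩)
      · push Not at hd
        obtain ⟨r, hr, hdr⟩ := hd
        apply Submodule.mem_sup_left
        show _ ∈ IV M k
        have h1 : (monomial d (1 : ℚ) : S M Unit) =
            monomial (d - Finsupp.single (r, ()) 1) 1 * X (r, ()) := by
          rw [X, monomial_mul, one_mul, tsub_add_cancel_of_le]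
          rw [Finsupp.single_le_iff]
          omega
        rw [h1]
        exact Ideal.mul_mem_left _ _ (Ideal.subset_span ⟨r, hr, rfl⟩)
    obtain ⟨x, hx, y, hy, hxy⟩ := Submodule.mem_sup.1 key
    obtain ⟨c, hc⟩ := Finsupp.mem_span_range_iff_exists_finsupp.1 hy
    refine ⟨c, ?_⟩
    rw [hc, ← hxy, add_sub_cancel_right]
    exact hx

theorem weight_unit (d : (Fin (M + 1) × Unit) →₀ ℕ) (r : Fin (M + 1)) :
    Finsupp.weight (w (M := M)) d r = d (r, ()) := by
  classical
  rw [Finsupp.weight_apply, Finsupp.sum_fintype _ _ (by simp), Finset.sum_apply,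
    Fintype.sum_prod_type]
  simp only [Finset.univ_unique, Finset.sum_singleton, Pi.smul_apply]
  rw [Finset.sum_eq_single r]
  · unfold w; simp
  · intro b _ hb
    unfold w
    simp only
    rw [Pi.single_eq_of_ne (Ne.symm hb)]
    simp
  · intro h; exact absurd (Finset.mem_univ r) h

theorem hF_IV (k : ℕ) (m : Fin (M + 1) →₀ ℕ) :
    MvPowerSeries.coeff m (ofFun (hF (IV M k))) =
      if ∀ r : Fin (M + 1), r.val < k → m r = 0 then 1 else 0 := by
  classical
  rw [coeff_ofFun, (IV_MB k).dim (IV_B k)]
  split_ifs with h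
  · have : Nat.card {b : {d : (Fin (M + 1) × Unit) →₀ ℕ //
        ∀ r : Fin (M + 1), r.val < k → d (r, ()) = 0} //
        Finsupp.weight (w (M := M)) b.1 = toWt m} = 1 := by
      rw [Nat.card_eq_one_iff_unique]
      constructor
      · constructor
        rintro ⟨⟨d, hd⟩, hdm⟩ ⟨⟨d', hd'⟩, hdm'⟩
        have : d = d' := by
          ext ⟨r, u⟩
          have h1 := congrFun (hdm.trans hdm'.symm) r
          have h2 : Finsupp.weight (w (M := M)) d r = Finsupp.weight (w (M := M)) d' r := h1
          rw [weight_unit, weight_unit] at h2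
          exact_mod_cast h2
        subst this
        rfl
      · refine ⟨⟨⟨Finsupp.equivFunOnFinite.symm (fun p => m p.1), ?_⟩, ?_⟩⟩
        · intro r hr
          rw [Finsupp.equivFunOnFinite_symm_apply_apply]
          exact h r hr
        · funext r
          show Finsupp.weight (w (M := M)) (Finsupp.equivFunOnFinite.symm (fun p => m p.1)) r = _
          rw [weight_unit, Finsupp.equivFunOnFinite_symm_apply_apply]
          rfl
    rw [this]; rfl
  · have : IsEmpty {b : {d : (Fin (M + 1) × Unit) →₀ ℕ //
        ∀ r : Fin (M + 1), r.val < k → d (r, ()) = 0} //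
        Finsupp.weight (w (M := M)) b.1 = toWt m} := by
      constructor
      rintro ⟨⟨d, hd⟩, hdm⟩
      apply h
      intro r hr
      have h1 := congrFun hdm r
      have h2 : Finsupp.weight (w (M := M)) d r = toWt m r := h1
      rw [weight_unit, hd r hr] at h2
      unfold toWt at h2
      exact_mod_cast h2.symm
    rw [Nat.card_of_isEmpty]; rfl

theorem IV_step (k : Fin (M + 1)) :
    (1 - MvPowerSeries.X k) * ofFun (hF (IV M k.val)) = ofFun (hF (IV M (k.val + 1))) := by
  classical
  ext m
  rw [sub_mul, one_mul, map_sub, MvPowerSeries.X, MvPowerSeries.coeff_monomial_mul, hF_IV, hF_IV,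
    hF_IV]
  by_cases h : ∀ r : Fin (M + 1), r.val < k.val → m r = 0
  · rw [if_pos h]
    by_cases hk : m k = 0
    · rw [if_neg, if_pos]
      · rfl
      · intro r hr
        by_cases hrk : r = k
        · rw [hrk]; exact hk
        · apply h
          have : r.val ≠ k.val := fun h' => hrk (Fin.ext h')
          omega
      · rw [Finsupp.single_le_iff]; omega
    · rw [if_pos, if_pos, if_neg]
      · norm_num
      · intro h2
        exact hk (h2 k (by omega))
      · intro r hr
        rw [Finsupp.tsub_apply, h r hr, zero_tsub]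
      · rw [Finsupp.single_le_iff]; omega
  · have h6 : ¬ (∀ r : Fin (M + 1), r.val < k.val + 1 → m r = 0) :=
      fun h2 => h (fun r hr => h2 r (by omega))
    have h7 : ¬ (∀ r : Fin (M + 1), r.val < k.val → (m - Finsupp.single k 1 : Fin (M + 1) →₀ ℕ) r = 0) := by
      intro h4
      apply h
      intro r hr
      have := h4 r hr
      rw [Finsupp.tsub_apply, Finsupp.single_eq_of_ne (fun h5 => by
        rw [h5] at hr; exact lt_irrefl _ hr), tsub_zero] at this
      exact this
    rw [if_neg h, if_neg h6, if_neg h7, mul_zero, ite_self, sub_self]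

theorem IV_top : ofFun (hF (IV M (M + 1))) = 1 := by
  classical
  ext m
  rw [hF_IV, MvPowerSeries.coeff_one]
  congr 1
  rw [eq_iff_iff]
  constructor
  · intro h
    ext r
    exact h r r.isLt
  · rintro rfl r _
    rfl

theorem one_sub_X_ne (k : Fin (M + 1)) :
    (1 - MvPowerSeries.X k : MvPowerSeries (Fin (M + 1)) ℤ) ≠ 0 := by
  intro h
  have := congrArg (MvPowerSeries.coeff 0) h
  rw [map_sub, MvPowerSeries.coeff_zero_X, MvPowerSeries.coeff_zero_one, map_zero] at this
  norm_num at this

theorem IV_series (k : ℕ) (hk : k ≤ M + 1) :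
    ofFun (hF (IV M k)) * ∏ r : Fin (M + 1), (1 - MvPowerSeries.X r) =
      ∏ r ∈ Finset.univ.filter (fun r : Fin (M + 1) => r.val < k), (1 - MvPowerSeries.X r) := by
  classical
  obtain ⟨l, hl⟩ : ∃ l, k + l = M + 1 := ⟨M + 1 - k, by omega⟩
  induction l generalizing k with
  | zero =>
    have : k = M + 1 := by omega
    subst this
    rw [IV_top, one_mul, Finset.filter_true_of_mem]
    intro r _
    exact r.isLt
  | succ l ih =>
    have h1 := ih (k + 1) (by omega) (by omega)
    let k' : Fin (M + 1) := ⟨k, by omega⟩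
    have h2 := IV_step k'
    have h3 : Finset.univ.filter (fun r : Fin (M + 1) => r.val < k + 1) =
        insert k' (Finset.univ.filter (fun r : Fin (M + 1) => r.val < k)) := by
      ext r
      simp only [Finset.mem_filter, Finset.mem_univ, true_and, Finset.mem_insert]
      constructor
      · intro h
        by_cases hr : r.val = k
        · left; exact Fin.ext hr
        · right; omega
      · rintro (h | h)
        · rw [h]; show k < k + 1; omega
        · omega
    rw [h3, Finset.prod_insert (by simp [k'])] at h1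
    have h4 : ofFun (hF (IV M (k + 1))) = (1 - MvPowerSeries.X k') * ofFun (hF (IV M k)) := h2.symm
    rw [h4, mul_assoc] at h1
    exact mul_left_cancel₀ (one_sub_X_ne k') h1

end Pool.Agent.U346
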