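import Pool.Agent.U346.Star

set_option autoImplicit false

namespace Pool.Agent.U346

open MvPolynomial Module

variable {M : ℕ} {κ : Type}

/-- Sequences of polynomials; `f` stands for `∑ f k s ^ (d - k) t ^ k`. -/
abbrev W (M : ℕ) (κ : Type) := ℕ → S M κ

/-- The shift of weights for the coefficient of `s ^ (d - k) t ^ k`. -/
def sh {M : ℕ} (j : Fin M) (d k : ℕ) : Wt M :=
  (d : ℤ) • Pi.single j.succ 1 + ((d : ℤ) - k) • al j

/-- The weight spaces of degree `d` in `s, t`. -/
def Vd (M : ℕ) (κ : Type) (j : Fin M) (d : ℕ) (μ : Wt M) : Submodule ℚ (W M κ) where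
  carrier := {f | (∀ k ≤ d, f k ∈ gr M κ (μ - sh j d k)) ∧ ∀ k, d < k → f k = 0}
  add_mem' := by
    rintro f g ⟨h1, h2⟩ ⟨h3, h4⟩
    refine ⟨fun k hk => Submodule.add_mem _ (h1 k hk) (h3 k hk), fun k hk => ?_⟩
    rw [Pi.add_apply, h2 k hk, h4 k hk, add_zero]
  zero_mem' := ⟨fun k _ => Submodule.zero_mem _, fun k _ => rfl⟩
  smul_mem' := by
    rintro c f ⟨h1, h2⟩
    refine ⟨fun k hk => Submodule.smul_mem _ _ (h1 k hk), fun k hk => ?_⟩
    rw [Pi.smul_apply, h2 k hk, smul_zero]

theorem mem_Vd {j : Fin M} {d : ℕ} {μ : Wt M} {f : W M κ} :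
    f ∈ Vd M κ j d μ ↔ (∀ k ≤ d, f k ∈ gr M κ (μ - sh j d k)) ∧ ∀ k, d < k → f k = 0 := Iff.rfl

/-- The raising operators. -/
noncomputable def EE (j i : Fin M) : W M κ →ₗ[ℚ] W M κ where
  toFun f := fun k => E i (f k) + (if i = j then ((k : ℚ) + 1) else 0) • f (k + 1)
  map_add' f g := by
    funext k
    simp only [Pi.add_apply, map_add, smul_add]
    abel
  map_smul' c f := by
    funext k
    simp only [Pi.smul_apply, Derivation.map_smul, RingHom.id_apply, smul_add]
    rw [smul_comm]

/-- The lowering operator. -/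
noncomputable def FF (j : Fin M) (d : ℕ) : W M κ →ₗ[ℚ] W M κ where
  toFun f := fun k => F j (f k) + (if k = 0 then 0 else ((d : ℚ) - k + 1)) • f (k - 1)
  map_add' f g := by
    funext k
    simp only [Pi.add_apply, map_add, smul_add]
    abel
  map_smul' c f := by
    funext k
    simp only [Pi.smul_apply, Derivation.map_smul, RingHom.id_apply, smul_add]
    rw [smul_comm]

theorem EE_apply (j i : Fin M) (f : W M κ) (k : ℕ) :
    EE j i f k = E i (f k) + (if i = j then ((k : ℚ) + 1) else 0) • f (k + 1) := rfl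

theorem FF_apply (j : Fin M) (d : ℕ) (f : W M κ) (k : ℕ) :
    FF j d f k = F j (f k) + (if k = 0 then 0 else ((d : ℚ) - k + 1)) • f (k - 1) := rfl

theorem EE_smul (j i : Fin M) (g : S M κ) (f : W M κ) :
    EE j i (g • f) = E i g • f + g • EE j i f := by
  funext k
  simp only [EE_apply, Pi.add_apply, Pi.smul_apply, smul_eq_mul, Derivation.leibniz]
  rw [mul_add, mul_smul_comm]
  ring

theorem FF_smul (j : Fin M) (d : ℕ) (g : S M κ) (f : W M κ) :
    FF j d (g • f) = F j g • f + g • FF j d f := by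
  funext k
  simp only [FF_apply, Pi.add_apply, Pi.smul_apply, smul_eq_mul, Derivation.leibniz]
  rw [mul_add, mul_smul_comm]
  ring

theorem EE_FF_diff (j i : Fin M) (hij : i ≠ j) (d : ℕ) (f : W M κ) :
    EE j i (FF j d f) = FF j d (EE j i f) := by
  funext k
  simp only [EE_apply, FF_apply, if_neg hij, zero_smul, add_zero, map_add, Derivation.map_smul]
  rw [EF_diff j i hij.symm]

theorem EE_FF_same (j : Fin M) (d : ℕ) (f : W M κ) (k : ℕ) :
    EE j j (FF j d f) k - FF j d (EE j j f) k =
      (E j (F j (f k)) - F j (E j (f k))) + ((d : ℚ) - 2 * k) • f k := by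
  simp only [EE_apply, FF_apply, if_true, map_add, Derivation.map_smul]
  cases k with
  | zero =>
    simp only [if_true, zero_smul, add_zero, Nat.cast_zero, zero_add, Nat.add_eq_zero_iff, one_ne_zero,
      and_false, if_false, Nat.add_sub_cancel, Nat.cast_one]
    module
  | succ k =>
    simp only [Nat.add_eq_zero_iff, one_ne_zero, and_false, if_false, Nat.add_sub_cancel,
      Nat.cast_add, Nat.cast_one]
    module

theorem sh_succ (j : Fin M) (d k : ℕ) : sh j d k = sh j d (k + 1) + al j := by
  unfold sh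
  push_cast
  module

theorem EE_mem (j i : Fin M) (d : ℕ) (μ : Wt M) (f : W M κ) (hf : f ∈ Vd M κ j d μ) :
    EE j i f ∈ Vd M κ j d (μ + al i) := by
  obtain ⟨h1, h2⟩ := hf
  refine ⟨fun k hk => ?_, fun k hk => ?_⟩
  · rw [EE_apply]
    refine Submodule.add_mem _ ?_ ?_
    · have := E_mem i _ _ (h1 k hk)
      rwa [show μ - sh j d k + al i = μ + al i - sh j d k by abel] at this
    · by_cases hij : i = j
      · subst hij
        by_cases hk2 : k + 1 ≤ d
        · apply Submodule.smul_mem
          have := h1 (k + 1) hk2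
          rwa [show μ - sh i d (k + 1) = μ + al i - sh i d k by rw [sh_succ i d k]; abel] at this
        · rw [h2 (k + 1) (by omega), smul_zero]
          exact Submodule.zero_mem _
      · rw [if_neg hij, zero_smul]
        exact Submodule.zero_mem _
  · rw [EE_apply, h2 k hk, h2 (k + 1) (by omega), map_zero, smul_zero, add_zero]

theorem FF_mem (j : Fin M) (d : ℕ) (μ : Wt M) (f : W M κ) (hf : f ∈ Vd M κ j d μ) :
    FF j d f ∈ Vd M κ j d (μ - al j) := by
  obtain ⟨h1, h2⟩ := hf
  refine ⟨fun k hk => ?_, fun k hk => ?_⟩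
  · rw [FF_apply]
    refine Submodule.add_mem _ ?_ ?_
    · have := F_mem j _ _ (h1 k hk)
      rwa [show μ - sh j d k - al j = μ - al j - sh j d k by abel] at this
    · cases k with
      | zero => simp
      | succ k =>
        apply Submodule.smul_mem
        have := h1 k (by omega)
        rw [Nat.add_sub_cancel]
        rwa [show μ - sh j d k = μ - al j - sh j d (k + 1) by rw [sh_succ j d k]; abel] at this
  · rw [FF_apply, h2 k hk, map_zero, zero_add]
    by_cases hk2 : k = d + 1
    · subst hk2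
      simp
    · rw [h2 (k - 1) (by omega), smul_zero]

/-- The subspace of sequences vanishing beyond `d`. -/
def Wd (M : ℕ) (κ : Type) (d : ℕ) : Submodule (S M κ) (W M κ) where
  carrier := {f | ∀ k, d < k → f k = 0}
  add_mem' := by
    intro f g hf hg k hk
    rw [Pi.add_apply, hf k hk, hg k hk, add_zero]
  zero_mem' := fun k _ => rfl
  smul_mem' := by
    intro c f hf k hk
    rw [Pi.smul_apply, hf k hk, smul_zero]

theorem mem_Wd {d : ℕ} {f : W M κ} : f ∈ Wd M κ d ↔ ∀ k, d < k → f k = 0 := Iff.rfl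

theorem Vd_le (j : Fin M) (d : ℕ) (μ : Wt M) (f : W M κ) (hf : f ∈ Vd M κ j d μ) :
    f ∈ Wd M κ d := hf.2

instance noeth_Wd [Fintype κ] (d : ℕ) : IsNoetherian (S M κ) (Wd M κ d) := by
  let φ : Wd M κ d →ₗ[S M κ] (Fin (d + 1) → S M κ) :=
    { toFun := fun f k => f.1 k
      map_add' := fun f g => rfl
      map_smul' := fun c f => rfl }
  apply isNoetherian_of_injective φ
  intro f g hfg
  apply Subtype.ext
  funext k
  by_cases hk : k ≤ d
  · exact congrFun hfg ⟨k, by omega⟩
  · rw [f.2 k (by omega), g.2 k (by omega)]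

instance fin_Vd [Fintype κ] (j : Fin M) (d : ℕ) (μ : Wt M) :
    FiniteDimensional ℚ (Vd M κ j d μ) := by
  let φ : Vd M κ j d μ →ₗ[ℚ] ((k : Fin (d + 1)) → gr M κ (μ - sh j d k)) :=
    { toFun := fun f k => ⟨f.1 k, f.2.1 k (by omega)⟩
      map_add' := fun f g => rfl
      map_smul' := fun c f => rfl }
  apply FiniteDimensional.of_injective φ
  intro f g hfg
  apply Subtype.ext
  funext k
  by_cases hk : k ≤ d
  · have := congrFun hfg ⟨k, by omega⟩
    exact congrArg Subtype.val this
  · rw [f.2.2 k (by omega), g.2.2 k (by omega)]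

theorem Vd_eq_bot [Fintype κ] (j : Fin M) (d : ℕ) (μ : Wt M) (r : Fin (M + 1)) (hr : μ r < 0) :
    Vd M κ j d μ = ⊥ := by
  rw [eq_bot_iff]
  intro f hf
  rw [Submodule.mem_bot]
  funext k
  by_cases hk : k ≤ d
  · have h := hf.1 k hk
    rw [gr_eq_bot _ r, Submodule.mem_bot] at h
    · rw [h]; rfl
    · have h1 : 0 ≤ sh j d k r := by
        have e : sh j d k = (k : ℤ) • Pi.single j.succ 1 + ((d : ℤ) - k) • Pi.single j.castSucc 1 := by
          unfold sh al
          module
        rw [e, Pi.add_apply, Pi.smul_apply, Pi.smul_apply]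
        have h2 : (0 : ℤ) ≤ (Pi.single j.succ 1 : Wt M) r := by
          by_cases h : r = j.succ
          · rw [h]; simp
          · rw [Pi.single_eq_of_ne h]
        have h3 : (0 : ℤ) ≤ (Pi.single j.castSucc 1 : Wt M) r := by
          by_cases h : r = j.castSucc
          · rw [h]; simp
          · rw [Pi.single_eq_of_ne h]
        have h4 : (0 : ℤ) ≤ (d : ℤ) - k := by
          have : (k : ℤ) ≤ d := by exact_mod_cast hk
          linarith
        rw [smul_eq_mul, smul_eq_mul]
        positivity
      rw [Pi.sub_apply]; linarith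
  · rw [hf.2 k (by omega)]; rfl

/-- The `sl2` structure on sequences. -/
noncomputable def sW [Fintype κ] (j : Fin M) (d : ℕ) (μ : Wt M) : Sl2 (W M κ) where
  E := EE j j
  F := FF j d
  V := fun k => Vd M κ j d (μ + k • al j)
  c := μ j.castSucc - μ j.succ
  hE := fun k x hx => by
    have := EE_mem j j d _ x hx
    rwa [show μ + k • al j + al j = μ + (k + 1) • al j by rw [add_smul, one_smul]; abel] at this
  hF := fun k x hx => by
    have := FF_mem j d _ x hx
    rwa [show μ + k • al j - al j = μ + (k - 1) • al j by rw [sub_smul, one_smul]; abel] at this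
  hEF := fun k x hx => by
    funext l
    rw [Pi.sub_apply, EE_FF_same, Pi.smul_apply]
    by_cases hl : l ≤ d
    · have := EF_same j _ _ (hx.1 l hl)
      rw [this, ← add_smul]
      congr 1
      have h1 : sh j d l j.castSucc = (d : ℤ) - l := by
        unfold sh
        rw [Pi.add_apply, Pi.smul_apply, Pi.smul_apply, al_cs, Pi.single_eq_of_ne (cs_ne_s j)]
        simp
      have h2 : sh j d l j.succ = l := by
        unfold sh
        rw [Pi.add_apply, Pi.smul_apply, Pi.smul_apply, al_s, Pi.single_eq_same]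
        simp
      simp only [Pi.sub_apply, Pi.add_apply, Pi.smul_apply, al_cs, al_s, h1, h2, smul_eq_mul]
      push_cast
      ring
    · rw [hx.2 l (by omega)]
      simp
  bdd := by
    refine ⟨(μ j.castSucc).natAbs + (μ j.succ).natAbs, fun k hk => ?_⟩
    rcases lt_abs.1 hk with h | h
    · apply Vd_eq_bot _ _ _ j.succ
      simp only [Pi.add_apply, Pi.smul_apply, al_s, smul_eq_mul]
      push_cast at h
      have := le_abs_self (μ j.succ)
      have := abs_nonneg (μ j.castSucc)
      linarith
    · apply Vd_eq_bot _ _ _ j.castSucc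
      simp only [Pi.add_apply, Pi.smul_apply, al_cs, smul_eq_mul]
      push_cast at h
      have := le_abs_self (μ j.castSucc)
      have := abs_nonneg (μ j.succ)
      linarith
  fin := fun k => fin_Vd _ _ _

theorem Vd_down (j : Fin M) (d : ℕ) (μ : Wt M) (f : W M κ) (hf : f ∈ Vd M κ j (d + 1) μ)
    (h0 : f (d + 1) = 0) : f ∈ Vd M κ j d (μ - Pi.single j.castSucc 1) := by
  obtain ⟨h1, h2⟩ := hf
  refine ⟨fun k hk => ?_, fun k hk => ?_⟩
  · have := h1 k (by omega)
    rwa [show μ - sh j (d + 1) k = μ - Pi.single j.castSucc 1 - sh j d k by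
      unfold sh al; push_cast; module] at this
  · by_cases hk2 : k = d + 1
    · rw [hk2, h0]
    · exact h2 k (by omega)

theorem Vd_up (j : Fin M) (d : ℕ) (μ : Wt M) (f : W M κ)
    (hf : f ∈ Vd M κ j d (μ - Pi.single j.castSucc 1)) : f ∈ Vd M κ j (d + 1) μ := by
  obtain ⟨h1, h2⟩ := hf
  refine ⟨fun k hk => ?_, fun k hk => h2 k (by omega)⟩
  by_cases hk2 : k ≤ d
  · have := h1 k hk2
    rwa [show μ - Pi.single j.castSucc 1 - sh j d k = μ - sh j (d + 1) k by
      unfold sh al; push_cast; module] at this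
  · rw [h2 k (by omega)]
    exact Submodule.zero_mem _

end Pool.Agent.U346
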